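import Pool.Agent.Helper73.BL.Stm

set_option autoImplicit false

/-!
# Module A: the measure of the set of small gradient from a nonsingular minor
-/

namespace Pool.Agent.Helper73.BL

open MeasureTheory Metric

section A

variable {d k ρ : ℕ}

theorem lam_le {v₀ : Fin d → ℝ} {ϱ A : ℝ} (hA : 1 ≤ A) {N : ℕ} (hN : 1 ≤ N) {a : ℝ}
    (haA : a ≤ A) {n : Fin d → ℤ} (hn : ∀ j, |n j| ≤ (N : ℤ)) {v : Fin d → ℝ}
    (hv : v ∈ closedBall v₀ ϱ) : lam a n v ≤ (A + d * (‖v₀‖ + ϱ)) * N := by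
  unfold lam
  have h1 : ∀ j, (n j : ℝ) * v j ≤ N * (‖v₀‖ + ϱ) := by
    intro j
    have h2 : |(n j : ℝ)| ≤ N := by exact_mod_cast hn j
    have h3 : |v j| ≤ ‖v₀‖ + ϱ := by
      have h4 : ‖v‖ ≤ ‖v₀‖ + ϱ := by
        have := mem_closedBall_iff_norm.1 hv
        calc ‖v‖ = ‖v₀ + (v - v₀)‖ := by simp
          _ ≤ _ := (norm_add_le _ _).trans (by linarith)
      exact (norm_le_pi_norm v j).trans h4
    calc (n j : ℝ) * v j ≤ |(n j : ℝ) * v j| := le_abs_self _
      _ = |(n j : ℝ)| * |v j| := abs_mul _ _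
      _ ≤ _ := mul_le_mul h2 h3 (abs_nonneg _) (by positivity)
  have h5 : ∑ j, (n j : ℝ) * v j ≤ ∑ _j : Fin d, (N : ℝ) * (‖v₀‖ + ϱ) :=
    Finset.sum_le_sum fun j _ => h1 j
  rw [Finset.sum_const, Finset.card_univ, Fintype.card_fin, nsmul_eq_mul] at h5
  have h6 : (1 : ℝ) ≤ N := by exact_mod_cast hN
  nlinarith

open Matrix in
theorem solve_bound (M : Matrix (Fin ρ) (Fin ρ) ℤ) (N : ℕ) (hM : ∀ x y, |M x y| ≤ (N : ℤ))
    (hdet : M.det ≠ 0) (D : Fin ρ → ℝ) (s : ℝ) (hs : 0 < s)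
    (hD : ∀ y, |∑ x, (M x y : ℝ) * D x| ≤ s * N) (x : Fin ρ) :
    |D x| ≤ s * (Nat.factorial ρ * (N : ℝ) ^ ρ) := by
  set Mr : Matrix (Fin ρ) (Fin ρ) ℝ := (M.map (Int.cast : ℤ → ℝ))ᵀ with hMr
  have hdr : Mr.det = (M.det : ℝ) := by
    rw [hMr, Matrix.det_transpose]
    exact (Int.cast_det M).symm
  have hd1 : 1 ≤ |Mr.det| := by
    rw [hdr]
    have : (1 : ℤ) ≤ |M.det| := Int.one_le_abs hdet
    exact_mod_cast this
  set r : Fin ρ → ℝ := Mr *ᵥ D with hr
  have hry : ∀ y, r y = ∑ x, (M x y : ℝ) * D x := by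
    intro y
    rfl
  have e1 : Mr.det * D x = (Mr.updateCol x r).det := by
    rw [← Matrix.cramer_apply, Matrix.cramer_eq_adjugate_mulVec, hr, Matrix.mulVec_mulVec,
      Matrix.adjugate_mul, Matrix.smul_mulVec, Matrix.one_mulVec]
    rfl
  have e2 : r = s • (s⁻¹ • r) := by
    rw [smul_smul, mul_inv_cancel₀ hs.ne', one_smul]
  have e3 : |(Mr.updateCol x (s⁻¹ • r)).det| ≤ Nat.factorial ρ * (N : ℝ) ^ ρ := by
    have h := Matrix.det_le (A := Mr.updateCol x (s⁻¹ • r)) (abv := AbsoluteValue.abs)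
      (x := (N : ℝ)) (by
        intro i j
        rw [AbsoluteValue.abs_apply, Matrix.updateCol_apply]
        split_ifs with h
        · rw [Pi.smul_apply, smul_eq_mul, abs_mul, abs_inv, abs_of_pos hs, hry]
          rw [inv_mul_le_iff₀ hs]
          exact hD i
        · have := hM j i
          show |((M j i : ℤ) : ℝ)| ≤ N
          exact_mod_cast this)
    rw [Fintype.card_fin, nsmul_eq_mul] at h
    exact h
  have e4 : |Mr.det| * |D x| ≤ s * (Nat.factorial ρ * (N : ℝ) ^ ρ) := by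
    rw [← abs_mul, e1, e2, Matrix.det_updateCol_smul, abs_mul, abs_of_pos hs]
    exact mul_le_mul_of_nonneg_left e3 hs.le
  calc |D x| = 1 * |D x| := (one_mul _).symm
    _ ≤ |Mr.det| * |D x| := mul_le_mul_of_nonneg_right hd1 (abs_nonneg _)
    _ ≤ _ := e4

open Classical in
/-- the square matrix with the rows `n' x` at `τ x` and unit vectors elsewhere -/
noncomputable def bigM (n' : Fin ρ → Fin d → ℤ) (τ : Fin ρ → Fin d) : Matrix (Fin d) (Fin d) ℤ :=
  Matrix.of fun i t => if h : ∃ x, τ x = i then n' h.choose t else if i = t then 1 else 0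

theorem bigM_at (n' : Fin ρ → Fin d → ℤ) {τ : Fin ρ → Fin d} (hτ : Function.Injective τ)
    (x : Fin ρ) (t : Fin d) : bigM n' τ (τ x) t = n' x t := by
  have h : ∃ y, τ y = τ x := ⟨x, rfl⟩
  unfold bigM
  rw [Matrix.of_apply, dif_pos h, hτ h.choose_spec]

theorem bigM_off (n' : Fin ρ → Fin d → ℤ) {τ : Fin ρ → Fin d} {i : Fin d}
    (hi : ¬ ∃ x, τ x = i) (t : Fin d) : bigM n' τ i t = if i = t then 1 else 0 := by
  unfold bigM
  rw [Matrix.of_apply, dif_neg hi]

open Matrix in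
theorem bigM_det (n' : Fin ρ → Fin d → ℤ) {τ : Fin ρ → Fin d} (hτ : Function.Injective τ)
    (hdet : (Matrix.of fun x y => n' x (τ y)).det ≠ 0) : (bigM n' τ).det ≠ 0 := by
  classical
  intro h0
  obtain ⟨u, hu, hu0⟩ := Matrix.exists_mulVec_eq_zero_iff.2 h0
  have hoff : ∀ i, (¬ ∃ x, τ x = i) → u i = 0 := by
    intro i hi
    have h1 := congrFun hu0 i
    change ∑ t, bigM n' τ i t * u t = 0 at h1
    simp only [bigM_off n' hi, ite_mul, one_mul, zero_mul, Finset.sum_ite_eq,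
      Finset.mem_univ, if_true] at h1
    exact h1
  have hM : (Matrix.of fun x y => n' x (τ y)) *ᵥ (fun y => u (τ y)) = 0 := by
    funext x
    have h1 := congrFun hu0 (τ x)
    change ∑ t, bigM n' τ (τ x) t * u t = 0 at h1
    simp only [bigM_at n' hτ] at h1
    change ∑ y, n' x (τ y) * u (τ y) = 0
    rw [← h1]
    have h2 : ∑ y, n' x (τ y) * u (τ y) = ∑ t ∈ Finset.univ.image τ, n' x t * u t := by
      rw [Finset.sum_image fun y _ z _ h => hτ h]
    rw [h2]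
    apply Finset.sum_subset (Finset.subset_univ _)
    intro t _ ht
    rw [hoff t, mul_zero]
    rintro ⟨y, hy⟩
    exact ht (Finset.mem_image.2 ⟨y, Finset.mem_univ _, hy⟩)
  have h3 : (fun y => u (τ y)) = 0 := by
    by_contra hne
    exact hdet (Matrix.exists_mulVec_eq_zero_iff.1 ⟨_, hne, hM⟩)
  apply hu
  funext i
  by_cases hi : ∃ x, τ x = i
  · obtain ⟨x, rfl⟩ := hi
    exact congrFun h3 x
  · exact hoff i hi

theorem slab_volume (n' : Fin ρ → Fin d → ℤ) {τ : Fin ρ → Fin d} (hτ : Function.Injective τ)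
    (hdet : (Matrix.of fun x y => n' x (τ y)).det ≠ 0) (v' : Fin d → ℝ) (h ϱ : ℝ) (hh : 0 ≤ h)
    (hϱ : 0 < ϱ) :
    volume {v : Fin d → ℝ | (∀ x, |∑ j, (n' x j : ℝ) * (v j - v' j)| ≤ h) ∧
      ∀ i, |v i - v' i| ≤ 2 * ϱ} ≤ ENNReal.ofReal ((2 * h) ^ ρ * (max 1 (4 * ϱ)) ^ d) := by
  classical
  set Mt : Matrix (Fin d) (Fin d) ℝ := (bigM n' τ).map (Int.cast : ℤ → ℝ) with hMt
  have hd : Mt.det = ((bigM n' τ).det : ℝ) := (Int.cast_det _).symm
  have hd0 : (bigM n' τ).det ≠ 0 := bigM_det n' hτ hdet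
  have hd1 : 1 ≤ |Mt.det| := by
    rw [hd]
    have : (1 : ℤ) ≤ |(bigM n' τ).det| := Int.one_le_abs hd0
    exact_mod_cast this
  set f := Matrix.toLin' Mt with hf
  have hdf : LinearMap.det f = Mt.det := LinearMap.det_toLin' Mt
  have hdf0 : LinearMap.det f ≠ 0 := by
    rw [hdf]
    intro h0
    rw [h0] at hd1
    simp at hd1
    linarith
  set s : Fin d → ℝ := fun i => if ∃ x, τ x = i then h else 2 * ϱ with hs
  have hsub : {v : Fin d → ℝ | (∀ x, |∑ j, (n' x j : ℝ) * (v j - v' j)| ≤ h) ∧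
      ∀ i, |v i - v' i| ≤ 2 * ϱ} ⊆
      f ⁻¹' Set.Icc (fun i => f v' i - s i) (fun i => f v' i + s i) := by
    rintro v ⟨h1, h2⟩
    have key : ∀ i, |f v i - f v' i| ≤ s i := by
      intro i
      have e1 : f v i - f v' i = ∑ t, (bigM n' τ i t : ℝ) * (v t - v' t) := by
        rw [← Pi.sub_apply, ← map_sub]
        rfl
      rw [e1]
      by_cases hi : ∃ x, τ x = i
      · rw [hs]
        simp only [if_pos hi]
        obtain ⟨x, rfl⟩ := hi
        simp only [bigM_at n' hτ]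
        exact h1 x
      · rw [hs]
        simp only [if_neg hi]
        simp only [bigM_off n' hi]
        have e2 : ∑ t, (((if i = t then (1 : ℤ) else 0) : ℤ) : ℝ) * (v t - v' t) = v i - v' i := by
          rw [Finset.sum_eq_single i]
          · simp
          · intro t _ ht
            rw [if_neg (Ne.symm ht)]
            simp
          · intro h
            exact absurd (Finset.mem_univ i) h
        rw [e2]
        exact h2 i
    refine ⟨fun i => ?_, fun i => ?_⟩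
    · have := (abs_le.1 (key i)).1
      show f v' i - s i ≤ f v i
      linarith
    · have := (abs_le.1 (key i)).2
      show f v i ≤ f v' i + s i
      linarith
  refine (measure_mono hsub).trans ?_
  rw [Measure.addHaar_preimage_linearMap _ hdf0, Real.volume_Icc_pi]
  have e3 : ENNReal.ofReal |(LinearMap.det f)⁻¹| ≤ 1 := by
    rw [ENNReal.ofReal_le_one, abs_inv, hdf]
    exact inv_le_one_of_one_le₀ hd1
  have e4 : ∀ i, f v' i + s i - (f v' i - s i) = 2 * s i := fun i => by ring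
  simp only [e4]
  have hs0 : ∀ i, 0 ≤ 2 * s i := by
    intro i
    rw [hs]
    by_cases hi : ∃ x, τ x = i
    · simp only [if_pos hi]
      positivity
    · simp only [if_neg hi]
      positivity
  rw [← ENNReal.ofReal_prod_of_nonneg fun i _ => hs0 i]
  refine (mul_le_mul_left e3 _).trans ?_
  rw [one_mul]
  apply ENNReal.ofReal_le_ofReal
  have e5 : ∀ i, 2 * s i = if ∃ x, τ x = i then 2 * h else 4 * ϱ := by
    intro i
    rw [hs]
    by_cases hi : ∃ x, τ x = i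
    · simp only [if_pos hi]
    · simp only [if_neg hi]
      ring
  simp only [e5]
  rw [Finset.prod_ite, Finset.prod_const, Finset.prod_const]
  have e6 : (Finset.univ.filter fun i : Fin d => ∃ x, τ x = i).card = ρ := by
    have : (Finset.univ.filter fun i : Fin d => ∃ x, τ x = i) = Finset.univ.image τ := by
      ext i
      simp
    rw [this, Finset.card_image_of_injective _ hτ, Finset.card_univ, Fintype.card_fin]
  rw [e6]
  apply mul_le_mul_of_nonneg_left _ (by positivity)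
  have e7 : (Finset.univ.filter fun i : Fin d => ¬ ∃ x, τ x = i).card ≤ d := by
    refine (Finset.card_le_univ _).trans ?_
    rw [Fintype.card_fin]
  calc (4 * ϱ) ^ _ ≤ (max 1 (4 * ϱ)) ^ _ := pow_le_pow_left₀ (by positivity) (le_max_right _ _) _
    _ ≤ _ := pow_le_pow_right₀ (le_max_left _ _) e7

theorem floor_close {y y' δ : ℝ} (hδ : 0 < δ) (hy : 0 ≤ y) (hy' : 0 ≤ y')
    (h : ⌊y / δ⌋₊ = ⌊y' / δ⌋₊) : |y - y'| ≤ δ := by
  have h1 := Nat.floor_le (div_nonneg hy hδ.le)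
  have h2 := Nat.lt_floor_add_one (y / δ)
  have h3 := Nat.floor_le (div_nonneg hy' hδ.le)
  have h4 := Nat.lt_floor_add_one (y' / δ)
  rw [← h] at h3 h4
  rw [abs_le]
  have h5 : (y - y') / δ ≤ 1 := by
    rw [sub_div]
    linarith
  have h6 : (y' - y) / δ ≤ 1 := by
    rw [sub_div]
    linarith
  rw [div_le_one hδ] at h5 h6
  constructor <;> linarith

/-- one cell -/
theorem cell_sub {v₀ : Fin d → ℝ} {ϱ c A : ℝ} (hc : 0 < c) (hA : 1 ≤ A)
    {N : ℕ} (hN : 1 ≤ N) {a : ℝ} (haA : a ≤ A) {n : Fin k ⊕ Fin k → Fin d → ℤ}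
    (hadm : ∀ i, Adm (closedBall v₀ ϱ) c N a (n i)) {b : Fin ρ → Fin k ⊕ Fin k}
    (hb : Function.Injective b) {τ : Fin ρ → Fin d}
    (hdet : (Matrix.of fun x y => n (b x) (τ y)).det ≠ 0) {δ : ℝ} (hδ : 0 < δ)
    {v v' : Fin d → ℝ} (hv : v ∈ E (closedBall v₀ ϱ) a n δ)
    (hv' : v' ∈ E (closedBall v₀ ϱ) a n δ)
    (hcell : ∀ i, i ∉ Set.range b → |1 / lam a (n i) v - 1 / lam a (n i) v'| ≤ δ) (x : Fin ρ) :
    |∑ j, (n (b x) j : ℝ) * (v j - v' j)| ≤
      ((2 + 2 * k) * Nat.factorial ρ * (A + d * (‖v₀‖ + ϱ)) ^ 2) * (N : ℝ) ^ (ρ + 2) * δ := by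
  classical
  have hN1 : (1 : ℝ) ≤ N := by exact_mod_cast hN
  have hpos : ∀ i, 0 < lam a (n i) v := fun i =>
    lt_of_lt_of_le (by positivity) ((hadm i).2 v hv.1)
  have hpos' : ∀ i, 0 < lam a (n i) v' := fun i =>
    lt_of_lt_of_le (by positivity) ((hadm i).2 v' hv'.1)
  have hle : ∀ i, lam a (n i) v ≤ (A + d * (‖v₀‖ + ϱ)) * N := fun i =>
    lam_le hA hN haA (hadm i).1 hv.1
  have hle' : ∀ i, lam a (n i) v' ≤ (A + d * (‖v₀‖ + ϱ)) * N := fun i =>
    lam_le hA hN haA (hadm i).1 hv'.1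
  set D : Fin k ⊕ Fin k → ℝ := fun i => sg i * (1 / lam a (n i) v - 1 / lam a (n i) v') with hD
  have hsg : ∀ i : Fin k ⊕ Fin k, |sg i| = 1 := by
    rintro (i | i) <;> simp [sg]
  have hDJ : ∀ i, i ∉ Set.range b → |D i| ≤ δ := by
    intro i hi
    rw [hD]
    simp only
    rw [abs_mul, hsg, one_mul]
    exact hcell i hi
  have hsum : ∀ t, ∑ i, (n i t : ℝ) * D i = grad a n v t - grad a n v' t := by
    intro t
    unfold grad
    rw [← Finset.sum_sub_distrib]
    refine Finset.sum_congr rfl fun i _ => ?_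
    rw [hD]
    simp only
    ring
  have hfull : ∀ t, |∑ i, (n i t : ℝ) * D i| ≤ 2 * δ := by
    intro t
    rw [hsum]
    have h1 := abs_le.1 (hv.2 t)
    have h2 := abs_le.1 (hv'.2 t)
    rw [abs_le]
    constructor <;> linarith [h1.1, h1.2, h2.1, h2.2]
  have hrange : ∀ y, |∑ x, (n (b x) (τ y) : ℝ) * D (b x)| ≤ ((2 + 2 * k) * δ) * N := by
    intro y
    have e1 : ∑ x, (n (b x) (τ y) : ℝ) * D (b x) =
        ∑ i, (n i (τ y) : ℝ) * D i - ∑ i ∈ (Finset.univ.image b)ᶜ, (n i (τ y) : ℝ) * D i := by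
      rw [← Finset.sum_add_sum_compl (Finset.univ.image b), Finset.sum_image fun y _ z _ h => hb h]
      ring
    have e2 : |∑ i ∈ (Finset.univ.image b)ᶜ, (n i (τ y) : ℝ) * D i| ≤ 2 * k * (N * δ) := by
      refine (Finset.abs_sum_le_sum_abs _ _).trans ?_
      have e3 : ∀ i ∈ (Finset.univ.image b)ᶜ, |(n i (τ y) : ℝ) * D i| ≤ N * δ := by
        intro i hi
        rw [abs_mul]
        have h1 : |(n i (τ y) : ℝ)| ≤ N := by exact_mod_cast (hadm i).1 (τ y)
        have h2 := hDJ i (by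
          rintro ⟨x, hx⟩
          rw [Finset.mem_compl] at hi
          exact hi (Finset.mem_image.2 ⟨x, Finset.mem_univ _, hx⟩))
        exact mul_le_mul h1 h2 (abs_nonneg _) (by positivity)
      refine (Finset.sum_le_card_nsmul _ _ _ e3).trans ?_
      rw [nsmul_eq_mul]
      apply mul_le_mul_of_nonneg_right _ (by positivity)
      have e4 : ((Finset.univ.image b)ᶜ : Finset (Fin k ⊕ Fin k)).card ≤ 2 * k := by
        refine (Finset.card_le_univ _).trans ?_
        rw [Fintype.card_sum, Fintype.card_fin]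
        omega
      exact_mod_cast e4
    rw [e1]
    refine (abs_sub _ _).trans ?_
    have h3 := hfull (τ y)
    nlinarith
  have hDb : ∀ x, |D (b x)| ≤ ((2 + 2 * k) * δ) * (Nat.factorial ρ * (N : ℝ) ^ ρ) := by
    intro x
    exact solve_bound (Matrix.of fun x y => n (b x) (τ y)) N (fun x y => (hadm (b x)).1 (τ y)) hdet
      (fun x => D (b x)) ((2 + 2 * k) * δ) (by positivity) hrange x
  have e5 : ∑ j, (n (b x) j : ℝ) * (v j - v' j) = lam a (n (b x)) v - lam a (n (b x)) v' := by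
    unfold lam
    rw [add_sub_add_left_eq_sub, ← Finset.sum_sub_distrib]
    refine Finset.sum_congr rfl fun j _ => ?_
    ring
  have e6 : lam a (n (b x)) v - lam a (n (b x)) v' =
      -((1 / lam a (n (b x)) v - 1 / lam a (n (b x)) v') *
        (lam a (n (b x)) v * lam a (n (b x)) v')) := by
    have h1 := (hpos (b x)).ne'
    have h2 := (hpos' (b x)).ne'
    field_simp
    ring
  have e7 : |1 / lam a (n (b x)) v - 1 / lam a (n (b x)) v'| = |D (b x)| := by
    rw [hD]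
    simp only
    rw [abs_mul, hsg, one_mul]
  rw [e5, e6, abs_neg, abs_mul, e7, abs_of_pos (mul_pos (hpos _) (hpos' _))]
  have e8 : lam a (n (b x)) v * lam a (n (b x)) v' ≤
      ((A + d * (‖v₀‖ + ϱ)) * N) * ((A + d * (‖v₀‖ + ϱ)) * N) :=
    mul_le_mul (hle _) (hle' _) (hpos' _).le ((hpos (b x)).le.trans (hle _))
  calc |D (b x)| * (lam a (n (b x)) v * lam a (n (b x)) v') ≤
      (((2 + 2 * k) * δ) * (Nat.factorial ρ * (N : ℝ) ^ ρ)) *
        (((A + d * (‖v₀‖ + ϱ)) * N) * ((A + d * (‖v₀‖ + ϱ)) * N)) :=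
        mul_le_mul (hDb x) e8 (mul_pos (hpos _) (hpos' _)).le (by positivity)
    _ = _ := by ring

theorem s_a : S_A := by
  classical
  intro d k ρ v₀ ϱ c A hϱ hc hA hρ
  set C0 : ℝ := A + d * (‖v₀‖ + ϱ) with hC0
  have hC0p : 0 < C0 := by positivity
  set B : ℝ := (2 + 2 * k) * Nat.factorial ρ * C0 ^ 2 with hB
  have hBp : 0 < B := by
    have : (0 : ℝ) < Nat.factorial ρ := by exact_mod_cast Nat.factorial_pos ρ
    positivity
  refine ⟨(1 / c + 1) ^ (2 * k - ρ) * ((2 * B) ^ ρ * (max 1 (4 * ϱ)) ^ d), by positivity, ?_⟩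
  intro N a n b τ δ hN ha1 ha2 hadm hb hτ hdet hδ hδ1
  have hN1 : (1 : ℝ) ≤ N := by exact_mod_cast hN
  set h : ℝ := B * (N : ℝ) ^ (ρ + 2) * δ with hh
  have hh0 : 0 ≤ h := by positivity
  let J : Finset (Fin k ⊕ Fin k) := (Finset.univ.image b)ᶜ
  set Kc : ℕ := ⌊1 / (c * δ)⌋₊ + 1 with hKc
  let cell : (J → Fin Kc) → Set (Fin d → ℝ) := fun κ =>
    {v | v ∈ E (closedBall v₀ ϱ) a n δ ∧ ∀ j : J, ⌊(1 / lam a (n j) v) / δ⌋₊ = (κ j : ℕ)}
  have hpos : ∀ v ∈ closedBall v₀ ϱ, ∀ i, c * N ≤ lam a (n i) v := fun v hv i => (hadm i).2 v hv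
  have hcov : E (closedBall v₀ ϱ) a n δ ⊆ ⋃ κ, cell κ := by
    intro v hv
    refine Set.mem_iUnion.2 ⟨fun j => ⟨⌊(1 / lam a (n j) v) / δ⌋₊, ?_⟩, hv, fun j => rfl⟩
    rw [hKc, Nat.lt_succ_iff]
    apply Nat.floor_le_floor
    have h1 : c ≤ lam a (n j) v := le_trans (by nlinarith) (hpos v hv.1 j)
    rw [← div_div]
    exact div_le_div_of_nonneg_right (one_div_le_one_div_of_le hc h1) hδ.le
  have hcellm : ∀ κ, volume (cell κ) ≤ ENNReal.ofReal ((2 * h) ^ ρ * (max 1 (4 * ϱ)) ^ d) := by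
    intro κ
    rcases Set.eq_empty_or_nonempty (cell κ) with h0 | ⟨v', hv'⟩
    · rw [h0, measure_empty]
      exact bot_le
    · refine le_trans (measure_mono ?_) (slab_volume (fun x => n (b x)) hτ hdet v' h ϱ hh0 hϱ)
      intro v hv
      refine ⟨fun x => ?_, fun i => ?_⟩
      · refine cell_sub hc hA hN ha2 hadm hb hdet hδ hv.1 hv'.1 ?_ x
        intro i hi
        have hiJ : i ∈ J := by
          rw [Finset.mem_compl]
          intro hi'
          obtain ⟨x, -, hx⟩ := Finset.mem_image.1 hi'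
          exact hi ⟨x, hx⟩
        have h1 : 0 < lam a (n i) v := lt_of_lt_of_le (by positivity) (hpos v hv.1.1 i)
        have h2 : 0 < lam a (n i) v' := lt_of_lt_of_le (by positivity) (hpos v' hv'.1.1 i)
        exact floor_close hδ (one_div_pos.2 h1).le (one_div_pos.2 h2).le
          ((hv.2 ⟨i, hiJ⟩).trans (hv'.2 ⟨i, hiJ⟩).symm)
      · have h1 := mem_closedBall_iff_norm.1 hv.1.1
        have h2 := mem_closedBall_iff_norm.1 hv'.1.1
        have h3 := norm_le_pi_norm (v - v₀) i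
        have h4 := norm_le_pi_norm (v' - v₀) i
        rw [Real.norm_eq_abs, Pi.sub_apply] at h3 h4
        have h5 := abs_le.1 (h3.trans h1)
        have h6 := abs_le.1 (h4.trans h2)
        rw [abs_le]
        constructor <;> linarith [h5.1, h5.2, h6.1, h6.2]
  have hcard : Fintype.card (J → Fin Kc) = Kc ^ (2 * k - ρ) := by
    rw [Fintype.card_fun, Fintype.card_fin, Fintype.card_coe, Finset.card_compl,
      Finset.card_image_of_injective _ hb, Fintype.card_sum, Finset.card_univ, Fintype.card_fin,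
      Fintype.card_fin, two_mul]
  have hX : 0 ≤ (2 * h) ^ ρ * (max 1 (4 * ϱ)) ^ d := by positivity
  have hmain : volume (E (closedBall v₀ ϱ) a n δ) ≤
      ENNReal.ofReal ((Kc : ℝ) ^ (2 * k - ρ) * ((2 * h) ^ ρ * (max 1 (4 * ϱ)) ^ d)) := by
    refine (measure_mono hcov).trans ((measure_iUnion_fintype_le _ _).trans ?_)
    refine (Finset.sum_le_card_nsmul _ _ _ fun κ _ => hcellm κ).trans ?_
    have hKe : ENNReal.ofReal ((Kc : ℝ) ^ (2 * k - ρ)) = ((Kc ^ (2 * k - ρ) : ℕ) : ENNReal) := by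
      rw [← Nat.cast_pow, ENNReal.ofReal_natCast]
    have hKm : ENNReal.ofReal ((Kc : ℝ) ^ (2 * k - ρ) * ((2 * h) ^ ρ * (max 1 (4 * ϱ)) ^ d)) =
        ((Kc ^ (2 * k - ρ) : ℕ) : ENNReal) *
          ENNReal.ofReal ((2 * h) ^ ρ * (max 1 (4 * ϱ)) ^ d) := by
      rw [ENNReal.ofReal_mul (show (0 : ℝ) ≤ (Kc : ℝ) ^ (2 * k - ρ) by positivity), hKe]
    rw [hKm, Finset.card_univ, hcard, nsmul_eq_mul]
  have hreal := ENNReal.toReal_le_of_le_ofReal (by positivity) hmain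
  have hKδ : (Kc : ℝ) * δ ≤ 1 / c + 1 := by
    have h1 : (Kc : ℝ) ≤ 1 / (c * δ) + 1 := by
      rw [hKc]
      push_cast
      have := Nat.floor_le (show (0 : ℝ) ≤ 1 / (c * δ) by positivity)
      linarith
    calc (Kc : ℝ) * δ ≤ (1 / (c * δ) + 1) * δ := mul_le_mul_of_nonneg_right h1 hδ.le
      _ = 1 / c + δ := by field_simp
      _ ≤ _ := by linarith
  calc (volume (E (closedBall v₀ ϱ) a n δ)).toReal * δ ^ (2 * k - ρ)
      ≤ ((Kc : ℝ) ^ (2 * k - ρ) * ((2 * h) ^ ρ * (max 1 (4 * ϱ)) ^ d)) * δ ^ (2 * k - ρ) :=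
        mul_le_mul_of_nonneg_right hreal (by positivity)
    _ = ((Kc : ℝ) * δ) ^ (2 * k - ρ) * ((2 * h) ^ ρ * (max 1 (4 * ϱ)) ^ d) := by
        rw [mul_pow]
        ring
    _ ≤ (1 / c + 1) ^ (2 * k - ρ) * ((2 * h) ^ ρ * (max 1 (4 * ϱ)) ^ d) :=
        mul_le_mul_of_nonneg_right (pow_le_pow_left₀ (by positivity) hKδ _) hX
    _ = _ := by
        have h1 : (2 * h) ^ ρ = (2 * B) ^ ρ * ((N : ℝ) ^ ((ρ + 2) * ρ) * δ ^ ρ) := by
          rw [hh, show 2 * (B * (N : ℝ) ^ (ρ + 2) * δ) = (2 * B) * ((N : ℝ) ^ (ρ + 2) * δ) by ring,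
            mul_pow (2 * B), mul_pow ((N : ℝ) ^ (ρ + 2)), ← pow_mul]
        rw [h1]
        have h2 : ρ * (ρ + 2) = (ρ + 2) * ρ := mul_comm _ _
        try rw [h2]
        ring

end A

end Pool.Agent.Helper73.BL
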