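import Pool.Agent.Helper73.BL.St2
import Pool.Agent.Helper73.BL.A

set_option autoImplicit false

/-!
# Module A: the measure of the set of small gradient from a maximal minor
-/

namespace Pool.Agent.Helper73.BL

open MeasureTheory Metric

section A2

variable {d k ρ : ℕ}

open Matrix in
theorem solve_bound2 (M : Matrix (Fin ρ) (Fin ρ) ℤ) (N : ℕ) (hM : ∀ x y, |M x y| ≤ (N : ℤ))
    (D : Fin ρ → ℝ) (s : ℝ) (hs : 0 < s)
    (hD : ∀ y, |∑ x, (M x y : ℝ) * D x| ≤ s * N) (x : Fin ρ) :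
    |(M.det : ℝ)| * |D x| ≤ s * (Nat.factorial ρ * (N : ℝ) ^ ρ) := by
  set Mr : Matrix (Fin ρ) (Fin ρ) ℝ := (M.map (Int.cast : ℤ → ℝ))ᵀ with hMr
  have hdr : Mr.det = (M.det : ℝ) := by
    rw [hMr, Matrix.det_transpose]
    exact (Int.cast_det M).symm
  set r : Fin ρ → ℝ := Mr *ᵥ D with hr
  have hry : ∀ y, r y = ∑ x, (M x y : ℝ) * D x := by
    intro y
    rfl
  have e1 : Mr.det * D x = (Mr.updateCol x r).det := by
    rw [← Matrix.cramer_apply, Matrix.cramer_eq_adjugate_mulVec, hr, Matrix.mulVec_mulVec,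
      Matrix.adjugate_mul, Matrix.smul_mulVec, Matrix.one_mulVec]
    rfl
  have e2 : r = s • (s⁻¹ • r) := by
    rw [smul_smul, mul_inv_cancel₀ hs.ne', one_smul]
  have e3 : |(Mr.updateCol x (s⁻¹ • r)).det| ≤ Nat.factorial ρ * (N : ℝ) ^ ρ := by
    have h := Matrix.det_le (A := Mr.updateCol x (s⁻¹ • r)) (abv := AbsoluteValue.abs)
      (x := (N : ℝ)) (by
        intro i j
        rw [AbsoluteValue.abs_apply, Matrix.updateCol_apply]
        split_ifs with h
        · rw [Pi.smul_apply, smul_eq_mul, abs_mul, abs_inv, abs_of_pos hs, hry]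
          rw [inv_mul_le_iff₀ hs]
          exact hD i
        · have := hM j i
          show |((M j i : ℤ) : ℝ)| ≤ N
          exact_mod_cast this)
    rw [Fintype.card_fin, nsmul_eq_mul] at h
    exact h
  rw [← hdr, ← abs_mul, e1, e2, Matrix.det_updateCol_smul, abs_mul, abs_of_pos hs]
  exact mul_le_mul_of_nonneg_left e3 hs.le

/-- the coefficients of the rows -/
noncomputable def alp (b : Fin ρ → Fin k ⊕ Fin k) (τ : Fin ρ → Fin d)
    (n : Fin k ⊕ Fin k → Fin d → ℤ) (i : Fin k ⊕ Fin k) (x : Fin ρ) : ℝ :=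
  ((Matrix.of fun x' y => n (Function.update b x i x') (τ y)).det : ℝ) /
    ((Matrix.of fun x y => n (b x) (τ y)).det : ℝ)

theorem alp_le {b : Fin ρ → Fin k ⊕ Fin k} {τ : Fin ρ → Fin d}
    {n : Fin k ⊕ Fin k → Fin d → ℤ} (h : Typ2 b τ n) (i : Fin k ⊕ Fin k) (x : Fin ρ) :
    |alp b τ n i x| ≤ 1 := by
  unfold alp
  have h0 : ((Matrix.of fun x y => n (b x) (τ y)).det : ℝ) ≠ 0 := by exact_mod_cast h.1.1
  rw [abs_div, div_le_one (abs_pos.2 h0)]
  exact_mod_cast h.2 (Function.update b x i) τ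

open Matrix in
theorem alp_spec {b : Fin ρ → Fin k ⊕ Fin k} {τ : Fin ρ → Fin d}
    {n : Fin k ⊕ Fin k → Fin d → ℤ} (h : Typ b τ n) (i : Fin k ⊕ Fin k) (t : Fin d) :
    (n i t : ℝ) = ∑ x, alp b τ n i x * (n (b x) t : ℝ) := by
  classical
  set M : Matrix (Fin ρ) (Fin ρ) ℤ := Matrix.of fun x y => n (b x) (τ y) with hM
  set Mr : Matrix (Fin ρ) (Fin ρ) ℝ := M.map (Int.cast : ℤ → ℝ) with hMr
  have hdr : Mr.det = (M.det : ℝ) := (Int.cast_det M).symm
  have hd0 : Mr.det ≠ 0 := by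
    rw [hdr]
    exact_mod_cast h.1
  have hu : IsUnit Mr.det := isUnit_iff_ne_zero.2 hd0
  set R : Fin ρ → ℝ := fun y => (n i (τ y) : ℝ) with hR
  set X : Fin ρ → ℝ := fun x => (n (b x) t : ℝ) with hX
  have ha : ∀ x, alp b τ n i x = (R ᵥ* Mr⁻¹) x := by
    intro x
    have e1 : (Matrix.of fun x' y => n (Function.update b x i x') (τ y)) =
        M.updateRow x (fun y => n i (τ y)) := by
      ext x' y
      rw [Matrix.updateRow_apply]
      by_cases hx : x' = x
      · subst hx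
        simp
      · simp [hx, hM]
    have e2 : ((M.updateRow x (fun y => n i (τ y))).det : ℝ) = (Mr.updateRow x R).det := by
      rw [Int.cast_det]
      congr 1
      ext x' y
      rw [Matrix.map_apply, Matrix.updateRow_apply, Matrix.updateRow_apply]
      by_cases hx : x' = x
      · simp [hx, hR]
      · simp [hx, hMr]
    have e3 : (Mr.updateRow x R).det = (R ᵥ* Mr.adjugate) x := by
      rw [← Matrix.cramer_transpose_apply, Matrix.cramer_eq_adjugate_mulVec,
        ← Matrix.adjugate_transpose, Matrix.mulVec_transpose]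
    unfold alp
    rw [e1, e2, e3, ← hM, ← hdr, Matrix.inv_def, Matrix.vecMul_smul, Pi.smul_apply, smul_eq_mul,
      Ring.inverse_eq_inv', div_eq_inv_mul]
  have hb := h.2 i t
  have hb' : (Matrix.fromBlocks Mr (Matrix.of fun x (_ : Unit) => X x)
      (Matrix.of fun (_ : Unit) y => R y) (Matrix.of fun (_ : Unit) (_ : Unit) => (n i t : ℝ))).det
      = 0 := by
    have e1 : (Matrix.fromBlocks Mr (Matrix.of fun x (_ : Unit) => X x)
      (Matrix.of fun (_ : Unit) y => R y) (Matrix.of fun (_ : Unit) (_ : Unit) => (n i t : ℝ))) =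
      (Matrix.fromBlocks (Matrix.of fun x y => n (b x) (τ y))
        (Matrix.of fun x (_ : Unit) => n (b x) t) (Matrix.of fun (_ : Unit) y => n i (τ y))
        (Matrix.of fun (_ : Unit) (_ : Unit) => n i t)).map (Int.cast : ℤ → ℝ) := by
      rw [Matrix.fromBlocks_map]
      rfl
    rw [e1, ← Int.cast_det, hb, Int.cast_zero]
  have := Matrix.invertibleOfIsUnitDet Mr hu
  rw [Matrix.det_fromBlocks₁₁] at hb'
  have h2 := (mul_eq_zero.1 hb').resolve_left hd0
  rw [Matrix.det_unique, Matrix.sub_apply, Matrix.of_apply, sub_eq_zero] at h2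
  rw [h2, Matrix.mul_apply]
  refine Finset.sum_congr rfl fun x _ => ?_
  rw [ha x, Matrix.of_apply, Matrix.invOf_eq_nonsing_inv]
  rfl

open Matrix in
theorem bigM_det_eq (n' : Fin ρ → Fin d → ℤ) {τ : Fin ρ → Fin d} (hτ : Function.Injective τ) :
    (bigM n' τ).det = (Matrix.of fun x y => n' x (τ y)).det := by
  classical
  set e : Fin ρ ⊕ {i // i ∉ Set.range τ} ≃ Fin d :=
    (Equiv.sumCongr (Equiv.ofInjective τ hτ) (Equiv.refl _)).trans
      (Equiv.sumCompl (fun i => i ∈ Set.range τ)) with he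
  have e1 : ∀ x, e (Sum.inl x) = τ x := by
    intro x
    simp [he]
  have e2 : ∀ i, e (Sum.inr i) = i.1 := by
    intro i
    simp [he]
  rw [← Matrix.det_submatrix_equiv_self e (bigM n' τ)]
  have e3 : (bigM n' τ).submatrix e e =
      Matrix.fromBlocks (Matrix.of fun x y => n' x (τ y))
        (Matrix.of fun x (i : {i // i ∉ Set.range τ}) => n' x i.1) 0 1 := by
    ext i j
    rcases i with x | i <;> rcases j with y | j
    · rw [Matrix.submatrix_apply, e1, e1, bigM_at n' hτ]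
      rfl
    · rw [Matrix.submatrix_apply, e1, e2, bigM_at n' hτ]
      rfl
    · rw [Matrix.submatrix_apply, e1, e2, bigM_off n' i.2, if_neg]
      · rfl
      · intro h
        exact i.2 ⟨y, h.symm⟩
    · rw [Matrix.submatrix_apply, e2, e2, bigM_off n' i.2]
      show _ = (1 : Matrix _ _ ℤ) i j
      rw [Matrix.one_apply]
      simp only [Subtype.ext_iff]
  rw [e3, Matrix.det_fromBlocks_zero₂₁, Matrix.det_one, mul_one]

theorem slab_volume2 (n' : Fin ρ → Fin d → ℤ) {τ : Fin ρ → Fin d} (hτ : Function.Injective τ)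
    (hdet : (Matrix.of fun x y => n' x (τ y)).det ≠ 0) (v' : Fin d → ℝ) (h ϱ : ℝ) (hh : 0 ≤ h)
    (hϱ : 0 < ϱ) :
    volume {v : Fin d → ℝ | (∀ x, |∑ j, (n' x j : ℝ) * (v j - v' j)| ≤ h) ∧
      ∀ i, |v i - v' i| ≤ 2 * ϱ} ≤ ENNReal.ofReal ((2 * h) ^ ρ * (max 1 (4 * ϱ)) ^ d /
        |((Matrix.of fun x y => n' x (τ y)).det : ℝ)|) := by
  classical
  set Mt : Matrix (Fin d) (Fin d) ℝ := (bigM n' τ).map (Int.cast : ℤ → ℝ) with hMt
  have hd : Mt.det = ((Matrix.of fun x y => n' x (τ y)).det : ℝ) := by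
    rw [← bigM_det_eq n' hτ]
    exact (Int.cast_det _).symm
  have hdr0 : ((Matrix.of fun x y => n' x (τ y)).det : ℝ) ≠ 0 := by exact_mod_cast hdet
  set f := Matrix.toLin' Mt with hf
  have hdf : LinearMap.det f = Mt.det := LinearMap.det_toLin' Mt
  have hdf0 : LinearMap.det f ≠ 0 := by
    rw [hdf, hd]
    exact hdr0
  set s : Fin d → ℝ := fun i => if ∃ x, τ x = i then h else 2 * ϱ with hs
  have hsub : {v : Fin d → ℝ | (∀ x, |∑ j, (n' x j : ℝ) * (v j - v' j)| ≤ h) ∧
      ∀ i, |v i - v' i| ≤ 2 * ϱ} ⊆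
      f ⁻¹' Set.Icc (fun i => f v' i - s i) (fun i => f v' i + s i) := by
    rintro v ⟨h1, h2⟩
    have key : ∀ i, |f v i - f v' i| ≤ s i := by
      intro i
      have e1 : f v i - f v' i = ∑ t, (bigM n' τ i t : ℝ) * (v t - v' t) := by
        rw [← Pi.sub_apply, ← map_sub]
        rfl
      rw [e1]
      by_cases hi : ∃ x, τ x = i
      · rw [hs]
        simp only [if_pos hi]
        obtain ⟨x, rfl⟩ := hi
        simp only [bigM_at n' hτ]
        exact h1 x
      · rw [hs]
        simp only [if_neg hi]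
        simp only [bigM_off n' hi]
        have e2 : ∑ t, (((if i = t then (1 : ℤ) else 0) : ℤ) : ℝ) * (v t - v' t) = v i - v' i := by
          rw [Finset.sum_eq_single i]
          · simp
          · intro t _ ht
            rw [if_neg (Ne.symm ht)]
            simp
          · intro h
            exact absurd (Finset.mem_univ i) h
        rw [e2]
        exact h2 i
    refine ⟨fun i => ?_, fun i => ?_⟩
    · have := (abs_le.1 (key i)).1
      show f v' i - s i ≤ f v i
      linarith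
    · have := (abs_le.1 (key i)).2
      show f v i ≤ f v' i + s i
      linarith
  refine (measure_mono hsub).trans ?_
  rw [Measure.addHaar_preimage_linearMap _ hdf0, Real.volume_Icc_pi]
  have e4 : ∀ i, f v' i + s i - (f v' i - s i) = 2 * s i := fun i => by ring
  simp only [e4]
  have hs0 : ∀ i, 0 ≤ 2 * s i := by
    intro i
    rw [hs]
    by_cases hi : ∃ x, τ x = i
    · simp only [if_pos hi]
      positivity
    · simp only [if_neg hi]
      positivity
  rw [← ENNReal.ofReal_prod_of_nonneg fun i _ => hs0 i,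
    ← ENNReal.ofReal_mul (abs_nonneg _), hdf, hd]
  apply ENNReal.ofReal_le_ofReal
  rw [abs_inv, inv_mul_eq_div]
  apply div_le_div_of_nonneg_right _ (abs_nonneg _)
  have e5 : ∀ i, 2 * s i = if ∃ x, τ x = i then 2 * h else 4 * ϱ := by
    intro i
    rw [hs]
    by_cases hi : ∃ x, τ x = i
    · simp only [if_pos hi]
    · simp only [if_neg hi]
      ring
  simp only [e5]
  rw [Finset.prod_ite, Finset.prod_const, Finset.prod_const]
  have e6 : (Finset.univ.filter fun i : Fin d => ∃ x, τ x = i).card = ρ := by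
    have : (Finset.univ.filter fun i : Fin d => ∃ x, τ x = i) = Finset.univ.image τ := by
      ext i
      simp
    rw [this, Finset.card_image_of_injective _ hτ, Finset.card_univ, Fintype.card_fin]
  rw [e6]
  apply mul_le_mul_of_nonneg_left _ (by positivity)
  have e7 : (Finset.univ.filter fun i : Fin d => ¬ ∃ x, τ x = i).card ≤ d := by
    refine (Finset.card_le_univ _).trans ?_
    rw [Fintype.card_fin]
  calc (4 * ϱ) ^ _ ≤ (max 1 (4 * ϱ)) ^ _ := pow_le_pow_left₀ (by positivity) (le_max_right _ _) _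
    _ ≤ _ := pow_le_pow_right₀ (le_max_left _ _) e7

theorem sg_abs (i : Fin k ⊕ Fin k) : |sg i| = 1 := by
  rcases i with i | i <;> simp [sg]

/-- one cell -/
theorem cell_sub2 {v₀ : Fin d → ℝ} {ϱ c A : ℝ} (hc : 0 < c) (hA : 1 ≤ A)
    {N : ℕ} (hN : 1 ≤ N) {a : ℝ} (haA : a ≤ A) {n : Fin k ⊕ Fin k → Fin d → ℤ}
    (hadm : ∀ i, Adm (closedBall v₀ ϱ) c N a (n i)) {b : Fin ρ → Fin k ⊕ Fin k}
    (hb : Function.Injective b) {τ : Fin ρ → Fin d} (hT : Typ2 b τ n) {δ : ℝ} (hδ : 0 < δ)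
    {v v' : Fin d → ℝ} (hv : v ∈ E (closedBall v₀ ϱ) a n δ)
    (hv' : v' ∈ E (closedBall v₀ ϱ) a n δ) {Z : ℝ}
    (hZ : Z = (N : ℝ) ^ ρ / |((Matrix.of fun x y => n (b x) (τ y)).det : ℝ)|)
    (hcell : ∀ i, i ∉ Set.range b → |1 / lam a (n i) v - 1 / lam a (n i) v'| ≤ δ * Z / N)
    (x : Fin ρ) :
    |∑ j, (n (b x) j : ℝ) * (v j - v' j)| ≤
      ((2 * Nat.factorial ρ + 2 * k) * (A + d * (‖v₀‖ + ϱ)) ^ 2) * (N * (δ * Z)) := by
  classical
  have hN1 : (1 : ℝ) ≤ N := by exact_mod_cast hN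
  have hN0 : (0 : ℝ) < N := by linarith
  have hdet := hT.1.1
  set V : ℝ := |((Matrix.of fun x y => n (b x) (τ y)).det : ℝ)| with hV
  have hV0 : 0 < V := abs_pos.2 (by exact_mod_cast hdet)
  have hZ0 : 0 < Z := by
    rw [hZ]
    positivity
  have hpos : ∀ i, 0 < lam a (n i) v := fun i =>
    lt_of_lt_of_le (by positivity) ((hadm i).2 v hv.1)
  have hpos' : ∀ i, 0 < lam a (n i) v' := fun i =>
    lt_of_lt_of_le (by positivity) ((hadm i).2 v' hv'.1)
  have hle : ∀ i, lam a (n i) v ≤ (A + d * (‖v₀‖ + ϱ)) * N := fun i =>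
    lam_le hA hN haA (hadm i).1 hv.1
  have hle' : ∀ i, lam a (n i) v' ≤ (A + d * (‖v₀‖ + ϱ)) * N := fun i =>
    lam_le hA hN haA (hadm i).1 hv'.1
  set D : Fin k ⊕ Fin k → ℝ := fun i => sg i * (1 / lam a (n i) v - 1 / lam a (n i) v') with hD
  have hDJ : ∀ i, i ∉ Set.range b → |D i| ≤ δ * Z / N := by
    intro i hi
    rw [hD]
    simp only
    rw [abs_mul, sg_abs, one_mul]
    exact hcell i hi
  have hsum : ∀ t, ∑ i, (n i t : ℝ) * D i = grad a n v t - grad a n v' t := by
    intro t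
    unfold grad
    rw [← Finset.sum_sub_distrib]
    refine Finset.sum_congr rfl fun i _ => ?_
    rw [hD]
    simp only
    ring
  have hfull : ∀ t, |∑ i, (n i t : ℝ) * D i| ≤ 2 * δ := by
    intro t
    rw [hsum]
    have h1 := abs_le.1 (hv.2 t)
    have h2 := abs_le.1 (hv'.2 t)
    rw [abs_le]
    constructor <;> linarith [h1.1, h1.2, h2.1, h2.2]
  -- the combinations
  set G : Fin ρ → ℝ := fun x => ∑ i, alp b τ n i x * D i with hG
  have hGsum : ∀ y, ∑ x, (n (b x) (τ y) : ℝ) * G x = ∑ i, (n i (τ y) : ℝ) * D i := by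
    intro y
    simp only [hG, Finset.mul_sum]
    rw [Finset.sum_comm]
    refine Finset.sum_congr rfl fun i _ => ?_
    rw [alp_spec hT.1 i (τ y), Finset.sum_mul]
    refine Finset.sum_congr rfl fun x _ => ?_
    ring
  have hGb : ∀ x, |G x| ≤ 2 * Nat.factorial ρ * (δ * Z / N) := by
    intro x
    have h1 := solve_bound2 (Matrix.of fun x y => n (b x) (τ y)) N
      (fun x y => (hadm (b x)).1 (τ y)) G (2 * δ / N) (by positivity) (by
        intro y
        rw [div_mul_cancel₀ _ hN0.ne']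
        show |∑ x, (n (b x) (τ y) : ℝ) * G x| ≤ 2 * δ
        rw [hGsum]
        exact hfull (τ y)) x
    rw [← hV] at h1
    have h2 : |G x| ≤ (2 * δ / N) * (Nat.factorial ρ * (N : ℝ) ^ ρ) / V := by
      rw [le_div_iff₀ hV0, mul_comm]
      exact h1
    refine h2.trans (le_of_eq ?_)
    rw [hZ]
    ring
  have halp : ∀ x x', alp b τ n (b x') x = if x' = x then 1 else 0 := by
    intro x x'
    have h0 : ((Matrix.of fun x y => n (b x) (τ y)).det : ℝ) ≠ 0 := by exact_mod_cast hdet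
    unfold alp
    by_cases hx : x' = x
    · subst hx
      rw [if_pos rfl, Function.update_eq_self, div_self h0]
    · rw [if_neg hx]
      have h1 : (Matrix.of fun x'' y => n (Function.update b x (b x') x'') (τ y)).det = 0 := by
        apply Matrix.det_zero_of_row_eq hx
        funext y
        show n (Function.update b x (b x') x') (τ y) = n (Function.update b x (b x') x) (τ y)
        rw [Function.update_of_ne hx, Function.update_self]
      rw [h1]
      simp
  have hDb : ∀ x, |D (b x)| ≤ (2 * Nat.factorial ρ + 2 * k) * (δ * Z / N) := by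
    intro x
    have e1 : G x = D (b x) + ∑ i ∈ (Finset.univ.image b)ᶜ, alp b τ n i x * D i := by
      show ∑ i, alp b τ n i x * D i = _
      rw [← Finset.sum_add_sum_compl (Finset.univ.image b), Finset.sum_image fun y _ z _ h => hb h]
      congr 1
      rw [Finset.sum_eq_single x]
      · rw [halp, if_pos rfl, one_mul]
      · intro y _ hy
        rw [halp, if_neg hy, zero_mul]
      · intro h
        exact absurd (Finset.mem_univ x) h
    have e2 : |∑ i ∈ (Finset.univ.image b)ᶜ, alp b τ n i x * D i| ≤ 2 * k * (δ * Z / N) := by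
      refine (Finset.abs_sum_le_sum_abs _ _).trans ?_
      have e3 : ∀ i ∈ (Finset.univ.image b)ᶜ, |alp b τ n i x * D i| ≤ δ * Z / N := by
        intro i hi
        rw [abs_mul]
        have h2 := hDJ i (by
          rintro ⟨x, hx⟩
          rw [Finset.mem_compl] at hi
          exact hi (Finset.mem_image.2 ⟨x, Finset.mem_univ _, hx⟩))
        calc |alp b τ n i x| * |D i| ≤ 1 * (δ * Z / N) :=
              mul_le_mul (alp_le hT i x) h2 (abs_nonneg _) zero_le_one
          _ = _ := one_mul _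
      refine (Finset.sum_le_card_nsmul _ _ _ e3).trans ?_
      rw [nsmul_eq_mul]
      apply mul_le_mul_of_nonneg_right _ (by positivity)
      have e4 : ((Finset.univ.image b)ᶜ : Finset (Fin k ⊕ Fin k)).card ≤ 2 * k := by
        refine (Finset.card_le_univ _).trans ?_
        rw [Fintype.card_sum, Fintype.card_fin]
        omega
      exact_mod_cast e4
    have e5 : D (b x) = G x - ∑ i ∈ (Finset.univ.image b)ᶜ, alp b τ n i x * D i := by
      rw [e1]
      ring
    rw [e5]
    refine (abs_sub _ _).trans ?_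
    have h3 := hGb x
    nlinarith
  have e5 : ∑ j, (n (b x) j : ℝ) * (v j - v' j) = lam a (n (b x)) v - lam a (n (b x)) v' := by
    unfold lam
    rw [add_sub_add_left_eq_sub, ← Finset.sum_sub_distrib]
    refine Finset.sum_congr rfl fun j _ => ?_
    ring
  have e6 : lam a (n (b x)) v - lam a (n (b x)) v' =
      -((1 / lam a (n (b x)) v - 1 / lam a (n (b x)) v') *
        (lam a (n (b x)) v * lam a (n (b x)) v')) := by
    have h1 := (hpos (b x)).ne'
    have h2 := (hpos' (b x)).ne'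
    field_simp
    ring
  have e7 : |1 / lam a (n (b x)) v - 1 / lam a (n (b x)) v'| = |D (b x)| := by
    rw [hD]
    simp only
    rw [abs_mul, sg_abs, one_mul]
  rw [e5, e6, abs_neg, abs_mul, e7, abs_of_pos (mul_pos (hpos _) (hpos' _))]
  have e8 : lam a (n (b x)) v * lam a (n (b x)) v' ≤
      ((A + d * (‖v₀‖ + ϱ)) * N) * ((A + d * (‖v₀‖ + ϱ)) * N) :=
    mul_le_mul (hle _) (hle' _) (hpos' _).le ((hpos (b x)).le.trans (hle _))
  calc |D (b x)| * (lam a (n (b x)) v * lam a (n (b x)) v') ≤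
      ((2 * Nat.factorial ρ + 2 * k) * (δ * Z / N)) *
        (((A + d * (‖v₀‖ + ϱ)) * N) * ((A + d * (‖v₀‖ + ϱ)) * N)) :=
        mul_le_mul (hDb x) e8 (mul_pos (hpos _) (hpos' _)).le (by positivity)
    _ = _ := by
        field_simp

theorem s_a2 : S_A2 := by
  classical
  intro d k ρ v₀ ϱ c A hϱ hc hA hkρ hρ
  set C0 : ℝ := A + d * (‖v₀‖ + ϱ) with hC0
  have hC0p : 0 < C0 := by positivity
  have hfac : (1 : ℝ) ≤ Nat.factorial ρ := by exact_mod_cast Nat.factorial_pos ρ
  set B : ℝ := (2 * Nat.factorial ρ + 2 * k) * C0 ^ 2 with hB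
  have hBp : 0 < B := by positivity
  set V0 : ℝ := (volume (closedBall v₀ ϱ)).toReal with hV0
  have hV00 : 0 ≤ V0 := ENNReal.toReal_nonneg
  have hfin : volume (closedBall v₀ ϱ) ≠ ⊤ := (isCompact_closedBall v₀ ϱ).measure_lt_top.ne
  set m : ℝ := (max 1 (4 * ϱ)) ^ d with hm
  have hm0 : 0 < m := by positivity
  refine ⟨(1 / c + 1) ^ (2 * k - ρ) * ((2 * B) ^ ρ * m) + V0 * Nat.factorial ρ, by positivity, ?_⟩
  intro N a n b τ δ hN ha1 ha2 hadm hb hτ hT hδ Z hZ
  have hN1 : (1 : ℝ) ≤ N := by exact_mod_cast hN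
  have hN0 : (0 : ℝ) < N := by linarith
  have hdet := hT.1.1
  set V : ℝ := |((Matrix.of fun x y => n (b x) (τ y)).det : ℝ)| with hV
  have hV1 : 0 < V := abs_pos.2 (by exact_mod_cast hdet)
  have hZ0 : 0 < Z := by
    rw [hZ]
    positivity
  have hVle : V ≤ Nat.factorial ρ * (N : ℝ) ^ ρ := by
    have h := Matrix.det_le (A := (Matrix.of fun x y => n (b x) (τ y)))
      (abv := AbsoluteValue.abs) (x := (N : ℤ)) (fun x y => (hadm (b x)).1 (τ y))
    rw [Fintype.card_fin, nsmul_eq_mul] at h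
    rw [hV]
    exact_mod_cast h
  have hZf : 1 ≤ Nat.factorial ρ * Z := by
    rw [hZ, mul_div_assoc', le_div_iff₀ hV1, one_mul]
    exact hVle
  have hEsub : E (closedBall v₀ ϱ) a n δ ⊆ closedBall v₀ ϱ := fun v hv => hv.1
  have hδZ : 0 < δ * Z := by positivity
  rcases lt_or_ge 1 (δ * Z) with hbig | hsm
  · have h1 : (volume (E (closedBall v₀ ϱ) a n δ)).toReal ≤ V0 :=
      ENNReal.toReal_mono hfin (measure_mono hEsub)
    have h2 : 1 ≤ (δ * Z) ^ (2 * (ρ - k)) := one_le_pow₀ hbig.le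
    calc (volume (E (closedBall v₀ ϱ) a n δ)).toReal ≤ V0 * 1 * 1 := by linarith
      _ ≤ V0 * (Nat.factorial ρ * Z) * (δ * Z) ^ (2 * (ρ - k)) := by
        apply mul_le_mul _ h2 zero_le_one (by positivity)
        exact mul_le_mul_of_nonneg_left hZf hV00
      _ = (V0 * Nat.factorial ρ) * (δ * Z) ^ (2 * (ρ - k)) * Z := by ring
      _ ≤ _ := by
        apply mul_le_mul_of_nonneg_right _ hZ0.le
        apply mul_le_mul_of_nonneg_right _ (by positivity)
        have : 0 ≤ (1 / c + 1) ^ (2 * k - ρ) * ((2 * B) ^ ρ * m) := by positivity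
        linarith
  set L : ℝ := B * (N * (δ * Z)) with hL
  have hL0 : 0 ≤ L := by positivity
  set ε : ℝ := δ * Z / N with hε
  have hε0 : 0 < ε := by positivity
  let J : Finset (Fin k ⊕ Fin k) := (Finset.univ.image b)ᶜ
  set Kc : ℕ := ⌊1 / (c * (δ * Z))⌋₊ + 1 with hKc
  let cell : (J → Fin Kc) → Set (Fin d → ℝ) := fun κ =>
    {v | v ∈ E (closedBall v₀ ϱ) a n δ ∧ ∀ j : J, ⌊(1 / lam a (n j) v) / ε⌋₊ = (κ j : ℕ)}
  have hpos : ∀ v ∈ closedBall v₀ ϱ, ∀ i, c * N ≤ lam a (n i) v := fun v hv i => (hadm i).2 v hv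
  have hcov : E (closedBall v₀ ϱ) a n δ ⊆ ⋃ κ, cell κ := by
    intro v hv
    refine Set.mem_iUnion.2 ⟨fun j => ⟨⌊(1 / lam a (n j) v) / ε⌋₊, ?_⟩, hv, fun j => rfl⟩
    rw [hKc, Nat.lt_succ_iff]
    apply Nat.floor_le_floor
    have h1 : c * N ≤ lam a (n j) v := hpos v hv.1 j
    have h2 : 1 / lam a (n j) v ≤ 1 / (c * N) := one_div_le_one_div_of_le (by positivity) h1
    calc (1 / lam a (n j) v) / ε ≤ (1 / (c * N)) / ε := div_le_div_of_nonneg_right h2 hε0.le
      _ = _ := by
        rw [hε]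
        field_simp
  have hcellm : ∀ κ, volume (cell κ) ≤ ENNReal.ofReal ((2 * L) ^ ρ * m / V) := by
    intro κ
    rcases Set.eq_empty_or_nonempty (cell κ) with h0 | ⟨v', hv'⟩
    · rw [h0, measure_empty]
      exact bot_le
    · refine le_trans (measure_mono ?_) (slab_volume2 (fun x => n (b x)) hτ hdet v' L ϱ hL0 hϱ)
      intro v hv
      refine ⟨fun x => ?_, fun i => ?_⟩
      · refine cell_sub2 hc hA hN ha2 hadm hb hT hδ hv.1 hv'.1 hZ ?_ x
        intro i hi
        have hiJ : i ∈ J := by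
          rw [Finset.mem_compl]
          intro hi'
          obtain ⟨x, -, hx⟩ := Finset.mem_image.1 hi'
          exact hi ⟨x, hx⟩
        have h1 : 0 < lam a (n i) v := lt_of_lt_of_le (by positivity) (hpos v hv.1.1 i)
        have h2 : 0 < lam a (n i) v' := lt_of_lt_of_le (by positivity) (hpos v' hv'.1.1 i)
        exact floor_close hε0 (one_div_pos.2 h1).le (one_div_pos.2 h2).le
          ((hv.2 ⟨i, hiJ⟩).trans (hv'.2 ⟨i, hiJ⟩).symm)
      · have h1 := mem_closedBall_iff_norm.1 hv.1.1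
        have h2 := mem_closedBall_iff_norm.1 hv'.1.1
        have h3 := norm_le_pi_norm (v - v₀) i
        have h4 := norm_le_pi_norm (v' - v₀) i
        rw [Real.norm_eq_abs, Pi.sub_apply] at h3 h4
        have h5 := abs_le.1 (h3.trans h1)
        have h6 := abs_le.1 (h4.trans h2)
        rw [abs_le]
        constructor <;> linarith [h5.1, h5.2, h6.1, h6.2]
  have hcard : Fintype.card (J → Fin Kc) = Kc ^ (2 * k - ρ) := by
    rw [Fintype.card_fun, Fintype.card_fin, Fintype.card_coe, Finset.card_compl,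
      Finset.card_image_of_injective _ hb, Fintype.card_sum, Finset.card_univ, Fintype.card_fin,
      Fintype.card_fin, two_mul]
  have hX : 0 ≤ (2 * L) ^ ρ * m / V := by positivity
  have hmain : volume (E (closedBall v₀ ϱ) a n δ) ≤
      ENNReal.ofReal ((Kc : ℝ) ^ (2 * k - ρ) * ((2 * L) ^ ρ * m / V)) := by
    refine (measure_mono hcov).trans ((measure_iUnion_fintype_le _ _).trans ?_)
    refine (Finset.sum_le_card_nsmul _ _ _ fun κ _ => hcellm κ).trans ?_
    have hKe : ENNReal.ofReal ((Kc : ℝ) ^ (2 * k - ρ)) = ((Kc ^ (2 * k - ρ) : ℕ) : ENNReal) := by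
      rw [← Nat.cast_pow, ENNReal.ofReal_natCast]
    have hKm : ENNReal.ofReal ((Kc : ℝ) ^ (2 * k - ρ) * ((2 * L) ^ ρ * m / V)) =
        ((Kc ^ (2 * k - ρ) : ℕ) : ENNReal) * ENNReal.ofReal ((2 * L) ^ ρ * m / V) := by
      rw [ENNReal.ofReal_mul (show (0 : ℝ) ≤ (Kc : ℝ) ^ (2 * k - ρ) by positivity), hKe]
    rw [hKm, Finset.card_univ, hcard, nsmul_eq_mul]
  have hreal := ENNReal.toReal_le_of_le_ofReal (by positivity) hmain
  have hKδ : (Kc : ℝ) * (δ * Z) ≤ 1 / c + 1 := by
    have h1 : (Kc : ℝ) ≤ 1 / (c * (δ * Z)) + 1 := by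
      rw [hKc]
      push_cast
      have := Nat.floor_le (show (0 : ℝ) ≤ 1 / (c * (δ * Z)) by positivity)
      linarith
    calc (Kc : ℝ) * (δ * Z) ≤ (1 / (c * (δ * Z)) + 1) * (δ * Z) :=
          mul_le_mul_of_nonneg_right h1 hδZ.le
      _ = 1 / c + δ * Z := by field_simp
      _ ≤ _ := by linarith
  have hq : (δ * Z) ^ ρ = (δ * Z) ^ (2 * (ρ - k)) * (δ * Z) ^ (2 * k - ρ) := by
    rw [← pow_add]
    congr 1
    omega
  have hfinal : (volume (E (closedBall v₀ ϱ) a n δ)).toReal * (δ * Z) ^ (2 * k - ρ) ≤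
      ((1 / c + 1) ^ (2 * k - ρ) * ((2 * B) ^ ρ * m) * (δ * Z) ^ (2 * (ρ - k)) * Z) *
        (δ * Z) ^ (2 * k - ρ) := by
    calc (volume (E (closedBall v₀ ϱ) a n δ)).toReal * (δ * Z) ^ (2 * k - ρ)
        ≤ ((Kc : ℝ) ^ (2 * k - ρ) * ((2 * L) ^ ρ * m / V)) * (δ * Z) ^ (2 * k - ρ) :=
          mul_le_mul_of_nonneg_right hreal (by positivity)
      _ = ((Kc : ℝ) * (δ * Z)) ^ (2 * k - ρ) * ((2 * L) ^ ρ * m / V) := by
          rw [mul_pow (Kc : ℝ)]
          ring
      _ ≤ (1 / c + 1) ^ (2 * k - ρ) * ((2 * L) ^ ρ * m / V) :=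
          mul_le_mul_of_nonneg_right (pow_le_pow_left₀ (by positivity) hKδ _) hX
      _ = _ := by
          have h1 : (2 * L) ^ ρ = (2 * B) ^ ρ * ((N : ℝ) ^ ρ * (δ * Z) ^ ρ) := by
            rw [hL, show 2 * (B * ((N : ℝ) * (δ * Z))) = (2 * B) * ((N : ℝ) * (δ * Z)) by ring,
              mul_pow (2 * B), mul_pow (N : ℝ)]
          rw [h1, hq]
          have h2 : (N : ℝ) ^ ρ = Z * V := by
            rw [hZ]
            field_simp
          rw [h2]
          field_simp
  have h3 := le_of_mul_le_mul_right hfinal (by positivity)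
  refine h3.trans ?_
  apply mul_le_mul_of_nonneg_right _ hZ0.le
  apply mul_le_mul_of_nonneg_right _ (by positivity)
  have : 0 ≤ V0 * Nat.factorial ρ := by positivity
  linarith

end A2

end Pool.Agent.Helper73.BL
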