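import Pool.Agent.Helper73.BL.Stm

set_option autoImplicit false

/-!
# Module B: maximal minors and the number of integral matrices with a given maximal minor
-/

namespace Pool.Agent.Helper73.BL

open Matrix

theorem fromBlocks_eq {d k ρ : ℕ} (n : Fin k ⊕ Fin k → Fin d → ℤ) (b : Fin ρ → Fin k ⊕ Fin k)
    (τ : Fin ρ → Fin d) (i : Fin k ⊕ Fin k) (t : Fin d) :
    Matrix.fromBlocks (Matrix.of fun x y => n (b x) (τ y))
      (Matrix.of fun x (_ : Unit) => n (b x) t) (Matrix.of fun (_ : Unit) y => n i (τ y))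
      (Matrix.of fun (_ : Unit) (_ : Unit) => n i t) =
    Matrix.of fun (x y : Fin ρ ⊕ Unit) => n (Sum.elim b (fun _ => i) x)
      (Sum.elim τ (fun _ => t) y) := by
  ext x y
  rcases x with x | x <;> rcases y with y | y <;> rfl

theorem s_b1 : S_B1 := by
  classical
  intro d k n
  let P : ℕ → Prop := fun ρ => ∃ (b : Fin ρ → Fin k ⊕ Fin k) (τ : Fin ρ → Fin d),
    Function.Injective b ∧ Function.Injective τ ∧ (Matrix.of fun x y => n (b x) (τ y)).det ≠ 0
  have h0 : P 0 := ⟨fun x => x.elim0, fun x => x.elim0, fun x => x.elim0, fun x => x.elim0, by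
    simp⟩
  have hle : ∀ ρ, P ρ → ρ ≤ 2 * k := by
    rintro ρ ⟨b, τ, hb, hτ, -⟩
    have := Fintype.card_le_of_injective b hb
    simpa [two_mul] using this
  have hP : P (Nat.findGreatest P (2 * k)) := Nat.findGreatest_spec (Nat.zero_le _) h0
  have hmax : ∀ m, P m → m ≤ Nat.findGreatest P (2 * k) := fun m hm =>
    Nat.le_findGreatest (hle m hm) hm
  generalize Nat.findGreatest P (2 * k) = ρ at hP hmax
  refine ⟨ρ, hle ρ hP, ?_⟩
  obtain ⟨b, τ, hb, hτ, hdet⟩ := hP
  refine ⟨b, τ, hb, hτ, hdet, fun i t => ?_⟩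
  rw [fromBlocks_eq]
  by_contra hne
  set b' : Fin ρ ⊕ Unit → Fin k ⊕ Fin k := Sum.elim b (fun _ => i) with hb'
  set τ' : Fin ρ ⊕ Unit → Fin d := Sum.elim τ (fun _ => t) with hτ'
  have hbi : Function.Injective b' := by
    intro x y hxy
    by_contra hne'
    exact hne (Matrix.det_zero_of_row_eq hne' (by
      funext z
      simp only [Matrix.of_apply, hxy]))
  have hti : Function.Injective τ' := by
    intro x y hxy
    by_contra hne'
    exact hne (Matrix.det_zero_of_column_eq hne' (by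
      intro z
      simp only [Matrix.of_apply, hxy]))
  let e : Fin (ρ + 1) ≃ Fin ρ ⊕ Unit :=
    (finSumFinEquiv (m := ρ) (n := 1)).symm.trans
      (Equiv.sumCongr (Equiv.refl _) (Equiv.equivPUnit (Fin 1)))
  have hP1 : P (ρ + 1) := by
    refine ⟨b' ∘ e, τ' ∘ e, hbi.comp e.injective, hti.comp e.injective, ?_⟩
    have h2 := Matrix.det_submatrix_equiv_self e
      (Matrix.of fun (x y : Fin ρ ⊕ Unit) => n (b' x) (τ' y))
    intro h3
    apply hne
    rw [← h2]
    exact h3
  exact absurd (hmax _ hP1) (by omega)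

theorem entry_eq {ρ : ℕ} (M : Matrix (Fin ρ) (Fin ρ) ℤ) (hM : M.det ≠ 0) (c : Fin ρ → ℤ)
    (r : Fin ρ → ℤ) (x y : ℤ)
    (hx : (Matrix.fromBlocks M (Matrix.of fun a (_ : Unit) => c a)
      (Matrix.of fun (_ : Unit) a => r a) (Matrix.of fun (_ : Unit) (_ : Unit) => x)).det = 0)
    (hy : (Matrix.fromBlocks M (Matrix.of fun a (_ : Unit) => c a)
      (Matrix.of fun (_ : Unit) a => r a) (Matrix.of fun (_ : Unit) (_ : Unit) => y)).det = 0) :
    x = y := by
  classical
  have key : ∀ z : ℤ, (Matrix.fromBlocks M (Matrix.of fun a (_ : Unit) => c a)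
      (Matrix.of fun (_ : Unit) a => r a) (Matrix.of fun (_ : Unit) (_ : Unit) => z)).det = 0 →
      ((z : ℤ) : ℚ) = ((Matrix.of fun (_ : Unit) a => (r a : ℚ)) *
        (M.map (Int.cast : ℤ → ℚ))⁻¹ * (Matrix.of fun a (_ : Unit) => (c a : ℚ))) () () := by
    intro z hz
    have h1 : ((Matrix.fromBlocks M (Matrix.of fun a (_ : Unit) => c a)
      (Matrix.of fun (_ : Unit) a => r a)
      (Matrix.of fun (_ : Unit) (_ : Unit) => z)).map (Int.castRingHom ℚ)).det = 0 := by
      have h2 := RingHom.map_det (Int.castRingHom ℚ) (Matrix.fromBlocks M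
        (Matrix.of fun a (_ : Unit) => c a)
        (Matrix.of fun (_ : Unit) a => r a) (Matrix.of fun (_ : Unit) (_ : Unit) => z))
      rw [hz, map_zero] at h2
      rw [← RingHom.mapMatrix_apply, ← h2]
    rw [Matrix.fromBlocks_map] at h1
    have hMu : IsUnit (M.map (Int.castRingHom ℚ)).det := by
      have h2 := RingHom.map_det (Int.castRingHom ℚ) M
      rw [RingHom.mapMatrix_apply] at h2
      rw [← h2, isUnit_iff_ne_zero]
      simpa using hM
    have : Invertible (M.map (Int.castRingHom ℚ)) := Matrix.invertibleOfIsUnitDet _ hMu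
    rw [Matrix.det_fromBlocks₁₁] at h1
    have h3 := (mul_eq_zero.1 h1).resolve_left hMu.ne_zero
    rw [Matrix.det_unique, Matrix.sub_apply, sub_eq_zero, Matrix.invOf_eq_nonsing_inv] at h3
    exact h3
  have := (key x hx).trans (key y hy).symm
  exact_mod_cast this

theorem s_b2 : S_B2 := by
  classical
  intro d k ρ N S b τ T hS hb hτ hT
  let F : (Fin k ⊕ Fin k → Fin d → ℤ) → (Fin ρ → Fin d → ℤ) × (Fin k ⊕ Fin k → Fin ρ → ℤ) :=
    fun n => (fun x => n (b x), fun i y => n i (τ y))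
  let B : Finset ((Fin ρ → Fin d → ℤ) × (Fin k ⊕ Fin k → Fin ρ → ℤ)) :=
    (Fintype.piFinset fun _ : Fin ρ => Fintype.piFinset fun _ : Fin d =>
      Finset.Icc (-(N : ℤ)) N) ×ˢ
    (Fintype.piFinset fun _ : Fin k ⊕ Fin k => Fintype.piFinset fun _ : Fin ρ =>
      Finset.Icc (-(N : ℤ)) N)
  have hB : B.card = (2 * N + 1) ^ (d * ρ + 2 * k * ρ) := by
    have h1 : (Finset.Icc (-(N : ℤ)) N).card = 2 * N + 1 := by
      rw [Int.card_Icc]
      omega
    simp only [B, Finset.card_product, Fintype.card_piFinset, h1, Finset.prod_const,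
      Finset.card_univ, Fintype.card_fin, Fintype.card_sum]
    rw [← pow_mul, ← pow_mul, ← pow_add]
    congr 1
    ring
  rw [← hB]
  refine Finset.card_le_card_of_injOn F ?_ ?_
  · intro n hn
    obtain ⟨h1, -⟩ := hT n hn
    have h2 : ∀ i j, n i j ∈ Finset.Icc (-(N : ℤ)) N := fun i j => by
      rw [Finset.mem_Icc]
      exact abs_le.1 (hS _ (h1 i) j)
    rw [Finset.mem_coe, Finset.mem_product]
    refine ⟨?_, ?_⟩
    · rw [Fintype.mem_piFinset]
      intro x
      rw [Fintype.mem_piFinset]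
      intro j
      exact h2 _ _
    · rw [Fintype.mem_piFinset]
      intro x
      rw [Fintype.mem_piFinset]
      intro j
      exact h2 _ _
  · intro n hn n' hn' hF
    obtain ⟨-, h1, h2⟩ := hT n hn
    obtain ⟨-, h1', h2'⟩ := hT n' hn'
    have e1 : ∀ x, n (b x) = n' (b x) := fun x => congrFun (congrArg Prod.fst hF) x
    have e2 : ∀ i y, n i (τ y) = n' i (τ y) := fun i y =>
      congrFun (congrFun (congrArg Prod.snd hF) i) y
    funext i t
    refine entry_eq (Matrix.of fun x y => n (b x) (τ y)) h1 (fun x => n (b x) t)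
      (fun y => n i (τ y)) _ _ (h2 i t) ?_
    have h3 := h2' i t
    simp only [← e1, ← e2] at h3
    exact h3

end Pool.Agent.Helper73.BL
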