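import Pool.Agent.Helper73.BL.St2
import Pool.Agent.Helper73.BL.B

set_option autoImplicit false

/-!
# Module B, sharp form: types with a minor of largest absolute value and the number of the matrices
of a given type
-/

namespace Pool.Agent.Helper73.BL

open Matrix

/-- the existence of a nonsingular minor of size `ρ` -/
def HasMinor {d k : ℕ} (n : Fin k ⊕ Fin k → Fin d → ℤ) (ρ : ℕ) : Prop :=
  ∃ (b : Fin ρ → Fin k ⊕ Fin k) (τ : Fin ρ → Fin d),
    (Matrix.of fun x y => n (b x) (τ y)).det ≠ 0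

theorem inj_of_det {d k ρ : ℕ} {n : Fin k ⊕ Fin k → Fin d → ℤ} {b : Fin ρ → Fin k ⊕ Fin k}
    {τ : Fin ρ → Fin d} (h : (Matrix.of fun x y => n (b x) (τ y)).det ≠ 0) :
    Function.Injective b ∧ Function.Injective τ := by
  constructor
  · intro x y hxy
    by_contra hne
    exact h (Matrix.det_zero_of_row_eq hne (by
      funext z
      simp only [Matrix.of_apply, hxy]))
  · intro x y hxy
    by_contra hne
    exact h (Matrix.det_zero_of_column_eq hne (by
      intro z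
      simp only [Matrix.of_apply, hxy]))

theorem border_zero {d k ρ : ℕ} {n : Fin k ⊕ Fin k → Fin d → ℤ}
    (hmax : ∀ m, HasMinor n m → m ≤ ρ) (b : Fin ρ → Fin k ⊕ Fin k) (τ : Fin ρ → Fin d)
    (i : Fin k ⊕ Fin k) (t : Fin d) : (Matrix.fromBlocks (Matrix.of fun x y => n (b x) (τ y))
      (Matrix.of fun x (_ : Unit) => n (b x) t) (Matrix.of fun (_ : Unit) y => n i (τ y))
      (Matrix.of fun (_ : Unit) (_ : Unit) => n i t)).det = 0 := by
  rw [fromBlocks_eq]
  by_contra hne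
  let e : Fin (ρ + 1) ≃ Fin ρ ⊕ Unit :=
    (finSumFinEquiv (m := ρ) (n := 1)).symm.trans
      (Equiv.sumCongr (Equiv.refl _) (Equiv.equivPUnit (Fin 1)))
  have hP1 : HasMinor n (ρ + 1) := by
    refine ⟨Sum.elim b (fun _ => i) ∘ e, Sum.elim τ (fun _ => t) ∘ e, ?_⟩
    have h2 := Matrix.det_submatrix_equiv_self e
      (Matrix.of fun (x y : Fin ρ ⊕ Unit) => n (Sum.elim b (fun _ => i) x)
        (Sum.elim τ (fun _ => t) y))
    intro h3
    apply hne
    rw [← h2]
    exact h3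
  exact absurd (hmax _ hP1) (by omega)

theorem s_b3 : S_B3 := by
  classical
  intro d k n
  have h0 : HasMinor n 0 := ⟨fun x => x.elim0, fun x => x.elim0, by simp⟩
  have hle : ∀ ρ, HasMinor n ρ → ρ ≤ 2 * k := by
    rintro ρ ⟨b, τ, h⟩
    have := Fintype.card_le_of_injective b (inj_of_det h).1
    simpa [two_mul] using this
  have hP : HasMinor n (Nat.findGreatest (HasMinor n) (2 * k)) :=
    Nat.findGreatest_spec (Nat.zero_le _) h0
  have hmax : ∀ m, HasMinor n m → m ≤ Nat.findGreatest (HasMinor n) (2 * k) := fun m hm =>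
    Nat.le_findGreatest (hle m hm) hm
  generalize Nat.findGreatest (HasMinor n) (2 * k) = ρ at hP hmax
  refine ⟨ρ, hle ρ hP, ?_⟩
  obtain ⟨b₀, τ₀, hdet⟩ := hP
  have : Nonempty ((Fin ρ → Fin k ⊕ Fin k) × (Fin ρ → Fin d)) := ⟨(b₀, τ₀)⟩
  obtain ⟨⟨b, τ⟩, hb⟩ := Finite.exists_max
    (fun z : (Fin ρ → Fin k ⊕ Fin k) × (Fin ρ → Fin d) =>
      |(Matrix.of fun x y => n (z.1 x) (z.2 y)).det|)
  have hdet' : (Matrix.of fun x y => n (b x) (τ y)).det ≠ 0 := by
    have h1 := hb (b₀, τ₀)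
    have h2 : 0 < |(Matrix.of fun x y => n (b₀ x) (τ₀ y)).det| := abs_pos.2 hdet
    exact abs_pos.1 (h2.trans_le h1)
  exact ⟨b, τ, (inj_of_det hdet').1, (inj_of_det hdet').2,
    ⟨hdet', fun i t => border_zero hmax b τ i t⟩, fun b' τ' => hb (b', τ')⟩

/-- the last entry of a singular bordered matrix -/
theorem entry_val {ρ : ℕ} (M : Matrix (Fin ρ) (Fin ρ) ℤ) (hM : M.det ≠ 0) (c : Fin ρ → ℤ)
    (r : Fin ρ → ℤ) (z : ℤ)
    (hz : (Matrix.fromBlocks M (Matrix.of fun a (_ : Unit) => c a)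
      (Matrix.of fun (_ : Unit) a => r a) (Matrix.of fun (_ : Unit) (_ : Unit) => z)).det = 0) :
    ((fun y => (r y : ℚ)) ᵥ* (M.map (Int.cast : ℤ → ℚ))⁻¹) ⬝ᵥ (fun x => (c x : ℚ)) = z := by
  classical
  have h1 : ((Matrix.fromBlocks M (Matrix.of fun a (_ : Unit) => c a)
    (Matrix.of fun (_ : Unit) a => r a)
    (Matrix.of fun (_ : Unit) (_ : Unit) => z)).map (Int.castRingHom ℚ)).det = 0 := by
    have h2 := RingHom.map_det (Int.castRingHom ℚ) (Matrix.fromBlocks M
      (Matrix.of fun a (_ : Unit) => c a)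
      (Matrix.of fun (_ : Unit) a => r a) (Matrix.of fun (_ : Unit) (_ : Unit) => z))
    rw [hz, map_zero] at h2
    rw [← RingHom.mapMatrix_apply, ← h2]
  rw [Matrix.fromBlocks_map] at h1
  have hMu : IsUnit (M.map (Int.castRingHom ℚ)).det := by
    have h2 := RingHom.map_det (Int.castRingHom ℚ) M
    rw [RingHom.mapMatrix_apply] at h2
    rw [← h2, isUnit_iff_ne_zero]
    simpa using hM
  have : Invertible (M.map (Int.castRingHom ℚ)) := Matrix.invertibleOfIsUnitDet _ hMu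
  rw [Matrix.det_fromBlocks₁₁] at h1
  have h3 := (mul_eq_zero.1 h1).resolve_left hMu.ne_zero
  rw [Matrix.det_unique, Matrix.sub_apply, sub_eq_zero, Matrix.invOf_eq_nonsing_inv] at h3
  exact h3.symm

theorem det_cast_ne {ρ : ℕ} {M : Matrix (Fin ρ) (Fin ρ) ℤ} (hM : M.det ≠ 0) :
    (M.map (Int.cast : ℤ → ℚ)).det ≠ 0 := by
  have h2 := RingHom.map_det (Int.castRingHom ℚ) M
  rw [RingHom.mapMatrix_apply] at h2
  have h3 : (M.map (Int.cast : ℤ → ℚ)).det = ((M.det : ℤ) : ℚ) := h2.symm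
  rw [h3]
  exact_mod_cast hM

theorem det_cast {ρ : ℕ} (M : Matrix (Fin ρ) (Fin ρ) ℤ) :
    (M.map (Int.cast : ℤ → ℚ)).det = ((M.det : ℤ) : ℚ) := by
  have h2 := RingHom.map_det (Int.castRingHom ℚ) M
  rw [RingHom.mapMatrix_apply] at h2
  exact h2.symm

/-- Cramer's rule for columns -/
theorem col_le {ρ : ℕ} {M : Matrix (Fin ρ) (Fin ρ) ℤ} (hM : M.det ≠ 0) (c : Fin ρ → ℤ)
    (y : Fin ρ) (h : |(M.updateCol y c).det| ≤ |M.det|) :
    |((M.map (Int.cast : ℤ → ℚ))⁻¹ *ᵥ (fun x => (c x : ℚ))) y| ≤ 1 := by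
  have h1 : ((M.map (Int.cast : ℤ → ℚ))⁻¹ *ᵥ (fun x => (c x : ℚ))) y =
      ((M.map (Int.cast : ℤ → ℚ)).det)⁻¹ *
        ((M.map (Int.cast : ℤ → ℚ)).updateCol y (fun x => (c x : ℚ))).det := by
    rw [Matrix.inv_def, Ring.inverse_eq_inv', Matrix.smul_mulVec, Pi.smul_apply, smul_eq_mul,
      ← Matrix.cramer_eq_adjugate_mulVec, Matrix.cramer_apply]
  have h2 : (M.map (Int.cast : ℤ → ℚ)).updateCol y (fun x => (c x : ℚ)) =
      (M.updateCol y c).map (Int.cast : ℤ → ℚ) := by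
    ext i j
    simp only [Matrix.updateCol_apply, Matrix.map_apply]
    split_ifs <;> rfl
  rw [h1, h2, det_cast, det_cast, abs_mul, abs_inv, inv_mul_le_iff₀, mul_one]
  · exact_mod_cast h
  · exact abs_pos.2 (by exact_mod_cast hM)

/-- Cramer's rule for rows -/
theorem row_le {ρ : ℕ} {M : Matrix (Fin ρ) (Fin ρ) ℤ} (hM : M.det ≠ 0) (r : Fin ρ → ℤ)
    (x : Fin ρ) (h : |(M.updateRow x r).det| ≤ |M.det|) :
    |((fun y => (r y : ℚ)) ᵥ* (M.map (Int.cast : ℤ → ℚ))⁻¹) x| ≤ 1 := by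
  have h1 := col_le (M := Mᵀ) (by rwa [Matrix.det_transpose]) r x (by
    rw [Matrix.updateCol_transpose, Matrix.det_transpose, Matrix.det_transpose]
    exact h)
  have h2 : (Mᵀ).map (Int.cast : ℤ → ℚ) = (M.map (Int.cast : ℤ → ℚ))ᵀ := rfl
  rw [h2, ← Matrix.transpose_nonsing_inv, Matrix.mulVec_transpose] at h1
  exact h1

theorem s_b4 (hK : S_K) : S_B4 := by
  classical
  intro d k ρ b τ hb hτ hρ
  have hρ2 : ρ ≤ 2 * k := by
    have := Fintype.card_le_of_injective b hb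
    simpa [two_mul] using this
  have hρd : ρ ≤ d := by
    have := Fintype.card_le_of_injective τ hτ
    simpa using this
  obtain ⟨C, hC⟩ := hK ρ (2 * k - ρ) (d - ρ) (by omega)
  refine ⟨C, fun M T hT => ?_⟩
  rcases T.eq_empty_or_nonempty with rfl | ⟨n₀, hn₀⟩
  · simp
  have hM : M.det ≠ 0 := by
    obtain ⟨⟨⟨h1, -⟩, -⟩, h2⟩ := hT n₀ hn₀
    rw [← h2]
    exact h1
  have cR : Fintype.card {j // j ∉ Set.range b} = 2 * k - ρ := by
    rw [Fintype.card_subtype_compl]
    have h1 : Fintype.card {j // j ∈ Set.range b} = ρ := by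
      have h2 := Set.card_range_of_injective hb
      rw [Fintype.card_fin] at h2
      refine Eq.trans ?_ h2
      exact Fintype.card_congr (Equiv.refl _)
    rw [h1, Fintype.card_sum, Fintype.card_fin]
    omega
  have cC : Fintype.card {j // j ∉ Set.range τ} = d - ρ := by
    rw [Fintype.card_subtype_compl]
    have h1 : Fintype.card {j // j ∈ Set.range τ} = ρ := by
      have h2 := Set.card_range_of_injective hτ
      rw [Fintype.card_fin] at h2
      refine Eq.trans ?_ h2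
      exact Fintype.card_congr (Equiv.refl _)
    rw [h1, Fintype.card_fin]
  let eR : {j // j ∉ Set.range b} ≃ Fin (2 * k - ρ) := Fintype.equivFinOfCardEq cR
  let eC : {j // j ∉ Set.range τ} ≃ Fin (d - ρ) := Fintype.equivFinOfCardEq cC
  let f : (Fin k ⊕ Fin k → Fin d → ℤ) →
      (Fin (2 * k - ρ) → Fin ρ → ℤ) × (Fin (d - ρ) → Fin ρ → ℤ) :=
    fun n => (fun j y => n (eR.symm j).1 (τ y), fun t x => n (b x) (eC.symm t).1)
  have hinj : Set.InjOn f (T : Set (Fin k ⊕ Fin k → Fin d → ℤ)) := by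
    intro n hn n' hn' hf
    obtain ⟨⟨⟨h1, h2⟩, -⟩, h3⟩ := hT n hn
    obtain ⟨⟨⟨h1', h2'⟩, -⟩, h3'⟩ := hT n' hn'
    have e0 : ∀ x y, n (b x) (τ y) = n' (b x) (τ y) := fun x y => by
      have := congrFun (congrFun (h3.trans h3'.symm) x) y
      exact this
    have e1 : ∀ x t, n (b x) t = n' (b x) t := by
      intro x t
      by_cases ht : t ∈ Set.range τ
      · obtain ⟨y, rfl⟩ := ht
        exact e0 x y
      · have := congrFun (congrFun (congrArg Prod.snd hf) (eC ⟨t, ht⟩)) x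
        simpa [f] using this
    have e2 : ∀ i y, n i (τ y) = n' i (τ y) := by
      intro i y
      by_cases hi : i ∈ Set.range b
      · obtain ⟨x, rfl⟩ := hi
        exact e0 x y
      · have := congrFun (congrFun (congrArg Prod.fst hf) (eR ⟨i, hi⟩)) y
        simpa [f] using this
    funext i t
    refine entry_eq (Matrix.of fun x y => n (b x) (τ y)) h1 (fun x => n (b x) t)
      (fun y => n i (τ y)) _ _ (h2 i t) ?_
    have h4 := h2' i t
    simp only [← e1, ← e2] at h4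
    exact h4
  rw [← Finset.card_image_of_injOn hinj]
  refine hC M hM (T.image f) ?_
  intro z hz
  obtain ⟨n, hn, rfl⟩ := Finset.mem_image.1 hz
  obtain ⟨⟨⟨h1, h2⟩, hmax⟩, h3⟩ := hT n hn
  subst h3
  refine ⟨fun j x => ?_, fun t y => ?_, fun j t => ?_⟩
  · refine row_le hM _ x ?_
    refine le_trans (le_of_eq ?_) (hmax (Function.update b x (eR.symm j).1) τ)
    congr 2
    ext x' y'
    by_cases hx : x' = x
    · subst hx
      simp [f]
    · simp [hx]
  · refine col_le hM _ y ?_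
    refine le_trans (le_of_eq ?_) (hmax b (Function.update τ y (eC.symm t).1))
    congr 2
    ext x' y'
    by_cases hy : y' = y
    · subst hy
      simp [f]
    · simp [hy]
  · exact ⟨n (eR.symm j).1 (eC.symm t).1, entry_val _ hM _ _ _ (h2 (eR.symm j).1 (eC.symm t).1)⟩

end Pool.Agent.Helper73.BL
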