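import Pool.Agent.Helper73.BL.St3

/-!
# Barnes zeta functions in large dimension: modules F1 (mean value inequality on a disc) and F2
(Borel-Cantelli from the moments over the weights to a pointwise bound for almost every weight)
-/

set_option autoImplicit false

namespace Pool.Agent.Helper73.BL.F12

open MeasureTheory Metric Set Filter
open scoped ENNReal

/-- circle mean value, as an inequality for lower integrals -/
lemma circ (f : ℂ → ℂ) (hf : Differentiable ℂ f) (s₀ : ℂ) (ρ : ℝ) :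
    ENNReal.ofReal ‖f s₀‖ ≤ ∫⁻ φ in Ioo (-Real.pi) Real.pi,
      ENNReal.ofReal ‖f (s₀ + Complex.polarCoord.symm (ρ, φ))‖ := by
  have h1 : Real.circleAverage f s₀ ρ = f s₀ :=
    DiffContOnCl.circleAverage (hf.diffContOnCl)
  have hc : Continuous fun φ : ℝ => f (circleMap s₀ ρ φ) :=
    hf.continuous.comp (continuous_circleMap s₀ ρ)
  have h2 : ∫ φ in (0 : ℝ)..2 * Real.pi, f (circleMap s₀ ρ φ) = (2 * Real.pi : ℝ) • f s₀ := by
    rw [← h1, Real.circleAverage_def, smul_smul, mul_inv_cancel₀ (by positivity), one_smul]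
  have hper : Function.Periodic (fun φ : ℝ => f (circleMap s₀ ρ φ)) (2 * Real.pi) :=
    fun φ => by simp only [periodic_circleMap s₀ ρ φ]
  have h3 : ∫ φ in (-Real.pi)..Real.pi, f (circleMap s₀ ρ φ) = (2 * Real.pi : ℝ) • f s₀ := by
    rw [← h2]
    have := hper.intervalIntegral_add_eq (-Real.pi) 0
    rw [zero_add] at this
    rw [← this]
    congr 1
    ring
  have hpi : -Real.pi ≤ Real.pi := by linarith [Real.pi_pos]
  have h4 : ‖(2 * Real.pi : ℝ) • f s₀‖ ≤ ∫ φ in Ioo (-Real.pi) Real.pi, ‖f (circleMap s₀ ρ φ)‖ := by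
    rw [← h3, intervalIntegral.integral_of_le hpi, integral_Ioc_eq_integral_Ioo]
    exact norm_integral_le_integral_norm _
  have h5 : ‖f s₀‖ ≤ ∫ φ in Ioo (-Real.pi) Real.pi, ‖f (circleMap s₀ ρ φ)‖ := by
    refine le_trans ?_ h4
    rw [norm_smul, Real.norm_of_nonneg (by positivity)]
    have := Real.two_le_pi
    nlinarith [norm_nonneg (f s₀)]
  have h6 : IntegrableOn (fun φ : ℝ => ‖f (circleMap s₀ ρ φ)‖) (Ioo (-Real.pi) Real.pi) :=
    (hc.norm.integrableOn_Icc (a := -Real.pi) (b := Real.pi)).mono_set Ioo_subset_Icc_self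
  calc ENNReal.ofReal ‖f s₀‖ ≤
        ENNReal.ofReal (∫ φ in Ioo (-Real.pi) Real.pi, ‖f (circleMap s₀ ρ φ)‖) :=
          ENNReal.ofReal_le_ofReal h5
    _ = ∫⁻ φ in Ioo (-Real.pi) Real.pi, ENNReal.ofReal ‖f (circleMap s₀ ρ φ)‖ :=
          ofReal_integral_eq_lintegral_ofReal h6 (ae_of_all _ fun φ => norm_nonneg _)
    _ = _ := by
          refine lintegral_congr fun φ => ?_
          congr 3
          rw [Complex.polarCoord_symm_apply, circleMap, Complex.exp_mul_I]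
          push_cast
          ring_nf

lemma disc (f : ℂ → ℂ) (s₀ : ℂ) (hf : Differentiable ℂ f) :
    ENNReal.ofReal ‖f s₀‖ ≤ ∫⁻ z in closedBall s₀ 2, ENNReal.ofReal ‖f z‖ := by
  classical
  set F : ℂ → ℝ≥0∞ := fun z => ENNReal.ofReal ‖f z‖ with hF
  have e1 : ∫⁻ z in closedBall s₀ 2, F z = ∫⁻ w, (closedBall s₀ 2).indicator F (s₀ + w) := by
    rw [← lintegral_indicator measurableSet_closedBall]
    exact (lintegral_add_left_eq_self _ s₀).symm
  rw [e1, ← Complex.lintegral_comp_polarCoord_symm]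
  have hsub : Ioc (1 : ℝ) 2 ×ˢ Ioo (-Real.pi) Real.pi ⊆ polarCoord.target := by
    rw [polarCoord_target]
    exact prod_mono (fun x hx => lt_trans one_pos hx.1) le_rfl
  refine le_trans ?_ (lintegral_mono_set hsub)
  have e2 : ∫⁻ p in Ioc (1 : ℝ) 2 ×ˢ Ioo (-Real.pi) Real.pi, F (s₀ + Complex.polarCoord.symm p) ≤
      ∫⁻ p in Ioc (1 : ℝ) 2 ×ˢ Ioo (-Real.pi) Real.pi, ENNReal.ofReal p.1 •
        (closedBall s₀ 2).indicator F (s₀ + Complex.polarCoord.symm p) := by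
    refine setLIntegral_mono' (measurableSet_Ioc.prod measurableSet_Ioo) fun p hp => ?_
    have hp1 : 1 < p.1 := hp.1.1
    have hp2 : p.1 ≤ 2 := hp.1.2
    have hmem : s₀ + Complex.polarCoord.symm p ∈ closedBall s₀ 2 := by
      rw [mem_closedBall, dist_eq_norm, add_sub_cancel_left, Complex.norm_polarCoord_symm,
        abs_of_pos (by linarith)]
      exact hp2
    rw [indicator_of_mem hmem, smul_eq_mul]
    refine le_mul_of_one_le_left zero_le ?_
    rw [← ENNReal.ofReal_one]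
    exact ENNReal.ofReal_le_ofReal hp1.le
  refine le_trans ?_ e2
  have hm : Measurable fun p : ℝ × ℝ => F (s₀ + Complex.polarCoord.symm p) := by
    have : Continuous fun p : ℝ × ℝ => ‖f (s₀ + Complex.polarCoord.symm p)‖ := by
      simp only [Complex.polarCoord_symm_apply]
      refine (hf.continuous.comp ?_).norm
      fun_prop
    exact this.measurable.ennreal_ofReal
  rw [Measure.volume_eq_prod, ← Measure.prod_restrict, lintegral_prod _ hm.aemeasurable]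
  calc ENNReal.ofReal ‖f s₀‖ = ∫⁻ _ρ in Ioc (1 : ℝ) 2, ENNReal.ofReal ‖f s₀‖ := by
        rw [lintegral_const, Measure.restrict_apply_univ, Real.volume_Ioc]
        norm_num
    _ ≤ _ := lintegral_mono fun ρ => circ f hf s₀ ρ

/-- the rectangles -/
def R (H : ℝ) (j : ℕ) : Set ℂ :=
  {z | (-2 ≤ z.re ∧ z.re ≤ H + 2) ∧ (2 : ℝ) ^ j - 2 ≤ z.im ∧ z.im ≤ (2 : ℝ) ^ (j + 1) + 2}

lemma R_eq (H : ℝ) (j : ℕ) : R H j = Complex.measurableEquivRealProd ⁻¹'
    (Icc (-2) (H + 2) ×ˢ Icc ((2 : ℝ) ^ j - 2) ((2 : ℝ) ^ (j + 1) + 2)) := by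
  ext z
  simp only [R, Complex.measurableEquivRealProd_apply, mem_prod, mem_Icc, mem_preimage,
    mem_ofPred_eq]

lemma R_meas (H : ℝ) (j : ℕ) : MeasurableSet (R H j) := by
  rw [R_eq]
  exact (measurableSet_Icc.prod measurableSet_Icc).preimage
    Complex.measurableEquivRealProd.measurable

lemma R_vol (H : ℝ) (hH : 0 < H) (j : ℕ) :
    volume (R H j) = ENNReal.ofReal ((H + 4) * ((2 : ℝ) ^ j + 4)) := by
  rw [R_eq, Complex.volume_preserving_equiv_real_prod.measure_preimage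
    (measurableSet_Icc.prod measurableSet_Icc).nullMeasurableSet, Measure.volume_eq_prod,
    Measure.prod_prod, Real.volume_Icc, Real.volume_Icc, ← ENNReal.ofReal_mul (by linarith)]
  congr 1
  rw [pow_succ]
  ring

lemma ball_sub {H : ℝ} {j : ℕ} {z : ℂ} (h1 : 0 ≤ z.re) (h2 : z.re ≤ H) (h3 : (2 : ℝ) ^ j ≤ z.im)
    (h4 : z.im ≤ (2 : ℝ) ^ (j + 1)) : closedBall z 2 ⊆ R H j := by
  intro w hw
  rw [mem_closedBall, dist_eq_norm] at hw
  have a1 := (Complex.abs_re_le_norm (w - z)).trans hw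
  have a2 := (Complex.abs_im_le_norm (w - z)).trans hw
  rw [Complex.sub_re, abs_le] at a1
  rw [Complex.sub_im, abs_le] at a2
  exact ⟨⟨by linarith [a1.1], by linarith [a1.2]⟩, by linarith [a2.1], by linarith [a2.2]⟩

lemma summ {ε : ℝ} (hε : 0 < ε) :
    Summable fun j : ℕ => ((j : ℝ) + 1) * ((2 : ℝ) ^ j + 4) / ((2 : ℝ) ^ j) ^ (1 + ε) := by
  have hx : ‖(2 : ℝ) ^ (-ε)‖ < 1 := by
    rw [Real.norm_of_nonneg (Real.rpow_nonneg (by norm_num) _)]
    exact Real.rpow_lt_one_of_one_lt_of_neg (by norm_num) (by linarith)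
  have s1 : Summable fun j : ℕ => ((j : ℝ)) ^ 1 * ((2 : ℝ) ^ (-ε)) ^ j :=
    summable_pow_mul_geometric_of_norm_lt_one 1 hx
  have s2 : Summable fun j : ℕ => ((2 : ℝ) ^ (-ε)) ^ j := summable_geometric_of_norm_lt_one hx
  refine Summable.of_nonneg_of_le (fun j => by positivity) (fun j => ?_)
    ((s1.add s2).mul_left 5)
  have h2 : (0 : ℝ) < (2 : ℝ) ^ j := by positivity
  have h1 : (1 : ℝ) ≤ (2 : ℝ) ^ j := one_le_pow₀ (by norm_num)
  have e1 : ((2 : ℝ) ^ j) ^ (1 + ε) = (2 : ℝ) ^ j * ((2 : ℝ) ^ j) ^ ε := by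
    rw [Real.rpow_add h2, Real.rpow_one]
  have e2 : ((2 : ℝ) ^ (-ε)) ^ j = (((2 : ℝ) ^ j) ^ ε)⁻¹ := by
    rw [← Real.rpow_natCast, ← Real.rpow_mul (by norm_num), ← Real.rpow_natCast 2 j,
      ← Real.rpow_mul (by norm_num), ← Real.rpow_neg (by norm_num)]
    congr 1
    ring
  have h3 : 0 < ((2 : ℝ) ^ j) ^ ε := Real.rpow_pos_of_pos h2 _
  rw [e1, e2, div_le_iff₀ (by positivity), pow_one]
  have e3 : 5 * ((j : ℝ) * (((2 : ℝ) ^ j) ^ ε)⁻¹ + (((2 : ℝ) ^ j) ^ ε)⁻¹) *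
      ((2 : ℝ) ^ j * ((2 : ℝ) ^ j) ^ ε) = ((j : ℝ) + 1) * (5 * (2 : ℝ) ^ j) := by
    field_simp
  rw [e3]
  exact mul_le_mul_of_nonneg_left (by linarith) (by positivity)

lemma bc (d k : ℕ) (K : Set (Fin d → ℝ)) (g : ℕ → ℂ → (Fin d → ℝ) → ℂ) (X : ℕ → ℝ)
    (L : ℕ → Finset ℕ) (H C₁ C₂ ε : ℝ) (j₁ : ℕ) (hK : MeasurableSet K)
    (hX : ∀ l, 0 < X l) (hH : 0 < H) (hC₁ : 0 < C₁) (hC₂ : 0 < C₂) (hε : 0 < ε)
    (hL : ∀ j, ((L j).card : ℝ) ≤ C₂ * (j + 1))
    (hd : ∀ l, ∀ v ∈ K, Differentiable ℂ fun z => g l z v)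
    (hm : ∀ l, Measurable fun p : ℂ × (Fin d → ℝ) => g l p.1 p.2)
    (hb : ∀ j, j₁ ≤ j → ∀ l ∈ L j, ∀ z : ℂ, -2 ≤ z.re → z.re ≤ H + 2 → (2 : ℝ) ^ j - 2 ≤ z.im →
      z.im ≤ (2 : ℝ) ^ (j + 1) + 2 →
      ∫⁻ v in K, ENNReal.ofReal (‖g l z v‖ ^ (2 * k)) ≤ ENNReal.ofReal (C₁ * X l)) :
    ∀ᵐ v : Fin d → ℝ, v ∈ K → ∃ j₀ : ℕ, ∀ j, j₀ ≤ j → ∀ l ∈ L j, ∀ z : ℂ, 0 ≤ z.re → z.re ≤ H →
      (2 : ℝ) ^ j ≤ z.im → z.im ≤ (2 : ℝ) ^ (j + 1) →
      ‖g l z v‖ ^ (2 * k) ≤ ((2 : ℝ) ^ j) ^ (1 + ε) * X l := by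
  classical
  set μ : Measure (Fin d → ℝ) := volume.restrict K with hμ
  set T : ℕ → ℝ := fun j => ((2 : ℝ) ^ j) ^ (1 + ε) with hT
  have T0 : ∀ j, 0 < T j := fun j => Real.rpow_pos_of_pos (by positivity) _
  set I : ℕ → ℕ → (Fin d → ℝ) → ℝ≥0∞ :=
    fun j l v => ∫⁻ z in R H j, ENNReal.ofReal (‖g l z v‖ ^ (2 * k)) with hI
  have mF : ∀ l, Measurable fun p : ℂ × (Fin d → ℝ) => ENNReal.ofReal (‖g l p.1 p.2‖ ^ (2 * k)) :=
    fun l => ((hm l).norm.pow_const _).ennreal_ofReal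
  have mI : ∀ j l, Measurable (I j l) := fun j l => (mF l).lintegral_prod_left'
  -- the first moment of `I`
  have bI : ∀ j, j₁ ≤ j → ∀ l ∈ L j, ∫⁻ v, I j l v ∂μ ≤
      ENNReal.ofReal (C₁ * X l) * ENNReal.ofReal ((H + 4) * ((2 : ℝ) ^ j + 4)) := by
    intro j hj l hl
    have sw : ∫⁻ v, I j l v ∂μ =
        ∫⁻ z in R H j, ∫⁻ v in K, ENNReal.ofReal (‖g l z v‖ ^ (2 * k)) :=
      lintegral_lintegral_swap ((mF l).comp measurable_swap).aemeasurable
    rw [sw, ← R_vol H hH j, ← setLIntegral_const]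
    exact setLIntegral_mono' (R_meas H j) fun z hz => hb j hj l hl z hz.1.1 hz.1.2 hz.2.1 hz.2.2
  set A : ℕ → ℕ → Set (Fin d → ℝ) := fun j l => {v | ENNReal.ofReal (T j * X l) ≤ I j l v} with hA
  have mA : ∀ j, j₁ ≤ j → ∀ l ∈ L j, μ (A j l) ≤
      ENNReal.ofReal (C₁ * (H + 4) * ((2 : ℝ) ^ j + 4) / T j) := by
    intro j hj l hl
    have hp : 0 < T j * X l := mul_pos (T0 j) (hX l)
    refine (meas_ge_le_lintegral_div (mI j l).aemeasurable (ENNReal.ofReal_pos.2 hp).ne'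
      ENNReal.ofReal_ne_top).trans ?_
    refine (ENNReal.div_le_div_right (bI j hj l hl) _).trans ?_
    rw [← ENNReal.ofReal_mul (mul_pos hC₁ (hX l)).le, ← ENNReal.ofReal_div_of_pos hp]
    refine ENNReal.ofReal_le_ofReal (le_of_eq ?_)
    have := (T0 j).ne'
    have := (hX l).ne'
    field_simp
  set B : ℕ → Set (Fin d → ℝ) := fun j => if j₁ ≤ j then ⋃ l ∈ L j, A j l else ∅ with hB
  have mB : ∀ j, μ (B j) ≤ ENNReal.ofReal
      (C₂ * C₁ * (H + 4) * (((j : ℝ) + 1) * ((2 : ℝ) ^ j + 4) / T j)) := by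
    intro j
    by_cases hj : j₁ ≤ j
    · simp only [hB, if_pos hj]
      refine (measure_biUnion_finset_le (L j) (A j)).trans ?_
      refine (Finset.sum_le_sum fun l hl => mA j hj l hl).trans ?_
      rw [Finset.sum_const, nsmul_eq_mul, ← ENNReal.ofReal_natCast,
        ← ENNReal.ofReal_mul (Nat.cast_nonneg _)]
      refine ENNReal.ofReal_le_ofReal ?_
      have h0 : 0 ≤ C₁ * (H + 4) * ((2 : ℝ) ^ j + 4) / T j := by
        have := T0 j
        positivity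
      refine (mul_le_mul_of_nonneg_right (hL j) h0).trans (le_of_eq ?_)
      ring
    · simp only [hB, if_neg hj, measure_empty]
      exact zero_le
  have sB : (∑' j, μ (B j)) ≠ ∞ := by
    have hs : Summable fun j : ℕ =>
        C₂ * C₁ * (H + 4) * (((j : ℝ) + 1) * ((2 : ℝ) ^ j + 4) / T j) := (summ hε).mul_left _
    refine ne_top_of_le_ne_top ?_ (ENNReal.tsum_le_tsum mB)
    rw [← ENNReal.ofReal_tsum_of_nonneg (fun j => ?_) hs]
    · exact ENNReal.ofReal_ne_top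
    · have := T0 j
      positivity
  have key : ∀ᵐ v ∂μ, ∀ᶠ n in atTop, v ∉ B n := ae_eventually_notMem sB
  rw [hμ, ae_restrict_iff' hK] at key
  filter_upwards [key] with v hv hvK
  obtain ⟨j₀, hj₀⟩ := eventually_atTop.1 (hv hvK)
  refine ⟨max j₀ j₁, fun j hj l hl z h1 h2 h3 h4 => ?_⟩
  have hjj : j₁ ≤ j := (le_max_right _ _).trans hj
  have n1 := hj₀ j ((le_max_left _ _).trans hj)
  simp only [hB, if_pos hjj, mem_iUnion, not_exists] at n1
  have n2 := n1 l hl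
  simp only [hA, mem_ofPred_eq, not_le] at n2
  have n3 : ENNReal.ofReal (‖g l z v‖ ^ (2 * k)) ≤ I j l v := by
    have := disc (fun z => (g l z v) ^ (2 * k)) z ((hd l v hvK).pow _)
    simp only [norm_pow] at this
    exact this.trans (lintegral_mono_set (ball_sub h1 h2 h3 h4))
  have n4 := n3.trans n2.le
  exact (ENNReal.ofReal_le_ofReal_iff (mul_pos (T0 j) (hX l)).le).1 n4

end Pool.Agent.Helper73.BL.F12

namespace Pool.Agent.Helper73.BL

theorem s_f1 : S_F1 := fun f s₀ hf => F12.disc f s₀ hf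

theorem s_f2 : S_F2 := fun d k K g X L H C₁ C₂ ε j₁ _ hK hX hH hC₁ hC₂ hε hL hd hm hb =>
  F12.bc d k K g X L H C₁ C₂ ε j₁ hK hX hH hC₁ hC₂ hε hL hd hm hb

end Pool.Agent.Helper73.BL
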