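import Pool.Agent.Helper73.BL.St5
import Pool.Agent.Helper73.BL.F12

/-!
# Barnes zeta functions in large dimension: module F2 with moments along vertical segments
-/

set_option autoImplicit false

namespace Pool.Agent.Helper73.BL.F12

open MeasureTheory Metric Set Filter
open scoped ENNReal

/-- Borel-Cantelli for the integrals over the rectangles -/
lemma bcI (d k : ℕ) (K : Set (Fin d → ℝ)) (g : ℕ → ℂ → (Fin d → ℝ) → ℂ) (X : ℕ → ℝ)
    (L : ℕ → Finset ℕ) (H C₁ C₂ ε : ℝ) (j₁ : ℕ) (hK : MeasurableSet K)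
    (hX : ∀ l, 0 < X l) (hH : 0 < H) (hC₁ : 0 < C₁) (hC₂ : 0 < C₂) (hε : 0 < ε)
    (hL : ∀ j, ((L j).card : ℝ) ≤ C₂ * (j + 1))
    (hm : ∀ l, Measurable fun p : ℂ × (Fin d → ℝ) => g l p.1 p.2)
    (hb : ∀ j, j₁ ≤ j → ∀ l ∈ L j, ∀ z : ℂ, -2 ≤ z.re → z.re ≤ H + 2 → (2 : ℝ) ^ j - 2 ≤ z.im →
      z.im ≤ (2 : ℝ) ^ (j + 1) + 2 →
      ∫⁻ v in K, ENNReal.ofReal (‖g l z v‖ ^ (2 * k)) ≤ ENNReal.ofReal (C₁ * X l)) :
    ∀ᵐ v : Fin d → ℝ, v ∈ K → ∃ j₀ : ℕ, ∀ j, j₀ ≤ j → ∀ l ∈ L j,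
      ∫⁻ z in R H j, ENNReal.ofReal (‖g l z v‖ ^ (2 * k)) ≤
        ENNReal.ofReal (((2 : ℝ) ^ j) ^ (1 + ε) * X l) := by
  classical
  set μ : Measure (Fin d → ℝ) := volume.restrict K with hμ
  set T : ℕ → ℝ := fun j => ((2 : ℝ) ^ j) ^ (1 + ε) with hT
  have T0 : ∀ j, 0 < T j := fun j => Real.rpow_pos_of_pos (by positivity) _
  set I : ℕ → ℕ → (Fin d → ℝ) → ℝ≥0∞ :=
    fun j l v => ∫⁻ z in R H j, ENNReal.ofReal (‖g l z v‖ ^ (2 * k)) with hI
  have mF : ∀ l, Measurable fun p : ℂ × (Fin d → ℝ) => ENNReal.ofReal (‖g l p.1 p.2‖ ^ (2 * k)) :=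
    fun l => ((hm l).norm.pow_const _).ennreal_ofReal
  have mI : ∀ j l, Measurable (I j l) := fun j l => (mF l).lintegral_prod_left'
  have bI : ∀ j, j₁ ≤ j → ∀ l ∈ L j, ∫⁻ v, I j l v ∂μ ≤
      ENNReal.ofReal (C₁ * X l) * ENNReal.ofReal ((H + 4) * ((2 : ℝ) ^ j + 4)) := by
    intro j hj l hl
    have sw : ∫⁻ v, I j l v ∂μ =
        ∫⁻ z in R H j, ∫⁻ v in K, ENNReal.ofReal (‖g l z v‖ ^ (2 * k)) :=
      lintegral_lintegral_swap ((mF l).comp measurable_swap).aemeasurable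
    rw [sw, ← R_vol H hH j, ← setLIntegral_const]
    exact setLIntegral_mono' (R_meas H j) fun z hz => hb j hj l hl z hz.1.1 hz.1.2 hz.2.1 hz.2.2
  set A : ℕ → ℕ → Set (Fin d → ℝ) := fun j l => {v | ENNReal.ofReal (T j * X l) ≤ I j l v} with hA
  have mA : ∀ j, j₁ ≤ j → ∀ l ∈ L j, μ (A j l) ≤
      ENNReal.ofReal (C₁ * (H + 4) * ((2 : ℝ) ^ j + 4) / T j) := by
    intro j hj l hl
    have hp : 0 < T j * X l := mul_pos (T0 j) (hX l)
    refine (meas_ge_le_lintegral_div (mI j l).aemeasurable (ENNReal.ofReal_pos.2 hp).ne'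
      ENNReal.ofReal_ne_top).trans ?_
    refine (ENNReal.div_le_div_right (bI j hj l hl) _).trans ?_
    rw [← ENNReal.ofReal_mul (mul_pos hC₁ (hX l)).le, ← ENNReal.ofReal_div_of_pos hp]
    refine ENNReal.ofReal_le_ofReal (le_of_eq ?_)
    have := (T0 j).ne'
    have := (hX l).ne'
    field_simp
  set B : ℕ → Set (Fin d → ℝ) := fun j => if j₁ ≤ j then ⋃ l ∈ L j, A j l else ∅ with hB
  have mB : ∀ j, μ (B j) ≤ ENNReal.ofReal
      (C₂ * C₁ * (H + 4) * (((j : ℝ) + 1) * ((2 : ℝ) ^ j + 4) / T j)) := by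
    intro j
    by_cases hj : j₁ ≤ j
    · simp only [hB, if_pos hj]
      refine (measure_biUnion_finset_le (L j) (A j)).trans ?_
      refine (Finset.sum_le_sum fun l hl => mA j hj l hl).trans ?_
      rw [Finset.sum_const, nsmul_eq_mul, ← ENNReal.ofReal_natCast,
        ← ENNReal.ofReal_mul (Nat.cast_nonneg _)]
      refine ENNReal.ofReal_le_ofReal ?_
      have h0 : 0 ≤ C₁ * (H + 4) * ((2 : ℝ) ^ j + 4) / T j := by
        have := T0 j
        positivity
      refine (mul_le_mul_of_nonneg_right (hL j) h0).trans (le_of_eq ?_)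
      ring
    · simp only [hB, if_neg hj, measure_empty]
      exact zero_le
  have sB : (∑' j, μ (B j)) ≠ ∞ := by
    have hs : Summable fun j : ℕ =>
        C₂ * C₁ * (H + 4) * (((j : ℝ) + 1) * ((2 : ℝ) ^ j + 4) / T j) := (summ hε).mul_left _
    refine ne_top_of_le_ne_top ?_ (ENNReal.tsum_le_tsum mB)
    rw [← ENNReal.ofReal_tsum_of_nonneg (fun j => ?_) hs]
    · exact ENNReal.ofReal_ne_top
    · have := T0 j
      positivity
  have key : ∀ᵐ v ∂μ, ∀ᶠ n in atTop, v ∉ B n := ae_eventually_notMem sB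
  rw [hμ, ae_restrict_iff' hK] at key
  filter_upwards [key] with v hv hvK
  obtain ⟨j₀, hj₀⟩ := eventually_atTop.1 (hv hvK)
  refine ⟨max j₀ j₁, fun j hj l hl => ?_⟩
  have hjj : j₁ ≤ j := (le_max_right _ _).trans hj
  have n1 := hj₀ j ((le_max_left _ _).trans hj)
  simp only [hB, if_pos hjj, mem_iUnion, not_exists] at n1
  have n2 := n1 l hl
  simp only [hA, mem_ofPred_eq, not_le] at n2
  exact n2.le

/-- the integral along a vertical segment is at most four times the integral over the rectangle -/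
lemma seg (f : ℂ → ℂ) (hf : Differentiable ℂ f) {H σ : ℝ} {j : ℕ} (h1 : 0 ≤ σ) (h2 : σ ≤ H) :
    ∫⁻ t in Icc ((2 : ℝ) ^ j) ((2 : ℝ) ^ (j + 1)), ENNReal.ofReal ‖f ((σ : ℂ) + t * Complex.I)‖ ≤
      ENNReal.ofReal 4 * ∫⁻ z in R H j, ENNReal.ofReal ‖f z‖ := by
  classical
  set F : ℂ → ℝ≥0∞ := fun z => ENNReal.ofReal ‖f z‖ with hF
  set J : Set ℝ := Icc ((2 : ℝ) ^ j) ((2 : ℝ) ^ (j + 1)) with hJ
  set S : Set (ℝ × ℂ) := {p | dist p.2 ((σ : ℂ) + p.1 * Complex.I) ≤ 2} with hS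
  have hSm : MeasurableSet S := by
    refine (isClosed_le ?_ continuous_const).measurableSet
    fun_prop
  have hFm : Measurable F := (hf.continuous.norm.measurable).ennreal_ofReal
  have st1 : ∀ t ∈ J, ENNReal.ofReal ‖f ((σ : ℂ) + t * Complex.I)‖ ≤
      ∫⁻ z in R H j, S.indicator (fun p => F p.2) (t, z) := by
    intro t ht
    refine (disc f _ hf).trans ?_
    have hsub : closedBall ((σ : ℂ) + t * Complex.I) 2 ⊆ R H j := by
      apply ball_sub
      · simpa using h1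
      · simpa using h2
      · simpa using ht.1
      · simpa using ht.2
    refine le_trans (le_of_eq ?_) (lintegral_mono_set hsub)
    refine setLIntegral_congr_fun measurableSet_closedBall fun z hz => ?_
    have : (t, z) ∈ S := by simpa [hS] using hz
    simp only [indicator_of_mem this, hF]
  calc ∫⁻ t in J, ENNReal.ofReal ‖f ((σ : ℂ) + t * Complex.I)‖
      ≤ ∫⁻ t in J, ∫⁻ z in R H j, S.indicator (fun p => F p.2) (t, z) :=
        setLIntegral_mono' measurableSet_Icc st1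
    _ = ∫⁻ z in R H j, ∫⁻ t in J, S.indicator (fun p => F p.2) (t, z) := by
        refine lintegral_lintegral_swap ?_
        have : Measurable (S.indicator fun p : ℝ × ℂ => F p.2) :=
          (hFm.comp measurable_snd).indicator hSm
        exact this.aemeasurable
    _ ≤ ∫⁻ z in R H j, ENNReal.ofReal 4 * F z := by
        refine lintegral_mono fun z => ?_
        have hle : ∀ t : ℝ, S.indicator (fun p : ℝ × ℂ => F p.2) (t, z) ≤
            (Icc (z.im - 2) (z.im + 2)).indicator (fun _ => F z) t := by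
          intro t
          by_cases ht : (t, z) ∈ S
          · have h3 : t ∈ Icc (z.im - 2) (z.im + 2) := by
              have h4 : dist z ((σ : ℂ) + t * Complex.I) ≤ 2 := ht
              rw [dist_eq_norm] at h4
              have h5 := (Complex.abs_im_le_norm _).trans h4
              simp only [Complex.sub_im, Complex.add_im, Complex.ofReal_im, Complex.mul_im,
                Complex.ofReal_re, Complex.I_im, mul_one, Complex.I_re, mul_zero, add_zero,
                zero_add, abs_le] at h5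
              exact ⟨by linarith [h5.2], by linarith [h5.1]⟩
            rw [indicator_of_mem ht, indicator_of_mem h3]
          · rw [indicator_of_notMem ht]
            exact zero_le
        refine (lintegral_mono hle).trans ?_
        refine (setLIntegral_le_lintegral _ _).trans ?_
        rw [lintegral_indicator measurableSet_Icc, lintegral_const, Measure.restrict_apply_univ,
          Real.volume_Icc, mul_comm]
        gcongr
        linarith
    _ = ENNReal.ofReal 4 * ∫⁻ z in R H j, F z := lintegral_const_mul _ hFm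

end Pool.Agent.Helper73.BL.F12

namespace Pool.Agent.Helper73.BL

open MeasureTheory Set Filter F12

theorem s_f2m : S_F2M := by
  intro d k K g X L H C₁ C₂ ε j₁ hk hK hX hH hC₁ hC₂ hε hL hd hm hb
  have h := bcI d k K g X L H C₁ C₂ (ε / 2) j₁ hK hX hH hC₁ hC₂ (by positivity) hL hm hb
  filter_upwards [h] with v hv hvK
  obtain ⟨j₀, hj₀⟩ := hv hvK
  -- `4 ≤ (2 ^ j) ^ (ε / 2)` for large `j`
  obtain ⟨j₂, hj₂⟩ : ∃ j₂ : ℕ, ∀ j, j₂ ≤ j → (4 : ℝ) ≤ ((2 : ℝ) ^ j) ^ (ε / 2) := by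
    obtain ⟨n, hn⟩ := exists_nat_gt (4 / ε)
    refine ⟨n, fun j hj => ?_⟩
    have h1 : (4 : ℝ) / ε < j := hn.trans_le (by exact_mod_cast hj)
    have h2 : (2 : ℝ) ≤ j * (ε / 2) := by
      rw [div_lt_iff₀ hε] at h1
      linarith
    rw [← Real.rpow_natCast, ← Real.rpow_mul (by norm_num)]
    calc (4 : ℝ) = (2 : ℝ) ^ (2 : ℝ) := by norm_num
      _ ≤ _ := Real.rpow_le_rpow_of_exponent_le (by norm_num) h2
  refine ⟨max j₀ j₂, fun j hj l hl σ h1 h2 => ?_⟩
  have h3 := hj₀ j ((le_max_left _ _).trans hj) l hl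
  have h4 := hj₂ j ((le_max_right _ _).trans hj)
  have h5 := seg (H := H) (j := j) (fun z => (g l z v) ^ (2 * k)) ((hd l v hvK).pow _) h1 h2
  simp only [norm_pow] at h5
  refine h5.trans ((mul_le_mul_right h3 _).trans ?_)
  rw [← ENNReal.ofReal_mul (by norm_num)]
  refine ENNReal.ofReal_le_ofReal ?_
  have h6 : (0 : ℝ) < (2 : ℝ) ^ j := by positivity
  have h7 : ((2 : ℝ) ^ j) ^ (1 + ε) = ((2 : ℝ) ^ j) ^ (ε / 2) * ((2 : ℝ) ^ j) ^ (1 + ε / 2) := by
    rw [← Real.rpow_add h6]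
    congr 1
    ring
  rw [h7, ← mul_assoc]
  have := hX l
  gcongr

end Pool.Agent.Helper73.BL
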