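import Pool.Agent.Helper73.BL.St3

set_option autoImplicit false

/-!
# Barnes zeta functions in large dimension: the combinatorics of the shells
-/

namespace Pool.Agent.Helper73.BL

open Matrix

namespace F3

/-- independent rows of an integral matrix of full column rank -/
theorem rows {r d : ℕ} (B : Matrix (Fin r) (Fin d) ℤ) (hB : Inj B) :
    d ≤ r ∧ ∃ τ : Fin d → Fin r, Function.Injective τ ∧
      LinearIndependent ℚ fun x => (B.map (Int.cast : ℤ → ℚ)) (τ x) := by
  classical
  set A : Matrix (Fin r) (Fin d) ℚ := B.map (Int.cast : ℤ → ℚ) with hA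
  have hinj : Function.Injective A.mulVecLin := by
    intro x y hxy
    exact hB (by simpa using hxy)
  have hrk : A.rank = d := by
    unfold Matrix.rank
    rw [LinearMap.finrank_range_of_inj hinj]
    simp
  have hle : d ≤ r := by
    have := A.rank_le_height
    omega
  refine ⟨hle, ?_⟩
  obtain ⟨f, hf1, -, hf3⟩ := Submodule.exists_fun_fin_finrank_span_eq ℚ (Set.range A.row)
  have hfr : Module.finrank ℚ (Submodule.span ℚ (Set.range A.row)) = d := by
    rw [← Matrix.rank_eq_finrank_span_row, hrk]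
  choose g hg using hf1
  have hli : LinearIndependent ℚ fun x : Fin d => A (g (Fin.cast hfr.symm x)) := by
    have h1 : (fun x : Fin d => A (g (Fin.cast hfr.symm x))) = f ∘ Fin.cast hfr.symm := by
      funext x
      exact hg _
    rw [h1]
    exact hf3.comp _ (Fin.cast_injective _)
  refine ⟨fun x => g (Fin.cast hfr.symm x), ?_, hli⟩
  intro x y hxy
  apply hli.injective
  simp only at hxy ⊢
  rw [hxy]

/-- the transposed matrix applied to a vector of natural numbers -/
def T {r d : ℕ} (B : Matrix (Fin r) (Fin d) ℤ) (m : Fin r → ℕ) : Fin d → ℤ :=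
  fun j => ∑ i, (m i : ℤ) * B i j

/-- the box -/
def Box (r M : ℕ) : Finset (Fin r → ℕ) := Fintype.piFinset (fun _ : Fin r => Finset.range M)

theorem fiber_card {r d : ℕ} (B : Matrix (Fin r) (Fin d) ℤ) (hB : Inj B) (M : ℕ)
    (n : Fin d → ℤ) : ((Box r M).filter fun m => T B m = n).card ≤ M ^ (r - d) := by
  classical
  obtain ⟨hle, τ, hτ, hli⟩ := rows B hB
  have hcard : Fintype.card {i // i ∉ Set.range τ} = r - d := by
    have h1 := Fintype.card_subtype_compl (fun i => i ∈ Set.range τ)
    have h2 : Fintype.card {i // i ∈ Set.range τ} = d := by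
      rw [← Fintype.card_congr (Equiv.ofInjective τ hτ)]
      simp
    rw [h2] at h1
    simpa using h1
  have hbox : (Fintype.piFinset (fun _ : {i // i ∉ Set.range τ} => Finset.range M)).card =
      M ^ (r - d) := by
    rw [Fintype.card_piFinset, Finset.prod_const, Finset.card_range, Finset.card_univ, hcard]
  rw [← hbox]
  apply Finset.card_le_card_of_injOn (fun m i => m i.1)
  · intro m hm
    simp only [Finset.coe_filter, Set.mem_ofPred_eq, Box, Fintype.mem_piFinset,
      Finset.mem_range] at hm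
    simp only [Finset.mem_coe, Fintype.mem_piFinset, Finset.mem_range]
    intro i
    exact hm.1 i.1
  · intro m hm m' hm' hmm
    simp only [Finset.coe_filter, Set.mem_ofPred_eq] at hm hm'
    have hoff : ∀ i, i ∉ Set.range τ → m i = m' i := by
      intro i hi
      have := congrFun hmm ⟨i, hi⟩
      simpa using this
    have hT : T B m = T B m' := hm.2.trans hm'.2.symm
    have hsum : ∑ x : Fin d, ((m (τ x) : ℚ) - m' (τ x)) • (B.map (Int.cast : ℤ → ℚ)) (τ x) = 0 := by
      funext j
      have h1 := congrFun hT j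
      simp only [T] at h1
      have h2 : ∑ i, ((m i : ℤ) - m' i) * B i j = 0 := by
        simp only [sub_mul, Finset.sum_sub_distrib]
        rw [h1, sub_self]
      have h3 : ∑ i, ((m i : ℤ) - m' i) * B i j = ∑ x : Fin d, ((m (τ x) : ℤ) - m' (τ x)) * B (τ x) j := by
        rw [← Finset.sum_image (s := Finset.univ) (g := τ)
          (f := fun i => ((m i : ℤ) - m' i) * B i j) (fun x _ y _ h => hτ h)]
        symm
        apply Finset.sum_subset (Finset.subset_univ _)
        intro i _ hi
        have : i ∉ Set.range τ := by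
          rintro ⟨x, rfl⟩
          exact hi (Finset.mem_image_of_mem _ (Finset.mem_univ _))
        rw [hoff i this]
        ring
      rw [h3] at h2
      have h4 : ((∑ x : Fin d, ((m (τ x) : ℤ) - m' (τ x)) * B (τ x) j : ℤ) : ℚ) = 0 := by
        rw [h2]; simp
      push_cast at h4
      simpa [Finset.sum_apply, Pi.smul_apply, Matrix.map_apply] using h4
    have hz := Fintype.linearIndependent_iff.1 hli (fun x => (m (τ x) : ℚ) - m' (τ x)) hsum
    funext i
    by_cases hi : i ∈ Set.range τ
    · obtain ⟨x, rfl⟩ := hi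
      have := hz x
      have h5 : (m (τ x) : ℚ) = m' (τ x) := by linarith
      exact_mod_cast h5
    · exact hoff i hi

theorem lam_T {r d : ℕ} (B : Matrix (Fin r) (Fin d) ℤ) (a : ℝ) (m : Fin r → ℕ) (v : Fin d → ℝ) :
    lam a (T B m) v = a + ∑ i, (m i : ℝ) * mv B v i := by
  unfold lam T mv
  congr 1
  push_cast
  simp only [Finset.sum_mul, Finset.mul_sum]
  rw [Finset.sum_comm]
  apply Finset.sum_congr rfl
  intro i _
  apply Finset.sum_congr rfl
  intro j _
  ring

end F3

open F3 in
theorem s_f3 : S_F3 := by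
  classical
  intro r d B hd hB
  obtain ⟨hle, -⟩ := rows B hB
  refine ⟨hle, ?_⟩
  set S0 : ℕ := ∑ i, ∑ j, (B i j).natAbs with hS0
  refine ⟨S0 + 1, by omega, ?_⟩
  intro l N hN
  set M : ℕ := 2 ^ (l + 1) with hM
  set Sh : Finset (Fin r → ℕ) := (Box r M) \ (Box r (2 ^ l)) with hSh
  have hMpos : 0 < M := by positivity
  have hNpos : 0 < N := by rw [hN]; positivity
  have hMN : M ≤ N := by
    rw [hN]
    calc M = 1 * M := (one_mul _).symm
      _ ≤ (S0 + 1) * M := Nat.mul_le_mul_right _ (by omega)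
  have hNr : (0 : ℝ) < (N : ℝ) ^ (r - d) := by positivity
  refine ⟨Sh.image (T B), fun n => ((Sh.filter fun m => T B m = n).card : ℝ) / (N : ℝ) ^ (r - d),
    ?_, ?_, ?_, ?_⟩
  · intro n
    rw [abs_of_nonneg (by positivity), div_le_one hNr]
    have h1 : (Sh.filter fun m => T B m = n).card ≤ M ^ (r - d) := by
      refine le_trans (Finset.card_le_card ?_) (fiber_card B hB M n)
      apply Finset.filter_subset_filter
      exact Finset.sdiff_subset
    have h2 : M ^ (r - d) ≤ N ^ (r - d) := Nat.pow_le_pow_left hMN _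
    exact_mod_cast h1.trans h2
  · intro n hn j
    obtain ⟨m, hm, rfl⟩ := Finset.mem_image.1 hn
    have hmb : ∀ i, m i < M := by
      have := (Finset.mem_sdiff.1 hm).1
      simpa [Box] using this
    have h1 : |T B m j| ≤ ∑ i, (M : ℤ) * ((B i j).natAbs : ℤ) := by
      refine (Finset.abs_sum_le_sum_abs _ _).trans ?_
      apply Finset.sum_le_sum
      intro i _
      rw [abs_mul, Int.natCast_natAbs]
      have h2 : |(m i : ℤ)| ≤ (M : ℤ) := by
        rw [abs_of_nonneg (by positivity)]
        exact_mod_cast (hmb i).le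
      exact mul_le_mul_of_nonneg_right h2 (abs_nonneg _)
    have h3 : ∑ i, ((B i j).natAbs) ≤ S0 := by
      rw [hS0]
      apply Finset.sum_le_sum
      intro i _
      exact Finset.single_le_sum (f := fun j => (B i j).natAbs) (fun _ _ => Nat.zero_le _)
        (Finset.mem_univ j)
    have h4 : ∑ i, (M : ℤ) * ((B i j).natAbs : ℤ) ≤ (N : ℤ) := by
      rw [← Finset.mul_sum, hN]
      have h5 : (∑ i, ((B i j).natAbs : ℤ)) ≤ (S0 : ℤ) := by exact_mod_cast h3
      push_cast
      have h6 : (0 : ℤ) ≤ (M : ℤ) := by positivity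
      have h7 : (M : ℤ) * ∑ i, ((B i j).natAbs : ℤ) ≤ (M : ℤ) * (S0 : ℤ) :=
        mul_le_mul_of_nonneg_left h5 h6
      have h8 : ((2 : ℤ) ^ (l + 1)) = (M : ℤ) := by rw [hM]; push_cast; ring
      nlinarith
    exact h1.trans h4
  · intro n hn a c₀ v ha hc hv
    obtain ⟨m, hm, rfl⟩ := Finset.mem_image.1 hn
    rw [lam_T]
    have hmb : ∃ i, 2 ^ l ≤ m i := by
      have := (Finset.mem_sdiff.1 hm).2
      simpa [Box] using this
    obtain ⟨i, hi⟩ := hmb
    have h1 : (m i : ℝ) * mv B v i ≤ ∑ i, (m i : ℝ) * mv B v i := by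
      apply Finset.single_le_sum (f := fun i => (m i : ℝ) * mv B v i) _ (Finset.mem_univ i)
      intro i _
      have := hv i
      have : 0 ≤ mv B v i := by linarith
      positivity
    have h2 : (2 : ℝ) ^ l * c₀ ≤ (m i : ℝ) * mv B v i := by
      have h3 : ((2 : ℝ) ^ l) ≤ (m i : ℝ) := by exact_mod_cast hi
      exact mul_le_mul h3 (hv i) hc.le (by positivity)
    have h4 : c₀ / (2 * ((S0 + 1 : ℕ) : ℝ)) * (N : ℝ) = (2 : ℝ) ^ l * c₀ := by
      rw [hN]
      have hMr : (M : ℝ) = 2 ^ l * 2 := by rw [hM]; push_cast; ring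
      push_cast
      rw [hMr]
      have : ((S0 : ℝ) + 1) ≠ 0 := by positivity
      field_simp
    rw [h4]
    linarith
  · intro a v s ha hv
    have hsub : Box r (2 ^ l) ⊆ Box r M := by
      intro m hm
      simp only [Box, Fintype.mem_piFinset, Finset.mem_range] at hm ⊢
      intro i
      exact (hm i).trans_le (by rw [hM]; exact Nat.pow_le_pow_right (by norm_num) (by omega))
    have hterm : ∀ m : Fin r → ℕ, ((a + ∑ j, (m j : ℝ) * mv B v j : ℝ) : ℂ) ^ (-s) =
        (N : ℂ) ^ (-s) * term s a N (T B m) v := by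
      intro m
      have hpos : 0 ≤ lam a (T B m) v := by
        rw [lam_T]
        have : 0 ≤ ∑ i, (m i : ℝ) * mv B v i :=
          Finset.sum_nonneg fun i _ => mul_nonneg (by positivity) (hv i).le
        linarith
      rw [← lam_T, term]
      have hNR : (0 : ℝ) < N := by exact_mod_cast hNpos
      have h1 : ((lam a (T B m) v : ℝ) : ℂ) = ((N : ℝ) : ℂ) * ((lam a (T B m) v / N : ℝ) : ℂ) := by
        rw [← Complex.ofReal_mul]
        congr 1
        field_simp
      rw [h1, Complex.mul_cpow_ofReal_nonneg hNR.le (div_nonneg hpos hNR.le)]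
      norm_num
    have hdiff : boxSum r a (mv B v) (l + 1) s - boxSum r a (mv B v) l s =
        ∑ m ∈ Sh, ((a + ∑ j, (m j : ℝ) * mv B v j : ℝ) : ℂ) ^ (-s) := by
      have h0 := Finset.sum_sdiff (f := fun m : Fin r → ℕ =>
        ((a + ∑ j, (m j : ℝ) * mv B v j : ℝ) : ℂ) ^ (-s)) hsub
      unfold boxSum
      rw [hSh]
      change ∑ m ∈ Box r M, ((a + ∑ j, (m j : ℝ) * mv B v j : ℝ) : ℂ) ^ (-s) -
        ∑ m ∈ Box r (2 ^ l), ((a + ∑ j, (m j : ℝ) * mv B v j : ℝ) : ℂ) ^ (-s) = _
      rw [← h0]
      ring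
    rw [hdiff]
    have hfib := Finset.sum_fiberwise_of_maps_to (s := Sh) (t := Sh.image (T B)) (g := T B)
      (fun m hm => Finset.mem_image_of_mem _ hm)
      (fun m => ((a + ∑ j, (m j : ℝ) * mv B v j : ℝ) : ℂ) ^ (-s))
    rw [← hfib, Finset.mul_sum]
    apply Finset.sum_congr rfl
    intro n _
    have h1 : ∑ m ∈ Sh with T B m = n, ((a + ∑ j, (m j : ℝ) * mv B v j : ℝ) : ℂ) ^ (-s) =
        ∑ m ∈ Sh with T B m = n, (N : ℂ) ^ (-s) * term s a N n v := by
      apply Finset.sum_congr rfl
      intro m hm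
      rw [hterm m, (Finset.mem_filter.1 hm).2]
    rw [h1, Finset.sum_const, nsmul_eq_mul]
    have h2 : ((N : ℂ) ^ (r - d)) ≠ 0 := by
      have : (N : ℂ) ≠ 0 := by exact_mod_cast hNpos.ne'
      exact pow_ne_zero _ this
    push_cast
    field_simp

end Pool.Agent.Helper73.BL
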