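import Pool.Agent.Helper73.BL.F4

set_option autoImplicit false

/-!
# Barnes zeta functions in large dimension: box sums for almost every vector
-/

namespace Pool.Agent.Helper73.BL

open MeasureTheory Metric Finset

lemma low_ineq {CB θ θ₁ : ℝ} (hCB : 1 ≤ CB) (h0 : 0 < θ) (h1 : θ < θ₁) (h2 : θ₁ ≤ 1) :
    ∃ x₀ : ℝ, 4 ≤ x₀ ∧ ∀ x : ℝ, x₀ ≤ x → CB * (2 * x) ^ θ ≤ (x - 2) ^ θ₁ := by
  refine ⟨max 4 ((CB * 4) ^ (1 / (θ₁ - θ))), le_max_left _ _, fun x hx => ?_⟩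
  have hx4 : 4 ≤ x := (le_max_left _ _).trans hx
  have hx0 : 0 < x := by linarith
  have hθ : 0 < θ₁ - θ := by linarith
  have e1 : CB * 4 ≤ x ^ (θ₁ - θ) := by
    have h3 : (CB * 4) ^ (1 / (θ₁ - θ)) ≤ x := (le_max_right _ _).trans hx
    calc CB * 4 = ((CB * 4) ^ (1 / (θ₁ - θ))) ^ (θ₁ - θ) := by
          rw [← Real.rpow_mul (by positivity), one_div, inv_mul_cancel₀ hθ.ne', Real.rpow_one]
      _ ≤ _ := Real.rpow_le_rpow (by positivity) h3 hθ.le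
  have e2 : (x / 2) ^ θ₁ ≤ (x - 2) ^ θ₁ :=
    Real.rpow_le_rpow (by positivity) (by linarith) (by linarith)
  refine le_trans ?_ e2
  have e3 : (2 : ℝ) ^ θ * 2 ^ θ₁ ≤ 4 := by
    rw [← Real.rpow_add (by norm_num)]
    calc (2 : ℝ) ^ (θ + θ₁) ≤ 2 ^ (2 : ℝ) := Real.rpow_le_rpow_of_exponent_le (by norm_num) (by linarith)
      _ = 4 := by norm_num
  rw [Real.mul_rpow (by norm_num) hx0.le, Real.div_rpow hx0.le (by norm_num), le_div_iff₀ (by positivity)]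
  have e4 : x ^ θ₁ = x ^ θ * x ^ (θ₁ - θ) := by
    rw [← Real.rpow_add hx0]
    congr 1
    ring
  rw [e4]
  calc CB * (2 ^ θ * x ^ θ) * 2 ^ θ₁ = x ^ θ * (CB * (2 ^ θ * 2 ^ θ₁)) := by ring
    _ ≤ x ^ θ * (CB * 4) := by gcongr
    _ ≤ _ := by gcongr

/-- bound for one shell at a good point -/
lemma shell_bound {k d r N : ℕ} {G : ℂ} {y ε₂ σ : ℝ} {s : ℂ} (hk : 1 ≤ k) (hdr : d ≤ r)
    (hN : 1 ≤ N) (hy : 0 < y) (hs : s.re = σ)
    (hG : ‖G‖ ^ (2 * k) ≤ y ^ (1 + ε₂) * (N : ℝ) ^ (k * d)) :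
    ‖(N : ℂ) ^ (-s) * (N : ℂ) ^ (r - d) * G‖ ≤
      (N : ℝ) ^ ((r : ℝ) - d / 2 - σ) * y ^ ((1 + ε₂) / (2 * (k : ℝ))) := by
  have hN0 : (0 : ℝ) < N := by exact_mod_cast hN
  have hk0 : (0 : ℝ) < k := by exact_mod_cast hk
  have h1 : ‖G‖ ≤ y ^ ((1 + ε₂) / (2 * (k : ℝ))) * (N : ℝ) ^ ((d : ℝ) / 2) := by
    have h2 : ‖G‖ = (‖G‖ ^ (2 * k)) ^ (((2 * k : ℕ) : ℝ)⁻¹) :=
      (Real.pow_rpow_inv_natCast (norm_nonneg _) (by omega)).symm
    rw [h2]
    calc (‖G‖ ^ (2 * k)) ^ (((2 * k : ℕ) : ℝ)⁻¹) ≤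
        (y ^ (1 + ε₂) * (N : ℝ) ^ (k * d)) ^ (((2 * k : ℕ) : ℝ)⁻¹) :=
          Real.rpow_le_rpow (by positivity) hG (by positivity)
      _ = _ := by
          rw [Real.mul_rpow (by positivity) (by positivity), ← Real.rpow_mul hy.le,
            ← Real.rpow_natCast (N : ℝ) (k * d), ← Real.rpow_mul hN0.le]
          congr 2
          · push_cast
            rw [div_eq_mul_inv]
          · push_cast
            field_simp
  rw [norm_mul, norm_mul, norm_pow, Complex.norm_natCast,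
    Complex.norm_natCast_cpow_of_pos (by omega), Complex.neg_re, hs]
  have e1 : (N : ℝ) ^ ((r : ℝ) - d / 2 - σ) =
      (N : ℝ) ^ (-σ) * (N : ℝ) ^ (r - d) * (N : ℝ) ^ ((d : ℝ) / 2) := by
    rw [← Real.rpow_natCast (N : ℝ) (r - d), ← Real.rpow_add hN0, ← Real.rpow_add hN0,
      Nat.cast_sub hdr]
    congr 1
    ring
  rw [e1]
  calc (N : ℝ) ^ (-σ) * (N : ℝ) ^ (r - d) * ‖G‖ ≤
      (N : ℝ) ^ (-σ) * (N : ℝ) ^ (r - d) *
        (y ^ ((1 + ε₂) / (2 * (k : ℝ))) * (N : ℝ) ^ ((d : ℝ) / 2)) := by gcongr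
    _ = _ := by ring

/-- the local version -/
lemma local_f (hM : S_M) (hCL : S_CL2) (hF2 : S_F2) (hF3 : S_F3) {k d r : ℕ} {a : ℝ}
    {B : Matrix (Fin r) (Fin d) ℤ} {θ η : ℝ} (hk : 1 ≤ k) (hd : 4 * k + 1 ≤ d) (ha : 0 < a)
    (hB : Inj B) (hθ : 0 < θ) (hθd : θ * d < 1) (hη : 1 / (2 * (k : ℝ)) < η)
    (v₀ : Fin d → ℝ) {ϱ c₀ : ℝ} (hϱ : 0 < ϱ) (hc₀ : 0 < c₀)
    (hK : ∀ v ∈ closedBall v₀ (2 * ϱ), ∀ i, c₀ ≤ mv B v i) :
    ∀ᵐ v : Fin d → ℝ, v ∈ closedBall v₀ (ϱ / 2) →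
      ∃ C : ℝ, 0 ≤ C ∧ ∀ (i : ℕ) (σ t : ℝ), (2 : ℝ) ^ i ≤ t ^ θ → 0 ≤ σ → σ ≤ r + 1 → 1 ≤ t →
        ‖boxSum r a (mv B v) i ((σ : ℂ) + t * Complex.I)‖ ≤
          C * t ^ η * ((2 : ℝ) ^ i) ^ (max 0 ((r : ℝ) - d / 2 - σ)) := by
  classical
  have hd0 : (0 : ℝ) < d := by
    have : 0 < d := by omega
    exact_mod_cast this
  have hk0 : (0 : ℝ) < k := by exact_mod_cast hk
  obtain ⟨hdr, CB, hCB, hsh⟩ := hF3 r d B (by omega) hB
  choose S co hco hSN hSlow hEq using fun l => hsh l (CB * 2 ^ (l + 1)) rfl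
  set Nn : ℕ → ℕ := fun l => CB * 2 ^ (l + 1) with hNn
  have hCB1 : (1 : ℝ) ≤ CB := by exact_mod_cast hCB
  have hCB0 : (0 : ℝ) < CB := by linarith
  have hNn1 : ∀ l, 1 ≤ Nn l := fun l => by
    simp only [hNn]
    exact Nat.one_le_iff_ne_zero.2 (by positivity)
  have hNncast : ∀ l, (Nn l : ℝ) = CB * 2 ^ (l + 1) := fun l => by simp [hNn]
  set A : ℝ := max (max a (1 / a)) 1 with hA
  have hA1 : 1 ≤ A := le_max_right _ _
  have haA : a ≤ A := (le_max_left _ _).trans (le_max_left _ _)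
  have hAa : 1 / A ≤ a := by
    have h1 : 1 / a ≤ A := (le_max_right _ _).trans (le_max_left _ _)
    rw [div_le_iff₀ ha] at h1
    rw [div_le_iff₀ (by linarith)]
    linarith
  set c : ℝ := c₀ / (2 * CB) with hcdef
  have hc : 0 < c := by positivity
  set θ₁ : ℝ := (θ + 1 / d) / 2 with hθ₁
  have hθinv : θ < 1 / d := by rwa [lt_div_iff₀ hd0]
  have hθθ₁ : θ < θ₁ := by rw [hθ₁]; linarith
  have hθ₁d' : θ₁ < 1 / d := by rw [hθ₁]; linarith
  have hθ₁d : θ₁ * d < 1 := by rwa [lt_div_iff₀ hd0] at hθ₁d'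
  have hd1 : (1 : ℝ) ≤ d := by
    have : 1 ≤ d := by omega
    exact_mod_cast this
  have hθ₁1 : θ₁ ≤ 1 := by nlinarith
  have hθ1 : θ ≤ 1 := by linarith
  set ε : ℝ := min (1 / 8) ((1 - θ₁ * d) / 4) with hεdef
  have hε : 0 < ε := lt_min (by norm_num) (by linarith)
  have hε8 : ε ≤ 1 / 8 := min_le_left _ _
  have hεθ : θ₁ * d ≤ 1 - 4 * ε := by
    have : ε ≤ (1 - θ₁ * d) / 4 := min_le_right _ _
    linarith
  obtain ⟨CM, t₀, hCM, ht₀, hmom⟩ := moment hM hCL v₀ hk hd hϱ hc hA1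
    (H := r + 3) (by positivity) hε hε8
  set ε₂ : ℝ := (2 * k * η - 1) / 2 with hε₂
  have hη0 : 0 < η := lt_trans (by positivity) hη
  have hε₂0 : 0 < ε₂ := by
    rw [div_lt_iff₀ (by positivity)] at hη
    rw [hε₂]
    linarith
  set η₁ : ℝ := (1 + ε₂) / (2 * (k : ℝ)) with hη₁
  have hη₁η : η₁ < η := by
    rw [hη₁, div_lt_iff₀ (by positivity)]
    linarith
  have hη₁0 : 0 < η₁ := by positivity
  set L : ℕ → Finset ℕ := fun j =>
    (Finset.range (j + 1)).filter (fun l => (Nn l : ℝ) ≤ ((2 : ℝ) ^ j - 2) ^ θ₁) with hL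
  obtain ⟨j₁, hj₁⟩ : ∃ j₁ : ℕ, t₀ + 2 ≤ (2 : ℝ) ^ j₁ := by
    obtain ⟨n, hn⟩ := pow_unbounded_of_one_lt (t₀ + 2) (show (1 : ℝ) < 2 by norm_num)
    exact ⟨n, hn.le⟩
  have hsubK : closedBall v₀ (ϱ / 2) ⊆ closedBall v₀ (2 * ϱ) :=
    closedBall_subset_closedBall (by linarith)
  have hAdm : ∀ l, ∀ n ∈ S l, Adm (closedBall v₀ (2 * ϱ)) c (Nn l) a n := by
    intro l n hn
    refine ⟨hSN l n hn, fun v hv => ?_⟩
    exact hSlow l n hn a c₀ v ha hc₀ (hK v hv)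
  have hBC := hF2 d k (closedBall v₀ (ϱ / 2))
    (fun l z v => ∑ n ∈ S l, (co l n : ℂ) * term z a (Nn l) n v)
    (fun l => (Nn l : ℝ) ^ (k * d)) L (r + 1) CM 1 ε₂ j₁ hk measurableSet_closedBall
    (fun l => by
      have := hNn1 l
      positivity) (by positivity) hCM one_pos hε₂0
    (by
      intro j
      rw [one_mul]
      have h1 : (L j).card ≤ j + 1 := by
        refine (Finset.card_filter_le _ _).trans ?_
        rw [Finset.card_range]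
      exact_mod_cast h1)
    (by
      intro l v hv
      refine Differentiable.fun_sum fun n hn => Differentiable.const_mul (term_diff ?_) _
      exact (lam_pos' (hNn1 l) hc (hAdm l n hn) (hsubK hv)).2)
    (by
      intro l
      refine Finset.measurable_sum _ fun n _ => (term_meas2 a (Nn l) n).const_mul _)
    (by
      intro j hj l hl z hz1 hz2 hz3 hz4
      rw [hL] at hl
      simp only [Finset.mem_filter, Finset.mem_range] at hl
      have h2j : (2 : ℝ) ^ j₁ ≤ 2 ^ j := pow_le_pow_right₀ (by norm_num) hj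
      have ht : t₀ ≤ z.im := by linarith
      have ht1 : 1 ≤ z.im := ht₀.trans ht
      refine hmom (Nn l) a (S l) (co l) z (hco l) (hNn1 l) hAa haA (hAdm l) ?_ ht ?_
      · rw [abs_le]
        constructor
        · have : (0 : ℝ) ≤ r := Nat.cast_nonneg r
          linarith
        · linarith
      · have h3 : (Nn l : ℝ) ≤ z.im ^ θ₁ := by
          refine hl.2.trans (Real.rpow_le_rpow (by linarith) hz3 (by linarith))
        calc (Nn l : ℝ) ^ d ≤ (z.im ^ θ₁) ^ d := pow_le_pow_left₀ (Nat.cast_nonneg _) h3 _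
          _ = z.im ^ (θ₁ * d) := by rw [Real.rpow_mul (by linarith), Real.rpow_natCast]
          _ ≤ _ := Real.rpow_le_rpow_of_exponent_le ht1 hεθ)
  filter_upwards [hBC] with v hv hvK
  obtain ⟨j₀, hj₀⟩ := hv hvK
  have hw : ∀ i, 0 < mv B v i := fun i => hc₀.trans_le (hK v (hsubK hvK) i)
  obtain ⟨x₀, hx₀4, hx₀⟩ := low_ineq hCB1 hθ hθθ₁ hθ₁1
  obtain ⟨j₂, hj₂⟩ : ∃ j₂ : ℕ, x₀ ≤ (2 : ℝ) ^ j₂ := by
    obtain ⟨n, hn⟩ := pow_unbounded_of_one_lt x₀ (show (1 : ℝ) < 2 by norm_num)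
    exact ⟨n, hn.le⟩
  set J : ℕ := max j₀ j₂ with hJ
  set A₀ : ℝ := max 1 (a ^ (-((r : ℝ) + 1))) with hA₀
  have hA₀0 : 0 ≤ A₀ := le_trans (by norm_num) (le_max_left _ _)
  set e : ℝ := η - η₁ with he
  have he0 : 0 < e := by rw [he]; linarith
  have hlog2 : 0 < Real.log 2 := Real.log_pos (by norm_num)
  set C₈ : ℝ := 1 / (e * Real.log 2) * (CB : ℝ) ^ r with hC₈
  have hC₈0 : 0 ≤ C₈ := by positivity
  refine ⟨A₀ + C₈ + ((2 : ℝ) ^ J) ^ r * A₀, by positivity, ?_⟩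
  intro i σ t hi hσ0 hσ1 ht1
  set s : ℂ := (σ : ℂ) + t * Complex.I with hs
  have hsre : s.re = σ := by simp [hs]
  have hsim : s.im = t := by simp [hs]
  have ht0 : 0 < t := by linarith
  have hi1 : (1 : ℝ) ≤ (2 : ℝ) ^ i := one_le_pow₀ (by norm_num)
  have hmx : 1 ≤ ((2 : ℝ) ^ i) ^ (max 0 ((r : ℝ) - d / 2 - σ)) :=
    Real.one_le_rpow hi1 (le_max_left _ _)
  have htη : 1 ≤ t ^ η := Real.one_le_rpow ht1 hη0.le
  have htθ : t ^ θ ≤ t := by
    calc t ^ θ ≤ t ^ (1 : ℝ) := Real.rpow_le_rpow_of_exponent_le ht1 hθ1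
      _ = t := Real.rpow_one t
  have hone : 1 ≤ t ^ η * ((2 : ℝ) ^ i) ^ (max 0 ((r : ℝ) - d / 2 - σ)) :=
    one_le_mul_of_one_le_of_one_le htη hmx
  by_cases htJ : t < (2 : ℝ) ^ J
  · have h1 := boxSum_triv (H := r + 1) ha hw i (s := s) (by rw [hsre]; exact hσ0)
      (by rw [hsre]; exact hσ1)
    have h2 : ((2 : ℝ) ^ i) ^ r ≤ ((2 : ℝ) ^ J) ^ r := by
      apply pow_le_pow_left₀ (by positivity)
      linarith
    calc ‖boxSum r a (mv B v) i s‖ ≤ ((2 : ℝ) ^ i) ^ r * A₀ := h1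
      _ ≤ ((2 : ℝ) ^ J) ^ r * A₀ := by gcongr
      _ ≤ (A₀ + C₈ + ((2 : ℝ) ^ J) ^ r * A₀) * 1 := by linarith
      _ ≤ (A₀ + C₈ + ((2 : ℝ) ^ J) ^ r * A₀) *
          (t ^ η * ((2 : ℝ) ^ i) ^ (max 0 ((r : ℝ) - d / 2 - σ))) := by gcongr
      _ = _ := by ring
  · have htJ' : (2 : ℝ) ^ J ≤ t := le_of_not_gt htJ
    obtain ⟨j, hj1, hj2⟩ := exists_nat_pow_near ht1 (show (1 : ℝ) < 2 by norm_num)
    have hjJ : J ≤ j := by
      have h1 : (2 : ℝ) ^ J < 2 ^ (j + 1) := htJ'.trans_lt hj2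
      have h2 := (pow_lt_pow_iff_right₀ (show (1 : ℝ) < 2 by norm_num)).1 h1
      omega
    have hij : i ≤ j + 1 := by
      have h1 : (2 : ℝ) ^ i < 2 ^ (j + 1) := by linarith
      have h2 := (pow_lt_pow_iff_right₀ (show (1 : ℝ) < 2 by norm_num)).1 h1
      omega
    have h2j1 : (1 : ℝ) ≤ 2 ^ j := one_le_pow₀ (by norm_num)
    have hcond : (CB : ℝ) * 2 ^ i ≤ ((2 : ℝ) ^ j - 2) ^ θ₁ := by
      have h1 : x₀ ≤ (2 : ℝ) ^ j := hj₂.trans (pow_le_pow_right₀ (by norm_num)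
        ((le_max_right _ _).trans hjJ))
      refine le_trans ?_ (hx₀ _ h1)
      have h2 : t ^ θ ≤ (2 * (2 : ℝ) ^ j) ^ θ := by
        apply Real.rpow_le_rpow ht0.le _ hθ.le
        rw [pow_succ] at hj2
        linarith
      have h3 : (2 : ℝ) ^ i ≤ (2 * (2 : ℝ) ^ j) ^ θ := hi.trans h2
      gcongr
    set D : ℝ := (CB : ℝ) ^ r * ((2 : ℝ) ^ i) ^ (max 0 ((r : ℝ) - d / 2 - σ)) * t ^ η₁ with hD
    have hD0 : 0 ≤ D := by positivity
    have hsh' : ∀ l < i, ‖boxSum r a (mv B v) (l + 1) s - boxSum r a (mv B v) l s‖ ≤ D := by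
      intro l hl
      have hNle : (Nn l : ℝ) ≤ CB * 2 ^ i := by
        rw [hNncast]
        have : (2 : ℝ) ^ (l + 1) ≤ 2 ^ i := pow_le_pow_right₀ (by norm_num) (by omega)
        gcongr
      have hlL : l ∈ L j := by
        rw [hL]
        simp only [Finset.mem_filter, Finset.mem_range]
        exact ⟨by omega, hNle.trans hcond⟩
      have h1 := hj₀ j ((le_max_left _ _).trans hjJ) l hlL s (by rw [hsre]; exact hσ0)
        (by rw [hsre]; exact hσ1) (by rw [hsim]; exact hj1) (by rw [hsim]; exact hj2.le)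
      rw [hEq l a v s ha hw]
      refine (shell_bound hk hdr (hNn1 l) (by positivity) hsre h1).trans ?_
      have hN1r : (1 : ℝ) ≤ (Nn l : ℝ) := by exact_mod_cast hNn1 l
      have h2 : (Nn l : ℝ) ^ ((r : ℝ) - d / 2 - σ) ≤
          (CB : ℝ) ^ r * ((2 : ℝ) ^ i) ^ (max 0 ((r : ℝ) - d / 2 - σ)) := by
        set x : ℝ := (r : ℝ) - d / 2 - σ with hx
        calc (Nn l : ℝ) ^ x ≤ (Nn l : ℝ) ^ (max 0 x) :=
              Real.rpow_le_rpow_of_exponent_le hN1r (le_max_right _ _)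
          _ ≤ ((CB : ℝ) * 2 ^ i) ^ (max 0 x) :=
              Real.rpow_le_rpow (by positivity) hNle (le_max_left _ _)
          _ = (CB : ℝ) ^ (max 0 x) * ((2 : ℝ) ^ i) ^ (max 0 x) :=
              Real.mul_rpow (by positivity) (by positivity)
          _ ≤ _ := by
              apply mul_le_mul_of_nonneg_right _ (by positivity)
              rw [← Real.rpow_natCast]
              apply Real.rpow_le_rpow_of_exponent_le hCB1
              apply max_le (Nat.cast_nonneg r)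
              rw [hx]
              have : 0 ≤ (d : ℝ) / 2 := by positivity
              linarith
      have h3 : ((2 : ℝ) ^ j) ^ ((1 + ε₂) / (2 * (k : ℝ))) ≤ t ^ η₁ :=
        Real.rpow_le_rpow (by positivity) hj1 hη₁0.le
      exact mul_le_mul h2 h3 (by positivity) (by positivity)
    have hmain := boxSum_tel i hsh'
    have hzero := boxSum_zero (H := r + 1) ha hw (s := s) (by rw [hsre]; exact hσ0)
      (by rw [hsre]; exact hσ1)
    have hilog : (i : ℝ) ≤ t ^ e / (e * Real.log 2) := by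
      have h1 : (i : ℝ) * Real.log 2 ≤ Real.log t := by
        rw [← Real.log_pow]
        exact Real.log_le_log (by positivity) (hi.trans htθ)
      have h2 := Real.log_le_rpow_div ht0.le he0
      rw [le_div_iff₀ (by positivity)]
      rw [le_div_iff₀ he0] at h2
      calc (i : ℝ) * (e * Real.log 2) = (i * Real.log 2) * e := by ring
        _ ≤ Real.log t * e := by gcongr
        _ ≤ t ^ e := h2
    have hiD : (i : ℝ) * D ≤ C₈ * (t ^ η * ((2 : ℝ) ^ i) ^ (max 0 ((r : ℝ) - d / 2 - σ))) := by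
      calc (i : ℝ) * D ≤ t ^ e / (e * Real.log 2) * D := by gcongr
        _ = C₈ * ((t ^ e * t ^ η₁) * ((2 : ℝ) ^ i) ^ (max 0 ((r : ℝ) - d / 2 - σ))) := by
            rw [hD, hC₈]
            ring
        _ = _ := by
            rw [← Real.rpow_add ht0, he]
            congr 4
            ring
    calc ‖boxSum r a (mv B v) i s‖ ≤ A₀ + i * D := by linarith
      _ ≤ A₀ * (t ^ η * ((2 : ℝ) ^ i) ^ (max 0 ((r : ℝ) - d / 2 - σ))) +
          C₈ * (t ^ η * ((2 : ℝ) ^ i) ^ (max 0 ((r : ℝ) - d / 2 - σ))) := by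
          have : A₀ * 1 ≤ A₀ * (t ^ η * ((2 : ℝ) ^ i) ^ (max 0 ((r : ℝ) - d / 2 - σ))) := by gcongr
          linarith
      _ ≤ (A₀ + C₈ + ((2 : ℝ) ^ J) ^ r * A₀) *
          (t ^ η * ((2 : ℝ) ^ i) ^ (max 0 ((r : ℝ) - d / 2 - σ))) := by
          have : 0 ≤ ((2 : ℝ) ^ J) ^ r * A₀ *
            (t ^ η * ((2 : ℝ) ^ i) ^ (max 0 ((r : ℝ) - d / 2 - σ))) := by positivity
          linarith
      _ = _ := by ring

theorem s_f (hM : S_M) (hCL : S_CL2) (hF2 : S_F2) (hF3 : S_F3) : S_F := by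
  classical
  intro k d r a B θ η hk hd ha hB hθ hθd hη
  rw [ae_iff]
  apply measure_null_of_locally_null
  intro x hx
  rw [Set.mem_ofPred_eq, Classical.not_imp] at hx
  have hpos := hx.1
  obtain ⟨hdr, -⟩ := hF3 r d B (by omega) hB
  have hr : 0 < r := by omega
  have : Nonempty (Fin r) := ⟨⟨0, hr⟩⟩
  obtain ⟨i₀, hi₀⟩ := Finite.exists_min (fun i => mv B x i)
  set c₀ : ℝ := mv B x i₀ / 2 with hc₀
  have hc₀0 : 0 < c₀ := by
    have := hpos i₀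
    positivity
  have hopen : IsOpen {v : Fin d → ℝ | ∀ i, c₀ < mv B v i} := by
    simp only [Set.ofPred_forall]
    exact isOpen_iInter_of_finite fun i => isOpen_lt continuous_const (mv_cont B i)
  have hmem : x ∈ {v : Fin d → ℝ | ∀ i, c₀ < mv B v i} := by
    intro i
    have h1 : mv B x i₀ ≤ mv B x i := hi₀ i
    have h2 := hpos i₀
    rw [hc₀]
    linarith
  obtain ⟨R, hR, hball⟩ := Metric.isOpen_iff.1 hopen x hmem
  have hloc := local_f hM hCL hF2 hF3 hk hd ha hB hθ hθd hη x (ϱ := R / 4) (c₀ := c₀) (by positivity)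
    hc₀0 (by
      intro v hv i
      have : v ∈ ball x R := by
        rw [mem_closedBall] at hv
        rw [mem_ball]
        linarith
      exact (hball this i).le)
  rw [ae_iff] at hloc
  refine ⟨closedBall x (R / 4 / 2) ∩ {v | ¬((∀ j, 0 < mv B v j) →
      ∃ C : ℝ, 0 ≤ C ∧ ∀ (i : ℕ) (σ t : ℝ), (2 : ℝ) ^ i ≤ t ^ θ → 0 ≤ σ → σ ≤ r + 1 → 1 ≤ t →
        ‖boxSum r a (mv B v) i ((σ : ℂ) + t * Complex.I)‖ ≤
          C * t ^ η * ((2 : ℝ) ^ i) ^ (max 0 ((r : ℝ) - d / 2 - σ)))}, ?_, ?_⟩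
  · rw [Set.inter_comm]
    exact inter_mem_nhdsWithin _ (closedBall_mem_nhds x (by positivity))
  · refine measure_mono_null ?_ hloc
    rintro v ⟨hv1, hv2⟩
    rw [Set.mem_ofPred_eq, Classical.not_imp] at hv2 ⊢
    exact ⟨hv1, hv2.2⟩

end Pool.Agent.Helper73.BL
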