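import Pool.Agent.Helper73.BL.St4

set_option autoImplicit false

/-!
# Barnes zeta functions in large dimension: statements of the modules for the moments
-/

namespace Pool.Agent.Helper73.BL

open MeasureTheory Metric Matrix

/-- module F2, with the moments along vertical segments -/
def S_F2M : Prop :=
  ∀ (d k : ℕ) (K : Set (Fin d → ℝ)) (g : ℕ → ℂ → (Fin d → ℝ) → ℂ) (X : ℕ → ℝ)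
    (L : ℕ → Finset ℕ) (H C₁ C₂ ε : ℝ) (j₁ : ℕ), 1 ≤ k → MeasurableSet K → (∀ l, 0 < X l) →
    0 < H → 0 < C₁ → 0 < C₂ → 0 < ε → (∀ j, ((L j).card : ℝ) ≤ C₂ * (j + 1)) →
    (∀ l, ∀ v ∈ K, Differentiable ℂ fun z => g l z v) →
    (∀ l, Measurable fun p : ℂ × (Fin d → ℝ) => g l p.1 p.2) →
    (∀ j, j₁ ≤ j → ∀ l ∈ L j, ∀ z : ℂ, -2 ≤ z.re → z.re ≤ H + 2 → (2 : ℝ) ^ j - 2 ≤ z.im →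
      z.im ≤ (2 : ℝ) ^ (j + 1) + 2 →
      ∫⁻ v in K, ENNReal.ofReal (‖g l z v‖ ^ (2 * k)) ≤ ENNReal.ofReal (C₁ * X l)) →
    ∀ᵐ v : Fin d → ℝ, v ∈ K → ∃ j₀ : ℕ, ∀ j, j₀ ≤ j → ∀ l ∈ L j,
      ∀ σ : ℝ, 0 ≤ σ → σ ≤ H →
        ∫⁻ t in Set.Icc ((2 : ℝ) ^ j) ((2 : ℝ) ^ (j + 1)),
          ENNReal.ofReal (‖g l ((σ : ℂ) + t * Complex.I) v‖ ^ (2 * k)) ≤
        ENNReal.ofReal (((2 : ℝ) ^ j) ^ (1 + ε) * X l)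

/-- module F: the moments of the box sums for almost every `v` -/
def S_FM : Prop :=
  ∀ (k d r : ℕ) (a : ℝ) (B : Matrix (Fin r) (Fin d) ℤ) (θ η : ℝ), 1 ≤ k → 4 * k + 1 ≤ d → 0 < a →
    Inj B → 0 < θ → θ * d < 1 → 0 < η →
    ∀ᵐ v : Fin d → ℝ, (∀ j, 0 < mv B v j) →
      ∃ C : ℝ, 0 ≤ C ∧ ∀ (i : ℕ) (σ T : ℝ), (2 : ℝ) ^ i ≤ T ^ θ → 0 ≤ σ → σ ≤ r + 1 → 1 ≤ T →
        ∫ t in T..(2 * T), ‖boxSum r a (mv B v) i ((σ : ℂ) + t * Complex.I)‖ ^ (2 * k) ≤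
          C * T ^ (1 + 2 * k * η) * ((2 : ℝ) ^ i) ^ (2 * k * max 0 ((r : ℝ) - d / 2 - σ))

open Pool.Agent.H131R5.BZ Pool.Agent.Y930.Bz in
/-- module G for the moments -/
def S_G4 : Prop :=
  ∀ (r d k : ℕ) (a : ℝ) (w : Fin r → ℝ) (c : ℕ → ℂ), 1 ≤ k → 1 ≤ d → d ≤ r → 0 < a →
    (∀ j, 0 < w j) → Tay a w c →
    (∀ κ : ℝ, 0 < κ → κ ≤ 1 / 4 → ∃ C : ℝ, 0 ≤ C ∧ ∀ y : ℝ, 1 ≤ y →
      ‖FF a w c (((r - d + κ : ℝ) : ℂ) + y * Complex.I)‖ ≤ C * y ^ (1 / 2 + κ)) →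
    ∀ η θ : ℝ, 0 ≤ η → 0 < θ → θ ≤ 1 →
      (∃ C : ℝ, 0 ≤ C ∧ ∀ (i : ℕ) (σ T : ℝ), (2 : ℝ) ^ i ≤ T ^ θ → 0 ≤ σ → σ ≤ r + 1 → 1 ≤ T →
        ∫ t in T..(2 * T), ‖boxSum r a w i ((σ : ℂ) + t * Complex.I)‖ ^ (2 * k) ≤
          C * T ^ (1 + 2 * k * η) * ((2 : ℝ) ^ i) ^ (2 * k * max 0 ((r : ℝ) - d / 2 - σ))) →
      ∀ ν : ℝ, η < ν → (1 - θ * d) / 2 < ν →
      ∀ σ₁ : ℝ, ∃ C : ℝ, 0 ≤ C ∧ ∀ σ T : ℝ, (r : ℝ) - d / 2 ≤ σ → σ ≤ σ₁ → 2 ≤ T →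
        ∫ t in T..(2 * T), ‖FF a w c ((σ : ℂ) + t * Complex.I)‖ ^ (2 * k) ≤
          C * T ^ (1 + 2 * k * ν)

open Pool.Agent.H131R5.BZ Pool.Agent.Y930.Bz in
/-- final module: the bounds for all weights spanning the same space as `v`, for almost every `v` -/
def S_FIN2 : Prop :=
  ∀ (k d : ℕ) (a : ℝ), 1 ≤ k → 4 * k + 1 ≤ d → 0 < a →
    ∀ᵐ v : Fin d → ℝ, LinearIndependent ℚ v ∧ ∀ (r : ℕ) (w : Fin r → ℝ), (∀ j, 0 < w j) →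
      Submodule.span ℚ (Set.range w) = Submodule.span ℚ (Set.range v) →
      ∀ c : ℕ → ℂ, Tay a w c → ∀ ε : ℝ, 0 < ε → ∀ σ₁ : ℝ, ∃ C : ℝ, 0 ≤ C ∧ ∀ σ T : ℝ,
        (r : ℝ) - d / 2 ≤ σ → σ ≤ σ₁ → 1 ≤ T →
        ∫ t in (1 : ℝ)..T, ‖FF a w c ((σ : ℂ) + t * Complex.I)‖ ^ (2 * k) ≤ C * T ^ (1 + ε)

end Pool.Agent.Helper73.BL
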