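import Pool.Agent.Helper73.BL.F5
import Pool.Agent.Helper73.BL.St5

set_option autoImplicit false

/-!
# Barnes zeta functions in large dimension: moments of box sums for almost every vector
-/

namespace Pool.Agent.Helper73.BL

open MeasureTheory Metric Finset

/-- the even power of a box sum through the shells -/
lemma box_pow {r k : ℕ} {a : ℝ} {w : Fin r → ℝ} {s : ℂ} (hk : 1 ≤ k) (i : ℕ) :
    ‖boxSum r a w i s‖ ^ (2 * k) ≤ ((i : ℝ) + 1) ^ (2 * k) * (‖boxSum r a w 0 s‖ ^ (2 * k) +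
      ∑ l ∈ Finset.range i, ‖boxSum r a w (l + 1) s - boxSum r a w l s‖ ^ (2 * k)) := by
  set S : ℝ := ‖boxSum r a w 0 s‖ ^ (2 * k) +
      ∑ l ∈ Finset.range i, ‖boxSum r a w (l + 1) s - boxSum r a w l s‖ ^ (2 * k) with hS
  have hs0 : 0 ≤ ∑ l ∈ Finset.range i, ‖boxSum r a w (l + 1) s - boxSum r a w l s‖ ^ (2 * k) :=
    Finset.sum_nonneg fun l _ => by positivity
  have hS0 : 0 ≤ S := by positivity
  have hk2 : 2 * k ≠ 0 := by omega
  have hle : ∀ x : ℝ, 0 ≤ x → x ^ (2 * k) ≤ S → x ≤ S ^ (((2 * k : ℕ) : ℝ)⁻¹) := by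
    intro x hx h
    rw [← Real.pow_rpow_inv_natCast hx hk2]
    exact Real.rpow_le_rpow (by positivity) h (by positivity)
  set D : ℝ := S ^ (((2 * k : ℕ) : ℝ)⁻¹) with hD
  have hD0 : 0 ≤ D := by positivity
  have h0 : ‖boxSum r a w 0 s‖ ≤ D := hle _ (norm_nonneg _) (by rw [hS]; linarith)
  have h1 : ∀ l < i, ‖boxSum r a w (l + 1) s - boxSum r a w l s‖ ≤ D := by
    intro l hl
    apply hle _ (norm_nonneg _)
    have h2 := Finset.single_le_sum (f := fun l =>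
      ‖boxSum r a w (l + 1) s - boxSum r a w l s‖ ^ (2 * k)) (fun l _ => by positivity)
      (Finset.mem_range.2 hl)
    have h3 : 0 ≤ ‖boxSum r a w 0 s‖ ^ (2 * k) := by positivity
    rw [hS]
    linarith
  have h2 := boxSum_tel i h1
  have h3 : ‖boxSum r a w i s‖ ≤ ((i : ℝ) + 1) * D := by linarith
  calc ‖boxSum r a w i s‖ ^ (2 * k) ≤ (((i : ℝ) + 1) * D) ^ (2 * k) :=
        pow_le_pow_left₀ (norm_nonneg _) h3 _
    _ = ((i : ℝ) + 1) ^ (2 * k) * D ^ (2 * k) := mul_pow _ _ _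
    _ = _ := by rw [hD, Real.rpow_inv_natCast_pow hS0 hk2]

lemma boxSum_cont {r : ℕ} {a : ℝ} {w : Fin r → ℝ} (ha : 0 < a) (hw : ∀ j, 0 < w j) (i : ℕ) (σ : ℝ) :
    Continuous fun t : ℝ => boxSum r a w i ((σ : ℂ) + t * Complex.I) := by
  unfold boxSum
  refine continuous_finsetSum _ fun m _ => ?_
  have h1 : 0 ≤ ∑ j, (m j : ℝ) * w j :=
    Finset.sum_nonneg fun j _ => mul_nonneg (Nat.cast_nonneg _) (hw j).le
  have h2 : ((a + ∑ j, (m j : ℝ) * w j : ℝ) : ℂ) ≠ 0 := by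
    have : a + ∑ j, (m j : ℝ) * w j ≠ 0 := by linarith
    exact_mod_cast this
  exact Continuous.const_cpow (by fun_prop) (Or.inl h2)

/-- the local version -/
lemma local_fm (hM : S_M) (hCL : S_CL2) (hF2 : S_F2M) (hF3 : S_F3) {k d r : ℕ} {a : ℝ}
    {B : Matrix (Fin r) (Fin d) ℤ} {θ η : ℝ} (hk : 1 ≤ k) (hd : 4 * k + 1 ≤ d) (ha : 0 < a)
    (hB : Inj B) (hθ : 0 < θ) (hθd : θ * d < 1) (hη : 0 < η)
    (v₀ : Fin d → ℝ) {ϱ c₀ : ℝ} (hϱ : 0 < ϱ) (hc₀ : 0 < c₀)
    (hK : ∀ v ∈ closedBall v₀ (2 * ϱ), ∀ i, c₀ ≤ mv B v i) :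
    ∀ᵐ v : Fin d → ℝ, v ∈ closedBall v₀ (ϱ / 2) →
      ∃ C : ℝ, 0 ≤ C ∧ ∀ (i : ℕ) (σ T : ℝ), (2 : ℝ) ^ i ≤ T ^ θ → 0 ≤ σ → σ ≤ r + 1 → 1 ≤ T →
        ∫ t in T..(2 * T), ‖boxSum r a (mv B v) i ((σ : ℂ) + t * Complex.I)‖ ^ (2 * k) ≤
          C * T ^ (1 + 2 * k * η) * ((2 : ℝ) ^ i) ^ (2 * k * max 0 ((r : ℝ) - d / 2 - σ)) := by
  classical
  have hd0 : (0 : ℝ) < d := by
    have : 0 < d := by omega
    exact_mod_cast this
  have hk0 : (0 : ℝ) < k := by exact_mod_cast hk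
  obtain ⟨hdr, CB, hCB, hsh⟩ := hF3 r d B (by omega) hB
  choose S co hco hSN hSlow hEq using fun l => hsh l (CB * 2 ^ (l + 1)) rfl
  set Nn : ℕ → ℕ := fun l => CB * 2 ^ (l + 1) with hNn
  have hCB1 : (1 : ℝ) ≤ CB := by exact_mod_cast hCB
  have hCB0 : (0 : ℝ) < CB := by linarith
  have hNn1 : ∀ l, 1 ≤ Nn l := fun l => by
    simp only [hNn]
    exact Nat.one_le_iff_ne_zero.2 (by positivity)
  have hNncast : ∀ l, (Nn l : ℝ) = CB * 2 ^ (l + 1) := fun l => by simp [hNn]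
  set A : ℝ := max (max a (1 / a)) 1 with hA
  have hA1 : 1 ≤ A := le_max_right _ _
  have haA : a ≤ A := (le_max_left _ _).trans (le_max_left _ _)
  have hAa : 1 / A ≤ a := by
    have h1 : 1 / a ≤ A := (le_max_right _ _).trans (le_max_left _ _)
    rw [div_le_iff₀ ha] at h1
    rw [div_le_iff₀ (by linarith)]
    linarith
  set c : ℝ := c₀ / (2 * CB) with hcdef
  have hc : 0 < c := by positivity
  set θ₁ : ℝ := (θ + 1 / d) / 2 with hθ₁
  have hθinv : θ < 1 / d := by rwa [lt_div_iff₀ hd0]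
  have hθθ₁ : θ < θ₁ := by rw [hθ₁]; linarith
  have hθ₁d' : θ₁ < 1 / d := by rw [hθ₁]; linarith
  have hθ₁d : θ₁ * d < 1 := by rwa [lt_div_iff₀ hd0] at hθ₁d'
  have hd1 : (1 : ℝ) ≤ d := by
    have : 1 ≤ d := by omega
    exact_mod_cast this
  have hθ₁1 : θ₁ ≤ 1 := by nlinarith
  have hθ1 : θ ≤ 1 := by linarith
  set ε : ℝ := min (1 / 8) ((1 - θ₁ * d) / 4) with hεdef
  have hε : 0 < ε := lt_min (by norm_num) (by linarith)
  have hε8 : ε ≤ 1 / 8 := min_le_left _ _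
  have hεθ : θ₁ * d ≤ 1 - 4 * ε := by
    have : ε ≤ (1 - θ₁ * d) / 4 := min_le_right _ _
    linarith
  obtain ⟨CM, t₀, hCM, ht₀, hmom⟩ := moment hM hCL v₀ hk hd hϱ hc hA1
    (H := r + 3) (by positivity) hε hε8
  set ε₂ : ℝ := k * η with hε₂
  have hε₂0 : 0 < ε₂ := by positivity
  set L : ℕ → Finset ℕ := fun j =>
    (Finset.range (j + 1)).filter (fun l => (Nn l : ℝ) ≤ ((2 : ℝ) ^ j - 2) ^ θ₁) with hL
  obtain ⟨j₁, hj₁⟩ : ∃ j₁ : ℕ, t₀ + 2 ≤ (2 : ℝ) ^ j₁ := by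
    obtain ⟨n, hn⟩ := pow_unbounded_of_one_lt (t₀ + 2) (show (1 : ℝ) < 2 by norm_num)
    exact ⟨n, hn.le⟩
  have hsubK : closedBall v₀ (ϱ / 2) ⊆ closedBall v₀ (2 * ϱ) :=
    closedBall_subset_closedBall (by linarith)
  have hAdm : ∀ l, ∀ n ∈ S l, Adm (closedBall v₀ (2 * ϱ)) c (Nn l) a n := by
    intro l n hn
    refine ⟨hSN l n hn, fun v hv => ?_⟩
    exact hSlow l n hn a c₀ v ha hc₀ (hK v hv)
  have hBC := hF2 d k (closedBall v₀ (ϱ / 2))
    (fun l z v => ∑ n ∈ S l, (co l n : ℂ) * term z a (Nn l) n v)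
    (fun l => (Nn l : ℝ) ^ (k * d)) L (r + 1) CM 1 ε₂ j₁ hk measurableSet_closedBall
    (fun l => by
      have := hNn1 l
      positivity) (by positivity) hCM one_pos hε₂0
    (by
      intro j
      rw [one_mul]
      have h1 : (L j).card ≤ j + 1 := by
        refine (Finset.card_filter_le _ _).trans ?_
        rw [Finset.card_range]
      exact_mod_cast h1)
    (by
      intro l v hv
      refine Differentiable.fun_sum fun n hn => Differentiable.const_mul (term_diff ?_) _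
      exact (lam_pos' (hNn1 l) hc (hAdm l n hn) (hsubK hv)).2)
    (by
      intro l
      refine Finset.measurable_sum _ fun n _ => (term_meas2 a (Nn l) n).const_mul _)
    (by
      intro j hj l hl z hz1 hz2 hz3 hz4
      rw [hL] at hl
      simp only [Finset.mem_filter, Finset.mem_range] at hl
      have h2j : (2 : ℝ) ^ j₁ ≤ 2 ^ j := pow_le_pow_right₀ (by norm_num) hj
      have ht : t₀ ≤ z.im := by linarith
      have ht1 : 1 ≤ z.im := ht₀.trans ht
      refine hmom (Nn l) a (S l) (co l) z (hco l) (hNn1 l) hAa haA (hAdm l) ?_ ht ?_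
      · rw [abs_le]
        constructor
        · have : (0 : ℝ) ≤ r := Nat.cast_nonneg r
          linarith
        · linarith
      · have h3 : (Nn l : ℝ) ≤ z.im ^ θ₁ := by
          refine hl.2.trans (Real.rpow_le_rpow (by linarith) hz3 (by linarith))
        calc (Nn l : ℝ) ^ d ≤ (z.im ^ θ₁) ^ d := pow_le_pow_left₀ (Nat.cast_nonneg _) h3 _
          _ = z.im ^ (θ₁ * d) := by rw [Real.rpow_mul (by linarith), Real.rpow_natCast]
          _ ≤ _ := Real.rpow_le_rpow_of_exponent_le ht1 hεθ)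
  filter_upwards [hBC] with v hv hvK
  obtain ⟨j₀, hj₀⟩ := hv hvK
  have hw : ∀ i, 0 < mv B v i := fun i => hc₀.trans_le (hK v (hsubK hvK) i)
  obtain ⟨x₀, hx₀4, hx₀⟩ := low_ineq hCB1 hθ hθθ₁ hθ₁1
  obtain ⟨j₂, hj₂⟩ : ∃ j₂ : ℕ, x₀ ≤ (2 : ℝ) ^ j₂ := by
    obtain ⟨n, hn⟩ := pow_unbounded_of_one_lt x₀ (show (1 : ℝ) < 2 by norm_num)
    exact ⟨n, hn.le⟩
  set J : ℕ := max j₀ j₂ with hJ
  set A₀ : ℝ := max 1 (a ^ (-((r : ℝ) + 1))) with hA₀
  have hA₀1 : 1 ≤ A₀ := le_max_left _ _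
  have hA₀0 : 0 ≤ A₀ := le_trans (by norm_num) hA₀1
  have hlog2 : 0 < Real.log 2 := Real.log_pos (by norm_num)
  set e : ℝ := k * η / (2 * k + 1) with he
  have he0 : 0 < e := by positivity
  set Ce : ℝ := 1 / (e * Real.log 2) + 1 with hCe
  have hCe0 : 0 < Ce := by positivity
  set C₈ : ℝ := Ce ^ (2 * k + 1) * (A₀ ^ (2 * k) + 2 * (CB : ℝ) ^ (2 * k * r) * 2 ^ (1 + ε₂)) with hC₈
  have hC₈0 : 0 ≤ C₈ := by positivity
  refine ⟨C₈ + (((2 : ℝ) ^ J) ^ r * A₀) ^ (2 * k), by positivity, ?_⟩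
  intro i σ T hi hσ0 hσ1 hT1
  have hT0 : 0 < T := by linarith
  have hi1 : (1 : ℝ) ≤ (2 : ℝ) ^ i := one_le_pow₀ (by norm_num)
  set mx : ℝ := max 0 ((r : ℝ) - d / 2 - σ) with hmxdef
  have hmx0 : 0 ≤ mx := le_max_left _ _
  have hmx : 1 ≤ ((2 : ℝ) ^ i) ^ (2 * k * mx) := Real.one_le_rpow hi1 (by positivity)
  have hTη : T ≤ T ^ (1 + 2 * k * η) := by
    calc T = T ^ (1 : ℝ) := (Real.rpow_one T).symm
      _ ≤ _ := Real.rpow_le_rpow_of_exponent_le hT1 (by
        have : 0 ≤ 2 * (k : ℝ) * η := by positivity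
        linarith)
  have hTθ : T ^ θ ≤ T := by
    calc T ^ θ ≤ T ^ (1 : ℝ) := Real.rpow_le_rpow_of_exponent_le hT1 hθ1
      _ = T := Real.rpow_one T
  have hre : ∀ t : ℝ, ((σ : ℂ) + t * Complex.I).re = σ := fun t => by simp
  have him : ∀ t : ℝ, ((σ : ℂ) + t * Complex.I).im = t := fun t => by simp
  have hRpos : 0 ≤ T ^ (1 + 2 * k * η) * ((2 : ℝ) ^ i) ^ (2 * k * mx) := by positivity
  have hTR : T ≤ T ^ (1 + 2 * k * η) * ((2 : ℝ) ^ i) ^ (2 * k * mx) := by
    calc T = T * 1 := (mul_one _).symm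
      _ ≤ _ := by gcongr
  have hbc : Continuous fun t : ℝ => ‖boxSum r a (mv B v) i ((σ : ℂ) + t * Complex.I)‖ ^ (2 * k) :=
    ((boxSum_cont ha hw i σ).norm).pow _
  by_cases hTJ : T < (2 : ℝ) ^ J
  · have h2 : ((2 : ℝ) ^ i) ^ r ≤ ((2 : ℝ) ^ J) ^ r := by
      apply pow_le_pow_left₀ (by positivity)
      linarith
    have h3 : ∀ t : ℝ, ‖boxSum r a (mv B v) i ((σ : ℂ) + t * Complex.I)‖ ^ (2 * k) ≤
        (((2 : ℝ) ^ J) ^ r * A₀) ^ (2 * k) := by
      intro t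
      apply pow_le_pow_left₀ (norm_nonneg _)
      have h1 := boxSum_triv (H := r + 1) ha hw i (s := (σ : ℂ) + t * Complex.I)
        (by rw [hre]; exact hσ0) (by rw [hre]; exact hσ1)
      calc _ ≤ ((2 : ℝ) ^ i) ^ r * A₀ := h1
        _ ≤ _ := by gcongr
    calc ∫ t in T..(2 * T), ‖boxSum r a (mv B v) i ((σ : ℂ) + t * Complex.I)‖ ^ (2 * k)
        ≤ ∫ t in T..(2 * T), (((2 : ℝ) ^ J) ^ r * A₀) ^ (2 * k) := by
          apply intervalIntegral.integral_mono (by linarith) (hbc.intervalIntegrable _ _)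
            (continuous_const.intervalIntegrable _ _)
          exact fun t => h3 t
      _ = (((2 : ℝ) ^ J) ^ r * A₀) ^ (2 * k) * T := by
          rw [intervalIntegral.integral_const, smul_eq_mul]
          ring
      _ ≤ (((2 : ℝ) ^ J) ^ r * A₀) ^ (2 * k) *
          (T ^ (1 + 2 * k * η) * ((2 : ℝ) ^ i) ^ (2 * k * mx)) := by gcongr
      _ ≤ (C₈ + (((2 : ℝ) ^ J) ^ r * A₀) ^ (2 * k)) *
          (T ^ (1 + 2 * k * η) * ((2 : ℝ) ^ i) ^ (2 * k * mx)) := by
          apply mul_le_mul_of_nonneg_right _ hRpos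
          linarith
      _ = _ := by ring
  · have hTJ' : (2 : ℝ) ^ J ≤ T := le_of_not_gt hTJ
    obtain ⟨j, hj1, hj2⟩ := exists_nat_pow_near hT1 (show (1 : ℝ) < 2 by norm_num)
    have hjJ : J ≤ j := by
      have h1 : (2 : ℝ) ^ J < 2 ^ (j + 1) := hTJ'.trans_lt hj2
      have h2 := (pow_lt_pow_iff_right₀ (show (1 : ℝ) < 2 by norm_num)).1 h1
      omega
    have hij : i ≤ j + 1 := by
      have h1 : (2 : ℝ) ^ i < 2 ^ (j + 1) := by linarith
      have h2 := (pow_lt_pow_iff_right₀ (show (1 : ℝ) < 2 by norm_num)).1 h1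
      omega
    have hcond : (CB : ℝ) * 2 ^ i ≤ ((2 : ℝ) ^ j - 2) ^ θ₁ := by
      have h1 : x₀ ≤ (2 : ℝ) ^ j := hj₂.trans (pow_le_pow_right₀ (by norm_num)
        ((le_max_right _ _).trans hjJ))
      refine le_trans ?_ (hx₀ _ h1)
      have h2 : T ^ θ ≤ (2 * (2 : ℝ) ^ j) ^ θ := by
        apply Real.rpow_le_rpow hT0.le _ hθ.le
        rw [pow_succ] at hj2
        linarith
      have h3 : (2 : ℝ) ^ i ≤ (2 * (2 : ℝ) ^ j) ^ θ := hi.trans h2
      gcongr
    have h4j : (4 : ℝ) ≤ 2 ^ j := hx₀4.trans (hj₂.trans (pow_le_pow_right₀ (by norm_num)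
        ((le_max_right _ _).trans hjJ)))
    set Y : ℝ := (CB : ℝ) ^ (2 * k * r) * ((2 : ℝ) ^ i) ^ (2 * k * mx) * (2 * T) ^ (1 + ε₂) with hY
    have hY0 : 0 ≤ Y := by positivity
    -- one dyadic segment
    have hseg : ∀ l < i, ∀ j', j ≤ j' → j' ≤ j + 1 →
        ∫⁻ t in Set.Icc ((2 : ℝ) ^ j') ((2 : ℝ) ^ (j' + 1)), ENNReal.ofReal
          (‖boxSum r a (mv B v) (l + 1) ((σ : ℂ) + t * Complex.I) -
            boxSum r a (mv B v) l ((σ : ℂ) + t * Complex.I)‖ ^ (2 * k)) ≤ ENNReal.ofReal Y := by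
      intro l hl j' hjj' hj'j
      have hNle : (Nn l : ℝ) ≤ CB * 2 ^ i := by
        rw [hNncast]
        have : (2 : ℝ) ^ (l + 1) ≤ 2 ^ i := pow_le_pow_right₀ (by norm_num) (by omega)
        gcongr
      have h2jj' : (2 : ℝ) ^ j ≤ 2 ^ j' := pow_le_pow_right₀ (by norm_num) hjj'
      have hlL : l ∈ L j' := by
        rw [hL]
        simp only [Finset.mem_filter, Finset.mem_range]
        refine ⟨by omega, (hNle.trans hcond).trans ?_⟩
        apply Real.rpow_le_rpow _ _ (by linarith)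
        · linarith
        · linarith
      have h1 := hj₀ j' (((le_max_left _ _).trans hjJ).trans hjj') l hlL σ hσ0 hσ1
      have hN0 : (0 : ℝ) < Nn l := by
        have := hNn1 l
        exact_mod_cast this
      have hN1r : (1 : ℝ) ≤ (Nn l : ℝ) := by exact_mod_cast hNn1 l
      have h2 : ∀ t : ℝ, ‖boxSum r a (mv B v) (l + 1) ((σ : ℂ) + t * Complex.I) -
            boxSum r a (mv B v) l ((σ : ℂ) + t * Complex.I)‖ ^ (2 * k) =
          ((Nn l : ℝ) ^ (-σ) * (Nn l : ℝ) ^ (r - d)) ^ (2 * k) *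
            ‖∑ n ∈ S l, (co l n : ℂ) * term ((σ : ℂ) + t * Complex.I) a (Nn l) n v‖ ^ (2 * k) := by
        intro t
        have h3 := hEq l a v ((σ : ℂ) + t * Complex.I) ha hw
        rw [h3, norm_mul, norm_mul, norm_pow, Complex.norm_natCast,
          Complex.norm_natCast_cpow_of_pos (Nat.lt_of_lt_of_le Nat.zero_lt_one (hNn1 l)), Complex.neg_re, hre, mul_pow]
      simp only [h2]
      have h3 : ∀ t : ℝ, ENNReal.ofReal (((Nn l : ℝ) ^ (-σ) * (Nn l : ℝ) ^ (r - d)) ^ (2 * k) *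
            ‖∑ n ∈ S l, (co l n : ℂ) * term ((σ : ℂ) + t * Complex.I) a (Nn l) n v‖ ^ (2 * k)) =
          ENNReal.ofReal (((Nn l : ℝ) ^ (-σ) * (Nn l : ℝ) ^ (r - d)) ^ (2 * k)) *
          ENNReal.ofReal
            (‖∑ n ∈ S l, (co l n : ℂ) * term ((σ : ℂ) + t * Complex.I) a (Nn l) n v‖ ^ (2 * k)) :=
        fun t => ENNReal.ofReal_mul (by positivity)
      simp only [h3]
      rw [lintegral_const_mul' _ _ ENNReal.ofReal_ne_top]
      refine (mul_le_mul_right h1 _).trans ?_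
      rw [← ENNReal.ofReal_mul (by positivity)]
      apply ENNReal.ofReal_le_ofReal
      have e1 : ((Nn l : ℝ) ^ (-σ) * (Nn l : ℝ) ^ (r - d)) ^ (2 * k) *
          (((2 : ℝ) ^ j') ^ (1 + ε₂) * (Nn l : ℝ) ^ (k * d)) =
          (Nn l : ℝ) ^ (2 * k * ((r : ℝ) - d / 2 - σ)) * ((2 : ℝ) ^ j') ^ (1 + ε₂) := by
        have e2 : (Nn l : ℝ) ^ (2 * k * ((r : ℝ) - d / 2 - σ)) =
            ((Nn l : ℝ) ^ (-σ) * (Nn l : ℝ) ^ (r - d)) ^ (2 * k) * (Nn l : ℝ) ^ (k * d) := by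
          rw [← Real.rpow_natCast (Nn l : ℝ) (r - d), ← Real.rpow_add hN0, ← Real.rpow_natCast,
            ← Real.rpow_mul hN0.le, ← Real.rpow_natCast (Nn l : ℝ) (k * d), ← Real.rpow_add hN0,
            Nat.cast_sub hdr]
          congr 1
          push_cast
          ring
        rw [e2]
        ring
      rw [e1, hY]
      have h4 : (Nn l : ℝ) ^ (2 * k * ((r : ℝ) - d / 2 - σ)) ≤
          (CB : ℝ) ^ (2 * k * r) * ((2 : ℝ) ^ i) ^ (2 * k * mx) := by
        calc (Nn l : ℝ) ^ (2 * k * ((r : ℝ) - d / 2 - σ)) ≤ (Nn l : ℝ) ^ (2 * k * mx) := by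
              apply Real.rpow_le_rpow_of_exponent_le hN1r
              apply mul_le_mul_of_nonneg_left (le_max_right _ _) (by positivity)
          _ ≤ ((CB : ℝ) * 2 ^ i) ^ (2 * k * mx) :=
              Real.rpow_le_rpow (by positivity) hNle (by positivity)
          _ = (CB : ℝ) ^ (2 * k * mx) * ((2 : ℝ) ^ i) ^ (2 * k * mx) :=
              Real.mul_rpow (by positivity) (by positivity)
          _ ≤ _ := by
              apply mul_le_mul_of_nonneg_right _ (by positivity)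
              rw [← Real.rpow_natCast]
              apply Real.rpow_le_rpow_of_exponent_le hCB1
              push_cast
              apply mul_le_mul_of_nonneg_left _ (by positivity)
              apply max_le (Nat.cast_nonneg r)
              have : 0 ≤ (d : ℝ) / 2 := by positivity
              linarith
      have h5 : ((2 : ℝ) ^ j') ^ (1 + ε₂) ≤ (2 * T) ^ (1 + ε₂) := by
        apply Real.rpow_le_rpow (by positivity) _ (by positivity)
        calc (2 : ℝ) ^ j' ≤ 2 ^ (j + 1) := pow_le_pow_right₀ (by norm_num) hj'j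
          _ = 2 * 2 ^ j := by ring
          _ ≤ 2 * T := by linarith
      exact mul_le_mul h4 h5 (by positivity) (by positivity)
    have hcover : Set.Icc T (2 * T) ⊆ Set.Icc ((2 : ℝ) ^ j) ((2 : ℝ) ^ (j + 1)) ∪
        Set.Icc ((2 : ℝ) ^ (j + 1)) ((2 : ℝ) ^ (j + 1 + 1)) := by
      intro t ht
      rcases le_total t ((2 : ℝ) ^ (j + 1)) with h | h
      · exact Or.inl ⟨hj1.trans ht.1, h⟩
      · refine Or.inr ⟨h, ht.2.trans ?_⟩
        rw [pow_succ (2 : ℝ) (j + 1)]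
        linarith
    have hshell : ∀ l < i, ∫⁻ t in Set.Icc T (2 * T), ENNReal.ofReal
          (‖boxSum r a (mv B v) (l + 1) ((σ : ℂ) + t * Complex.I) -
            boxSum r a (mv B v) l ((σ : ℂ) + t * Complex.I)‖ ^ (2 * k)) ≤ ENNReal.ofReal (2 * Y) := by
      intro l hl
      calc _ ≤ ∫⁻ t in Set.Icc ((2 : ℝ) ^ j) ((2 : ℝ) ^ (j + 1)) ∪
            Set.Icc ((2 : ℝ) ^ (j + 1)) ((2 : ℝ) ^ (j + 1 + 1)), ENNReal.ofReal
              (‖boxSum r a (mv B v) (l + 1) ((σ : ℂ) + t * Complex.I) -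
                boxSum r a (mv B v) l ((σ : ℂ) + t * Complex.I)‖ ^ (2 * k)) :=
            lintegral_mono_set hcover
        _ ≤ _ := lintegral_union_le _ _ _
        _ ≤ ENNReal.ofReal Y + ENNReal.ofReal Y := by
            gcongr
            · exact hseg l hl j le_rfl (by omega)
            · exact hseg l hl (j + 1) (by omega) le_rfl
        _ = _ := by rw [← ENNReal.ofReal_add hY0 hY0, two_mul]
    have hb0 : ∫⁻ t in Set.Icc T (2 * T), ENNReal.ofReal
        (‖boxSum r a (mv B v) 0 ((σ : ℂ) + t * Complex.I)‖ ^ (2 * k)) ≤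
        ENNReal.ofReal (A₀ ^ (2 * k) * T) := by
      calc _ ≤ ∫⁻ t in Set.Icc T (2 * T), ENNReal.ofReal (A₀ ^ (2 * k)) := by
            apply lintegral_mono
            intro t
            apply ENNReal.ofReal_le_ofReal
            apply pow_le_pow_left₀ (norm_nonneg _)
            exact boxSum_zero (H := r + 1) ha hw (by rw [hre]; exact hσ0) (by rw [hre]; exact hσ1)
        _ = ENNReal.ofReal (A₀ ^ (2 * k) * T) := by
            rw [setLIntegral_const, Real.volume_Icc, ← ENNReal.ofReal_mul (by positivity)]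
            congr 2
            ring
    have hsm : ∀ l, Measurable fun t : ℝ => ENNReal.ofReal
          (‖boxSum r a (mv B v) (l + 1) ((σ : ℂ) + t * Complex.I) -
            boxSum r a (mv B v) l ((σ : ℂ) + t * Complex.I)‖ ^ (2 * k)) := fun l =>
      ((((boxSum_cont ha hw (l + 1) σ).sub (boxSum_cont ha hw l σ)).norm).pow
        _).measurable.ennreal_ofReal
    have htot : ∫⁻ t in Set.Icc T (2 * T), ENNReal.ofReal
        (‖boxSum r a (mv B v) i ((σ : ℂ) + t * Complex.I)‖ ^ (2 * k)) ≤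
        ENNReal.ofReal (((i : ℝ) + 1) ^ (2 * k) * (A₀ ^ (2 * k) * T + i * (2 * Y))) := by
      calc _ ≤ ∫⁻ t in Set.Icc T (2 * T), ENNReal.ofReal (((i : ℝ) + 1) ^ (2 * k)) *
            (ENNReal.ofReal (‖boxSum r a (mv B v) 0 ((σ : ℂ) + t * Complex.I)‖ ^ (2 * k)) +
              ∑ l ∈ Finset.range i, ENNReal.ofReal
                (‖boxSum r a (mv B v) (l + 1) ((σ : ℂ) + t * Complex.I) -
                  boxSum r a (mv B v) l ((σ : ℂ) + t * Complex.I)‖ ^ (2 * k))) := by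
            apply lintegral_mono
            intro t
            simp only
            rw [← ENNReal.ofReal_sum_of_nonneg (fun l _ => by positivity),
              ← ENNReal.ofReal_add (by positivity) (Finset.sum_nonneg fun l _ => by positivity),
              ← ENNReal.ofReal_mul (by positivity)]
            exact ENNReal.ofReal_le_ofReal (box_pow hk i)
        _ = ENNReal.ofReal (((i : ℝ) + 1) ^ (2 * k)) *
            ((∫⁻ t in Set.Icc T (2 * T),
              ENNReal.ofReal (‖boxSum r a (mv B v) 0 ((σ : ℂ) + t * Complex.I)‖ ^ (2 * k))) +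
              ∑ l ∈ Finset.range i, ∫⁻ t in Set.Icc T (2 * T), ENNReal.ofReal
                (‖boxSum r a (mv B v) (l + 1) ((σ : ℂ) + t * Complex.I) -
                  boxSum r a (mv B v) l ((σ : ℂ) + t * Complex.I)‖ ^ (2 * k))) := by
            rw [lintegral_const_mul' _ _ ENNReal.ofReal_ne_top, lintegral_add_right, lintegral_finsetSum]
            · exact fun l _ => hsm l
            · exact Finset.measurable_sum _ fun l _ => hsm l
        _ ≤ ENNReal.ofReal (((i : ℝ) + 1) ^ (2 * k)) *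
            (ENNReal.ofReal (A₀ ^ (2 * k) * T) + ∑ l ∈ Finset.range i, ENNReal.ofReal (2 * Y)) := by
            gcongr with l hl
            exact hshell l (Finset.mem_range.1 hl)
        _ = _ := by
            have q1 : ENNReal.ofReal ((i : ℝ) * (2 * Y)) = (i : ENNReal) * ENNReal.ofReal (2 * Y) := by
              rw [ENNReal.ofReal_mul (Nat.cast_nonneg i), ENNReal.ofReal_natCast]
            rw [Finset.sum_const, Finset.card_range, nsmul_eq_mul, ← q1,
              ← ENNReal.ofReal_add (by positivity) (by positivity),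
              ← ENNReal.ofReal_mul (by positivity)]
    have hilog : (i : ℝ) + 1 ≤ Ce * T ^ e := by
      have h1 : (i : ℝ) * Real.log 2 ≤ Real.log T := by
        rw [← Real.log_pow]
        exact Real.log_le_log (by positivity) (hi.trans hTθ)
      have h2 := Real.log_le_rpow_div hT0.le he0
      rw [le_div_iff₀ he0] at h2
      have h3 : (i : ℝ) ≤ 1 / (e * Real.log 2) * T ^ e := by
        rw [one_div, ← div_eq_inv_mul, le_div_iff₀ (by positivity)]
        calc (i : ℝ) * (e * Real.log 2) = (i * Real.log 2) * e := by ring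
          _ ≤ Real.log T * e := by gcongr
          _ ≤ T ^ e := h2
      have h4 : 1 ≤ T ^ e := Real.one_le_rpow hT1 he0.le
      rw [hCe, add_mul]
      linarith
    have hpow : ((i : ℝ) + 1) ^ (2 * k + 1) ≤ Ce ^ (2 * k + 1) * T ^ (k * η) := by
      calc ((i : ℝ) + 1) ^ (2 * k + 1) ≤ (Ce * T ^ e) ^ (2 * k + 1) :=
            pow_le_pow_left₀ (by positivity) hilog _
        _ = Ce ^ (2 * k + 1) * T ^ (k * η) := by
            rw [mul_pow, ← Real.rpow_natCast (T ^ e), ← Real.rpow_mul hT0.le]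
            congr 2
            rw [he]
            push_cast
            field_simp
    have hfinal : ((i : ℝ) + 1) ^ (2 * k) * (A₀ ^ (2 * k) * T + i * (2 * Y)) ≤
        C₈ * (T ^ (1 + 2 * k * η) * ((2 : ℝ) ^ i) ^ (2 * k * mx)) := by
      have g1 : A₀ ^ (2 * k) * T + i * (2 * Y) ≤ ((i : ℝ) + 1) * ((A₀ ^ (2 * k) +
          2 * (CB : ℝ) ^ (2 * k * r) * 2 ^ (1 + ε₂)) *
          (T ^ (1 + ε₂) * ((2 : ℝ) ^ i) ^ (2 * k * mx))) := by
        have g2 : T ≤ T ^ (1 + ε₂) * ((2 : ℝ) ^ i) ^ (2 * k * mx) := by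
          have : T ≤ T ^ (1 + ε₂) := by
            calc T = T ^ (1 : ℝ) := (Real.rpow_one T).symm
              _ ≤ _ := Real.rpow_le_rpow_of_exponent_le hT1 (by linarith)
          calc T = T * 1 := (mul_one _).symm
            _ ≤ _ := by gcongr
        have g3 : 2 * Y = 2 * (CB : ℝ) ^ (2 * k * r) * 2 ^ (1 + ε₂) *
            (T ^ (1 + ε₂) * ((2 : ℝ) ^ i) ^ (2 * k * mx)) := by
          rw [hY, Real.mul_rpow (by norm_num) hT0.le]
          ring
        have g4 : A₀ ^ (2 * k) * T ≤ A₀ ^ (2 * k) *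
            (T ^ (1 + ε₂) * ((2 : ℝ) ^ i) ^ (2 * k * mx)) := by gcongr
        have g5 : 0 ≤ A₀ ^ (2 * k) * (T ^ (1 + ε₂) * ((2 : ℝ) ^ i) ^ (2 * k * mx)) := by positivity
        have g6 : 0 ≤ 2 * (CB : ℝ) ^ (2 * k * r) * 2 ^ (1 + ε₂) *
            (T ^ (1 + ε₂) * ((2 : ℝ) ^ i) ^ (2 * k * mx)) := by positivity
        have g7 : (0 : ℝ) ≤ i := Nat.cast_nonneg i
        rw [g3]
        nlinarith [mul_nonneg g7 g5, mul_nonneg g7 g6]
      calc _ ≤ ((i : ℝ) + 1) ^ (2 * k) * (((i : ℝ) + 1) * ((A₀ ^ (2 * k) +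
          2 * (CB : ℝ) ^ (2 * k * r) * 2 ^ (1 + ε₂)) *
          (T ^ (1 + ε₂) * ((2 : ℝ) ^ i) ^ (2 * k * mx)))) := by gcongr
        _ = ((i : ℝ) + 1) ^ (2 * k + 1) * ((A₀ ^ (2 * k) +
          2 * (CB : ℝ) ^ (2 * k * r) * 2 ^ (1 + ε₂)) *
          (T ^ (1 + ε₂) * ((2 : ℝ) ^ i) ^ (2 * k * mx))) := by ring
        _ ≤ (Ce ^ (2 * k + 1) * T ^ (k * η)) * ((A₀ ^ (2 * k) +
          2 * (CB : ℝ) ^ (2 * k * r) * 2 ^ (1 + ε₂)) *
          (T ^ (1 + ε₂) * ((2 : ℝ) ^ i) ^ (2 * k * mx))) := by gcongr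
        _ = C₈ * ((T ^ (k * η) * T ^ (1 + ε₂)) * ((2 : ℝ) ^ i) ^ (2 * k * mx)) := by
            rw [hC₈]
            ring
        _ = _ := by
            rw [← Real.rpow_add hT0]
            congr 3
            rw [hε₂]
            ring
    rw [intervalIntegral.integral_of_le (by linarith), integral_eq_lintegral_of_nonneg_ae
      (Filter.Eventually.of_forall fun t => by positivity) hbc.aestronglyMeasurable.restrict]
    have hIoc : ∫⁻ t in Set.Ioc T (2 * T), ENNReal.ofReal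
        (‖boxSum r a (mv B v) i ((σ : ℂ) + t * Complex.I)‖ ^ (2 * k)) ≤
        ENNReal.ofReal (C₈ * (T ^ (1 + 2 * k * η) * ((2 : ℝ) ^ i) ^ (2 * k * mx))) :=
      ((lintegral_mono_set Set.Ioc_subset_Icc_self).trans htot).trans
        (ENNReal.ofReal_le_ofReal hfinal)
    calc _ ≤ C₈ * (T ^ (1 + 2 * k * η) * ((2 : ℝ) ^ i) ^ (2 * k * mx)) :=
          ENNReal.toReal_le_of_le_ofReal (by positivity) hIoc
      _ ≤ (C₈ + (((2 : ℝ) ^ J) ^ r * A₀) ^ (2 * k)) *
          (T ^ (1 + 2 * k * η) * ((2 : ℝ) ^ i) ^ (2 * k * mx)) := by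
          apply mul_le_mul_of_nonneg_right _ hRpos
          have : 0 ≤ (((2 : ℝ) ^ J) ^ r * A₀) ^ (2 * k) := by positivity
          linarith
      _ = _ := by ring

theorem s_fm (hM : S_M) (hCL : S_CL2) (hF2 : S_F2M) (hF3 : S_F3) : S_FM := by
  classical
  intro k d r a B θ η hk hd ha hB hθ hθd hη
  rw [ae_iff]
  apply measure_null_of_locally_null
  intro x hx
  rw [Set.mem_ofPred_eq, Classical.not_imp] at hx
  have hpos := hx.1
  obtain ⟨hdr, -⟩ := hF3 r d B (by omega) hB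
  have hr : 0 < r := by omega
  have : Nonempty (Fin r) := ⟨⟨0, hr⟩⟩
  obtain ⟨i₀, hi₀⟩ := Finite.exists_min (fun i => mv B x i)
  set c₀ : ℝ := mv B x i₀ / 2 with hc₀
  have hc₀0 : 0 < c₀ := by
    have := hpos i₀
    positivity
  have hopen : IsOpen {v : Fin d → ℝ | ∀ i, c₀ < mv B v i} := by
    simp only [Set.ofPred_forall]
    exact isOpen_iInter_of_finite fun i => isOpen_lt continuous_const (mv_cont B i)
  have hmem : x ∈ {v : Fin d → ℝ | ∀ i, c₀ < mv B v i} := by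
    intro i
    have h1 : mv B x i₀ ≤ mv B x i := hi₀ i
    have h2 := hpos i₀
    rw [hc₀]
    linarith
  obtain ⟨R, hR, hball⟩ := Metric.isOpen_iff.1 hopen x hmem
  have hloc := local_fm hM hCL hF2 hF3 hk hd ha hB hθ hθd hη x (ϱ := R / 4) (c₀ := c₀) (by positivity)
    hc₀0 (by
      intro v hv i
      have : v ∈ ball x R := by
        rw [mem_closedBall] at hv
        rw [mem_ball]
        linarith
      exact (hball this i).le)
  rw [ae_iff] at hloc
  refine ⟨closedBall x (R / 4 / 2) ∩ {v | ¬((∀ j, 0 < mv B v j) →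
      ∃ C : ℝ, 0 ≤ C ∧ ∀ (i : ℕ) (σ T : ℝ), (2 : ℝ) ^ i ≤ T ^ θ → 0 ≤ σ → σ ≤ r + 1 → 1 ≤ T →
        ∫ t in T..(2 * T), ‖boxSum r a (mv B v) i ((σ : ℂ) + t * Complex.I)‖ ^ (2 * k) ≤
          C * T ^ (1 + 2 * k * η) * ((2 : ℝ) ^ i) ^ (2 * k * max 0 ((r : ℝ) - d / 2 - σ)))}, ?_, ?_⟩
  · rw [Set.inter_comm]
    exact inter_mem_nhdsWithin _ (closedBall_mem_nhds x (by positivity))
  · refine measure_mono_null ?_ hloc
    rintro v ⟨hv1, hv2⟩
    rw [Set.mem_ofPred_eq, Classical.not_imp] at hv2 ⊢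
    exact ⟨hv1, hv2.2⟩

end Pool.Agent.Helper73.BL
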