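import Pool.Agent.Helper73.BL.St4

set_option autoImplicit false

/-!
# Barnes zeta functions in large dimension: the final module
-/

namespace Pool.Agent.Helper73.BL

open MeasureTheory Metric Matrix

/-- common denominator of a rational matrix -/
theorem fin_den {r d : ℕ} (B : Fin r → Fin d → ℚ) :
    ∃ (D : ℕ) (B₁ : Matrix (Fin r) (Fin d) ℤ), 1 ≤ D ∧ ∀ i j, (B₁ i j : ℚ) = D * B i j := by
  set D : ℕ := ∏ p : Fin r × Fin d, (B p.1 p.2).den with hD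
  have hdv : ∀ i j, (B i j).den ∣ D := fun i j =>
    Finset.dvd_prod_of_mem (fun p : Fin r × Fin d => (B p.1 p.2).den) (Finset.mem_univ (i, j))
  choose q hq using hdv
  refine ⟨D, Matrix.of fun i j => (B i j).num * (q i j : ℤ), ?_, fun i j => ?_⟩
  · rw [hD]
    exact Nat.succ_le_of_lt (Finset.prod_pos fun p _ => (B p.1 p.2).den_pos)
  · rw [hq i j]
    have h1 : (B i j : ℚ) * ((B i j).den : ℚ) = (B i j).num := Rat.mul_den_eq_num _
    simp only [Matrix.of_apply]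
    push_cast
    rw [← h1]
    ring

/-- the integral matrix has rank `d` -/
theorem fin_inj {r d : ℕ} (B : Fin r → Fin d → ℚ) (e : Fin d → Fin r)
    (hdet : ((Pool.Agent.Y616.BM.rm B).submatrix e id).det ≠ 0) {D : ℕ}
    {B₁ : Matrix (Fin r) (Fin d) ℤ} (hD : 1 ≤ D) (hB : ∀ i j, (B₁ i j : ℚ) = D * B i j) :
    Inj B₁ := by
  have hD0 : (D : ℚ) ≠ 0 := by
    have : 0 < D := hD
    positivity
  have hdet' : (Matrix.of fun i k => B (e i) k : Matrix (Fin d) (Fin d) ℚ).det ≠ 0 := by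
    set A : Matrix (Fin d) (Fin d) ℚ := Matrix.of fun i k => B (e i) k with hA
    have h3 : (Pool.Agent.Y616.BM.rm B).submatrix e id = (Rat.castHom ℝ).mapMatrix A := by
      ext i k
      simp [Pool.Agent.Y616.BM.rm, hA]
    rw [h3, ← RingHom.map_det] at hdet
    intro h
    exact hdet (by rw [h, map_zero])
  intro x y hxy
  have h1 : (B₁.map (Int.cast : ℤ → ℚ)).mulVec (x - y) = 0 := by
    rw [Matrix.mulVec_sub, sub_eq_zero]
    exact hxy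
  have h2 : (Matrix.of fun i k => B (e i) k : Matrix (Fin d) (Fin d) ℚ).mulVec (x - y) = 0 := by
    funext i
    have h3 := congrFun h1 (e i)
    simp only [Matrix.mulVec, dotProduct, Matrix.map_apply, Pi.zero_apply, hB] at h3
    simp only [Matrix.mulVec, dotProduct, Matrix.of_apply, Pi.zero_apply]
    have h4 : (D : ℚ) * ∑ j, B (e i) j * (x - y) j = 0 := by
      rw [Finset.mul_sum, ← h3]
      exact Finset.sum_congr rfl fun j _ => by ring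
    exact (mul_eq_zero.1 h4).resolve_left hD0
  have h3 := Matrix.eq_zero_of_mulVec_eq_zero hdet' h2
  exact sub_eq_zero.1 h3

/-- scaling the parameters -/
theorem fin_scale {r : ℕ} {a : ℝ} {w w' : Fin r → ℝ} {D : ℕ} (hD : 1 ≤ D) (ha : 0 < a)
    (hw : ∀ j, 0 < w j) (hw' : ∀ j, w' j = D * w j) (i : ℕ) (s : ℂ) :
    boxSum r a w i s = (D : ℂ) ^ s * boxSum r (D * a) w' i s := by
  have hD0 : (0 : ℝ) < D := by exact_mod_cast hD
  unfold boxSum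
  rw [Finset.mul_sum]
  refine Finset.sum_congr rfl fun m _ => ?_
  have h1 : ((D * a + ∑ j, (m j : ℝ) * w' j : ℝ) : ℂ) =
      ((D : ℝ) : ℂ) * ((a + ∑ j, (m j : ℝ) * w j : ℝ) : ℂ) := by
    rw [← Complex.ofReal_mul]
    congr 1
    rw [mul_add, Finset.mul_sum]
    congr 1
    exact Finset.sum_congr rfl fun j _ => by rw [hw' j]; ring
  have h2 : 0 ≤ a + ∑ j, (m j : ℝ) * w j := by
    have : 0 ≤ ∑ j, (m j : ℝ) * w j :=
      Finset.sum_nonneg fun j _ => mul_nonneg (Nat.cast_nonneg _) (hw j).le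
    linarith
  rw [h1, Complex.mul_cpow_ofReal_nonneg hD0.le h2, ← mul_assoc]
  have h3 : ((D : ℝ) : ℂ) ≠ 0 := by exact_mod_cast hD0.ne'
  have h4 : (D : ℂ) ^ s * ((D : ℝ) : ℂ) ^ (-s) = 1 := by
    rw [Complex.ofReal_natCast] at h3 ⊢
    rw [← Complex.cpow_add _ _ h3, add_neg_cancel, Complex.cpow_zero]
  rw [h4, one_mul]

theorem fin_box {r : ℕ} {a : ℝ} {w w' : Fin r → ℝ} {D : ℕ} (hD : 1 ≤ D) (ha : 0 < a)
    (hw : ∀ j, 0 < w j) (hw' : ∀ j, w' j = D * w j) {θ η h : ℝ}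
    (hC : ∃ C : ℝ, 0 ≤ C ∧ ∀ (i : ℕ) (σ t : ℝ), (2 : ℝ) ^ i ≤ t ^ θ → 0 ≤ σ → σ ≤ r + 1 → 1 ≤ t →
        ‖boxSum r (D * a) w' i ((σ : ℂ) + t * Complex.I)‖ ≤
          C * t ^ η * ((2 : ℝ) ^ i) ^ (max 0 (h - σ))) :
    ∃ C : ℝ, 0 ≤ C ∧ ∀ (i : ℕ) (σ t : ℝ), (2 : ℝ) ^ i ≤ t ^ θ → 0 ≤ σ → σ ≤ r + 1 → 1 ≤ t →
        ‖boxSum r a w i ((σ : ℂ) + t * Complex.I)‖ ≤
          C * t ^ η * ((2 : ℝ) ^ i) ^ (max 0 (h - σ)) := by
  obtain ⟨C, hC0, hC⟩ := hC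
  have hD0 : (0 : ℝ) < D := by exact_mod_cast hD
  have hD1 : (1 : ℝ) ≤ D := by exact_mod_cast hD
  refine ⟨(D : ℝ) ^ ((r : ℝ) + 1) * C, by positivity, fun i σ t h1 h2 h3 h4 => ?_⟩
  rw [fin_scale hD ha hw hw', norm_mul]
  have h5 : ‖(D : ℂ) ^ ((σ : ℂ) + t * Complex.I)‖ ≤ (D : ℝ) ^ ((r : ℝ) + 1) := by
    rw [Complex.norm_natCast_cpow_of_pos hD]
    refine Real.rpow_le_rpow_of_exponent_le hD1 ?_
    simpa using h3
  calc _ ≤ (D : ℝ) ^ ((r : ℝ) + 1) * (C * t ^ η * ((2 : ℝ) ^ i) ^ (max 0 (h - σ))) :=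
        mul_le_mul h5 (hC i σ t h1 h2 h3 h4) (norm_nonneg _) (by positivity)
    _ = _ := by ring

theorem s_fin (hF : S_F) (hG : S_G3) : S_FIN := by
  intro k d a hk hd ha
  have hd1 : 1 ≤ d := by omega
  have hd0 : (0 : ℝ) < d := by exact_mod_cast hd1
  have hk0 : (0 : ℝ) < k := by exact_mod_cast hk
  have hae : ∀ᵐ v : Fin d → ℝ, ∀ (r : ℕ) (B : Matrix (Fin r) (Fin d) ℤ) (D : ℕ) (θ η : ℚ),
      1 ≤ D → Inj B → 0 < (θ : ℝ) → (θ : ℝ) * d < 1 → 1 / (2 * (k : ℝ)) < (η : ℝ) →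
      (∀ j, 0 < mv B v j) →
      ∃ C : ℝ, 0 ≤ C ∧ ∀ (i : ℕ) (σ t : ℝ), (2 : ℝ) ^ i ≤ t ^ (θ : ℝ) → 0 ≤ σ → σ ≤ r + 1 →
        1 ≤ t → ‖boxSum r (D * a) (mv B v) i ((σ : ℂ) + t * Complex.I)‖ ≤
          C * t ^ (η : ℝ) * ((2 : ℝ) ^ i) ^ (max 0 ((r : ℝ) - d / 2 - σ)) := by
    have : ∀ r : ℕ, Countable (Matrix (Fin r) (Fin d) ℤ) := fun r =>
      inferInstanceAs (Countable (Fin r → Fin d → ℤ))
    simp only [ae_all_iff]
    intro r B D θ η hD hB hθ hθd hη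
    have hD0 : (0 : ℝ) < D := by exact_mod_cast hD
    have h1 := hF k d r (D * a) B θ η hk hd (by positivity) hB hθ hθd hη
    filter_upwards [h1] with v hv
    simpa only [ae_all_iff] using hv
  filter_upwards [hae, Pool.Agent.Y616.BM.ae_goo d, Pool.Agent.Y616.BM.ae_indep d] with v hE hGoo hv
  refine ⟨hv, fun r w hw hspan c hc ε hε σ₁ => ?_⟩
  obtain ⟨B, e, he, hdet, hwB⟩ := Pool.Agent.Y616.BM.lin hv hspan
  have hdr : d ≤ r := by simpa using Fintype.card_le_of_injective e he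
  have hdr' : (d : ℝ) ≤ r := Nat.cast_le.2 hdr
  obtain ⟨D, B₁, hD, hB₁⟩ := fin_den B
  have hInj : Inj B₁ := fin_inj B e hdet hD hB₁
  have hD0 : (0 : ℝ) < D := by exact_mod_cast hD
  have hmv : ∀ j, mv B₁ v j = D * w j := by
    intro j
    rw [hwB]
    simp only [mv, Pool.Agent.Y616.BM.rm, Matrix.mulVec, dotProduct, Matrix.of_apply]
    rw [Finset.mul_sum]
    refine Finset.sum_congr rfl fun l _ => ?_
    have h1 : ((B₁ j l : ℚ) : ℝ) = ((D * B j l : ℚ) : ℝ) := by rw [hB₁ j l]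
    push_cast at h1
    rw [h1]
    ring
  have hpos : ∀ j, 0 < mv B₁ v j := fun j => by
    rw [hmv j]
    exact mul_pos hD0 (hw j)
  -- the parameters
  obtain ⟨θ, hθ1, hθ2⟩ := exists_rat_btwn (show max 0 ((1 - 2 * ε) / d) < 1 / (d : ℝ) by
    refine max_lt (by positivity) ?_
    gcongr
    linarith)
  obtain ⟨η, hη1, hη2⟩ := exists_rat_btwn
    (show 1 / (2 * (k : ℝ)) < 1 / (2 * (k : ℝ)) + ε by linarith)
  have hθ0 : 0 < (θ : ℝ) := lt_of_le_of_lt (le_max_left _ _) hθ1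
  have hθd : (θ : ℝ) * d < 1 := by rwa [lt_div_iff₀ hd0] at hθ2
  have hθε : 1 - 2 * ε < (θ : ℝ) * d := by
    have h1 := lt_of_le_of_lt (le_max_right _ _) hθ1
    rwa [div_lt_iff₀ hd0] at h1
  have hθ' : (θ : ℝ) ≤ 1 := by
    have h1 : (1 : ℝ) ≤ d := by exact_mod_cast hd1
    nlinarith
  have hk2 : 0 < 1 / (2 * (k : ℝ)) := by positivity
  have hbox := fin_box (η := (η : ℝ)) hD ha hw hmv (hE r B₁ D θ η hD hInj hθ0 hθd hη1 hpos)
  refine hG r d a w c hd1 hdr ha hw hc (fun κ hκ _ => ?_) η θ (by linarith) hθ0 hθ' hbox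
    (1 / (2 * (k : ℝ)) + ε) hη2 (by linarith) σ₁
  exact Pool.Agent.Y616.BM.line_bound hv hGoo ha hw hspan hc (σ := (r : ℝ) - d + κ)
    (by linarith) (by linarith) hκ

end Pool.Agent.Helper73.BL
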