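import Pool.Agent.Helper73.BL.St5
import Pool.Agent.Helper73.BL.FIN

set_option autoImplicit false

/-!
# Barnes zeta functions in large dimension: the final module for the moments
-/

namespace Pool.Agent.Helper73.BL

open MeasureTheory Metric Matrix

theorem fin_boxM {r : ℕ} {a : ℝ} {w w' : Fin r → ℝ} {D : ℕ} (hD : 1 ≤ D) (ha : 0 < a)
    (hw : ∀ j, 0 < w j) (hw' : ∀ j, w' j = D * w j) {θ η h : ℝ} {k : ℕ}
    (hC : ∃ C : ℝ, 0 ≤ C ∧ ∀ (i : ℕ) (σ T : ℝ), (2 : ℝ) ^ i ≤ T ^ θ → 0 ≤ σ → σ ≤ r + 1 → 1 ≤ T →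
        ∫ t in T..(2 * T), ‖boxSum r (D * a) w' i ((σ : ℂ) + t * Complex.I)‖ ^ (2 * k) ≤
          C * T ^ (1 + 2 * k * η) * ((2 : ℝ) ^ i) ^ (2 * k * max 0 (h - σ))) :
    ∃ C : ℝ, 0 ≤ C ∧ ∀ (i : ℕ) (σ T : ℝ), (2 : ℝ) ^ i ≤ T ^ θ → 0 ≤ σ → σ ≤ r + 1 → 1 ≤ T →
        ∫ t in T..(2 * T), ‖boxSum r a w i ((σ : ℂ) + t * Complex.I)‖ ^ (2 * k) ≤
          C * T ^ (1 + 2 * k * η) * ((2 : ℝ) ^ i) ^ (2 * k * max 0 (h - σ)) := by
  obtain ⟨C, hC0, hC⟩ := hC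
  have hD0 : (0 : ℝ) < D := by exact_mod_cast hD
  have hD1 : (1 : ℝ) ≤ D := by exact_mod_cast hD
  refine ⟨((D : ℝ) ^ ((r : ℝ) + 1)) ^ (2 * k) * C, by positivity, fun i σ T h1 h2 h3 h4 => ?_⟩
  have h5 : ‖(D : ℂ) ^ (σ : ℂ)‖ ≤ (D : ℝ) ^ ((r : ℝ) + 1) := by
    rw [Complex.norm_natCast_cpow_of_pos hD]
    exact Real.rpow_le_rpow_of_exponent_le hD1 (by simpa using h3)
  have h6 : ∀ t : ℝ, ‖boxSum r a w i ((σ : ℂ) + t * Complex.I)‖ ^ (2 * k) =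
      ‖(D : ℂ) ^ (σ : ℂ)‖ ^ (2 * k) *
        ‖boxSum r (D * a) w' i ((σ : ℂ) + t * Complex.I)‖ ^ (2 * k) := by
    intro t
    rw [fin_scale hD ha hw hw', norm_mul, mul_pow, Complex.norm_natCast_cpow_of_pos hD,
      Complex.norm_natCast_cpow_of_pos hD]
    simp
  simp only [h6]
  rw [intervalIntegral.integral_const_mul]
  have h7 := hC i σ T h1 h2 h3 h4
  have h8 : 0 ≤ ∫ t in T..(2 * T), ‖boxSum r (D * a) w' i ((σ : ℂ) + t * Complex.I)‖ ^ (2 * k) :=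
    intervalIntegral.integral_nonneg (by linarith) fun t _ => by positivity
  calc _ ≤ ((D : ℝ) ^ ((r : ℝ) + 1)) ^ (2 * k) *
        (C * T ^ (1 + 2 * k * η) * ((2 : ℝ) ^ i) ^ (2 * k * max 0 (h - σ))) :=
        mul_le_mul (pow_le_pow_left₀ (norm_nonneg _) h5 _) h7 h8 (by positivity)
    _ = _ := by ring

open Pool.Agent.H131R5.BZ Pool.Agent.Y930.Bz in
/-- dyadic decomposition of the moment -/
theorem dyad {r : ℕ} {a : ℝ} {w : Fin r → ℝ} {c : ℕ → ℂ} (ha : 0 < a) (hw : ∀ j, 0 < w j)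
    (hc : Tay a w c) {k : ℕ} {C e σ : ℝ} (hC : 0 ≤ C) (he : 0 ≤ e)
    (h : ∀ T : ℝ, 2 ≤ T → ∫ t in T..(2 * T), ‖FF a w c ((σ : ℂ) + t * Complex.I)‖ ^ (2 * k) ≤
      C * T ^ (1 + e)) {T : ℝ} (hT : 2 ≤ T) :
    ∫ t in (2 : ℝ)..T, ‖FF a w c ((σ : ℂ) + t * Complex.I)‖ ^ (2 * k) ≤
      C * 4 ^ (1 + e) * T ^ (1 + e) := by
  have hcont : ∀ x y : ℝ, 2 ≤ x → x ≤ y → IntervalIntegrable
      (fun t : ℝ => ‖FF a w c ((σ : ℂ) + t * Complex.I)‖ ^ (2 * k)) volume x y := by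
    intro x y hx hxy
    refine ContinuousOn.intervalIntegrable ?_
    rw [Set.uIcc_of_le hxy]
    intro t ht
    have ht0 : 2 ≤ t := hx.trans ht.1
    have h1 : DifferentiableAt ℂ (FF a w c) ((σ : ℂ) + t * Complex.I) := by
      refine FF_diff ha hw hc fun j _ _ hj => ?_
      have := congrArg Complex.im hj
      simp at this
      linarith
    have h2 : ContinuousAt (fun t : ℝ => FF a w c ((σ : ℂ) + t * Complex.I)) t := by
      refine ContinuousAt.comp (f := fun t : ℝ => ((σ : ℂ) + t * Complex.I)) h1.continuousAt ?_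
      fun_prop
    exact (h2.norm.pow _).continuousWithinAt
  have hn : ∀ n : ℕ, ∫ t in (2 : ℝ)..(2 : ℝ) ^ (n + 1),
      ‖FF a w c ((σ : ℂ) + t * Complex.I)‖ ^ (2 * k) ≤ C * ((2 : ℝ) ^ (n + 1)) ^ (1 + e) := by
    intro n
    induction n with
    | zero =>
      rw [zero_add, pow_one, intervalIntegral.integral_same]
      positivity
    | succ n ih =>
      have h2n : (2 : ℝ) ≤ (2 : ℝ) ^ (n + 1) := by
        calc (2 : ℝ) = 2 ^ 1 := by norm_num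
          _ ≤ _ := pow_le_pow_right₀ (by norm_num) (by omega)
      have h1 := h _ h2n
      have h3 : (2 : ℝ) * 2 ^ (n + 1) = 2 ^ (n + 1 + 1) := by ring
      rw [h3] at h1
      have h4 : (2 : ℝ) ^ (n + 1) ≤ 2 ^ (n + 1 + 1) :=
        pow_le_pow_right₀ (by norm_num) (by omega)
      rw [← intervalIntegral.integral_add_adjacent_intervals (hcont _ _ le_rfl h2n)
        (hcont _ _ h2n h4)]
      have h5 : ((2 : ℝ) ^ (n + 1 + 1)) ^ (1 + e) =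
          2 ^ (1 + e) * ((2 : ℝ) ^ (n + 1)) ^ (1 + e) := by
        rw [← h3, Real.mul_rpow (by norm_num) (by positivity)]
      have h6 : (2 : ℝ) ≤ 2 ^ (1 + e) := by
        calc (2 : ℝ) = 2 ^ (1 : ℝ) := by norm_num
          _ ≤ _ := Real.rpow_le_rpow_of_exponent_le (by norm_num) (by linarith)
      have h7 : 0 ≤ C * ((2 : ℝ) ^ (n + 1)) ^ (1 + e) := by positivity
      calc _ ≤ C * ((2 : ℝ) ^ (n + 1)) ^ (1 + e) + C * ((2 : ℝ) ^ (n + 1)) ^ (1 + e) :=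
            add_le_add ih h1
        _ = 2 * (C * ((2 : ℝ) ^ (n + 1)) ^ (1 + e)) := by ring
        _ ≤ 2 ^ (1 + e) * (C * ((2 : ℝ) ^ (n + 1)) ^ (1 + e)) :=
            mul_le_mul_of_nonneg_right h6 h7
        _ = C * ((2 : ℝ) ^ (n + 1 + 1)) ^ (1 + e) := by rw [h5]; ring
  obtain ⟨n, hn1, hn2⟩ := exists_nat_pow_near (show (1 : ℝ) ≤ T by linarith) (show (1 : ℝ) < 2 by norm_num)
  have h2n : (2 : ℝ) ≤ (2 : ℝ) ^ (n + 1) := by
    calc (2 : ℝ) = 2 ^ 1 := by norm_num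
      _ ≤ _ := pow_le_pow_right₀ (by norm_num) (by omega)
  have h1 : ∫ t in (2 : ℝ)..T, ‖FF a w c ((σ : ℂ) + t * Complex.I)‖ ^ (2 * k) ≤
      ∫ t in (2 : ℝ)..(2 : ℝ) ^ (n + 1), ‖FF a w c ((σ : ℂ) + t * Complex.I)‖ ^ (2 * k) := by
    refine intervalIntegral.integral_mono_interval le_rfl hT hn2.le ?_ (hcont _ _ le_rfl h2n)
    exact Filter.Eventually.of_forall fun t => by positivity
  refine h1.trans ((hn n).trans ?_)
  rw [mul_assoc, ← Real.mul_rpow (by norm_num) (by linarith)]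
  refine mul_le_mul_of_nonneg_left (Real.rpow_le_rpow (by positivity) ?_ (by linarith)) hC
  rw [pow_succ]
  linarith

open Pool.Agent.H131R5.BZ Pool.Agent.Y930.Bz in
/-- final module, with the moments over `[2, T]` -/
def S_FIN3 : Prop :=
  ∀ (k d : ℕ) (a : ℝ), 1 ≤ k → 4 * k + 1 ≤ d → 0 < a →
    ∀ᵐ v : Fin d → ℝ, LinearIndependent ℚ v ∧ ∀ (r : ℕ) (w : Fin r → ℝ), (∀ j, 0 < w j) →
      Submodule.span ℚ (Set.range w) = Submodule.span ℚ (Set.range v) →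
      ∀ c : ℕ → ℂ, Tay a w c → ∀ ε : ℝ, 0 < ε → ∀ σ₁ : ℝ, ∃ C : ℝ, 0 ≤ C ∧ ∀ σ T : ℝ,
        (r : ℝ) - d / 2 ≤ σ → σ ≤ σ₁ → 2 ≤ T →
        ∫ t in (2 : ℝ)..T, ‖FF a w c ((σ : ℂ) + t * Complex.I)‖ ^ (2 * k) ≤ C * T ^ (1 + ε)

theorem s_fin3 (hF : S_FM) (hG : S_G4) : S_FIN3 := by
  intro k d a hk hd ha
  have hd1 : 1 ≤ d := by omega
  have hd0 : (0 : ℝ) < d := by exact_mod_cast hd1
  have hk0 : (0 : ℝ) < k := by exact_mod_cast hk
  have hae : ∀ᵐ v : Fin d → ℝ, ∀ (r : ℕ) (B : Matrix (Fin r) (Fin d) ℤ) (D : ℕ) (θ η : ℚ),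
      1 ≤ D → Inj B → 0 < (θ : ℝ) → (θ : ℝ) * d < 1 → 0 < (η : ℝ) →
      (∀ j, 0 < mv B v j) →
      ∃ C : ℝ, 0 ≤ C ∧ ∀ (i : ℕ) (σ T : ℝ), (2 : ℝ) ^ i ≤ T ^ (θ : ℝ) → 0 ≤ σ → σ ≤ r + 1 →
        1 ≤ T →
        ∫ t in T..(2 * T), ‖boxSum r (D * a) (mv B v) i ((σ : ℂ) + t * Complex.I)‖ ^ (2 * k) ≤
          C * T ^ (1 + 2 * k * (η : ℝ)) *
            ((2 : ℝ) ^ i) ^ (2 * k * max 0 ((r : ℝ) - d / 2 - σ)) := by
    have : ∀ r : ℕ, Countable (Matrix (Fin r) (Fin d) ℤ) := fun r =>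
      inferInstanceAs (Countable (Fin r → Fin d → ℤ))
    simp only [ae_all_iff]
    intro r B D θ η hD hB hθ hθd hη
    have hD0 : (0 : ℝ) < D := by exact_mod_cast hD
    have h1 := hF k d r (D * a) B θ η hk hd (by positivity) hB hθ hθd hη
    filter_upwards [h1] with v hv
    simpa only [ae_all_iff] using hv
  filter_upwards [hae, Pool.Agent.Y616.BM.ae_goo d, Pool.Agent.Y616.BM.ae_indep d] with v hE hGoo hv
  refine ⟨hv, fun r w hw hspan c hc ε hε σ₁ => ?_⟩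
  obtain ⟨B, e, he, hdet, hwB⟩ := Pool.Agent.Y616.BM.lin hv hspan
  have hdr : d ≤ r := by simpa using Fintype.card_le_of_injective e he
  have hdr' : (d : ℝ) ≤ r := Nat.cast_le.2 hdr
  obtain ⟨D, B₁, hD, hB₁⟩ := fin_den B
  have hInj : Inj B₁ := fin_inj B e hdet hD hB₁
  have hD0 : (0 : ℝ) < D := by exact_mod_cast hD
  have hmv : ∀ j, mv B₁ v j = D * w j := by
    intro j
    rw [hwB]
    simp only [mv, Pool.Agent.Y616.BM.rm, Matrix.mulVec, dotProduct, Matrix.of_apply]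
    rw [Finset.mul_sum]
    refine Finset.sum_congr rfl fun l _ => ?_
    have h1 : ((B₁ j l : ℚ) : ℝ) = ((D * B j l : ℚ) : ℝ) := by rw [hB₁ j l]
    push_cast at h1
    rw [h1]
    ring
  have hpos : ∀ j, 0 < mv B₁ v j := fun j => by
    rw [hmv j]
    exact mul_pos hD0 (hw j)
  -- the parameters: `2 k ν = ε`
  set ν : ℝ := ε / (2 * k) with hν
  have hν0 : 0 < ν := by positivity
  have hνε : 2 * k * ν = ε := by rw [hν]; field_simp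
  obtain ⟨θ, hθ1, hθ2⟩ := exists_rat_btwn (show max 0 ((1 - 2 * ν) / d) < 1 / (d : ℝ) by
    refine max_lt (by positivity) ?_
    gcongr
    linarith)
  obtain ⟨η, hη1, hη2⟩ := exists_rat_btwn hν0
  have hθ0 : 0 < (θ : ℝ) := lt_of_le_of_lt (le_max_left _ _) hθ1
  have hθd : (θ : ℝ) * d < 1 := by rwa [lt_div_iff₀ hd0] at hθ2
  have hθε : 1 - 2 * ν < (θ : ℝ) * d := by
    have h1 := lt_of_le_of_lt (le_max_right _ _) hθ1
    rwa [div_lt_iff₀ hd0] at h1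
  have hθ' : (θ : ℝ) ≤ 1 := by
    have h1 : (1 : ℝ) ≤ d := by exact_mod_cast hd1
    nlinarith
  have hbox := fin_boxM (η := (η : ℝ)) (k := k) hD ha hw hmv
    (hE r B₁ D θ η hD hInj hθ0 hθd hη1 hpos)
  obtain ⟨C, hC, h⟩ := hG r d k a w c hk hd1 hdr ha hw hc (fun κ hκ _ =>
    Pool.Agent.Y616.BM.line_bound hv hGoo ha hw hspan hc (σ := (r : ℝ) - d + κ)
      (by linarith) (by linarith) hκ) η θ hη1.le hθ0 hθ' hbox ν hη2 (by linarith) σ₁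
  rw [hνε] at h
  exact ⟨C * 4 ^ (1 + ε), by positivity, fun σ T h1 h2 h3 =>
    dyad ha hw hc hC hε.le (fun T' hT' => h σ T' h1 h2 hT') h3⟩

end Pool.Agent.Helper73.BL
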