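import Pool.Agent.Helper73.BL.Stm

set_option autoImplicit false

/-!
# Module G: from bounds for the box sums and on one line on the left to the bound on the strip
-/

namespace Pool.Agent.Helper73.BL

open Finset Filter Topology MeasureTheory Complex Set
open Pool.Agent.H131R5.BZ Pool.Agent.Y930.Bz Pool.Agent.Y616.BM

variable {r : ℕ} {a : ℝ} {w : Fin r → ℝ} {c : ℕ → ℂ}

/-- a uniform bound for negative powers -/
theorem rpow_neg_le_add {a l : ℝ} (ha : 0 < a) (hl : a ≤ l) {x B : ℝ} (hx : 0 ≤ x) (hB : x ≤ B) :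
    l ^ (-x) ≤ 1 + a ^ (-B) := by
  have h0 : l ^ (-x) ≤ a ^ (-x) := Real.rpow_le_rpow_of_nonpos ha hl (by linarith)
  have h1 : 0 < a ^ (-B) := Real.rpow_pos_of_pos ha _
  rcases le_total 1 a with h | h
  · have : a ^ (-x) ≤ 1 := Real.rpow_le_one_of_one_le_of_nonpos h (by linarith)
    linarith
  · have : a ^ (-x) ≤ a ^ (-B) := Real.rpow_le_rpow_of_exponent_ge ha h (by linarith)
    linarith

/-- the box sum in terms of `lam` -/
theorem boxSum_eq (i : ℕ) (s : ℂ) : boxSum r a w i s =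
    ∑ m ∈ Fintype.piFinset (fun _ : Fin r => Finset.range (2 ^ i)),
      ((Pool.Agent.H131R5.BZ.lam a w m : ℝ) : ℂ) ^ (-s) := rfl

theorem boxSum_le (ha : 0 < a) (hw : ∀ j, 0 < w j) (i : ℕ) {s : ℂ} {B : ℝ} (h0 : 0 ≤ s.re)
    (h1 : s.re ≤ B) : ‖boxSum r a w i s‖ ≤ (1 + a ^ (-B)) * ((2 : ℝ) ^ i) ^ r := by
  rw [boxSum_eq]
  refine (norm_sum_le _ _).trans ?_
  have h2 : ∀ m ∈ Fintype.piFinset (fun _ : Fin r => Finset.range (2 ^ i)),
      ‖((Pool.Agent.H131R5.BZ.lam a w m : ℝ) : ℂ) ^ (-s)‖ ≤ 1 + a ^ (-B) := by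
    intro m _
    rw [Complex.norm_cpow_eq_rpow_re_of_pos (lam_pos ha hw m), Complex.neg_re]
    exact rpow_neg_le_add ha (lam_ge hw m) h0 h1
  refine (Finset.sum_le_card_nsmul _ _ _ h2).trans (le_of_eq ?_)
  rw [Fintype.card_piFinset]
  simp only [Finset.card_range, Finset.prod_const, Finset.card_univ, Fintype.card_fin,
    nsmul_eq_mul, Nat.cast_pow, Nat.cast_ofNat]
  ring

/-- the tail of the series -/
theorem tail_le (ha : 0 < a) (hw : ∀ j, 0 < w j) (hc : Tay a w c) {B : ℝ}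
    (hB : (r : ℝ) + 1 ≤ B) : ∃ C : ℝ, 0 ≤ C ∧ ∀ (i : ℕ) (s : ℂ), s.re = B →
      ‖FF a w c s - boxSum r a w i s‖ ≤ C * ((2 : ℝ) ^ i) ^ ((r : ℝ) + 1 - B) := by
  classical
  obtain ⟨c0, hc0, hlow⟩ := lam_lower ha hw
  have hsum := summable_lam ha hw (σ := (r : ℝ) + 1) (by linarith)
  refine ⟨c0 ^ ((r : ℝ) + 1 - B) * ∑' m, (Pool.Agent.H131R5.BZ.lam a w m) ^ (-((r : ℝ) + 1)),
    mul_nonneg (Real.rpow_pos_of_pos hc0 _).le (tsum_nonneg fun m =>
      (Real.rpow_pos_of_pos (lam_pos ha hw m) _).le), fun i s hs => ?_⟩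
  have h1 := FF_series ha hw hc (s := s) (by linarith)
  have h2 : HasSum (fun m : Fin r → ℕ =>
      if m ∈ Fintype.piFinset (fun _ : Fin r => Finset.range (2 ^ i)) then
        ((Pool.Agent.H131R5.BZ.lam a w m : ℝ) : ℂ) ^ (-s) else 0) (boxSum r a w i s) := by
    have h3 := hasSum_sum_of_ne_finset_zero (L := SummationFilter.unconditional _)
      (s := Fintype.piFinset (fun _ : Fin r =>
      Finset.range (2 ^ i))) (f := fun m : Fin r → ℕ =>
      if m ∈ Fintype.piFinset (fun _ : Fin r => Finset.range (2 ^ i)) then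
        ((Pool.Agent.H131R5.BZ.lam a w m : ℝ) : ℂ) ^ (-s) else 0) (fun m hm => if_neg hm)
    have h4 : ∑ m ∈ Fintype.piFinset (fun _ : Fin r => Finset.range (2 ^ i)),
        (if m ∈ Fintype.piFinset (fun _ : Fin r => Finset.range (2 ^ i)) then
        ((Pool.Agent.H131R5.BZ.lam a w m : ℝ) : ℂ) ^ (-s) else 0) = boxSum r a w i s := by
      rw [boxSum_eq]
      exact Finset.sum_congr rfl fun m hm => if_pos hm
    rw [h4] at h3
    exact h3
  have h3 := h1.sub h2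
  rw [← h3.tsum_eq]
  have hN : (0 : ℝ) < 2 ^ i := by positivity
  have h5 := (hsum.hasSum.mul_left ((c0 * 2 ^ i) ^ ((r : ℝ) + 1 - B)))
  refine (tsum_of_norm_bounded h5 fun m => ?_).trans (le_of_eq ?_)
  · have hl := lam_pos ha hw m
    have hp : 0 < (Pool.Agent.H131R5.BZ.lam a w m) ^ (-((r : ℝ) + 1)) :=
      Real.rpow_pos_of_pos hl _
    have hq : 0 < (c0 * 2 ^ i) ^ ((r : ℝ) + 1 - B) := Real.rpow_pos_of_pos (by positivity) _
    by_cases hm : m ∈ Fintype.piFinset (fun _ : Fin r => Finset.range (2 ^ i))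
    · simp only [hm, if_true, sub_self, norm_zero]
      positivity
    · simp only [hm, if_false, sub_zero]
      rw [Complex.norm_cpow_eq_rpow_re_of_pos hl, Complex.neg_re, hs]
      obtain ⟨j, hj⟩ : ∃ j, 2 ^ i ≤ m j := by
        by_contra hcon
        push Not at hcon
        exact hm (Fintype.mem_piFinset.2 fun j => Finset.mem_range.2 (hcon j))
      have h6 : c0 * 2 ^ i ≤ Pool.Agent.H131R5.BZ.lam a w m := by
        refine le_trans ?_ (hlow m j)
        have : (2 : ℝ) ^ i ≤ m j := by exact_mod_cast hj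
        gcongr
        linarith
      calc (Pool.Agent.H131R5.BZ.lam a w m) ^ (-B) =
          (Pool.Agent.H131R5.BZ.lam a w m) ^ ((r : ℝ) + 1 - B) *
            (Pool.Agent.H131R5.BZ.lam a w m) ^ (-((r : ℝ) + 1)) := by
            rw [← Real.rpow_add hl]
            congr 1
            ring
        _ ≤ _ := mul_le_mul_of_nonneg_right
            (Real.rpow_le_rpow_of_nonpos (by positivity) h6 (by linarith)) hp.le
  · rw [Real.mul_rpow hc0.le hN.le]
    ring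

/-- the region of absolute convergence -/
theorem FF_abs_bdd (ha : 0 < a) (hw : ∀ j, 0 < w j) (hc : Tay a w c) (σ₁ : ℝ) :
    ∃ C : ℝ, 0 ≤ C ∧ ∀ s : ℂ, (r : ℝ) + 1 / 2 ≤ s.re → s.re ≤ σ₁ → ‖FF a w c s‖ ≤ C := by
  have hsum := summable_lam ha hw (σ := (r : ℝ) + 1 / 2) (by linarith)
  refine ⟨(1 + a ^ (-σ₁)) * ∑' m, (Pool.Agent.H131R5.BZ.lam a w m) ^ (-((r : ℝ) + 1 / 2)),
    mul_nonneg (by positivity) (tsum_nonneg fun m =>
      (Real.rpow_pos_of_pos (lam_pos ha hw m) _).le), fun s hs hs1 => ?_⟩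
  have h1 := FF_series ha hw hc (s := s) (by linarith)
  rw [← h1.tsum_eq]
  refine tsum_of_norm_bounded (hsum.hasSum.mul_left (1 + a ^ (-σ₁))) fun m => ?_
  have hl := lam_pos ha hw m
  rw [Complex.norm_cpow_eq_rpow_re_of_pos hl, Complex.neg_re]
  have hr : (0 : ℝ) ≤ r := Nat.cast_nonneg r
  calc (Pool.Agent.H131R5.BZ.lam a w m) ^ (-s.re) =
      (Pool.Agent.H131R5.BZ.lam a w m) ^ (-(s.re - (r + 1 / 2))) *
        (Pool.Agent.H131R5.BZ.lam a w m) ^ (-((r : ℝ) + 1 / 2)) := by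
        rw [← Real.rpow_add hl]
        congr 1
        ring
    _ ≤ _ := by
        gcongr
        exact rpow_neg_le_add ha (lam_ge hw m) (by linarith) (by linarith)

/-- the box sum is entire -/
theorem boxSum_diff (ha : 0 < a) (hw : ∀ j, 0 < w j) (i : ℕ) (s : ℂ) :
    DifferentiableAt ℂ (fun z => boxSum r a w i z) s := by
  simp only [boxSum_eq]
  refine DifferentiableAt.fun_sum fun m _ => ?_
  refine DifferentiableAt.const_cpow (by fun_prop) (Or.inl ?_)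
  exact_mod_cast (lam_pos ha hw m).ne'

/-- the size of the exponent -/
theorem abs_ell {N t e : ℝ} (hN1 : 1 ≤ N) (hNt : N ≤ t) (he : 0 ≤ e) :
    |Real.log N - e * Real.log t| ≤ (1 + e) * t := by
  have hN0 : 0 < N := by linarith
  have ht0 : 0 < t := by linarith
  have hlogt0 : 0 ≤ Real.log t := Real.log_nonneg (hN1.trans hNt)
  have hlogt : Real.log t ≤ t := by
    have := Real.log_le_sub_one_of_pos ht0
    linarith
  have hlogN0 : 0 ≤ Real.log N := Real.log_nonneg hN1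
  have hlogN : Real.log N ≤ Real.log t := Real.log_le_log hN0 hNt
  have h1 : e * Real.log t ≤ e * t := mul_le_mul_of_nonneg_left hlogt he
  have h2 : 0 ≤ e * Real.log t := mul_nonneg he hlogt0
  have h3 : 0 ≤ e * t := mul_nonneg he ht0.le
  rw [abs_le]
  constructor
  · linarith
  · linarith

theorem quad_le (P t : ℝ) : P * t - t ^ 2 / 4 ≤ P ^ 2 := by
  linarith [sq_nonneg (P - t / 2)]

theorem left1 {r t N θ κ ν μ σ : ℝ} (ht1 : 1 ≤ t) (hN1 : 1 ≤ N) (hNlow : (t / 2) ^ θ / 2 ≤ N)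
    (hθ1 : θ ≤ 1) (hν : (1 - θ * r) / 2 + 2 * κ + μ ≤ ν) (hκ0 : 0 < κ)
    (hκr : κ ≤ r / 2) (hσ : r / 2 ≤ σ) :
    t ^ (1 / 2 + κ) * (N ^ (κ - σ) * t ^ μ) ≤ 2 ^ r * t ^ ν := by
  have ht0 : 0 < t := by linarith
  have hN0 : 0 < N := by linarith
  have e1 : N ^ (κ - σ) ≤ N ^ (-(r / 2 - κ)) :=
    Real.rpow_le_rpow_of_exponent_le hN1 (by linarith)
  have e2 : N ^ (-(r / 2 - κ)) ≤ ((t / 2) ^ θ / 2) ^ (-(r / 2 - κ)) :=
    Real.rpow_le_rpow_of_nonpos (by positivity) hNlow (by linarith)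
  have e3 : ((t / 2) ^ θ / 2) ^ (-(r / 2 - κ)) =
      2 ^ ((1 + θ) * (r / 2 - κ)) * t ^ (-(θ * (r / 2 - κ))) := by
    rw [Real.div_rpow ht0.le (by norm_num), div_div, Real.div_rpow (by positivity)
      (by positivity), ← Real.rpow_mul ht0.le, Real.mul_rpow (by positivity) (by norm_num),
      ← Real.rpow_mul (by norm_num), ← Real.rpow_add (by norm_num), div_eq_mul_inv,
      ← Real.rpow_neg (by norm_num), mul_comm]
    congr 2 <;> ring
  have e4 : (2 : ℝ) ^ ((1 + θ) * (r / 2 - κ)) ≤ 2 ^ r := by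
    apply Real.rpow_le_rpow_of_exponent_le (by norm_num)
    calc (1 + θ) * (r / 2 - κ) ≤ 2 * (r / 2 - κ) :=
          mul_le_mul_of_nonneg_right (by linarith) (by linarith)
      _ ≤ r := by linarith
  have e5 : t ^ (-(θ * (r / 2 - κ))) ≤ t ^ (-(θ * r / 2) + κ) := by
    apply Real.rpow_le_rpow_of_exponent_le ht1
    have h1 : θ * κ ≤ κ := by
      calc θ * κ ≤ 1 * κ := mul_le_mul_of_nonneg_right hθ1 hκ0.le
        _ = κ := one_mul κ
    have h2 : θ * (r / 2 - κ) = θ * r / 2 - θ * κ := by ring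
    rw [h2]
    linarith
  have e6 : N ^ (κ - σ) ≤ 2 ^ r * t ^ (-(θ * r / 2) + κ) := by
    refine (e1.trans e2).trans ?_
    rw [e3]
    exact mul_le_mul e4 e5 (by positivity) (by positivity)
  have hp1 : 0 ≤ t ^ (1 / 2 + κ) := by positivity
  have hp2 : 0 ≤ t ^ μ := by positivity
  calc t ^ (1 / 2 + κ) * (N ^ (κ - σ) * t ^ μ) ≤
      t ^ (1 / 2 + κ) * (2 ^ r * t ^ (-(θ * r / 2) + κ) * t ^ μ) :=
        mul_le_mul_of_nonneg_left (mul_le_mul_of_nonneg_right e6 hp2) hp1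
    _ = 2 ^ r * (t ^ (1 / 2 + κ) * t ^ (-(θ * r / 2) + κ) * t ^ μ) := by ring
    _ = 2 ^ r * t ^ ((1 / 2 + κ) + (-(θ * r / 2) + κ) + μ) := by
        rw [← Real.rpow_add ht0, ← Real.rpow_add ht0]
    _ ≤ _ := mul_le_mul_of_nonneg_left
        (Real.rpow_le_rpow_of_exponent_le ht1 (by linarith)) (by positivity)

theorem left2 {r t N κ η ν μ σ : ℝ} (ht1 : 1 ≤ t) (hN1 : 1 ≤ N) (hν : η + μ ≤ ν)
    (hσ : r / 2 ≤ σ) :
    t ^ η * N ^ (r / 2 - κ) * (N ^ (κ - σ) * t ^ μ) ≤ t ^ ν := by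
  have ht0 : 0 < t := by linarith
  have hN0 : 0 < N := by linarith
  calc _ = (N ^ (r / 2 - κ) * N ^ (κ - σ)) * (t ^ η * t ^ μ) := by ring
    _ = N ^ (r / 2 - σ) * t ^ (η + μ) := by
        rw [← Real.rpow_add hN0, ← Real.rpow_add ht0]
        congr 2
        ring
    _ ≤ 1 * t ^ ν := mul_le_mul
        (Real.rpow_le_one_of_one_le_of_nonpos hN1 (by linarith))
        (Real.rpow_le_rpow_of_exponent_le ht1 hν) (by positivity) zero_le_one
    _ = _ := one_mul _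

theorem right1 {r t N e B σ : ℝ} (hr : 0 ≤ r) (ht1 : 1 ≤ t) (hN1 : 1 ≤ N) (hNt : N ≤ t)
    (hσ : 0 ≤ σ) (h : r + 1 ≤ e * (B - σ)) :
    N ^ (r + 1 - B) * (N ^ (B - σ) * t ^ (-(e * (B - σ)))) ≤ 1 := by
  have ht0 : 0 < t := by linarith
  have hN0 : 0 < N := by linarith
  calc _ = (N ^ (r + 1 - B) * N ^ (B - σ)) * t ^ (-(e * (B - σ))) := by ring
    _ = N ^ (r + 1 - σ) * t ^ (-(e * (B - σ))) := by
        rw [← Real.rpow_add hN0]
        congr 2
        ring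
    _ ≤ t ^ (r + 1) * t ^ (-(r + 1)) := mul_le_mul
        ((Real.rpow_le_rpow_of_exponent_le hN1 (by linarith)).trans
          (Real.rpow_le_rpow hN0.le hNt (by linarith)))
        (Real.rpow_le_rpow_of_exponent_le ht1 (by linarith)) (by positivity) (by positivity)
    _ = 1 := by rw [← Real.rpow_add ht0, add_neg_cancel, Real.rpow_zero]

theorem y_le1 {y t κ : ℝ} (hy : 0 ≤ y) (hyt : y ≤ 2 * t) (ht : 0 ≤ t) (hκ0 : 0 < κ)
    (hκ1 : κ ≤ 1 / 4) : y ^ (1 / 2 + κ) ≤ 2 * t ^ (1 / 2 + κ) := by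
  calc y ^ (1 / 2 + κ) ≤ (2 * t) ^ (1 / 2 + κ) := Real.rpow_le_rpow hy hyt (by linarith)
    _ = 2 ^ (1 / 2 + κ) * t ^ (1 / 2 + κ) := Real.mul_rpow (by norm_num) ht
    _ ≤ 2 ^ (1 : ℝ) * t ^ (1 / 2 + κ) := mul_le_mul_of_nonneg_right
        (Real.rpow_le_rpow_of_exponent_le (by norm_num) (by linarith)) (by positivity)
    _ = _ := by rw [Real.rpow_one]

theorem y_le2 {y t η : ℝ} (hy : 0 ≤ y) (hyt : y ≤ 2 * t) (ht : 0 ≤ t) (hη : 0 ≤ η) :
    y ^ η ≤ 2 ^ η * t ^ η := by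
  rw [← Real.mul_rpow (by norm_num) ht]
  exact Real.rpow_le_rpow hy hyt hη

/-- the horizontal sides -/
theorem hor_le {C₁ A0 t B e x σ ℓ u v : ℝ} {r : ℕ} {N y : ℝ} (hC₁ : 0 ≤ C₁) (hA0 : 0 ≤ A0)
    (hB : 0 ≤ B) (hN1 : 1 ≤ N) (hNt : N ≤ t) (hy : y ≤ 3 * t / 2) (hx : |x - σ| ≤ B)
    (hℓ : |ℓ| ≤ (1 + e) * t) (hu : u ≤ C₁ * Real.exp (5 * y)) (hv : v ≤ A0 * N ^ r) :
    (u + v) * (Real.exp ((x - σ) ^ 2 - t ^ 2 / 4) * Real.exp ((x - σ) * ℓ)) ≤
      (C₁ + A0) * Real.exp (B ^ 2 + (15 / 2 + r + B * (1 + e)) ^ 2) := by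
  have hr : (0 : ℝ) ≤ r := Nat.cast_nonneg r
  have ht1 : 1 ≤ t := hN1.trans hNt
  have h6 : Real.exp (5 * y) ≤ Real.exp ((15 / 2 + r) * t) := by
    apply Real.exp_le_exp.2
    have : 0 ≤ (r : ℝ) * t := by positivity
    linarith
  have h7 : N ^ r ≤ Real.exp ((15 / 2 + r) * t) := by
    calc N ^ r ≤ t ^ r := by gcongr
      _ ≤ (Real.exp t) ^ r := by
          gcongr
          have := Real.add_one_le_exp t
          linarith
      _ = Real.exp (r * t) := by rw [← Real.exp_nat_mul]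
      _ ≤ _ := by
          apply Real.exp_le_exp.2
          linarith
  have h8 : u + v ≤ (C₁ + A0) * Real.exp ((15 / 2 + r) * t) := by
    have e1 := mul_le_mul_of_nonneg_left h6 hC₁
    have e2 := mul_le_mul_of_nonneg_left h7 hA0
    linarith
  have h9 : (x - σ) * ℓ ≤ B * ((1 + e) * t) := by
    calc (x - σ) * ℓ ≤ |(x - σ) * ℓ| := le_abs_self _
      _ = |x - σ| * |ℓ| := abs_mul _ _
      _ ≤ B * ((1 + e) * t) := mul_le_mul hx hℓ (abs_nonneg _) hB
  have h10 : (x - σ) ^ 2 ≤ B ^ 2 := by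
    rw [← sq_abs (x - σ)]
    exact pow_le_pow_left₀ (abs_nonneg _) hx 2
  have h11 := quad_le (15 / 2 + r + B * (1 + e)) t
  have h12 : (15 / 2 + r + B * (1 + e)) * t = (15 / 2 + r) * t + B * ((1 + e) * t) := by ring
  calc _ ≤ (C₁ + A0) * Real.exp ((15 / 2 + r) * t) *
        (Real.exp ((x - σ) ^ 2 - t ^ 2 / 4) * Real.exp ((x - σ) * ℓ)) :=
        mul_le_mul_of_nonneg_right h8 (by positivity)
    _ = (C₁ + A0) * Real.exp ((15 / 2 + r) * t + ((x - σ) ^ 2 - t ^ 2 / 4 + (x - σ) * ℓ)) := by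
        rw [← Real.exp_add, mul_assoc, ← Real.exp_add]
    _ ≤ _ := by
        apply mul_le_mul_of_nonneg_left _ (by positivity)
        apply Real.exp_le_exp.2
        linarith

/-- the strip `r / 2 ≤ σ ≤ r + 1 / 2` -/
theorem strip_bound (hr : 1 ≤ r) (ha : 0 < a) (hw : ∀ j, 0 < w j) (hc : Tay a w c)
    (hk : ∀ κ : ℝ, 0 < κ → κ ≤ 1 / 4 → ∃ C : ℝ, 0 ≤ C ∧ ∀ y : ℝ, 1 ≤ y →
      ‖FF a w c ((κ : ℂ) + y * Complex.I)‖ ≤ C * y ^ (1 / 2 + κ))
    {η θ ν : ℝ} (hη : 0 ≤ η) (hθ : 0 < θ) (hθ1 : θ ≤ 1) (hν1 : η < ν) (hν2 : (1 - θ * r) / 2 < ν)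
    (hbox : ∃ C : ℝ, 0 ≤ C ∧ ∀ (i : ℕ) (σ t : ℝ), (2 : ℝ) ^ i ≤ t ^ θ → 0 ≤ σ → σ ≤ r + 1 →
      1 ≤ t → ‖boxSum r a w i ((σ : ℂ) + t * Complex.I)‖ ≤
          C * t ^ η * ((2 : ℝ) ^ i) ^ (max 0 ((r : ℝ) / 2 - σ))) :
    ∃ C : ℝ, 0 ≤ C ∧ ∀ σ t : ℝ, (r : ℝ) / 2 ≤ σ → σ ≤ r + 1 / 2 → 2 ≤ t →
      ‖FF a w c ((σ : ℂ) + t * Complex.I)‖ ≤ C * t ^ ν := by
  have hr1 : (1 : ℝ) ≤ r := by exact_mod_cast hr
  have hr0 : (0 : ℝ) < r := by linarith
  have hν0 : 0 < ν := by linarith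
  set δ : ℝ := min (ν - η) (ν - (1 - θ * r) / 2) with hδ
  have hδ0 : 0 < δ := lt_min (by linarith) (by linarith)
  have hδ1 : δ ≤ ν - η := min_le_left _ _
  have hδ2 : δ ≤ ν - (1 - θ * r) / 2 := min_le_right _ _
  set κ : ℝ := min (1 / 4) (δ / 4) with hκd
  have hκ0 : 0 < κ := lt_min (by norm_num) (by positivity)
  have hκ1 : κ ≤ 1 / 4 := min_le_left _ _
  have hκ2 : κ ≤ δ / 4 := min_le_right _ _
  obtain ⟨C₀, hC₀, h0⟩ := hk κ hκ0 hκ1
  obtain ⟨Cb, hCb, hb⟩ := hbox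
  set e : ℝ := δ / (3 * r) with he
  have he0 : 0 < e := by positivity
  set B : ℝ := (r + 1 / 2) + (r + 1) / e + 1 with hB
  have hBe : 0 < ((r : ℝ) + 1) / e := by positivity
  have hBr : (r : ℝ) + 1 ≤ B := by linarith
  have hκB : κ < B := by linarith
  have hB0 : 0 < B := by linarith
  obtain ⟨C₂, hC₂, h2⟩ := tail_le ha hw hc hBr
  obtain ⟨C₁, hC₁, hg⟩ := FF_growth ha hw hc (α := κ) (β := B) hκ0
  set E : ℝ := Real.exp (B ^ 2) with hE
  have hE0 : 0 < E := Real.exp_pos _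
  set A0 : ℝ := 1 + a ^ (-B) with hA0
  have hA0p : 0 < A0 := by positivity
  set P : ℝ := 15 / 2 + r + B * (1 + e) with hP
  have hP0 : 0 < P := by positivity
  set D1 : ℝ := (C₁ + A0) * Real.exp (B ^ 2 + P ^ 2) with hD1
  set D2 : ℝ := (2 * C₀ * 2 ^ (r : ℝ) + Cb * 2 ^ η) * E with hD2
  set D3 : ℝ := C₂ * E with hD3
  have hD1p : 0 ≤ D1 := by positivity
  have hD2p : 0 ≤ D2 := by positivity
  have hD3p : 0 ≤ D3 := by positivity
  refine ⟨D1 + D2 + D3 + Cb, by positivity, fun σ t hσ hσ1 ht => ?_⟩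
  have ht0 : 0 < t := by linarith
  have ht1 : 1 ≤ t := by linarith
  have hσ0 : 0 < σ := by linarith
  have hσB : σ < B := by linarith
  have hκσ : κ < σ := by linarith
  obtain ⟨i, hi1, hi2⟩ := exists_nat_pow_near (x := (t / 2) ^ θ) (y := (2 : ℝ))
    (Real.one_le_rpow (by linarith) hθ.le) (by norm_num)
  set N : ℝ := (2 : ℝ) ^ i with hN
  have hN1 : 1 ≤ N := one_le_pow₀ (by norm_num)
  have hN0 : 0 < N := by linarith
  have hNt : N ≤ t := by
    calc N ≤ (t / 2) ^ θ := hi1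
      _ ≤ t ^ θ := Real.rpow_le_rpow (by linarith) (by linarith) hθ.le
      _ ≤ t ^ (1 : ℝ) := Real.rpow_le_rpow_of_exponent_le ht1 hθ1
      _ = t := Real.rpow_one t
  have hNlow : (t / 2) ^ θ / 2 ≤ N := by
    rw [pow_succ] at hi2
    rw [div_le_iff₀ (by norm_num)]
    exact hi2.le
  have htη : 1 ≤ t ^ ν := Real.one_le_rpow ht1 hν0.le
  -- the exponential weight
  set ℓ : ℝ := Real.log N - e * Real.log t with hℓ
  have hℓabs : |ℓ| ≤ (1 + e) * t := abs_ell hN1 hNt he0.le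
  have hver : ∀ x : ℝ, Real.exp ((x - σ) * ℓ) = N ^ (x - σ) * t ^ (-(e * (x - σ))) := by
    intro x
    rw [Real.rpow_def_of_pos hN0, Real.rpow_def_of_pos ht0, ← Real.exp_add]
    congr 1
    rw [hℓ]
    ring
  set s : ℂ := (σ : ℂ) + t * I with hs
  have hsre : s.re = σ := by simp [hs]
  have hsim : s.im = t := by simp [hs]
  set Y₀ : ℝ := t / 2 with hY₀
  set Y : ℝ := 3 * t / 2 with hY
  set M : ℝ := (D1 + D2 + D3) * t ^ ν with hM
  set g : ℂ → ℂ := fun z => (FF a w c z - boxSum r a w i z) *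
    (cexp ((z - s) ^ 2) * cexp ((z - s) * (ℓ : ℂ))) with hgdef
  have hgn : ∀ x y : ℝ, ‖g ((x : ℂ) + y * I)‖ =
      ‖FF a w c ((x : ℂ) + y * I) - boxSum r a w i ((x : ℂ) + y * I)‖ *
        (Real.exp ((x - σ) ^ 2 - (y - t) ^ 2) * Real.exp ((x - σ) * ℓ)) := by
    intro x y
    simp only [hgdef]
    rw [norm_mul, norm_mul, hs, gauss_norm]
    congr 2
    rw [Complex.norm_exp]
    congr 1
    simp
  have hxσ : ∀ x : ℝ, κ ≤ x → x ≤ B → (x - σ) ^ 2 ≤ B ^ 2 := by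
    intro x h2 h3
    apply sq_le_sq'
    · linarith
    · linarith
  have hFd : ∀ z : ℂ, 1 ≤ z.im → DifferentiableAt ℂ (FF a w c) z := fun z hz =>
    FF_diff ha hw hc (by
      intro k _ _ h
      have := congrArg Complex.im h
      simp at this
      linarith)
  set U : Set ℂ := Ioo κ B ×ℂ Ioo Y₀ Y with hU
  have hYY : Y₀ < Y := by linarith
  have hclU : closure U = Icc κ B ×ℂ Icc Y₀ Y := by
    rw [hU, closure_reProdIm, closure_Ioo hκB.ne, closure_Ioo hYY.ne]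
  have hgd : DiffContOnCl ℂ g U := by
    apply DifferentiableOn.diffContOnCl
    intro z hz
    rw [hclU] at hz
    have h2 : 1 ≤ z.im := by
      have h3 : Y₀ ≤ z.im := hz.2.1
      linarith
    exact (((hFd z h2).sub (boxSum_diff ha hw i z)).mul (by fun_prop)).differentiableWithinAt
  have hbd : Bornology.IsBounded U :=
    (Metric.isBounded_Ioo κ B).reProdIm (Metric.isBounded_Ioo Y₀ Y)
  -- the horizontal sides
  have hhor : ∀ x y : ℝ, κ ≤ x → x ≤ B → Y₀ ≤ y → y ≤ Y → (y - t) ^ 2 = t ^ 2 / 4 →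
      ‖g ((x : ℂ) + y * I)‖ ≤ D1 := by
    intro x y hx1 hx2 hy1 hy2 hyt
    rw [hgn, hyt]
    have h3 := hg ((x : ℂ) + y * I) (by simpa using hx1) (by simpa using hx2)
      (by simp; linarith)
    have h4 : ((x : ℂ) + y * I).im = y := by simp
    rw [h4] at h3
    have h5 := boxSum_le ha hw i (s := (x : ℂ) + y * I) (B := B) (by simp; linarith)
      (by simpa using hx2)
    rw [← hN, ← hA0] at h5
    have h6 : |x - σ| ≤ B := by
      rw [abs_le]
      constructor <;> linarith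
    refine le_trans ?_ (hor_le hC₁ hA0p.le hB0.le hN1 hNt hy2 h6 hℓabs h3 h5)
    exact mul_le_mul_of_nonneg_right (norm_sub_le _ _) (by positivity)
  have hcase : ∀ z ∈ frontier U, ‖g z‖ ≤ M := by
    intro z hz
    rw [hU, frontier_reProdIm, closure_Ioo hκB.ne, closure_Ioo hYY.ne, frontier_Ioo hκB,
      frontier_Ioo hYY] at hz
    have hzz : z = (z.re : ℂ) + (z.im : ℂ) * I := (Complex.re_add_im z).symm
    rw [hzz]
    rcases hz with hz | hz
    · have hx1 : κ ≤ z.re := hz.1.1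
      have hx2 : z.re ≤ B := hz.1.2
      have h3 : ‖g ((z.re : ℂ) + (z.im : ℂ) * I)‖ ≤ D1 := by
        rcases hz.2 with hy | hy
        · rw [show z.im = Y₀ from hy]
          exact hhor z.re Y₀ hx1 hx2 le_rfl hYY.le (by rw [hY₀]; ring)
        · rw [show z.im = Y from hy]
          exact hhor z.re Y hx1 hx2 hYY.le le_rfl (by rw [hY]; ring)
      calc _ ≤ D1 := h3
        _ ≤ (D1 + D2 + D3) * 1 := by linarith
        _ ≤ M := by rw [hM]; gcongr
    · have hy1 : Y₀ ≤ z.im := hz.2.1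
      have hy2 : z.im ≤ Y := hz.2.2
      have hy3 : 1 ≤ z.im := by linarith
      rw [hgn]
      have hgy : ∀ x : ℝ, κ ≤ x → x ≤ B →
          Real.exp ((x - σ) ^ 2 - (z.im - t) ^ 2) ≤ E := by
        intro x h2 h3
        apply Real.exp_le_exp.2
        nlinarith [hxσ x h2 h3, sq_nonneg (z.im - t)]
      rcases hz.1 with hx | hx
      · -- the left side
        rw [show z.re = κ from hx, hver]
        set y : ℝ := z.im with hy
        have hy0 : 0 < y := by linarith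
        have h3 := h0 y hy3
        have h4 := hb i κ y (hi1.trans (Real.rpow_le_rpow (by linarith) hy1 hθ.le)) hκ0.le
          (by linarith) hy3
        rw [max_eq_right (by linarith), ← hN] at h4
        have h5 := hgy κ le_rfl hκB.le
        have h6 := y_le1 hy0.le (show y ≤ 2 * t by linarith) ht0.le hκ0 hκ1
        have h7 := y_le2 hy0.le (show y ≤ 2 * t by linarith) ht0.le hη
        have h8 : t ^ (-(e * (κ - σ))) ≤ t ^ (δ / 2) := by
          apply Real.rpow_le_rpow_of_exponent_le ht1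
          have e1 : e * (σ - κ) ≤ e * (3 / 2 * r) := by
            gcongr
            linarith
          have e2 : e * (3 / 2 * r) = δ / 2 := by
            rw [he]
            field_simp
          linarith
        have h9 := left1 (r := r) (ν := ν) (μ := δ / 2) ht1 hN1 hNlow hθ1 (by linarith) hκ0
          (by linarith) hσ
        have h10 := left2 (r := r) (κ := κ) (η := η) (ν := ν) (μ := δ / 2) ht1 hN1
          (by linarith) hσ
        have h11 : ‖FF a w c ((κ : ℂ) + y * I) - boxSum r a w i ((κ : ℂ) + y * I)‖ ≤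
            C₀ * (2 * t ^ (1 / 2 + κ)) + Cb * (2 ^ η * t ^ η) * N ^ ((r : ℝ) / 2 - κ) := by
          refine (norm_sub_le _ _).trans (add_le_add (h3.trans ?_) (h4.trans ?_))
          · gcongr
          · gcongr
        calc _ ≤ (C₀ * (2 * t ^ (1 / 2 + κ)) + Cb * (2 ^ η * t ^ η) * N ^ ((r : ℝ) / 2 - κ)) *
              (E * (N ^ (κ - σ) * t ^ (δ / 2))) := by gcongr
          _ = (2 * C₀ * E) * (t ^ (1 / 2 + κ) * (N ^ (κ - σ) * t ^ (δ / 2))) +
              (Cb * 2 ^ η * E) *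
                (t ^ η * N ^ ((r : ℝ) / 2 - κ) * (N ^ (κ - σ) * t ^ (δ / 2))) := by ring
          _ ≤ (2 * C₀ * E) * (2 ^ (r : ℝ) * t ^ ν) + (Cb * 2 ^ η * E) * t ^ ν := by
              gcongr
          _ = D2 * t ^ ν := by rw [hD2]; ring
          _ ≤ M := by
              rw [hM]
              gcongr
              linarith
      · -- the right side
        rw [show z.re = B from hx, hver]
        set y : ℝ := z.im with hy
        have h3 := h2 i ((B : ℂ) + y * I) (by simp)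
        rw [← hN] at h3
        have h5 := hgy B hκB.le le_rfl
        have e1 : (r : ℝ) + 1 ≤ e * (B - σ) := by
          have e2 : (r : ℝ) + 1 = e * ((r + 1) / e) := by field_simp
          rw [e2]
          exact mul_le_mul_of_nonneg_left (by linarith) he0.le
        have h6 := right1 hr0.le ht1 hN1 hNt hσ0.le e1
        calc _ ≤ C₂ * N ^ ((r : ℝ) + 1 - B) * (E * (N ^ (B - σ) * t ^ (-(e * (B - σ))))) := by
              gcongr
          _ = C₂ * E * (N ^ ((r : ℝ) + 1 - B) * (N ^ (B - σ) * t ^ (-(e * (B - σ))))) := by ring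
          _ ≤ C₂ * E * 1 := by gcongr
          _ ≤ (D1 + D2 + D3) * 1 := by
              rw [hD3]
              rw [hD3] at hD3p
              linarith
          _ ≤ M := by rw [hM]; gcongr
  have hsU : s ∈ closure U := by
    rw [hclU]
    exact ⟨by simpa [hsre] using And.intro hκσ.le hσB.le, by
      show s.im ∈ Icc Y₀ Y
      rw [hsim]
      exact ⟨by linarith, by linarith⟩⟩
  have hfinal := Complex.norm_le_of_forall_mem_frontier_norm_le hbd hgd hcase hsU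
  have hgs : g s = FF a w c s - boxSum r a w i s := by simp [hgdef]
  rw [hgs] at hfinal
  have h3 := hb i σ t (hi1.trans (Real.rpow_le_rpow (by linarith) (by linarith) hθ.le)) hσ0.le
    (by linarith) ht1
  rw [max_eq_left (by linarith), Real.rpow_zero, mul_one] at h3
  have h4 : t ^ η ≤ t ^ ν := Real.rpow_le_rpow_of_exponent_le ht1 hν1.le
  calc ‖FF a w c s‖ = ‖(FF a w c s - boxSum r a w i s) + boxSum r a w i s‖ := by
        rw [sub_add_cancel]
    _ ≤ ‖FF a w c s - boxSum r a w i s‖ + ‖boxSum r a w i s‖ := norm_add_le _ _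
    _ ≤ M + Cb * t ^ ν := add_le_add hfinal (h3.trans (by gcongr))
    _ = _ := by rw [hM]; ring

theorem s_g2 : S_G2 := by
  intro r a w c hr ha hw hc hk η θ hη hθ hθ1 hbox ν hν1 hν2 σ₁
  obtain ⟨C, hC, h1⟩ := strip_bound hr ha hw hc hk hη hθ hθ1 hν1 hν2 hbox
  obtain ⟨C', hC', h2⟩ := FF_abs_bdd ha hw hc σ₁
  refine ⟨C + C', by positivity, fun σ t hσ hσ1 ht => ?_⟩
  have htη : 1 ≤ t ^ ν := Real.one_le_rpow (by linarith) (by linarith)
  rcases le_total σ (r + 1 / 2) with h | h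
  · have h3 := h1 σ t hσ h ht
    have h4 : 0 ≤ C' * t ^ ν := by positivity
    linarith
  · have h3 := h2 ((σ : ℂ) + t * I) (by simpa using h) (by simpa using hσ1)
    calc _ ≤ C' := h3
      _ ≤ (C + C') * 1 := by linarith
      _ ≤ _ := by gcongr

theorem s_g : S_G := by
  intro r a w c hr ha hw hc hk η θ hη hθ hθ1 hθr hbox σ₁
  exact s_g2 r a w c hr ha hw hc hk η θ hη.le hθ hθ1 hbox (3 * η) (by linarith) (by linarith) σ₁

end Pool.Agent.Helper73.BL
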