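import Pool.Agent.Helper73.BL.St3
import Pool.Agent.Helper73.BL.G

set_option autoImplicit false

/-!
# Module G, general form: the left line `r - d + κ` and the critical point `r - d / 2`
-/

namespace Pool.Agent.Helper73.BL

open Finset Filter Topology MeasureTheory Complex Set
open Pool.Agent.H131R5.BZ Pool.Agent.Y930.Bz Pool.Agent.Y616.BM

variable {r : ℕ} {a : ℝ} {w : Fin r → ℝ} {c : ℕ → ℂ}

theorem left1g {r t N θ κ ν μ x : ℝ} (ht1 : 1 ≤ t) (hN1 : 1 ≤ N) (hNlow : (t / 2) ^ θ / 2 ≤ N)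
    (hθ1 : θ ≤ 1) (hν : (1 - θ * r) / 2 + 2 * κ + μ ≤ ν) (hκ0 : 0 < κ)
    (hκr : κ ≤ r / 2) (hx : x ≤ κ - r / 2) :
    t ^ (1 / 2 + κ) * (N ^ x * t ^ μ) ≤ 2 ^ r * t ^ ν := by
  have h := left1 (r := r) (t := t) (N := N) (θ := θ) (κ := κ) (ν := ν) (μ := μ) (σ := κ - x)
    ht1 hN1 hNlow hθ1 hν hκ0 hκr (by linarith)
  rwa [sub_sub_cancel] at h

theorem left2g {t N η ν μ x y : ℝ} (ht1 : 1 ≤ t) (hN1 : 1 ≤ N) (hν : η + μ ≤ ν)
    (hxy : y + x ≤ 0) :
    t ^ η * N ^ y * (N ^ x * t ^ μ) ≤ t ^ ν := by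
  have ht0 : 0 < t := by linarith
  have hN0 : 0 < N := by linarith
  calc _ = (N ^ y * N ^ x) * (t ^ η * t ^ μ) := by ring
    _ = N ^ (y + x) * t ^ (η + μ) := by
        rw [← Real.rpow_add hN0, ← Real.rpow_add ht0]
    _ ≤ 1 * t ^ ν := mul_le_mul
        (Real.rpow_le_one_of_one_le_of_nonpos hN1 hxy)
        (Real.rpow_le_rpow_of_exponent_le ht1 hν) (by positivity) zero_le_one
    _ = _ := one_mul _

/-- the strip `r - d / 2 ≤ σ ≤ r + 1 / 2` -/
theorem strip_bound3 {d : ℕ} (hd : 1 ≤ d) (hdr : d ≤ r) (ha : 0 < a) (hw : ∀ j, 0 < w j)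
    (hc : Tay a w c)
    (hk : ∀ κ : ℝ, 0 < κ → κ ≤ 1 / 4 → ∃ C : ℝ, 0 ≤ C ∧ ∀ y : ℝ, 1 ≤ y →
      ‖FF a w c (((r - d + κ : ℝ) : ℂ) + y * Complex.I)‖ ≤ C * y ^ (1 / 2 + κ))
    {η θ ν : ℝ} (hη : 0 ≤ η) (hθ : 0 < θ) (hθ1 : θ ≤ 1) (hν1 : η < ν) (hν2 : (1 - θ * d) / 2 < ν)
    (hbox : ∃ C : ℝ, 0 ≤ C ∧ ∀ (i : ℕ) (σ t : ℝ), (2 : ℝ) ^ i ≤ t ^ θ → 0 ≤ σ → σ ≤ r + 1 →
      1 ≤ t → ‖boxSum r a w i ((σ : ℂ) + t * Complex.I)‖ ≤
          C * t ^ η * ((2 : ℝ) ^ i) ^ (max 0 ((r : ℝ) - d / 2 - σ))) :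
    ∃ C : ℝ, 0 ≤ C ∧ ∀ σ t : ℝ, (r : ℝ) - d / 2 ≤ σ → σ ≤ r + 1 / 2 → 2 ≤ t →
      ‖FF a w c ((σ : ℂ) + t * Complex.I)‖ ≤ C * t ^ ν := by
  have hd1 : (1 : ℝ) ≤ d := by exact_mod_cast hd
  have hd0 : (0 : ℝ) < d := by linarith
  have hdr' : (d : ℝ) ≤ r := by exact_mod_cast hdr
  have hr1 : (1 : ℝ) ≤ r := by linarith
  have hr0 : (0 : ℝ) < r := by linarith
  have hν0 : 0 < ν := by linarith
  set δ : ℝ := min (ν - η) (ν - (1 - θ * d) / 2) with hδ
  have hδ0 : 0 < δ := lt_min (by linarith) (by linarith)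
  have hδ1 : δ ≤ ν - η := min_le_left _ _
  have hδ2 : δ ≤ ν - (1 - θ * d) / 2 := min_le_right _ _
  set κ : ℝ := min (1 / 4) (δ / 4) with hκd
  have hκ0 : 0 < κ := lt_min (by norm_num) (by positivity)
  have hκ1 : κ ≤ 1 / 4 := min_le_left _ _
  have hκ2 : κ ≤ δ / 4 := min_le_right _ _
  obtain ⟨C₀, hC₀, h0⟩ := hk κ hκ0 hκ1
  obtain ⟨Cb, hCb, hb⟩ := hbox
  set L : ℝ := r - d + κ with hL
  have hL0 : 0 < L := by linarith
  set e : ℝ := δ / (3 * d) with he
  have he0 : 0 < e := by positivity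
  set B : ℝ := (r + 1 / 2) + (r + 1) / e + 1 with hB
  have hBe : 0 < ((r : ℝ) + 1) / e := by positivity
  have hBr : (r : ℝ) + 1 ≤ B := by linarith
  have hκB : L < B := by linarith
  have hB0 : 0 < B := by linarith
  obtain ⟨C₂, hC₂, h2⟩ := tail_le ha hw hc hBr
  obtain ⟨C₁, hC₁, hg⟩ := FF_growth ha hw hc (α := L) (β := B) hL0
  set E : ℝ := Real.exp (B ^ 2) with hE
  have hE0 : 0 < E := Real.exp_pos _
  set A0 : ℝ := 1 + a ^ (-B) with hA0
  have hA0p : 0 < A0 := by positivity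
  set P : ℝ := 15 / 2 + r + B * (1 + e) with hP
  have hP0 : 0 < P := by positivity
  set D1 : ℝ := (C₁ + A0) * Real.exp (B ^ 2 + P ^ 2) with hD1
  set D2 : ℝ := (2 * C₀ * 2 ^ (d : ℝ) + Cb * 2 ^ η) * E with hD2
  set D3 : ℝ := C₂ * E with hD3
  have hD1p : 0 ≤ D1 := by positivity
  have hD2p : 0 ≤ D2 := by positivity
  have hD3p : 0 ≤ D3 := by positivity
  refine ⟨D1 + D2 + D3 + Cb, by positivity, fun σ t hσ hσ1 ht => ?_⟩
  have ht0 : 0 < t := by linarith
  have ht1 : 1 ≤ t := by linarith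
  have hσ0 : 0 < σ := by linarith
  have hσB : σ < B := by linarith
  have hκσ : L < σ := by linarith
  obtain ⟨i, hi1, hi2⟩ := exists_nat_pow_near (x := (t / 2) ^ θ) (y := (2 : ℝ))
    (Real.one_le_rpow (by linarith) hθ.le) (by norm_num)
  set N : ℝ := (2 : ℝ) ^ i with hN
  have hN1 : 1 ≤ N := one_le_pow₀ (by norm_num)
  have hN0 : 0 < N := by linarith
  have hNt : N ≤ t := by
    calc N ≤ (t / 2) ^ θ := hi1
      _ ≤ t ^ θ := Real.rpow_le_rpow (by linarith) (by linarith) hθ.le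
      _ ≤ t ^ (1 : ℝ) := Real.rpow_le_rpow_of_exponent_le ht1 hθ1
      _ = t := Real.rpow_one t
  have hNlow : (t / 2) ^ θ / 2 ≤ N := by
    rw [pow_succ] at hi2
    rw [div_le_iff₀ (by norm_num)]
    exact hi2.le
  have htη : 1 ≤ t ^ ν := Real.one_le_rpow ht1 hν0.le
  -- the exponential weight
  set ℓ : ℝ := Real.log N - e * Real.log t with hℓ
  have hℓabs : |ℓ| ≤ (1 + e) * t := abs_ell hN1 hNt he0.le
  have hver : ∀ x : ℝ, Real.exp ((x - σ) * ℓ) = N ^ (x - σ) * t ^ (-(e * (x - σ))) := by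
    intro x
    rw [Real.rpow_def_of_pos hN0, Real.rpow_def_of_pos ht0, ← Real.exp_add]
    congr 1
    rw [hℓ]
    ring
  set s : ℂ := (σ : ℂ) + t * I with hs
  have hsre : s.re = σ := by simp [hs]
  have hsim : s.im = t := by simp [hs]
  set Y₀ : ℝ := t / 2 with hY₀
  set Y : ℝ := 3 * t / 2 with hY
  set M : ℝ := (D1 + D2 + D3) * t ^ ν with hM
  set g : ℂ → ℂ := fun z => (FF a w c z - boxSum r a w i z) *
    (cexp ((z - s) ^ 2) * cexp ((z - s) * (ℓ : ℂ))) with hgdef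
  have hgn : ∀ x y : ℝ, ‖g ((x : ℂ) + y * I)‖ =
      ‖FF a w c ((x : ℂ) + y * I) - boxSum r a w i ((x : ℂ) + y * I)‖ *
        (Real.exp ((x - σ) ^ 2 - (y - t) ^ 2) * Real.exp ((x - σ) * ℓ)) := by
    intro x y
    simp only [hgdef]
    rw [norm_mul, norm_mul, hs, gauss_norm]
    congr 2
    rw [Complex.norm_exp]
    congr 1
    simp
  have hxσ : ∀ x : ℝ, L ≤ x → x ≤ B → (x - σ) ^ 2 ≤ B ^ 2 := by
    intro x h2 h3
    apply sq_le_sq'
    · linarith
    · linarith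
  have hFd : ∀ z : ℂ, 1 ≤ z.im → DifferentiableAt ℂ (FF a w c) z := fun z hz =>
    FF_diff ha hw hc (by
      intro k _ _ h
      have := congrArg Complex.im h
      simp at this
      linarith)
  set U : Set ℂ := Ioo L B ×ℂ Ioo Y₀ Y with hU
  have hYY : Y₀ < Y := by linarith
  have hclU : closure U = Icc L B ×ℂ Icc Y₀ Y := by
    rw [hU, closure_reProdIm, closure_Ioo hκB.ne, closure_Ioo hYY.ne]
  have hgd : DiffContOnCl ℂ g U := by
    apply DifferentiableOn.diffContOnCl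
    intro z hz
    rw [hclU] at hz
    have h2 : 1 ≤ z.im := by
      have h3 : Y₀ ≤ z.im := hz.2.1
      linarith
    exact (((hFd z h2).sub (boxSum_diff ha hw i z)).mul (by fun_prop)).differentiableWithinAt
  have hbd : Bornology.IsBounded U :=
    (Metric.isBounded_Ioo L B).reProdIm (Metric.isBounded_Ioo Y₀ Y)
  -- the horizontal sides
  have hhor : ∀ x y : ℝ, L ≤ x → x ≤ B → Y₀ ≤ y → y ≤ Y → (y - t) ^ 2 = t ^ 2 / 4 →
      ‖g ((x : ℂ) + y * I)‖ ≤ D1 := by
    intro x y hx1 hx2 hy1 hy2 hyt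
    rw [hgn, hyt]
    have h3 := hg ((x : ℂ) + y * I) (by simpa using hx1) (by simpa using hx2)
      (by simp; linarith)
    have h4 : ((x : ℂ) + y * I).im = y := by simp
    rw [h4] at h3
    have h5 := boxSum_le ha hw i (s := (x : ℂ) + y * I) (B := B) (by simp; linarith)
      (by simpa using hx2)
    rw [← hN, ← hA0] at h5
    have h6 : |x - σ| ≤ B := by
      rw [abs_le]
      constructor <;> linarith
    refine le_trans ?_ (hor_le hC₁ hA0p.le hB0.le hN1 hNt hy2 h6 hℓabs h3 h5)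
    exact mul_le_mul_of_nonneg_right (norm_sub_le _ _) (by positivity)
  have hcase : ∀ z ∈ frontier U, ‖g z‖ ≤ M := by
    intro z hz
    rw [hU, frontier_reProdIm, closure_Ioo hκB.ne, closure_Ioo hYY.ne, frontier_Ioo hκB,
      frontier_Ioo hYY] at hz
    have hzz : z = (z.re : ℂ) + (z.im : ℂ) * I := (Complex.re_add_im z).symm
    rw [hzz]
    rcases hz with hz | hz
    · have hx1 : L ≤ z.re := hz.1.1
      have hx2 : z.re ≤ B := hz.1.2
      have h3 : ‖g ((z.re : ℂ) + (z.im : ℂ) * I)‖ ≤ D1 := by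
        rcases hz.2 with hy | hy
        · rw [show z.im = Y₀ from hy]
          exact hhor z.re Y₀ hx1 hx2 le_rfl hYY.le (by rw [hY₀]; ring)
        · rw [show z.im = Y from hy]
          exact hhor z.re Y hx1 hx2 hYY.le le_rfl (by rw [hY]; ring)
      calc _ ≤ D1 := h3
        _ ≤ (D1 + D2 + D3) * 1 := by linarith
        _ ≤ M := by rw [hM]; gcongr
    · have hy1 : Y₀ ≤ z.im := hz.2.1
      have hy2 : z.im ≤ Y := hz.2.2
      have hy3 : 1 ≤ z.im := by linarith
      rw [hgn]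
      have hgy : ∀ x : ℝ, L ≤ x → x ≤ B →
          Real.exp ((x - σ) ^ 2 - (z.im - t) ^ 2) ≤ E := by
        intro x h2 h3
        apply Real.exp_le_exp.2
        nlinarith [hxσ x h2 h3, sq_nonneg (z.im - t)]
      rcases hz.1 with hx | hx
      · -- the left side
        rw [show z.re = L from hx, hver]
        set y : ℝ := z.im with hy
        have hy0 : 0 < y := by linarith
        have h3 := h0 y hy3
        have h4 := hb i L y (hi1.trans (Real.rpow_le_rpow (by linarith) hy1 hθ.le)) hL0.le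
          (by linarith) hy3
        rw [max_eq_right (by linarith), ← hN] at h4
        have h5 := hgy L le_rfl hκB.le
        have h6 := y_le1 hy0.le (show y ≤ 2 * t by linarith) ht0.le hκ0 hκ1
        have h7 := y_le2 hy0.le (show y ≤ 2 * t by linarith) ht0.le hη
        have h8 : t ^ (-(e * (L - σ))) ≤ t ^ (δ / 2) := by
          apply Real.rpow_le_rpow_of_exponent_le ht1
          have e1 : e * (σ - L) ≤ e * (3 / 2 * d) := by
            gcongr
            linarith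
          have e2 : e * (3 / 2 * d) = δ / 2 := by
            rw [he]
            field_simp
          linarith
        have h9 := left1g (r := d) (ν := ν) (μ := δ / 2) (x := L - σ) ht1 hN1 hNlow hθ1
          (by linarith) hκ0 (by linarith) (by linarith)
        have h10 := left2g (η := η) (ν := ν) (μ := δ / 2) (x := L - σ)
          (y := (r : ℝ) - d / 2 - L) ht1 hN1 (by linarith) (by linarith)
        have h11 : ‖FF a w c ((L : ℂ) + y * I) - boxSum r a w i ((L : ℂ) + y * I)‖ ≤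
            C₀ * (2 * t ^ (1 / 2 + κ)) + Cb * (2 ^ η * t ^ η) * N ^ ((r : ℝ) - d / 2 - L) := by
          refine (norm_sub_le _ _).trans (add_le_add (h3.trans ?_) (h4.trans ?_))
          · gcongr
          · gcongr
        calc _ ≤ (C₀ * (2 * t ^ (1 / 2 + κ)) + Cb * (2 ^ η * t ^ η) * N ^ ((r : ℝ) - d / 2 - L)) *
              (E * (N ^ (L - σ) * t ^ (δ / 2))) := by gcongr
          _ = (2 * C₀ * E) * (t ^ (1 / 2 + κ) * (N ^ (L - σ) * t ^ (δ / 2))) +
              (Cb * 2 ^ η * E) *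
                (t ^ η * N ^ ((r : ℝ) - d / 2 - L) * (N ^ (L - σ) * t ^ (δ / 2))) := by ring
          _ ≤ (2 * C₀ * E) * (2 ^ (d : ℝ) * t ^ ν) + (Cb * 2 ^ η * E) * t ^ ν := by
              gcongr
          _ = D2 * t ^ ν := by rw [hD2]; ring
          _ ≤ M := by
              rw [hM]
              gcongr
              linarith
      · -- the right side
        rw [show z.re = B from hx, hver]
        set y : ℝ := z.im with hy
        have h3 := h2 i ((B : ℂ) + y * I) (by simp)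
        rw [← hN] at h3
        have h5 := hgy B hκB.le le_rfl
        have e1 : (r : ℝ) + 1 ≤ e * (B - σ) := by
          have e2 : (r : ℝ) + 1 = e * ((r + 1) / e) := by field_simp
          rw [e2]
          exact mul_le_mul_of_nonneg_left (by linarith) he0.le
        have h6 := right1 hr0.le ht1 hN1 hNt hσ0.le e1
        calc _ ≤ C₂ * N ^ ((r : ℝ) + 1 - B) * (E * (N ^ (B - σ) * t ^ (-(e * (B - σ))))) := by
              gcongr
          _ = C₂ * E * (N ^ ((r : ℝ) + 1 - B) * (N ^ (B - σ) * t ^ (-(e * (B - σ))))) := by ring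
          _ ≤ C₂ * E * 1 := by gcongr
          _ ≤ (D1 + D2 + D3) * 1 := by
              rw [hD3]
              rw [hD3] at hD3p
              linarith
          _ ≤ M := by rw [hM]; gcongr
  have hsU : s ∈ closure U := by
    rw [hclU]
    exact ⟨by simpa [hsre] using And.intro hκσ.le hσB.le, by
      show s.im ∈ Icc Y₀ Y
      rw [hsim]
      exact ⟨by linarith, by linarith⟩⟩
  have hfinal := Complex.norm_le_of_forall_mem_frontier_norm_le hbd hgd hcase hsU
  have hgs : g s = FF a w c s - boxSum r a w i s := by simp [hgdef]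
  rw [hgs] at hfinal
  have h3 := hb i σ t (hi1.trans (Real.rpow_le_rpow (by linarith) (by linarith) hθ.le)) hσ0.le
    (by linarith) ht1
  rw [max_eq_left (by linarith), Real.rpow_zero, mul_one] at h3
  have h4 : t ^ η ≤ t ^ ν := Real.rpow_le_rpow_of_exponent_le ht1 hν1.le
  calc ‖FF a w c s‖ = ‖(FF a w c s - boxSum r a w i s) + boxSum r a w i s‖ := by
        rw [sub_add_cancel]
    _ ≤ ‖FF a w c s - boxSum r a w i s‖ + ‖boxSum r a w i s‖ := norm_add_le _ _
    _ ≤ M + Cb * t ^ ν := add_le_add hfinal (h3.trans (by gcongr))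
    _ = _ := by rw [hM]; ring

theorem s_g3 : S_G3 := by
  intro r d a w c hd hdr ha hw hc hk η θ hη hθ hθ1 hbox ν hν1 hν2 σ₁
  obtain ⟨C, hC, h1⟩ := strip_bound3 hd hdr ha hw hc hk hη hθ hθ1 hν1 hν2 hbox
  obtain ⟨C', hC', h2⟩ := FF_abs_bdd ha hw hc σ₁
  refine ⟨C + C', by positivity, fun σ t hσ hσ1 ht => ?_⟩
  have htη : 1 ≤ t ^ ν := Real.one_le_rpow (by linarith) (by linarith)
  rcases le_total σ (r + 1 / 2) with h | h
  · have h3 := h1 σ t hσ h ht
    have h4 : 0 ≤ C' * t ^ ν := by positivity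
    linarith
  · have h3 := h2 ((σ : ℂ) + t * I) (by simpa using h) (by simpa using hσ1)
    calc _ ≤ C' := h3
      _ ≤ (C + C') * 1 := by linarith
      _ ≤ _ := by gcongr

end Pool.Agent.Helper73.BL
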