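import Pool.Agent.Helper73.BL.St5
import Pool.Agent.Helper73.BL.G3

set_option autoImplicit false

/-!
# Module G4: the moments on the strip from the moments of the box sums and one line on the left
-/

namespace Pool.Agent.Helper73.BL

open Finset Filter Topology MeasureTheory Complex Set

/-- parametric integrals of holomorphic functions -/
theorem par_diff {H : ℂ → ℂ} {φ : ℝ → ℂ} {a b : ℝ} (hab : a ≤ b) {z₀ : ℂ} (hz : 0 < z₀.im + a)
    (hH : ∀ z : ℂ, 0 < z.im → DifferentiableAt ℂ H z) (hφ : Continuous φ) :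
    DifferentiableAt ℂ (fun z => ∫ u in a..b, H (z + u * I) * φ u) z₀ := by
  set V : Set ℂ := {z | 0 < z.im} with hV
  have hVo : IsOpen V := isOpen_lt continuous_const Complex.continuous_im
  have hHd : DifferentiableOn ℂ H V := fun z hz => (hH z hz).differentiableWithinAt
  have hHc : ContinuousOn H V := hHd.continuousOn
  have hdc : ContinuousOn (deriv H) V := (hHd.deriv hVo).continuousOn
  set ε : ℝ := (z₀.im + a) / 2 with hε
  have hε0 : 0 < ε := by rw [hε]; linarith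
  set Q : Set (ℂ × ℝ) := Metric.closedBall z₀ ε ×ˢ Icc a b with hQ
  have hQc : IsCompact Q := (isCompact_closedBall z₀ ε).prod isCompact_Icc
  have hmap : ∀ p ∈ Q, p.1 + p.2 * I ∈ V := by
    rintro ⟨z, u⟩ ⟨h1, h2⟩
    simp only [hV, Set.mem_ofPred_eq, add_im, mul_im, ofReal_re, I_im, mul_one, ofReal_im, I_re,
      mul_zero, add_zero]
    have h3 : |(z - z₀).im| ≤ ε := (Complex.abs_im_le_norm _).trans (by
      rw [← dist_eq_norm]; exact h1)
    rw [Complex.sub_im, abs_le] at h3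
    have h4 := h2.1
    have h5 := h3.1
    simp only at h4
    linarith
  have hcont : ContinuousOn (fun p : ℂ × ℝ => deriv H (p.1 + p.2 * I)) Q :=
    hdc.comp (by fun_prop) hmap
  obtain ⟨C, hC⟩ := hQc.exists_bound_of_continuousOn hcont
  have hbi : IntervalIntegrable (fun u => C * ‖φ u‖) volume a b :=
    (continuous_const.mul hφ.norm).intervalIntegrable _ _
  have hball : Metric.ball z₀ ε ∈ 𝓝 z₀ := Metric.ball_mem_nhds _ hε0
  have hcz : ∀ z ∈ Metric.ball z₀ ε, ContinuousOn (fun u : ℝ => H (z + u * I) * φ u) (uIcc a b) := by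
    intro z hz
    refine ContinuousOn.mul (hHc.comp (by fun_prop) ?_) hφ.continuousOn
    intro u hu
    rw [uIcc_of_le hab] at hu
    exact hmap (z, u) ⟨Metric.ball_subset_closedBall hz, hu⟩
  have hcd : ContinuousOn (fun u : ℝ => deriv H (z₀ + u * I) * φ u) (uIcc a b) := by
    refine ContinuousOn.mul (hdc.comp (by fun_prop) ?_) hφ.continuousOn
    intro u hu
    rw [uIcc_of_le hab] at hu
    exact hmap (z₀, u) ⟨Metric.mem_closedBall_self hε0.le, hu⟩
  refine (intervalIntegral.hasDerivAt_integral_of_dominated_loc_of_deriv_le (μ := volume)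
    (F := fun z u => H (z + u * I) * φ u) (F' := fun z u => deriv H (z + u * I) * φ u)
    (s := Metric.ball z₀ ε) (bound := fun u => C * ‖φ u‖) hball ?_ ?_ ?_ ?_ hbi ?_).2.differentiableAt
  · filter_upwards [hball] with z hz
    exact ((hcz z hz).mono uIoc_subset_uIcc).aestronglyMeasurable measurableSet_uIoc
  · exact (hcz z₀ (Metric.mem_ball_self hε0)).intervalIntegrable
  · exact (hcd.mono uIoc_subset_uIcc).aestronglyMeasurable measurableSet_uIoc
  · refine Eventually.of_forall fun u hu z hz => ?_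
    rw [norm_mul]
    rw [uIoc_of_le hab] at hu
    have := hC (z, u) ⟨Metric.ball_subset_closedBall hz, Ioc_subset_Icc_self hu⟩
    gcongr
  · refine Eventually.of_forall fun u hu z hz => ?_
    rw [uIoc_of_le hab] at hu
    have h1 : z + u * I ∈ V := hmap (z, u) ⟨Metric.ball_subset_closedBall hz, Ioc_subset_Icc_self hu⟩
    have h2 : HasDerivAt H (deriv H (z + u * I)) (z + u * I) := (hH _ h1).hasDerivAt
    have h3 : HasDerivAt (fun z : ℂ => z + u * I) 1 z := (hasDerivAt_id z).add_const _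
    have h4 := (h2.comp z h3).mul_const (φ u)
    simpa using h4

/-- the maximum principle for the means of order `2 k` along vertical segments -/
theorem l2_max {f w : ℂ → ℂ} {L B T σ S : ℝ} {k : ℕ} (hT : 0 < T) (hLσ : L ≤ σ) (hσB : σ ≤ B)
    (hLB : L < B) (hf : ∀ z : ℂ, 0 < z.im → DifferentiableAt ℂ f z) (hw : Differentiable ℂ w)
    (hw1 : w (σ : ℂ) = 1)
    (hS : ∀ z ∈ frontier (Ioo L B ×ℂ Ioo (-(T / 2)) (T / 2)),
      ‖w z‖ ^ 2 * ∫ u in T..(2 * T), ‖f (z + u * I)‖ ^ (2 * k) ≤ S) :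
    ∫ u in T..(2 * T), ‖f ((σ : ℂ) + u * I)‖ ^ (2 * k) ≤ S := by
  set V : Set ℂ := {z | 0 < z.im} with hV
  have hTT : T ≤ 2 * T := by linarith
  have hfc : ContinuousOn f V := fun z hz => (hf z hz).continuousAt.continuousWithinAt
  -- the `k`-th power
  set F : ℂ → ℂ := fun z => f z ^ k with hF
  have hFd : ∀ z : ℂ, 0 < z.im → DifferentiableAt ℂ F z := fun z hz => (hf z hz).pow k
  have hFc : ContinuousOn F V := fun z hz => (hFd z hz).continuousAt.continuousWithinAt
  have hFn : ∀ z, ‖F z‖ ^ 2 = ‖f z‖ ^ (2 * k) := by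
    intro z
    rw [hF]
    simp only [norm_pow]
    rw [← pow_mul, mul_comm]
  -- continuity on the segments
  have hseg : ∀ z : ℂ, -(T / 2) ≤ z.im → ContinuousOn (fun u : ℝ => F (z + u * I)) (Icc T (2 * T)) := by
    intro z hz
    refine hFc.comp (by fun_prop) fun u hu => ?_
    simp only [hV, Set.mem_ofPred_eq, add_im, mul_im, ofReal_re, I_im, mul_one, ofReal_im, I_re,
      mul_zero, add_zero]
    have := hu.1
    linarith
  -- the test function, extended by a constant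
  set φ : ℝ → ℂ := fun u => (starRingEnd ℂ) (F ((σ : ℂ) + ((max T (min u (2 * T)) : ℝ) : ℂ) * I)) with hφ
  have hφc : Continuous φ := by
    refine Complex.continuous_conj.comp ?_
    rw [← continuousOn_univ]
    refine hFc.comp (Continuous.continuousOn (by fun_prop)) fun u _ => ?_
    simp only [hV, Set.mem_ofPred_eq, add_im, mul_im, ofReal_re, I_im, mul_one, ofReal_im, I_re,
      mul_zero, add_zero, zero_add]
    exact lt_of_lt_of_le hT (le_max_left _ _)
  have hφe : ∀ u ∈ Icc T (2 * T), φ u = (starRingEnd ℂ) (F ((σ : ℂ) + u * I)) := by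
    intro u hu
    simp only [hφ]
    rw [min_eq_left hu.2, max_eq_right hu.1]
  set M : ℝ := ∫ u in T..(2 * T), ‖f ((σ : ℂ) + u * I)‖ ^ (2 * k) with hM
  have hM0 : 0 ≤ M := intervalIntegral.integral_nonneg hTT fun u _ => by positivity
  set h : ℂ → ℂ := fun z => ∫ u in T..(2 * T), F (z + u * I) * φ u with hh
  set G : ℂ → ℂ := fun z => w z * h z with hG
  set U : Set ℂ := Ioo L B ×ℂ Ioo (-(T / 2)) (T / 2) with hU
  have hYY : -(T / 2) < T / 2 := by linarith
  have hclU : closure U = Icc L B ×ℂ Icc (-(T / 2)) (T / 2) := by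
    rw [hU, closure_reProdIm, closure_Ioo hLB.ne, closure_Ioo hYY.ne]
  have hGd : DiffContOnCl ℂ G U := by
    apply DifferentiableOn.diffContOnCl
    intro z hz
    rw [hclU] at hz
    have h2 : -(T / 2) ≤ z.im := hz.2.1
    exact ((hw z).mul (par_diff hTT (by linarith) hFd hφc)).differentiableWithinAt
  have hbd : Bornology.IsBounded U :=
    (Metric.isBounded_Ioo L B).reProdIm (Metric.isBounded_Ioo _ _)
  -- the value at the centre
  have hcen : h (σ : ℂ) = (M : ℂ) := by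
    rw [hh, hM, ← intervalIntegral.integral_ofReal]
    refine intervalIntegral.integral_congr fun u hu => ?_
    rw [uIcc_of_le hTT] at hu
    rw [hφe u hu, Complex.mul_conj, Complex.normSq_eq_norm_sq, hFn]
  have hcase : ∀ z ∈ frontier U, ‖G z‖ ≤ (S + M) / 2 := by
    intro z hz
    have hzU : z ∈ closure U := frontier_subset_closure hz
    rw [hclU] at hzU
    have hz2 : -(T / 2) ≤ z.im := hzU.2.1
    have hc1 := hseg z hz2
    have hc2 := hseg (σ : ℂ) (by simp; linarith)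
    have hi1 : IntervalIntegrable (fun u : ℝ => ‖w z‖ * (‖F (z + u * I)‖ * ‖F ((σ : ℂ) + u * I)‖))
        volume T (2 * T) := by
      apply ContinuousOn.intervalIntegrable
      rw [uIcc_of_le hTT]
      exact continuousOn_const.mul (hc1.norm.mul hc2.norm)
    have hi2 : IntervalIntegrable (fun u : ℝ => (‖w z‖ ^ 2 * ‖f (z + u * I)‖ ^ (2 * k) +
        ‖f ((σ : ℂ) + u * I)‖ ^ (2 * k)) / 2) volume T (2 * T) := by
      apply ContinuousOn.intervalIntegrable
      rw [uIcc_of_le hTT]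
      have e1 : ContinuousOn (fun u : ℝ => ‖f (z + u * I)‖ ^ (2 * k)) (Icc T (2 * T)) := by
        have e0 : (fun u : ℝ => ‖f (z + u * I)‖ ^ (2 * k)) = fun u : ℝ => ‖F (z + u * I)‖ ^ 2 :=
          funext fun u => (hFn _).symm
        rw [e0]
        exact hc1.norm.pow 2
      have e2 : ContinuousOn (fun u : ℝ => ‖f ((σ : ℂ) + u * I)‖ ^ (2 * k)) (Icc T (2 * T)) := by
        have e0 : (fun u : ℝ => ‖f ((σ : ℂ) + u * I)‖ ^ (2 * k)) =
            fun u : ℝ => ‖F ((σ : ℂ) + u * I)‖ ^ 2 := funext fun u => (hFn _).symm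
        rw [e0]
        exact hc2.norm.pow 2
      exact ((continuousOn_const.mul e1).add e2).div_const 2
    have hi3 : IntervalIntegrable (fun u : ℝ => ‖w z‖ ^ 2 * ‖f (z + u * I)‖ ^ (2 * k))
        volume T (2 * T) := by
      apply ContinuousOn.intervalIntegrable
      rw [uIcc_of_le hTT]
      have e1 : ContinuousOn (fun u : ℝ => ‖f (z + u * I)‖ ^ (2 * k)) (Icc T (2 * T)) := by
        have e0 : (fun u : ℝ => ‖f (z + u * I)‖ ^ (2 * k)) = fun u : ℝ => ‖F (z + u * I)‖ ^ 2 :=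
          funext fun u => (hFn _).symm
        rw [e0]
        exact hc1.norm.pow 2
      exact continuousOn_const.mul e1
    have hi4 : IntervalIntegrable (fun u : ℝ => ‖f ((σ : ℂ) + u * I)‖ ^ (2 * k))
        volume T (2 * T) := by
      apply ContinuousOn.intervalIntegrable
      rw [uIcc_of_le hTT]
      have e0 : (fun u : ℝ => ‖f ((σ : ℂ) + u * I)‖ ^ (2 * k)) =
          fun u : ℝ => ‖F ((σ : ℂ) + u * I)‖ ^ 2 := funext fun u => (hFn _).symm
      rw [e0]
      exact hc2.norm.pow 2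
    calc ‖G z‖ = ‖w z‖ * ‖h z‖ := norm_mul _ _
      _ ≤ ‖w z‖ * ∫ u in T..(2 * T), ‖F (z + u * I) * φ u‖ :=
          mul_le_mul_of_nonneg_left (intervalIntegral.norm_integral_le_integral_norm hTT)
            (norm_nonneg _)
      _ = ∫ u in T..(2 * T), ‖w z‖ * (‖F (z + u * I)‖ * ‖F ((σ : ℂ) + u * I)‖) := by
          rw [← intervalIntegral.integral_const_mul]
          refine intervalIntegral.integral_congr fun u hu => ?_
          rw [uIcc_of_le hTT] at hu
          rw [norm_mul, hφe u hu, RCLike.norm_conj]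
      _ ≤ ∫ u in T..(2 * T), (‖w z‖ ^ 2 * ‖f (z + u * I)‖ ^ (2 * k) +
            ‖f ((σ : ℂ) + u * I)‖ ^ (2 * k)) / 2 := by
          refine intervalIntegral.integral_mono_on hTT hi1 hi2 fun u _ => ?_
          rw [← hFn, ← hFn]
          nlinarith [sq_nonneg (‖w z‖ * ‖F (z + u * I)‖ - ‖F ((σ : ℂ) + u * I)‖)]
      _ = (‖w z‖ ^ 2 * (∫ u in T..(2 * T), ‖f (z + u * I)‖ ^ (2 * k)) + M) / 2 := by
          rw [intervalIntegral.integral_div, intervalIntegral.integral_add hi3 hi4,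
            intervalIntegral.integral_const_mul]
      _ ≤ (S + M) / 2 := by
          have := hS z hz
          linarith
  have hsU : (σ : ℂ) ∈ closure U := by
    rw [hclU]
    refine ⟨⟨by simpa using hLσ, by simpa using hσB⟩, ?_⟩
    show (σ : ℂ).im ∈ Set.Icc _ _
    rw [Complex.ofReal_im]
    exact ⟨by linarith, by linarith⟩
  have hfin := Complex.norm_le_of_forall_mem_frontier_norm_le hbd hGd hcase hsU
  have hGσ : G (σ : ℂ) = (M : ℂ) := by
    simp only [hG]
    rw [hw1, one_mul, hcen]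
  rw [hGσ, Complex.norm_real, Real.norm_of_nonneg hM0] at hfin
  linarith

open Pool.Agent.H131R5.BZ Pool.Agent.Y930.Bz Pool.Agent.Y616.BM

variable {r : ℕ} {a : ℝ} {w : Fin r → ℝ} {c : ℕ → ℂ}

/-- the horizontal sides -/
theorem hor_le2 {C₁ A0 t B e x σ ℓ u v : ℝ} {r : ℕ} {N y : ℝ} (hC₁ : 0 ≤ C₁) (hA0 : 0 ≤ A0)
    (hB : 0 ≤ B) (hN1 : 1 ≤ N) (hNt : N ≤ t) (hy : y ≤ 5 * t / 2) (hx : |x - σ| ≤ B)
    (hℓ : |ℓ| ≤ (1 + e) * t) (hu : u ≤ C₁ * Real.exp (5 * y)) (hv : v ≤ A0 * N ^ r) :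
    (u + v) * (Real.exp ((x - σ) ^ 2 - t ^ 2 / 4) * Real.exp ((x - σ) * ℓ)) ≤
      (C₁ + A0) * Real.exp (B ^ 2 + (25 / 2 + r + B * (1 + e)) ^ 2) := by
  have hr : (0 : ℝ) ≤ r := Nat.cast_nonneg r
  have ht1 : 1 ≤ t := hN1.trans hNt
  have h6 : Real.exp (5 * y) ≤ Real.exp ((25 / 2 + r) * t) := by
    apply Real.exp_le_exp.2
    have : 0 ≤ (r : ℝ) * t := by positivity
    linarith
  have h7 : N ^ r ≤ Real.exp ((25 / 2 + r) * t) := by
    calc N ^ r ≤ t ^ r := by gcongr
      _ ≤ (Real.exp t) ^ r := by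
          gcongr
          have := Real.add_one_le_exp t
          linarith
      _ = Real.exp (r * t) := by rw [← Real.exp_nat_mul]
      _ ≤ _ := by
          apply Real.exp_le_exp.2
          linarith
  have h8 : u + v ≤ (C₁ + A0) * Real.exp ((25 / 2 + r) * t) := by
    have e1 := mul_le_mul_of_nonneg_left h6 hC₁
    have e2 := mul_le_mul_of_nonneg_left h7 hA0
    linarith
  have h9 : (x - σ) * ℓ ≤ B * ((1 + e) * t) := by
    calc (x - σ) * ℓ ≤ |(x - σ) * ℓ| := le_abs_self _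
      _ = |x - σ| * |ℓ| := abs_mul _ _
      _ ≤ B * ((1 + e) * t) := mul_le_mul hx hℓ (abs_nonneg _) hB
  have h10 : (x - σ) ^ 2 ≤ B ^ 2 := by
    rw [← sq_abs (x - σ)]
    exact pow_le_pow_left₀ (abs_nonneg _) hx 2
  have h11 := quad_le (25 / 2 + r + B * (1 + e)) t
  have h12 : (25 / 2 + r + B * (1 + e)) * t = (25 / 2 + r) * t + B * ((1 + e) * t) := by ring
  calc _ ≤ (C₁ + A0) * Real.exp ((25 / 2 + r) * t) *
        (Real.exp ((x - σ) ^ 2 - t ^ 2 / 4) * Real.exp ((x - σ) * ℓ)) :=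
        mul_le_mul_of_nonneg_right h8 (by positivity)
    _ = (C₁ + A0) * Real.exp ((25 / 2 + r) * t + ((x - σ) ^ 2 - t ^ 2 / 4 + (x - σ) * ℓ)) := by
        rw [← Real.exp_add, mul_assoc, ← Real.exp_add]
    _ ≤ _ := by
        apply mul_le_mul_of_nonneg_left _ (by positivity)
        apply Real.exp_le_exp.2
        linarith

theorem y_le3 {y t κ : ℝ} (hy : 0 ≤ y) (hyt : y ≤ 3 * t) (ht : 0 ≤ t) (hκ0 : 0 < κ)
    (hκ1 : κ ≤ 1 / 4) : y ^ (1 / 2 + κ) ≤ 3 * t ^ (1 / 2 + κ) := by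
  calc y ^ (1 / 2 + κ) ≤ (3 * t) ^ (1 / 2 + κ) := Real.rpow_le_rpow hy hyt (by linarith)
    _ = 3 ^ (1 / 2 + κ) * t ^ (1 / 2 + κ) := Real.mul_rpow (by norm_num) ht
    _ ≤ 3 ^ (1 : ℝ) * t ^ (1 / 2 + κ) := mul_le_mul_of_nonneg_right
        (Real.rpow_le_rpow_of_exponent_le (by norm_num) (by linarith)) (by positivity)
    _ = _ := by rw [Real.rpow_one]

/-- powers -/
theorem pow_T {T ν : ℝ} (hT : 0 < T) (k : ℕ) : T * (T ^ ν) ^ (2 * k) = T ^ (1 + 2 * k * ν) := by
  rw [← Real.rpow_natCast (T ^ ν), ← Real.rpow_mul hT.le, Real.rpow_add hT, Real.rpow_one]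
  congr 2
  push_cast
  ring

/-- a constant bound -/
theorem int_le_const {g : ℝ → ℝ} {T Q : ℝ} {k : ℕ} (hT : 0 ≤ T)
    (hg : ContinuousOn g (Set.Icc T (2 * T))) (h0 : ∀ u ∈ Set.Icc T (2 * T), 0 ≤ g u)
    (h1 : ∀ u ∈ Set.Icc T (2 * T), g u ≤ Q) :
    ∫ u in T..(2 * T), g u ^ (2 * k) ≤ T * Q ^ (2 * k) := by
  have hTT : T ≤ 2 * T := by linarith
  have h2 : ∫ u in T..(2 * T), g u ^ (2 * k) ≤ ∫ _ in T..(2 * T), Q ^ (2 * k) := by
    refine intervalIntegral.integral_mono_on hTT ?_ (by simp) fun u hu =>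
      pow_le_pow_left₀ (h0 u hu) (h1 u hu) _
    apply ContinuousOn.intervalIntegrable
    rw [uIcc_of_le hTT]
    exact hg.pow _
  refine h2.trans (le_of_eq ?_)
  rw [intervalIntegral.integral_const, smul_eq_mul]
  ring

/-- the moments of the box sums over shifted segments -/
theorem box_shift {k : ℕ} (ha : 0 < a) (hw : ∀ j, 0 < w j) {Cb η θ X T y x : ℝ} {i : ℕ}
    (hCb : 0 ≤ Cb) (hη : 0 ≤ η) (hθ : 0 < θ) (hT : 2 ≤ T) (hX : 0 ≤ X)
    (hb : ∀ T' : ℝ, (2 : ℝ) ^ i ≤ T' ^ θ → 1 ≤ T' →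
      ∫ t in T'..(2 * T'), ‖boxSum r a w i ((x : ℂ) + t * Complex.I)‖ ^ (2 * k) ≤
          Cb * T' ^ (1 + 2 * k * η) * X) (hi : (2 : ℝ) ^ i ≤ (T / 2) ^ θ)
    (hy1 : -(T / 2) ≤ y) (hy2 : y ≤ T / 2) :
    ∫ u in T..(2 * T), ‖boxSum r a w i ((x : ℂ) + ((y + u : ℝ) : ℂ) * Complex.I)‖ ^ (2 * k) ≤
      3 * Cb * 2 ^ (1 + 2 * k * η) * (T ^ (1 + 2 * k * η) * X) := by
  have hT0 : 0 < T := by linarith
  set g : ℝ → ℝ := fun t => ‖boxSum r a w i ((x : ℂ) + (t : ℂ) * Complex.I)‖ ^ (2 * k) with hg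
  have hgc : Continuous g := by
    have h1 : Continuous (fun z => boxSum r a w i z) := by
      rw [continuous_iff_continuousAt]
      exact fun z => (boxSum_diff ha hw i z).continuousAt
    exact (h1.comp (by fun_prop : Continuous fun t : ℝ => (x : ℂ) + (t : ℂ) * Complex.I)).norm.pow _
  have hg0 : ∀ t, 0 ≤ g t := fun t => by positivity
  have hgi : ∀ p q : ℝ, IntervalIntegrable g volume p q := fun p q => hgc.intervalIntegrable p q
  have e1 : ∫ u in T..(2 * T), ‖boxSum r a w i ((x : ℂ) + ((y + u : ℝ) : ℂ) * Complex.I)‖ ^ (2 * k) =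
      ∫ t in (y + T)..(y + 2 * T), g t := by
    rw [← intervalIntegral.integral_comp_add_left (fun t => g t) y]
  have e2 : ∫ t in (y + T)..(y + 2 * T), g t ≤ ∫ t in (T / 2)..(4 * T), g t :=
    intervalIntegral.integral_mono_interval (by linarith) (by linarith) (by linarith)
      (Eventually.of_forall fun t => hg0 t) (hgi _ _)
  have e3 : ∫ t in (T / 2)..(4 * T), g t = (∫ t in (T / 2)..T, g t) + (∫ t in T..(2 * T), g t) +
      ∫ t in (2 * T)..(4 * T), g t := by
    rw [intervalIntegral.integral_add_adjacent_intervals (hgi _ _) (hgi _ _),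
      intervalIntegral.integral_add_adjacent_intervals (hgi _ _) (hgi _ _)]
  have hp : 0 ≤ 1 + 2 * (k : ℝ) * η := by positivity
  have hb' : ∀ T' : ℝ, T / 2 ≤ T' → T' ≤ 2 * T → ∫ t in T'..(2 * T'), g t ≤
      Cb * 2 ^ (1 + 2 * k * η) * (T ^ (1 + 2 * k * η) * X) := by
    intro T' h1 h2
    refine (hb T' (hi.trans (Real.rpow_le_rpow (by linarith) h1 hθ.le)) (by linarith)).trans ?_
    have h3 : T' ^ (1 + 2 * (k : ℝ) * η) ≤ 2 ^ (1 + 2 * (k : ℝ) * η) * T ^ (1 + 2 * (k : ℝ) * η) := by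
      rw [← Real.mul_rpow (by norm_num) hT0.le]
      exact Real.rpow_le_rpow (by linarith) h2 hp
    calc Cb * T' ^ (1 + 2 * (k : ℝ) * η) * X ≤
        Cb * (2 ^ (1 + 2 * (k : ℝ) * η) * T ^ (1 + 2 * (k : ℝ) * η)) * X := by gcongr
      _ = _ := by ring
  have f1 := hb' (T / 2) le_rfl (by linarith)
  have f2 := hb' T (by linarith) (by linarith)
  have f3 := hb' (2 * T) (by linarith) le_rfl
  rw [show 2 * (T / 2) = T by ring] at f1
  rw [show 2 * (2 * T) = 4 * T by ring] at f3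
  rw [e1]
  refine e2.trans ?_
  rw [e3]
  linarith

/-- the strip `r - d / 2 ≤ σ ≤ r + 1 / 2` -/
theorem strip_bound4 {d k : ℕ} (hk1 : 1 ≤ k) (hd : 1 ≤ d) (hdr : d ≤ r) (ha : 0 < a)
    (hw : ∀ j, 0 < w j) (hc : Tay a w c)
    (hk : ∀ κ : ℝ, 0 < κ → κ ≤ 1 / 4 → ∃ C : ℝ, 0 ≤ C ∧ ∀ y : ℝ, 1 ≤ y →
      ‖FF a w c (((r - d + κ : ℝ) : ℂ) + y * Complex.I)‖ ≤ C * y ^ (1 / 2 + κ))
    {η θ ν : ℝ} (hη : 0 ≤ η) (hθ : 0 < θ) (hθ1 : θ ≤ 1) (hν1 : η < ν) (hν2 : (1 - θ * d) / 2 < ν)
    (hbox : ∃ C : ℝ, 0 ≤ C ∧ ∀ (i : ℕ) (σ T : ℝ), (2 : ℝ) ^ i ≤ T ^ θ → 0 ≤ σ → σ ≤ r + 1 →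
      1 ≤ T → ∫ t in T..(2 * T), ‖boxSum r a w i ((σ : ℂ) + t * Complex.I)‖ ^ (2 * k) ≤
          C * T ^ (1 + 2 * k * η) * ((2 : ℝ) ^ i) ^ (2 * k * max 0 ((r : ℝ) - d / 2 - σ))) :
    ∃ C : ℝ, 0 ≤ C ∧ ∀ σ T : ℝ, (r : ℝ) - d / 2 ≤ σ → σ ≤ r + 1 / 2 → 2 ≤ T →
      ∫ t in T..(2 * T), ‖FF a w c ((σ : ℂ) + t * Complex.I)‖ ^ (2 * k) ≤
        C * T ^ (1 + 2 * k * ν) := by
  have hd1 : (1 : ℝ) ≤ d := by exact_mod_cast hd
  have hd0 : (0 : ℝ) < d := by linarith
  have hdr' : (d : ℝ) ≤ r := by exact_mod_cast hdr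
  have hr1 : (1 : ℝ) ≤ r := by linarith
  have hr0 : (0 : ℝ) < r := by linarith
  have hν0 : 0 < ν := by linarith
  set δ : ℝ := min (ν - η) (ν - (1 - θ * d) / 2) with hδ
  have hδ0 : 0 < δ := lt_min (by linarith) (by linarith)
  have hδ1 : δ ≤ ν - η := min_le_left _ _
  have hδ2 : δ ≤ ν - (1 - θ * d) / 2 := min_le_right _ _
  set κ : ℝ := min (1 / 4) (δ / 4) with hκd
  have hκ0 : 0 < κ := lt_min (by norm_num) (by positivity)
  have hκ1 : κ ≤ 1 / 4 := min_le_left _ _
  have hκ2 : κ ≤ δ / 4 := min_le_right _ _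
  obtain ⟨C₀, hC₀, h0⟩ := hk κ hκ0 hκ1
  obtain ⟨Cb, hCb, hb⟩ := hbox
  set L : ℝ := r - d + κ with hL
  have hL0 : 0 < L := by linarith
  set e : ℝ := δ / (3 * d) with he
  have he0 : 0 < e := by positivity
  set B : ℝ := (r + 1 / 2) + (r + 1) / e + 1 with hB
  have hBe : 0 < ((r : ℝ) + 1) / e := by positivity
  have hBr : (r : ℝ) + 1 ≤ B := by linarith
  have hκB : L < B := by linarith
  have hB0 : 0 < B := by linarith
  obtain ⟨C₂, hC₂, h2⟩ := tail_le ha hw hc hBr
  obtain ⟨C₁, hC₁, hg⟩ := FF_growth ha hw hc (α := L) (β := B) hL0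
  set E : ℝ := Real.exp (B ^ 2) with hE
  have hE0 : 0 < E := Real.exp_pos _
  set A0 : ℝ := 1 + a ^ (-B) with hA0
  have hA0p : 0 < A0 := by positivity
  set P : ℝ := 25 / 2 + r + B * (1 + e) with hP
  have hP0 : 0 < P := by positivity
  set D1 : ℝ := (C₁ + A0) * Real.exp (B ^ 2 + P ^ 2) with hD1
  set D2 : ℝ := 3 * C₀ * E * 2 ^ (d : ℝ) with hD2
  set D3 : ℝ := C₂ * E with hD3
  set D4 : ℝ := 3 * Cb * 2 ^ (1 + 2 * (k : ℝ) * η) with hD4
  have hD1p : 0 ≤ D1 := by positivity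
  have hD2p : 0 ≤ D2 := by positivity
  have hD3p : 0 ≤ D3 := by positivity
  have hD4p : 0 ≤ D4 := by positivity
  set D : ℝ := D1 ^ (2 * k) + D3 ^ (2 * k) +
    2 ^ (2 * k - 1) * (D2 ^ (2 * k) + E ^ (2 * k) * D4) with hDd
  have hDp : 0 ≤ D := by positivity
  refine ⟨2 ^ (2 * k - 1) * (D + Cb), by positivity, fun σ T hσ hσ1 hT => ?_⟩
  have hT0 : 0 < T := by linarith
  have hT1 : 1 ≤ T := by linarith
  have hTT : T ≤ 2 * T := by linarith
  have hσ0 : 0 < σ := by linarith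
  have hσB : σ < B := by linarith
  have hκσ : L < σ := by linarith
  obtain ⟨i, hi1, hi2⟩ := exists_nat_pow_near (x := (T / 2) ^ θ) (y := (2 : ℝ))
    (Real.one_le_rpow (by linarith) hθ.le) (by norm_num)
  set N : ℝ := (2 : ℝ) ^ i with hN
  have hN1 : 1 ≤ N := one_le_pow₀ (by norm_num)
  have hN0 : 0 < N := by linarith
  have hNt : N ≤ T := by
    calc N ≤ (T / 2) ^ θ := hi1
      _ ≤ T ^ θ := Real.rpow_le_rpow (by linarith) (by linarith) hθ.le
      _ ≤ T ^ (1 : ℝ) := Real.rpow_le_rpow_of_exponent_le hT1 hθ1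
      _ = T := Real.rpow_one T
  have hNlow : (T / 2) ^ θ / 2 ≤ N := by
    rw [pow_succ] at hi2
    rw [div_le_iff₀ (by norm_num)]
    exact hi2.le
  have hTν : 1 ≤ T ^ ν := Real.one_le_rpow hT1 hν0.le
  have hTk : 1 ≤ (T ^ ν) ^ (2 * k) := one_le_pow₀ hTν
  -- the exponential weight
  set ℓ : ℝ := Real.log N - e * Real.log T with hℓ
  have hℓabs : |ℓ| ≤ (1 + e) * T := abs_ell hN1 hNt he0.le
  have hver : ∀ x : ℝ, Real.exp ((x - σ) * ℓ) = N ^ (x - σ) * T ^ (-(e * (x - σ))) := by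
    intro x
    rw [Real.rpow_def_of_pos hN0, Real.rpow_def_of_pos hT0, ← Real.exp_add]
    congr 1
    rw [hℓ]
    ring
  set f : ℂ → ℂ := fun z => FF a w c z - boxSum r a w i z with hf
  set wt : ℂ → ℂ := fun z => (cexp ((z - (σ : ℂ)) ^ 2) * cexp ((z - (σ : ℂ)) * (ℓ : ℂ))) ^ k with hwt
  have hFd : ∀ z : ℂ, 0 < z.im → DifferentiableAt ℂ (FF a w c) z := fun z hz =>
    FF_diff ha hw hc (by
      intro k _ _ h
      have := congrArg Complex.im h
      simp at this
      linarith)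
  have hfd : ∀ z : ℂ, 0 < z.im → DifferentiableAt ℂ f z := fun z hz =>
    (hFd z hz).sub (boxSum_diff ha hw i z)
  have hwtd : Differentiable ℂ wt := by
    intro z
    simp only [hwt]
    fun_prop
  have hwt1 : wt (σ : ℂ) = 1 := by
    simp only [hwt]
    simp
  -- the norm of the weight
  set W : ℝ → ℝ → ℝ := fun x y => Real.exp ((x - σ) ^ 2 - y ^ 2) * Real.exp ((x - σ) * ℓ) with hW
  have hW0 : ∀ x y, 0 < W x y := fun x y => by positivity
  have hwtn : ∀ z : ℂ, ‖wt z‖ ^ 2 = W z.re z.im ^ (2 * k) := by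
    intro z
    simp only [hwt, hW]
    rw [norm_pow, ← pow_mul, mul_comm k 2, norm_mul, Complex.norm_exp, Complex.norm_exp]
    congr 3
    · congr 1
      rw [pow_two (z - (σ : ℂ)), Complex.mul_re]
      simp
      ring
    · congr 1
      simp
  have hpt : ∀ (z : ℂ) (u : ℝ), z + u * I = (z.re : ℂ) + ((z.im + u : ℝ) : ℂ) * I := by
    intro z u
    apply Complex.ext <;> simp
  -- continuity
  have hFc : ∀ x y : ℝ, -(T / 2) ≤ y →
      ContinuousOn (fun u : ℝ => FF a w c ((x : ℂ) + ((y + u : ℝ) : ℂ) * I)) (Set.Icc T (2 * T)) := by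
    intro x y hy
    have h1 : ContinuousOn (FF a w c) {z | 0 < z.im} := fun z hz =>
      (hFd z hz).continuousAt.continuousWithinAt
    refine h1.comp (by fun_prop) fun u hu => ?_
    have := hu.1
    show 0 < ((x : ℂ) + ((y + u : ℝ) : ℂ) * I).im
    simp
    linarith
  have hBc0 : Continuous (fun z => boxSum r a w i z) := by
    rw [continuous_iff_continuousAt]
    exact fun z => (boxSum_diff ha hw i z).continuousAt
  have hBc : ∀ x y : ℝ, Continuous fun u : ℝ => boxSum r a w i ((x : ℂ) + ((y + u : ℝ) : ℂ) * I) :=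
    fun x y => hBc0.comp (by fun_prop)
  have hfc : ∀ x y : ℝ, -(T / 2) ≤ y →
      ContinuousOn (fun u : ℝ => f ((x : ℂ) + ((y + u : ℝ) : ℂ) * I)) (Set.Icc T (2 * T)) :=
    fun x y hy => (hFc x y hy).sub (hBc x y).continuousOn
  -- the weighted moment
  have hmom : ∀ z : ℂ, ‖wt z‖ ^ 2 * ∫ u in T..(2 * T), ‖f (z + u * I)‖ ^ (2 * k) =
      ∫ u in T..(2 * T), (W z.re z.im * ‖f ((z.re : ℂ) + ((z.im + u : ℝ) : ℂ) * I)‖) ^ (2 * k) := by
    intro z
    rw [hwtn, ← intervalIntegral.integral_const_mul]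
    refine intervalIntegral.integral_congr fun u _ => ?_
    simp only [hpt z u]
    exact (mul_pow _ _ _).symm
  have hWx : ∀ x y : ℝ, L ≤ x → x ≤ B → W x y ≤ E * (N ^ (x - σ) * T ^ (-(e * (x - σ)))) := by
    intro x y h3 h4
    simp only [hW]
    rw [hver]
    refine mul_le_mul_of_nonneg_right ?_ (by positivity)
    apply Real.exp_le_exp.2
    have h5 : (x - σ) ^ 2 ≤ B ^ 2 := by
      apply sq_le_sq'
      · linarith
      · linarith
    nlinarith [sq_nonneg y]
  set S : ℝ := T * (T ^ ν) ^ (2 * k) * D with hSd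
  have hSbig : ∀ Q : ℝ, 0 ≤ Q → Q ≤ D → T * Q ≤ S := by
    intro Q hQ0 hQ
    rw [hSd]
    calc T * Q = T * 1 * Q := by ring
      _ ≤ T * (T ^ ν) ^ (2 * k) * D := by gcongr
  have hDa : D1 ^ (2 * k) ≤ D := by
    rw [hDd]
    have : 0 ≤ 2 ^ (2 * k - 1) * (D2 ^ (2 * k) + E ^ (2 * k) * D4) := by positivity
    have : 0 ≤ D3 ^ (2 * k) := by positivity
    linarith
  have hDb : D3 ^ (2 * k) ≤ D := by
    rw [hDd]
    have : 0 ≤ 2 ^ (2 * k - 1) * (D2 ^ (2 * k) + E ^ (2 * k) * D4) := by positivity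
    have : 0 ≤ D1 ^ (2 * k) := by positivity
    linarith
  have hDc : 2 ^ (2 * k - 1) * (D2 ^ (2 * k) + E ^ (2 * k) * D4) ≤ D := by
    rw [hDd]
    have : 0 ≤ D1 ^ (2 * k) := by positivity
    have : 0 ≤ D3 ^ (2 * k) := by positivity
    linarith
  have hfront : ∀ z ∈ frontier (Set.Ioo L B ×ℂ Set.Ioo (-(T / 2)) (T / 2)),
      ‖wt z‖ ^ 2 * ∫ u in T..(2 * T), ‖f (z + u * I)‖ ^ (2 * k) ≤ S := by
    intro z hz
    have hYY : -(T / 2) < T / 2 := by linarith
    rw [frontier_reProdIm, closure_Ioo hκB.ne, closure_Ioo hYY.ne, frontier_Ioo hκB,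
      frontier_Ioo hYY] at hz
    rw [hmom]
    obtain ⟨x, hx⟩ : ∃ x : ℝ, x = z.re := ⟨_, rfl⟩
    obtain ⟨y, hy⟩ : ∃ y : ℝ, y = z.im := ⟨_, rfl⟩
    rw [← hx, ← hy]
    have hyT : -(T / 2) ≤ y ∧ y ≤ T / 2 := by
      rcases hz with hz | hz
      · rcases hz.2 with h | h
        · rw [hy, show z.im = -(T / 2) from h]
          exact ⟨le_rfl, by linarith⟩
        · rw [hy, show z.im = T / 2 from h]
          exact ⟨by linarith, le_rfl⟩
      · rw [hy]; exact hz.2
    have hxB : L ≤ x ∧ x ≤ B := by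
      rcases hz with hz | hz
      · rw [hx]; exact hz.1
      · rcases hz.1 with h | h
        · rw [hx, show z.re = L from h]
          exact ⟨le_rfl, hκB.le⟩
        · rw [hx, show z.re = B from h]
          exact ⟨hκB.le, le_rfl⟩
    have hyu : ∀ u ∈ Set.Icc T (2 * T), 1 ≤ y + u ∧ y + u ≤ 5 * T / 2 ∧ T / 2 ≤ y + u := by
      intro u hu
      have h3 := hu.1
      have h4 := hu.2
      refine ⟨?_, ?_, ?_⟩ <;> linarith [hyT.1, hyT.2]
    have hconst : ∀ Q : ℝ, 0 ≤ Q → Q ^ (2 * k) ≤ D →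
        (∀ u ∈ Set.Icc T (2 * T), W x y * ‖f ((x : ℂ) + ((y + u : ℝ) : ℂ) * I)‖ ≤ Q) →
        ∫ u in T..(2 * T), (W x y * ‖f ((x : ℂ) + ((y + u : ℝ) : ℂ) * I)‖) ^ (2 * k) ≤ S := by
      intro Q hQ0 hQ1 hQ
      refine (int_le_const hT0.le (continuousOn_const.mul (hfc x y hyT.1).norm)
        (fun u _ => mul_nonneg (hW0 x y).le (norm_nonneg _)) hQ).trans ?_
      exact hSbig _ (by positivity) hQ1
    rcases hz with hz | hz
    · -- the horizontal sides
      refine hconst D1 hD1p hDa fun u hu => ?_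
      obtain ⟨h3, h4, -⟩ := hyu u hu
      have hy2 : y ^ 2 = T ^ 2 / 4 := by
        rcases hz.2 with h | h
        · rw [hy, show z.im = -(T / 2) from h]; ring
        · rw [hy, show z.im = T / 2 from h]; ring
      have h5 := hg ((x : ℂ) + ((y + u : ℝ) : ℂ) * I) (by simpa using hxB.1)
        (by simpa using hxB.2) (by simp; linarith)
      have h6 : ((x : ℂ) + ((y + u : ℝ) : ℂ) * I).im = y + u := by simp
      rw [h6] at h5
      have h7 := boxSum_le ha hw i (s := (x : ℂ) + ((y + u : ℝ) : ℂ) * I) (B := B)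
        (by simp; linarith [hxB.1]) (by simpa using hxB.2)
      rw [← hN, ← hA0] at h7
      have h8 : |x - σ| ≤ B := by
        rw [abs_le]
        constructor <;> linarith [hxB.1, hxB.2]
      have h9 := hor_le2 hC₁ hA0p.le hB0.le hN1 hNt h4 h8 hℓabs h5 h7
      refine le_trans ?_ h9
      simp only [hW]
      rw [hy2, mul_comm]
      exact mul_le_mul_of_nonneg_right (norm_sub_le _ _) (by positivity)
    · rcases hz.1 with hz1 | hz1
      · -- the left side
        have hxL : x = L := by rw [hx]; exact hz1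
        rw [hxL]
        have hWL := hWx L y le_rfl hκB.le
        have h8 : T ^ (-(e * (L - σ))) ≤ T ^ (δ / 2) := by
          apply Real.rpow_le_rpow_of_exponent_le hT1
          have e1 : e * (σ - L) ≤ e * (3 / 2 * d) := by
            gcongr
            linarith
          have e2 : e * (3 / 2 * d) = δ / 2 := by
            rw [he]
            field_simp
          linarith
        have hWL' : W L y ≤ E * (N ^ (L - σ) * T ^ (δ / 2)) := hWL.trans (by gcongr)
        have h9 := left1g (r := d) (ν := ν) (μ := δ / 2) (x := L - σ) hT1 hN1 hNlow hθ1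
          (by linarith) hκ0 (by linarith) (by linarith)
        have h10 := left2g (η := η) (ν := ν) (μ := δ / 2) (x := L - σ)
          (y := (r : ℝ) - d / 2 - L) hT1 hN1 (by linarith) (by linarith)
        -- the two parts
        have hcF : ContinuousOn (fun u : ℝ => W L y * ‖FF a w c ((L : ℂ) + ((y + u : ℝ) : ℂ) * I)‖)
            (Set.Icc T (2 * T)) := continuousOn_const.mul (hFc L y hyT.1).norm
        have hcB : Continuous fun u : ℝ => W L y * ‖boxSum r a w i ((L : ℂ) + ((y + u : ℝ) : ℂ) * I)‖ :=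
          continuous_const.mul (hBc L y).norm
        have hcf : ContinuousOn (fun u : ℝ => W L y * ‖f ((L : ℂ) + ((y + u : ℝ) : ℂ) * I)‖)
            (Set.Icc T (2 * T)) := continuousOn_const.mul (hfc L y hyT.1).norm
        have hiF : IntervalIntegrable (fun u : ℝ =>
            (W L y * ‖FF a w c ((L : ℂ) + ((y + u : ℝ) : ℂ) * I)‖) ^ (2 * k)) volume T (2 * T) := by
          apply ContinuousOn.intervalIntegrable
          rw [uIcc_of_le hTT]
          exact hcF.pow _
        have hiB : IntervalIntegrable (fun u : ℝ =>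
            (W L y * ‖boxSum r a w i ((L : ℂ) + ((y + u : ℝ) : ℂ) * I)‖) ^ (2 * k))
            volume T (2 * T) := (hcB.pow _).intervalIntegrable _ _
        have hif : IntervalIntegrable (fun u : ℝ =>
            (W L y * ‖f ((L : ℂ) + ((y + u : ℝ) : ℂ) * I)‖) ^ (2 * k)) volume T (2 * T) := by
          apply ContinuousOn.intervalIntegrable
          rw [uIcc_of_le hTT]
          exact hcf.pow _
        have hWp := hW0 L y
        have hsum : ∫ u in T..(2 * T), (W L y * ‖f ((L : ℂ) + ((y + u : ℝ) : ℂ) * I)‖) ^ (2 * k) ≤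
            2 ^ (2 * k - 1) * ((∫ u in T..(2 * T),
              (W L y * ‖FF a w c ((L : ℂ) + ((y + u : ℝ) : ℂ) * I)‖) ^ (2 * k)) +
              ∫ u in T..(2 * T),
                (W L y * ‖boxSum r a w i ((L : ℂ) + ((y + u : ℝ) : ℂ) * I)‖) ^ (2 * k)) := by
          rw [← intervalIntegral.integral_add hiF hiB, ← intervalIntegral.integral_const_mul]
          refine intervalIntegral.integral_mono_on hTT hif ((hiF.add hiB).const_mul _) fun u _ => ?_
          refine le_trans ?_ (add_pow_le (by positivity) (by positivity) (2 * k))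
          apply pow_le_pow_left₀ (by positivity)
          rw [← mul_add]
          exact mul_le_mul_of_nonneg_left (norm_sub_le _ _) hWp.le
        have hF : ∫ u in T..(2 * T),
            (W L y * ‖FF a w c ((L : ℂ) + ((y + u : ℝ) : ℂ) * I)‖) ^ (2 * k) ≤
              T * (D2 * T ^ ν) ^ (2 * k) := by
          refine int_le_const hT0.le hcF (fun u _ => by positivity) fun u hu => ?_
          obtain ⟨h3, h4, -⟩ := hyu u hu
          have h5 := h0 (y + u) h3
          have h6 := y_le3 (y := y + u) (by linarith) (by linarith : y + u ≤ 3 * T) hT0.le hκ0 hκ1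
          have h7 : ‖FF a w c ((L : ℂ) + ((y + u : ℝ) : ℂ) * I)‖ ≤ C₀ * (3 * T ^ (1 / 2 + κ)) :=
            h5.trans (by gcongr)
          calc W L y * ‖FF a w c ((L : ℂ) + ((y + u : ℝ) : ℂ) * I)‖ ≤
              (E * (N ^ (L - σ) * T ^ (δ / 2))) * (C₀ * (3 * T ^ (1 / 2 + κ))) := by gcongr
            _ = 3 * C₀ * E * (T ^ (1 / 2 + κ) * (N ^ (L - σ) * T ^ (δ / 2))) := by ring
            _ ≤ 3 * C₀ * E * (2 ^ (d : ℝ) * T ^ ν) := by gcongr
            _ = D2 * T ^ ν := by rw [hD2]; ring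
        have hBx : ∫ u in T..(2 * T),
            (W L y * ‖boxSum r a w i ((L : ℂ) + ((y + u : ℝ) : ℂ) * I)‖) ^ (2 * k) ≤
              E ^ (2 * k) * D4 * (T * (T ^ ν) ^ (2 * k)) := by
          have h3 := box_shift (k := k) ha hw (Cb := Cb) (η := η) (θ := θ)
            (X := N ^ (2 * k * max 0 ((r : ℝ) - d / 2 - L))) (T := T) (y := y) (x := L) (i := i)
            hCb hη hθ hT (by positivity) (fun T' h1 h2 => hb i L T' h1 hL0.le (by linarith) h2)
            hi1 hyT.1 hyT.2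
          have h4 : max 0 ((r : ℝ) - d / 2 - L) = (r : ℝ) - d / 2 - L :=
            max_eq_right (by linarith)
          rw [h4, ← hD4] at h3
          have h5 : ∫ u in T..(2 * T),
              (W L y * ‖boxSum r a w i ((L : ℂ) + ((y + u : ℝ) : ℂ) * I)‖) ^ (2 * k) =
              W L y ^ (2 * k) * ∫ u in T..(2 * T),
                ‖boxSum r a w i ((L : ℂ) + ((y + u : ℝ) : ℂ) * I)‖ ^ (2 * k) := by
            rw [← intervalIntegral.integral_const_mul]
            refine intervalIntegral.integral_congr fun u _ => ?_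
            simp only [mul_pow]
          have h6 : W L y ^ (2 * k) ≤ (E * (N ^ (L - σ) * T ^ (δ / 2))) ^ (2 * k) :=
            pow_le_pow_left₀ hWp.le hWL' _
          have h7 : T ^ (1 + 2 * (k : ℝ) * η) * N ^ (2 * (k : ℝ) * ((r : ℝ) - d / 2 - L)) =
              T * (T ^ η * N ^ ((r : ℝ) - d / 2 - L)) ^ (2 * k) := by
            rw [← pow_T hT0 k, mul_pow, mul_assoc]
            congr 2
            rw [← Real.rpow_natCast (N ^ ((r : ℝ) - d / 2 - L)), ← Real.rpow_mul hN0.le]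
            congr 1
            push_cast
            ring
          rw [h7] at h3
          rw [h5]
          calc W L y ^ (2 * k) * ∫ u in T..(2 * T),
                ‖boxSum r a w i ((L : ℂ) + ((y + u : ℝ) : ℂ) * I)‖ ^ (2 * k) ≤
              (E * (N ^ (L - σ) * T ^ (δ / 2))) ^ (2 * k) *
                (D4 * (T * (T ^ η * N ^ ((r : ℝ) - d / 2 - L)) ^ (2 * k))) := by
                refine mul_le_mul h6 h3 ?_ (by positivity)
                exact intervalIntegral.integral_nonneg hTT fun u _ => by positivity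
            _ = E ^ (2 * k) * D4 * (T * (T ^ η * N ^ ((r : ℝ) - d / 2 - L) *
                  (N ^ (L - σ) * T ^ (δ / 2))) ^ (2 * k)) := by
                rw [mul_pow E, mul_pow (T ^ η * N ^ ((r : ℝ) - d / 2 - L))]
                ring
            _ ≤ E ^ (2 * k) * D4 * (T * (T ^ ν) ^ (2 * k)) := by
                gcongr
        calc ∫ u in T..(2 * T), (W L y * ‖f ((L : ℂ) + ((y + u : ℝ) : ℂ) * I)‖) ^ (2 * k) ≤
            2 ^ (2 * k - 1) * (T * (D2 * T ^ ν) ^ (2 * k) +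
              E ^ (2 * k) * D4 * (T * (T ^ ν) ^ (2 * k))) := hsum.trans (by gcongr)
          _ = T * (T ^ ν) ^ (2 * k) * (2 ^ (2 * k - 1) * (D2 ^ (2 * k) + E ^ (2 * k) * D4)) := by
              rw [mul_pow D2]
              ring
          _ ≤ S := by
              rw [hSd]
              gcongr
      · -- the right side
        have hxR : x = B := by rw [hx]; exact hz1
        refine hconst D3 hD3p hDb fun u hu => ?_
        rw [hxR]
        have h3 := h2 i ((B : ℂ) + ((y + u : ℝ) : ℂ) * I) (by simp)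
        rw [← hN] at h3
        have e1 : (r : ℝ) + 1 ≤ e * (B - σ) := by
          have e2 : (r : ℝ) + 1 = e * ((r + 1) / e) := by field_simp
          rw [e2]
          exact mul_le_mul_of_nonneg_left (by linarith) he0.le
        have h6 := right1 hr0.le hT1 hN1 hNt hσ0.le e1
        have hWB := hWx B y hκB.le le_rfl
        calc W B y * ‖f ((B : ℂ) + ((y + u : ℝ) : ℂ) * I)‖ ≤
            (E * (N ^ (B - σ) * T ^ (-(e * (B - σ))))) * (C₂ * N ^ ((r : ℝ) + 1 - B)) :=
              mul_le_mul hWB h3 (norm_nonneg _) (by positivity)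
          _ = C₂ * E * (N ^ ((r : ℝ) + 1 - B) * (N ^ (B - σ) * T ^ (-(e * (B - σ))))) := by ring
          _ ≤ C₂ * E * 1 := by gcongr
          _ = D3 := by rw [hD3, mul_one]
  have hmain := l2_max (k := k) hT0 hκσ.le hσB.le hκB hfd hwtd hwt1 hfront
  -- the conclusion
  have hb2 := hb i σ T (hi1.trans (Real.rpow_le_rpow (by linarith) (by linarith) hθ.le)) hσ0.le
    (by linarith) hT1
  rw [max_eq_left (by linarith), mul_zero, Real.rpow_zero, mul_one] at hb2
  have h0c : ∀ u : ℝ, (σ : ℂ) + u * I = (σ : ℂ) + ((0 + u : ℝ) : ℂ) * I := by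
    intro u; rw [zero_add]
  have hcF : ContinuousOn (fun u : ℝ => FF a w c ((σ : ℂ) + u * I)) (Set.Icc T (2 * T)) := by
    have := hFc σ 0 (by linarith)
    simpa only [zero_add] using this
  have hcB : Continuous fun u : ℝ => boxSum r a w i ((σ : ℂ) + u * I) := hBc0.comp (by fun_prop)
  have hiF : IntervalIntegrable (fun u : ℝ => ‖FF a w c ((σ : ℂ) + u * I)‖ ^ (2 * k))
      volume T (2 * T) := by
    apply ContinuousOn.intervalIntegrable
    rw [uIcc_of_le hTT]
    exact hcF.norm.pow _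
  have hiB : IntervalIntegrable (fun u : ℝ => ‖boxSum r a w i ((σ : ℂ) + u * I)‖ ^ (2 * k))
      volume T (2 * T) := (hcB.norm.pow _).intervalIntegrable _ _
  have hif : IntervalIntegrable (fun u : ℝ => ‖f ((σ : ℂ) + u * I)‖ ^ (2 * k))
      volume T (2 * T) := by
    apply ContinuousOn.intervalIntegrable
    rw [uIcc_of_le hTT]
    exact (hcF.sub hcB.continuousOn).norm.pow _
  have hsum : ∫ u in T..(2 * T), ‖FF a w c ((σ : ℂ) + u * I)‖ ^ (2 * k) ≤
      2 ^ (2 * k - 1) * ((∫ u in T..(2 * T), ‖f ((σ : ℂ) + u * I)‖ ^ (2 * k)) +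
        ∫ u in T..(2 * T), ‖boxSum r a w i ((σ : ℂ) + u * I)‖ ^ (2 * k)) := by
    rw [← intervalIntegral.integral_add hif hiB, ← intervalIntegral.integral_const_mul]
    refine intervalIntegral.integral_mono_on hTT hiF ((hif.add hiB).const_mul _) fun u _ => ?_
    refine le_trans ?_ (add_pow_le (by positivity) (by positivity) (2 * k))
    apply pow_le_pow_left₀ (by positivity)
    have e1 : FF a w c ((σ : ℂ) + u * I) = f ((σ : ℂ) + u * I) +
        boxSum r a w i ((σ : ℂ) + u * I) := by simp only [hf]; ring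
    rw [e1]
    exact norm_add_le _ _
  have h4 : T ^ (1 + 2 * (k : ℝ) * η) ≤ T ^ (1 + 2 * (k : ℝ) * ν) :=
    Real.rpow_le_rpow_of_exponent_le hT1 (by gcongr)
  calc _ ≤ 2 ^ (2 * k - 1) * (S + Cb * T ^ (1 + 2 * (k : ℝ) * η)) := hsum.trans (by gcongr)
    _ ≤ 2 ^ (2 * k - 1) * (D * T ^ (1 + 2 * (k : ℝ) * ν) + Cb * T ^ (1 + 2 * (k : ℝ) * ν)) := by
        rw [hSd, pow_T hT0 k, mul_comm _ D]
        gcongr
    _ = _ := by ring

theorem s_g4 : S_G4 := by
  intro r d k a w c hk1 hd hdr ha hw hc hk η θ hη hθ hθ1 hbox ν hν1 hν2 σ₁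
  obtain ⟨C, hC, h1⟩ := strip_bound4 hk1 hd hdr ha hw hc hk hη hθ hθ1 hν1 hν2 hbox
  obtain ⟨C', hC', h2⟩ := FF_abs_bdd ha hw hc σ₁
  refine ⟨C + C' ^ (2 * k), by positivity, fun σ T hσ hσ1 hT => ?_⟩
  have hT0 : 0 < T := by linarith
  have hν0 : 0 < ν := by linarith
  have hTk : 0 ≤ T ^ (1 + 2 * (k : ℝ) * ν) := by positivity
  rcases le_total σ (r + 1 / 2) with h | h
  · have h3 := h1 σ T hσ h hT
    have h4 : 0 ≤ C' ^ (2 * k) * T ^ (1 + 2 * (k : ℝ) * ν) := by positivity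
    linarith
  · have hTν : 1 ≤ T ^ ν := Real.one_le_rpow (by linarith) hν0.le
    have hcF : ContinuousOn (fun u : ℝ => ‖FF a w c ((σ : ℂ) + u * I)‖) (Set.Icc T (2 * T)) := by
      have h3 : ContinuousOn (FF a w c) {z | 0 < z.im} := fun z hz =>
        (FF_diff ha hw hc (by
          intro k _ _ h
          have := congrArg Complex.im h
          simp at this
          have h4 : 0 < z.im := hz
          linarith)).continuousAt.continuousWithinAt
      refine (h3.comp (by fun_prop) fun u hu => ?_).norm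
      have := hu.1
      show 0 < ((σ : ℂ) + (u : ℂ) * I).im
      simp
      linarith
    have h3 := int_le_const (k := k) hT0.le hcF (fun u _ => norm_nonneg _) (Q := C') fun u hu =>
      h2 ((σ : ℂ) + u * I) (by simpa using h) (by simpa using hσ1)
    have h4 : T ≤ T ^ (1 + 2 * (k : ℝ) * ν) := by
      rw [← pow_T hT0 k]
      exact le_mul_of_one_le_right hT0.le (one_le_pow₀ hTν)
    calc _ ≤ T * C' ^ (2 * k) := h3
      _ ≤ T ^ (1 + 2 * (k : ℝ) * ν) * C' ^ (2 * k) := by gcongr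
      _ ≤ (C + C' ^ (2 * k)) * T ^ (1 + 2 * (k : ℝ) * ν) := by
          have : 0 ≤ C * T ^ (1 + 2 * (k : ℝ) * ν) := by positivity
          linarith

end Pool.Agent.Helper73.BL
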