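import Pool.Agent.Helper73.BL.St2

set_option autoImplicit false

namespace Pool.Agent.Helper73.BL.K

/-- generated by `ρ` elements -/
def Gen (ρ : ℕ) (Q : Type) [AddCommGroup Q] : Prop :=
  ∃ π : (Fin ρ → ℤ) →+ Q, Function.Surjective π

lemma gen_quot {ρ : ℕ} {Q : Type} [AddCommGroup Q] (h : Gen ρ Q) (H : AddSubgroup Q) :
    Gen ρ (Q ⧸ H) := by
  obtain ⟨π, hπ⟩ := h
  exact ⟨(QuotientAddGroup.mk' H).comp π, (QuotientAddGroup.mk'_surjective H).comp hπ⟩

lemma tors {ρ : ℕ} {Q : Type} [AddCommGroup Q] [Finite Q] (h : Gen ρ Q) (m : ℕ) (hm : 0 < m) :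
    Nat.card {x : Q // m • x = 0} ≤ m ^ ρ := by
  let f : Q →+ Q := nsmulAddMonoidHom m
  have hk : Nat.card {x : Q // m • x = 0} = Nat.card f.ker := by
    apply Nat.card_congr
    exact Equiv.subtypeEquivRight (fun x => by simp [f, AddMonoidHom.mem_ker])
  have h1 : Nat.card f.ker * f.ker.index = Nat.card Q := AddSubgroup.card_mul_index _
  have h2 : Nat.card f.range * f.range.index = Nat.card Q := AddSubgroup.card_mul_index _
  have h3 : f.ker.index = Nat.card f.range := AddSubgroup.index_ker f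
  have h4 : 0 < Nat.card f.range := Nat.card_pos
  have h5 : Nat.card f.ker = f.range.index := by
    rw [h3] at h1
    have : Nat.card f.range * Nat.card f.ker = Nat.card f.range * f.range.index := by
      rw [h2, ← h1, mul_comm]
    exact Nat.eq_of_mul_eq_mul_left h4 this
  rw [hk, h5]
  obtain ⟨π, hπ⟩ := h
  have h6 : Function.Surjective (fun c : Fin ρ → Fin m =>
      (QuotientAddGroup.mk' f.range) (π (fun i => ((c i : ℕ) : ℤ)))) := by
    intro y
    obtain ⟨x, rfl⟩ := QuotientAddGroup.mk'_surjective f.range y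
    obtain ⟨v, rfl⟩ := hπ x
    refine ⟨fun i => ⟨(v i % m).toNat, ?_⟩, ?_⟩
    · have h7 : 0 ≤ v i % m := Int.emod_nonneg _ (by positivity)
      have h8 : v i % m < m := Int.emod_lt_of_pos _ (by positivity)
      omega
    · simp only [QuotientAddGroup.mk'_apply]
      rw [QuotientAddGroup.eq]
      refine ⟨π (fun i => v i / m), ?_⟩
      have h9 : f (π (fun i => v i / m)) = π (m • (fun i => v i / m)) := by
        rw [map_nsmul]; rfl
      rw [h9, ← map_neg, ← map_add]
      congr 1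
      funext i
      have h7 : 0 ≤ v i % m := Int.emod_nonneg _ (by positivity)
      have h10 := Int.emod_add_mul_ediv (v i) m
      simp only [Pi.smul_apply, Pi.add_apply, Pi.neg_apply, nsmul_eq_mul, Int.toNat_of_nonneg h7]
      linarith
  have h11 := Nat.card_le_card_of_surjective _ h6
  rw [AddSubgroup.index]
  refine le_trans h11 ?_
  simp [Nat.card_eq_fintype_card]

lemma sum_sq (n : ℕ) : ∑ m ∈ Finset.range (n + 2), ((m : ℝ)⁻¹) ^ 2 ≤ 2 - 1 / (n + 1) := by
  induction n with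
  | zero => norm_num [Finset.sum_range_succ]
  | succ n ih =>
    rw [Finset.sum_range_succ]
    have h1 : ((↑(n + 2) : ℝ)⁻¹) ^ 2 ≤ 1 / (n + 1) - 1 / (n + 2) := by
      push_cast
      rw [inv_pow, div_sub_div _ _ (by positivity) (by positivity), inv_eq_one_div,
        div_le_div_iff₀ (by positivity) (by positivity)]
      nlinarith
    have e2 : ((↑(n + 1) : ℝ) + 1) = n + 2 := by push_cast; ring
    rw [e2]
    linarith

open Classical in
lemma sumOrd {ρ : ℕ} {Q : Type} [AddCommGroup Q] [Fintype Q] (h : Gen ρ Q) (D : ℕ)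
    (hD : ρ + 2 ≤ D) : ∑ g : Q, ((addOrderOf g : ℝ)⁻¹) ^ D ≤ 2 := by
  have h1 : ∀ g ∈ (Finset.univ : Finset Q), addOrderOf g ∈ Finset.range (Fintype.card Q + 1) := by
    intro g _
    rw [Finset.mem_range]
    have := addOrderOf_le_card_univ (x := g)
    omega
  rw [← Finset.sum_fiberwise_of_maps_to h1]
  refine le_trans (Finset.sum_le_sum (g := fun m : ℕ => ((m : ℝ)⁻¹) ^ 2) ?_) ?_
  · intro m _
    rcases Nat.eq_zero_or_pos m with rfl | hm
    · rw [Finset.sum_eq_zero]
      · positivity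
      · intro g hg
        have := (Finset.mem_filter.1 hg).2
        have h2 := addOrderOf_pos g
        omega
    · have h2 : ∑ g ∈ Finset.univ.filter (fun g : Q => addOrderOf g = m), ((addOrderOf g : ℝ)⁻¹) ^ D
          = ((Finset.univ.filter (fun g : Q => addOrderOf g = m)).card : ℝ) * ((m : ℝ)⁻¹) ^ D := by
        rw [Finset.sum_congr rfl (fun g hg => by rw [(Finset.mem_filter.1 hg).2])]
        rw [Finset.sum_const, nsmul_eq_mul]
      rw [h2]
      have h3 : (Finset.univ.filter (fun g : Q => addOrderOf g = m)).card ≤ m ^ ρ := by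
        refine le_trans ?_ (tors h m hm)
        rw [Nat.card_eq_fintype_card, Fintype.card_subtype]
        apply Finset.card_le_card
        intro g hg
        simp only [Finset.mem_filter, Finset.mem_univ, true_and] at hg ⊢
        rw [← hg]; exact addOrderOf_nsmul_eq_zero g
      have h4 : ((Finset.univ.filter (fun g : Q => addOrderOf g = m)).card : ℝ) ≤ (m : ℝ) ^ ρ := by
        exact_mod_cast h3
      have hm' : (1 : ℝ) ≤ m := by exact_mod_cast hm
      obtain ⟨e, rfl⟩ := Nat.exists_eq_add_of_le hD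
      calc ((Finset.univ.filter (fun g : Q => addOrderOf g = m)).card : ℝ) * ((m : ℝ)⁻¹) ^ (ρ + 2 + e)
          ≤ (m : ℝ) ^ ρ * ((m : ℝ)⁻¹) ^ (ρ + 2 + e) := by gcongr
        _ = ((m : ℝ)⁻¹) ^ 2 * ((m : ℝ)⁻¹) ^ e := by
            rw [pow_add, pow_add, inv_pow, inv_pow, inv_pow]
            field_simp
        _ ≤ ((m : ℝ)⁻¹) ^ 2 * 1 := by
            gcongr
            apply pow_le_one₀ (by positivity)
            exact inv_le_one_of_one_le₀ hm'
        _ = _ := mul_one _
  · have h5 := sum_sq (Fintype.card Q)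
    rw [Finset.sum_range_succ] at h5
    have h6 : (0 : ℝ) ≤ 1 / (Fintype.card Q + 1) := by positivity
    have h7 : (0 : ℝ) ≤ ((↑(Fintype.card Q + 1) : ℝ)⁻¹) ^ 2 := by positivity
    linarith

open Classical in
/-- sum over the quotient -/
lemma sumQuot {G : Type} [AddCommGroup G] [Fintype G] (H : AddSubgroup G) (f : G ⧸ H → ℝ) :
    ∑ g : G, f (QuotientAddGroup.mk g) = Nat.card H * ∑ y : G ⧸ H, f y := by
  have h1 : ∑ g : G, f (QuotientAddGroup.mk g) = ∑ z : (G ⧸ H) × H, f z.1 := by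
    apply Fintype.sum_equiv (AddSubgroup.addGroupEquivQuotientProdAddSubgroup)
    intro g
    rfl
  rw [h1, Fintype.sum_prod_type]
  simp [Finset.mul_sum, Nat.card_eq_fintype_card]

lemma cardSup {G : Type} [AddCommGroup G] [Finite G] (H : AddSubgroup G) (g : G) :
    Nat.card H * addOrderOf (QuotientAddGroup.mk g : G ⧸ H) ≤
      Nat.card (H ⊔ AddSubgroup.zmultiples g : AddSubgroup G) := by
  have h1 : Nat.card (H × Fin (addOrderOf (QuotientAddGroup.mk g : G ⧸ H))) ≤
      Nat.card (H ⊔ AddSubgroup.zmultiples g : AddSubgroup G) := by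
    let F : H × Fin (addOrderOf (QuotientAddGroup.mk g : G ⧸ H)) →
        (H ⊔ AddSubgroup.zmultiples g : AddSubgroup G) := fun z => ⟨(z.1 : G) + ((z.2 : ℕ)) • g,
      AddSubgroup.add_mem _ (AddSubgroup.mem_sup_left z.1.2)
        (AddSubgroup.mem_sup_right (AddSubgroup.nsmul_mem_zmultiples g _))⟩
    apply Nat.card_le_card_of_injective F
    · rintro ⟨a, i⟩ ⟨b, j⟩ h0
      have h : (a : G) + (i : ℕ) • g = (b : G) + (j : ℕ) • g := congrArg Subtype.val h0
      have h2 : (QuotientAddGroup.mk (((a : G) + (i : ℕ) • g)) : G ⧸ H) =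
          QuotientAddGroup.mk ((b : G) + (j : ℕ) • g) := by rw [h]
      have h3 : ∀ (c : H) (n : ℕ), (QuotientAddGroup.mk ((c : G) + n • g) : G ⧸ H) =
          n • (QuotientAddGroup.mk g : G ⧸ H) := by
        intro c n
        rw [QuotientAddGroup.mk_add, (QuotientAddGroup.eq_zero_iff (c : G)).2 c.2, zero_add]
        rfl
      rw [h3, h3] at h2
      have h4 : (i : ℕ) = j := by
        apply nsmul_injOn_Iio_addOrderOf (Set.mem_Iio.2 i.2) (Set.mem_Iio.2 j.2) h2
      have h5 : i = j := Fin.ext h4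
      subst h5
      have h6 : (a : G) = b := by simpa using h
      exact Prod.ext (Subtype.ext h6) rfl
  rw [Nat.card_prod] at h1
  simpa using h1

/-- the sum over the tuples -/
noncomputable def T {G : Type} [AddCommGroup G] [Fintype G] (q D : ℕ) (H : AddSubgroup G) : ℝ :=
  ∑ g : Fin q → G, ((Nat.card (H ⊔ AddSubgroup.closure (Set.range g) : AddSubgroup G) : ℝ)⁻¹) ^ D

open Classical in
lemma T_le {ρ : ℕ} {G : Type} [AddCommGroup G] [Fintype G] (h : Gen ρ G) (q D : ℕ)
    (hD : q = 0 ∨ ρ + q < D) : ∀ H : AddSubgroup G,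
    T q D H ≤ 2 ^ q * ((Nat.card H : ℝ)⁻¹) ^ (D - q) := by
  induction q with
  | zero =>
    intro H
    simp [T]
  | succ q ih =>
    intro H
    have hD1 : ρ + (q + 1) < D := by
      rcases hD with h0 | h0
      · omega
      · exact h0
    have ih' := ih (by right; omega)
    have h1 : T (q + 1) D H = ∑ g₀ : G, T q D (H ⊔ AddSubgroup.zmultiples g₀) := by
      rw [T, ← (Fin.consEquiv (fun _ => G)).sum_comp, Fintype.sum_prod_type]
      apply Finset.sum_congr rfl
      intro g₀ _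
      rw [T]
      apply Finset.sum_congr rfl
      intro g' _
      have h2 : AddSubgroup.closure (Set.range ((Fin.consEquiv (fun _ => G)) (g₀, g'))) =
          AddSubgroup.zmultiples g₀ ⊔ AddSubgroup.closure (Set.range g') := by
        have h3 : Set.range ((Fin.consEquiv (fun _ => G)) (g₀, g')) = {g₀} ∪ Set.range g' := by
          exact Fin.range_cons g₀ g'
        rw [h3, AddSubgroup.closure_union, AddSubgroup.zmultiples_eq_closure]
      rw [h2, sup_assoc]
    rw [h1]
    have hHpos : (0 : ℝ) < Nat.card H := by exact_mod_cast Nat.card_pos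
    have h4 : ∀ g₀ : G, T q D (H ⊔ AddSubgroup.zmultiples g₀) ≤
        2 ^ q * (((Nat.card H : ℝ)⁻¹) ^ (D - q) *
          (((addOrderOf (QuotientAddGroup.mk g₀ : G ⧸ H) : ℕ) : ℝ)⁻¹) ^ (D - q)) := by
      intro g₀
      refine le_trans (ih' _) ?_
      have h5 : ((Nat.card (H ⊔ AddSubgroup.zmultiples g₀ : AddSubgroup G) : ℝ)⁻¹) ≤
          (Nat.card H : ℝ)⁻¹ * (((addOrderOf (QuotientAddGroup.mk g₀ : G ⧸ H) : ℕ) : ℝ)⁻¹) := by
        rw [← mul_inv]
        have h6 : 0 < addOrderOf (QuotientAddGroup.mk g₀ : G ⧸ H) := addOrderOf_pos _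
        apply inv_anti₀
        · positivity
        · exact_mod_cast cardSup H g₀
      rw [← mul_pow]
      gcongr
    refine le_trans (Finset.sum_le_sum (fun g₀ _ => h4 g₀)) ?_
    rw [← Finset.mul_sum, ← Finset.mul_sum]
    rw [sumQuot H (fun y => ((addOrderOf y : ℝ)⁻¹) ^ (D - q))]
    have h7 := sumOrd (gen_quot h H) (D - q) (by omega)
    have h8 : D - q = (D - (q + 1)) + 1 := by omega
    calc 2 ^ q * (((Nat.card H : ℝ)⁻¹) ^ (D - q) * ((Nat.card H : ℝ) *
          ∑ y : G ⧸ H, ((addOrderOf y : ℝ)⁻¹) ^ (D - q)))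
        ≤ 2 ^ q * (((Nat.card H : ℝ)⁻¹) ^ (D - q) * ((Nat.card H : ℝ) * 2)) := by gcongr
      _ = 2 ^ (q + 1) * ((Nat.card H : ℝ)⁻¹) ^ (D - (q + 1)) := by
          rw [h8, pow_succ ((Nat.card H : ℝ)⁻¹)]
          field_simp
          ring


/-- characters which are trivial on `H` -/
abbrev Ann {G : Type} [AddCommGroup G] (H : AddSubgroup G) : Type :=
  {ψ : G →+ AddCircle (1 : ℝ) // ∀ h ∈ H, ψ h = 0}

open Classical in
/-- the character of the quotient -/
noncomputable def annChar {G : Type} [AddCommGroup G] (H : AddSubgroup G) (ψ : Ann H) :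
    AddChar (G ⧸ H) ℂ where
  toFun y := ((QuotientAddGroup.lift H ψ.1 (fun h hh => ψ.2 h hh) y).toCircle : ℂ)
  map_zero_eq_one' := by simp
  map_add_eq_mul' x y := by
    rw [map_add, AddCircle.toCircle_add]; simp

lemma annChar_inj {G : Type} [AddCommGroup G] (H : AddSubgroup G) :
    Function.Injective (annChar H) := by
  rintro ⟨ψ, hψ⟩ ⟨φ, hφ⟩ h
  apply Subtype.ext
  ext g
  have h1 := DFunLike.congr_fun h (QuotientAddGroup.mk g : G ⧸ H)
  have h2 : ((ψ g).toCircle : ℂ) = ((φ g).toCircle : ℂ) := h1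
  have h3 : (ψ g).toCircle = (φ g).toCircle := Circle.ext h2
  exact AddCircle.injective_toCircle one_ne_zero h3

instance {G : Type} [AddCommGroup G] [Finite G] (H : AddSubgroup G) : Finite (Ann H) := by
  classical
  have := Fintype.ofFinite (G ⧸ H)
  exact Finite.of_injective _ (annChar_inj H)

lemma card_ann {G : Type} [AddCommGroup G] [Finite G] (H : AddSubgroup G) :
    Nat.card (Ann H) ≤ Nat.card (G ⧸ H) := by
  classical
  have := Fintype.ofFinite (G ⧸ H)
  refine le_trans (Nat.card_le_card_of_injective _ (annChar_inj H)) ?_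
  rw [Nat.card_eq_fintype_card, Nat.card_eq_fintype_card, AddChar.card_eq]

/-- the integral vectors with entries at most `2` -/
noncomputable def box (ρ : ℕ) : Finset (Fin ρ → ℤ) := Fintype.piFinset (fun _ => Finset.Icc (-2 : ℤ) 2)

lemma box_card (ρ : ℕ) : (box ρ).card = 5 ^ ρ := by
  simp [box, Fintype.card_piFinset]

section main

variable {ρ : ℕ} (M : Matrix (Fin ρ) (Fin ρ) ℤ)

open Matrix

/-- the rational vector -/
def qv (v : Fin ρ → ℤ) : Fin ρ → ℚ := fun i => (v i : ℚ)

/-- the rational matrix -/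
def qm : Matrix (Fin ρ) (Fin ρ) ℚ := M.map (Int.cast : ℤ → ℚ)

lemma qm_det (hM : M.det ≠ 0) : IsUnit (qm M).det := by
  have : (qm M).det = ((M.det : ℤ) : ℚ) := by
    rw [qm]
    exact (Int.cast_det M).symm
  rw [this]
  exact isUnit_iff_ne_zero.2 (by exact_mod_cast hM)

lemma qv_sub (v w : Fin ρ → ℤ) : qv (v - w) = qv v - qv w := by
  funext i; simp [qv]

lemma qv_inj {v w : Fin ρ → ℤ} (h : qv v = qv w) : v = w := by
  funext i
  have := congrFun h i
  simpa [qv] using this

lemma qv_vecMul (u : Fin ρ → ℤ) : qv (u ᵥ* M) = qv u ᵥ* qm M := by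
  funext i
  simp [qv, qm, Matrix.vecMul, dotProduct]

lemma qv_mulVec (u : Fin ρ → ℤ) : qv (M *ᵥ u) = qm M *ᵥ qv u := by
  funext i
  simp [qv, qm, Matrix.mulVec, dotProduct]

/-- the row lattice -/
def Lat : AddSubgroup (Fin ρ → ℤ) := (LinearMap.range (Matrix.toLin' Mᵀ)).toAddSubgroup

lemma mem_Lat (v : Fin ρ → ℤ) : v ∈ Lat M ↔ ∃ u : Fin ρ → ℤ, u ᵥ* M = v := by
  rw [Lat, Submodule.mem_toAddSubgroup, LinearMap.mem_range]
  simp only [Matrix.toLin'_apply, Matrix.mulVec_transpose]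

lemma card_quot (hM : M.det ≠ 0) : Nat.card ((Fin ρ → ℤ) ⧸ Lat M) = M.det.natAbs := by
  have hinj : Function.Injective (Matrix.toLin' Mᵀ) := by
    intro u v h
    simp only [Matrix.toLin'_apply, Matrix.mulVec_transpose] at h
    apply qv_inj
    have h1 : qv u ᵥ* qm M = qv v ᵥ* qm M := by rw [← qv_vecMul, ← qv_vecMul, h]
    have h2 := congrArg (fun w => w ᵥ* (qm M)⁻¹) h1
    simpa [Matrix.vecMul_vecMul, Matrix.mul_nonsing_inv _ (qm_det M hM)] using h2
  have h1 := Submodule.natAbs_det_equiv (LinearMap.range (Matrix.toLin' Mᵀ))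
    (LinearEquiv.ofInjective (Matrix.toLin' Mᵀ) hinj)
  have h2 : ((LinearMap.range (Matrix.toLin' Mᵀ)).subtype ∘ₗ
      AddMonoidHom.toIntLinearMap ((LinearEquiv.ofInjective (Matrix.toLin' Mᵀ) hinj : (Fin ρ → ℤ) ≃ₗ[ℤ] _) :
        (Fin ρ → ℤ) →+ LinearMap.range (Matrix.toLin' Mᵀ))) = Matrix.toLin' Mᵀ := by
    ext x; rfl
  rw [h2, LinearMap.det_toLin', Matrix.det_transpose] at h1
  exact h1.symm

/-- the pairing -/
noncomputable def pr (v x : Fin ρ → ℤ) : ℚ := (qv v ᵥ* (qm M)⁻¹) ⬝ᵥ qv x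

/-- the character of the row classes given by a column -/
noncomputable def chi (hM : M.det ≠ 0) (x : Fin ρ → ℤ) : ((Fin ρ → ℤ) ⧸ Lat M) →+ AddCircle (1 : ℝ) :=
  QuotientAddGroup.lift (Lat M)
    { toFun := fun v => (((pr M v x : ℚ) : ℝ) : AddCircle (1 : ℝ))
      map_zero' := by
        have : qv (0 : Fin ρ → ℤ) = 0 := by funext i; simp [qv]
        simp [pr, this]
      map_add' := fun v w => by
        have h : qv (v + w) = qv v + qv w := by funext i; simp [qv]
        simp only [pr, h, Matrix.add_vecMul, add_dotProduct]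
        push_cast
        rfl }
    (by
      intro v hv
      obtain ⟨u, rfl⟩ := (mem_Lat M v).1 hv
      change ((((pr M (u ᵥ* M) x : ℚ) : ℝ)) : AddCircle (1 : ℝ)) = 0
      have h1 : pr M (u ᵥ* M) x = ((u ⬝ᵥ x : ℤ) : ℚ) := by
        rw [pr, qv_vecMul, Matrix.vecMul_vecMul, Matrix.mul_nonsing_inv _ (qm_det M hM),
          Matrix.vecMul_one]
        simp [qv, dotProduct]
      rw [h1, AddCircle.coe_eq_zero_iff]
      exact ⟨u ⬝ᵥ x, by simp⟩)

lemma chi_mk (hM : M.det ≠ 0) (x v : Fin ρ → ℤ) :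
    chi M hM x (QuotientAddGroup.mk v) = (((pr M v x : ℚ) : ℝ) : AddCircle (1 : ℝ)) := rfl

lemma chi_zero_iff (hM : M.det ≠ 0) (x v : Fin ρ → ℤ) :
    chi M hM x (QuotientAddGroup.mk v) = 0 ↔ ∃ m : ℤ, pr M v x = m := by
  rw [chi_mk, AddCircle.coe_eq_zero_iff]
  constructor
  · rintro ⟨m, hm⟩
    refine ⟨m, ?_⟩
    have : (m : ℝ) = ((pr M v x : ℚ) : ℝ) := by simpa using hm
    exact_mod_cast this.symm
  · rintro ⟨m, hm⟩
    exact ⟨m, by rw [hm]; simp⟩

/-- a class of rows contains few short rows -/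
lemma few_rows (hM : M.det ≠ 0) (g : (Fin ρ → ℤ) ⧸ Lat M) (S : Finset (Fin ρ → ℤ))
    (hS : ∀ v ∈ S, (QuotientAddGroup.mk v : (Fin ρ → ℤ) ⧸ Lat M) = g ∧
      ∀ i, |(qv v ᵥ* (qm M)⁻¹) i| ≤ 1) : S.card ≤ 5 ^ ρ := by
  classical
  rcases S.eq_empty_or_nonempty with rfl | ⟨v₀, hv₀⟩
  · simp
  have h1 : S ⊆ (box ρ).image (fun u => v₀ + u ᵥ* M) := by
    intro v hv
    have h2 : (QuotientAddGroup.mk v₀ : (Fin ρ → ℤ) ⧸ Lat M) = QuotientAddGroup.mk v := by
      rw [(hS v hv).1, (hS v₀ hv₀).1]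
    rw [QuotientAddGroup.eq] at h2
    obtain ⟨u, hu⟩ := (mem_Lat M _).1 h2
    rw [Finset.mem_image]
    refine ⟨u, ?_, by rw [hu]; abel⟩
    have h3 : qv u = qv v ᵥ* (qm M)⁻¹ - qv v₀ ᵥ* (qm M)⁻¹ := by
      have h4 : qv u ᵥ* qm M = qv v - qv v₀ := by
        rw [← qv_vecMul, hu, ← qv_sub]; congr 1; abel
      have h5 := congrArg (fun w => w ᵥ* (qm M)⁻¹) h4
      simpa [Matrix.vecMul_vecMul, Matrix.mul_nonsing_inv _ (qm_det M hM), Matrix.sub_vecMul] using h5
    rw [box, Fintype.mem_piFinset]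
    intro i
    have h6 : |((u i : ℤ) : ℚ)| ≤ 2 := by
      have h7 : ((u i : ℤ) : ℚ) = (qv v ᵥ* (qm M)⁻¹) i - (qv v₀ ᵥ* (qm M)⁻¹) i := congrFun h3 i
      rw [h7]
      have h8 := (hS v hv).2 i
      have h9 := (hS v₀ hv₀).2 i
      refine le_trans (abs_sub _ _) ?_
      linarith
    rw [Finset.mem_Icc, ← abs_le]
    exact_mod_cast h6
  calc S.card ≤ ((box ρ).image (fun u => v₀ + u ᵥ* M)).card := Finset.card_le_card h1
    _ ≤ (box ρ).card := Finset.card_image_le
    _ = 5 ^ ρ := box_card ρ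

/-- a character is given by few short columns -/
lemma few_cols (hM : M.det ≠ 0) (ψ : ((Fin ρ → ℤ) ⧸ Lat M) →+ AddCircle (1 : ℝ))
    (S : Finset (Fin ρ → ℤ))
    (hS : ∀ x ∈ S, chi M hM x = ψ ∧ ∀ i, |((qm M)⁻¹ *ᵥ qv x) i| ≤ 1) : S.card ≤ 5 ^ ρ := by
  classical
  rcases S.eq_empty_or_nonempty with rfl | ⟨x₀, hx₀⟩
  · simp
  have h1 : S ⊆ (box ρ).image (fun u => x₀ + M *ᵥ u) := by
    intro x hx
    have h2 : ∀ i, ∃ m : ℤ, ((qm M)⁻¹ *ᵥ qv (x - x₀)) i = m := by
      intro i
      have h3 : chi M hM x (QuotientAddGroup.mk (Pi.single i 1)) =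
          chi M hM x₀ (QuotientAddGroup.mk (Pi.single i 1)) := by
        rw [(hS x hx).1, (hS x₀ hx₀).1]
      have h4 : chi M hM (x - x₀) (QuotientAddGroup.mk (Pi.single i 1)) = 0 := by
        rw [chi_mk, chi_mk] at h3
        rw [chi_mk]
        have h5 : pr M (Pi.single i 1) (x - x₀) = pr M (Pi.single i 1) x - pr M (Pi.single i 1) x₀ := by
          rw [pr, pr, pr, qv_sub, dotProduct_sub]
        rw [h5]
        push_cast
        rw [AddCircle.coe_sub, h3, sub_self]
      obtain ⟨m, hm⟩ := (chi_zero_iff M hM _ _).1 h4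
      refine ⟨m, ?_⟩
      rw [← hm, pr, ← Matrix.dotProduct_mulVec]
      have h6 : qv (Pi.single i 1 : Fin ρ → ℤ) = Pi.single i 1 := by
        funext j
        by_cases hj : j = i
        · subst hj; simp [qv]
        · simp [qv, hj]
      rw [h6, single_dotProduct, one_mul]
    choose u hu using h2
    rw [Finset.mem_image]
    have h7 : (qm M)⁻¹ *ᵥ qv (x - x₀) = qv u := by funext i; exact hu i
    refine ⟨u, ?_, ?_⟩
    · rw [box, Fintype.mem_piFinset]
      intro i
      have h8 : |((u i : ℤ) : ℚ)| ≤ 2 := by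
        rw [← hu i, qv_sub, Matrix.mulVec_sub, Pi.sub_apply]
        have h9 := (hS x hx).2 i
        have h10 := (hS x₀ hx₀).2 i
        refine le_trans (abs_sub _ _) ?_
        linarith
      rw [Finset.mem_Icc, ← abs_le]
      exact_mod_cast h8
    · have h11 : qm M *ᵥ qv u = qv (x - x₀) := by
        rw [← h7, Matrix.mulVec_mulVec, Matrix.mul_nonsing_inv _ (qm_det M hM), Matrix.one_mulVec]
      rw [← qv_mulVec] at h11
      rw [qv_inj h11]; abel
  calc S.card ≤ ((box ρ).image (fun u => x₀ + M *ᵥ u)).card := Finset.card_le_card h1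
    _ ≤ (box ρ).card := Finset.card_image_le
    _ = 5 ^ ρ := box_card ρ

end main


open Matrix in
open Classical in
/-- the count of the pairs of tuples -/
lemma count {ρ : ℕ} (q p : ℕ) (hqp : q = 0 ∨ ρ + q < p) (M : Matrix (Fin ρ) (Fin ρ) ℤ)
    (hM : M.det ≠ 0) (F : Finset ((Fin q → Fin ρ → ℤ) × (Fin p → Fin ρ → ℤ)))
    (hF : ∀ z ∈ F, (∀ j x, |(qv (z.1 j) ᵥ* (qm M)⁻¹) x| ≤ 1) ∧
      (∀ t y, |((qm M)⁻¹ *ᵥ qv (z.2 t)) y| ≤ 1) ∧ ∀ j t, ∃ m : ℤ, pr M (z.1 j) (z.2 t) = m) :
    F.card ≤ ((5 ^ ρ) ^ q * (5 ^ ρ) ^ p) * 2 ^ q * M.det.natAbs ^ p := by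
  have hcard := card_quot M hM
  have hV : 0 < M.det.natAbs := Int.natAbs_pos.2 hM
  have hfin : Finite ((Fin ρ → ℤ) ⧸ Lat M) := Nat.finite_of_card_ne_zero (by rw [hcard]; omega)
  have hft : Fintype ((Fin ρ → ℤ) ⧸ Lat M) := Fintype.ofFinite _
  have hgen : Gen ρ ((Fin ρ → ℤ) ⧸ Lat M) :=
    ⟨QuotientAddGroup.mk' (Lat M), QuotientAddGroup.mk'_surjective _⟩
  let G := (Fin ρ → ℤ) ⧸ Lat M
  let Φ : ((Fin q → Fin ρ → ℤ) × (Fin p → Fin ρ → ℤ)) →
      (Fin q → G) × (Fin p → (G →+ AddCircle (1 : ℝ))) :=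
    fun z => (fun j => QuotientAddGroup.mk (z.1 j), fun t => chi M hM (z.2 t))
  -- the fibres
  have h1 : F.card ≤ ((5 ^ ρ) ^ q * (5 ^ ρ) ^ p) * (F.image Φ).card := by
    apply Finset.card_le_mul_card_image
    intro w _
    let S := F.filter (fun z => Φ z = w)
    change S.card ≤ _
    have h2 : S ⊆ (Fintype.piFinset (fun j => S.image (fun z => z.1 j))) ×ˢ
        (Fintype.piFinset (fun t => S.image (fun z => z.2 t))) := by
      intro z hz
      rw [Finset.mem_product, Fintype.mem_piFinset, Fintype.mem_piFinset]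
      exact ⟨fun j => Finset.mem_image_of_mem _ hz, fun t => Finset.mem_image_of_mem _ hz⟩
    refine le_trans (Finset.card_le_card h2) ?_
    rw [Finset.card_product, Fintype.card_piFinset, Fintype.card_piFinset]
    apply Nat.mul_le_mul
    · calc ∏ j, (S.image (fun z => z.1 j)).card ≤ ∏ _j : Fin q, 5 ^ ρ := by
            apply Finset.prod_le_prod'
            intro j _
            apply few_rows M hM (w.1 j)
            intro v hv
            obtain ⟨z, hz, rfl⟩ := Finset.mem_image.1 hv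
            have hz' := Finset.mem_filter.1 hz
            exact ⟨congrFun (congrArg Prod.fst hz'.2) j, (hF z hz'.1).1 j⟩
        _ = _ := by simp
    · calc ∏ t, (S.image (fun z => z.2 t)).card ≤ ∏ _t : Fin p, 5 ^ ρ := by
            apply Finset.prod_le_prod'
            intro t _
            apply few_cols M hM (w.2 t)
            intro v hv
            obtain ⟨z, hz, rfl⟩ := Finset.mem_image.1 hv
            have hz' := Finset.mem_filter.1 hz
            exact ⟨congrFun (congrArg Prod.snd hz'.2) t, (hF z hz'.1).2.1 t⟩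
        _ = _ := by simp
  -- the image
  have h3 : ((F.image Φ).card : ℝ) ≤ ∑ g : Fin q → G,
      ((Nat.card (G ⧸ AddSubgroup.closure (Set.range g)) : ℕ) : ℝ) ^ p := by
    rw [Finset.card_eq_sum_card_fiberwise (f := Prod.fst) (t := Finset.univ)
      (fun w _ => Finset.mem_coe.2 (Finset.mem_univ _))]
    push_cast
    apply Finset.sum_le_sum
    intro g _
    have h4 : ((F.image Φ).filter (fun w => w.1 = g)).card ≤
        (Nat.card (Ann (AddSubgroup.closure (Set.range g)))) ^ p := by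
      have hfa : Fintype (Ann (AddSubgroup.closure (Set.range g))) := Fintype.ofFinite _
      have h5 : (Nat.card (Ann (AddSubgroup.closure (Set.range g)))) ^ p =
          (Finset.univ : Finset (Fin p → Ann (AddSubgroup.closure (Set.range g)))).card := by
        rw [Finset.card_univ, Fintype.card_fun, Fintype.card_fin, Nat.card_eq_fintype_card]
      rw [h5]
      have h6 : ∀ w ∈ (F.image Φ).filter (fun w => w.1 = g), ∀ t, ∀ h ∈ AddSubgroup.closure (Set.range g),
          w.2 t h = 0 := by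
        intro w hw t h hh
        obtain ⟨hw1, hw2⟩ := Finset.mem_filter.1 hw
        obtain ⟨z, hz, rfl⟩ := Finset.mem_image.1 hw1
        have h7 : AddSubgroup.closure (Set.range g) ≤ (chi M hM (z.2 t)).ker := by
          rw [AddSubgroup.closure_le]
          rintro _ ⟨j, rfl⟩
          rw [← hw2]
          exact (chi_zero_iff M hM (z.2 t) (z.1 j)).2 ((hF z hz).2.2 j t)
        exact h7 hh
      apply Finset.card_le_card_of_injOn
        (fun w => if hw : w ∈ (F.image Φ).filter (fun w => w.1 = g) then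
          fun t => (⟨w.2 t, h6 w hw t⟩ : Ann (AddSubgroup.closure (Set.range g)))
          else fun _ => ⟨0, fun _ _ => rfl⟩)
      · intro w _; exact Finset.mem_coe.2 (Finset.mem_univ _)
      · intro w hw w' hw' h
        have hw0 := Finset.mem_coe.1 hw
        have hw0' := Finset.mem_coe.1 hw'
        simp only [dif_pos hw0, dif_pos hw0'] at h
        apply Prod.ext
        · rw [(Finset.mem_filter.1 hw0).2, (Finset.mem_filter.1 hw0').2]
        · funext t
          have := congrFun h t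
          exact congrArg Subtype.val this
    have h8 : (((F.image Φ).filter (fun w => w.1 = g)).card : ℝ) ≤
        ((Nat.card (Ann (AddSubgroup.closure (Set.range g))) : ℕ) : ℝ) ^ p := by exact_mod_cast h4
    refine le_trans h8 ?_
    have h9 : ((Nat.card (Ann (AddSubgroup.closure (Set.range g))) : ℕ) : ℝ) ≤
        ((Nat.card (G ⧸ AddSubgroup.closure (Set.range g)) : ℕ) : ℝ) := by
      exact_mod_cast card_ann _
    gcongr
  have h10 : ∑ g : Fin q → G, ((Nat.card (G ⧸ AddSubgroup.closure (Set.range g)) : ℕ) : ℝ) ^ p =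
      (M.det.natAbs : ℝ) ^ p * T q p (⊥ : AddSubgroup G) := by
    rw [T, Finset.mul_sum]
    apply Finset.sum_congr rfl
    intro g _
    rw [← mul_pow, bot_sup_eq]
    congr 1
    have h11 : Nat.card (AddSubgroup.closure (Set.range g)) *
        (AddSubgroup.closure (Set.range g)).index = Nat.card G := AddSubgroup.card_mul_index _
    have h12 : (0 : ℝ) < Nat.card (AddSubgroup.closure (Set.range g)) := by exact_mod_cast Nat.card_pos
    have h13 : (Nat.card (AddSubgroup.closure (Set.range g)) : ℝ) *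
        (Nat.card (G ⧸ AddSubgroup.closure (Set.range g)) : ℝ) = (M.det.natAbs : ℝ) := by
      rw [← hcard]; exact_mod_cast h11
    rw [← h13]
    field_simp
  have h14 := T_le hgen q p hqp (⊥ : AddSubgroup G)
  have h15 : Nat.card (⊥ : AddSubgroup G) = 1 := by simp
  rw [h15] at h14
  simp only [Nat.cast_one, inv_one, one_pow, mul_one] at h14
  have h16 : ((F.image Φ).card : ℝ) ≤ ((2 ^ q * M.det.natAbs ^ p : ℕ) : ℝ) := by
    rw [h10] at h3
    push_cast
    calc ((F.image Φ).card : ℝ) ≤ (M.det.natAbs : ℝ) ^ p * T q p (⊥ : AddSubgroup G) := h3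
      _ ≤ (M.det.natAbs : ℝ) ^ p * 2 ^ q := by gcongr
      _ = _ := by ring
  have h17 : (F.image Φ).card ≤ 2 ^ q * M.det.natAbs ^ p := by exact_mod_cast h16
  calc F.card ≤ ((5 ^ ρ) ^ q * (5 ^ ρ) ^ p) * (F.image Φ).card := h1
    _ ≤ ((5 ^ ρ) ^ q * (5 ^ ρ) ^ p) * (2 ^ q * M.det.natAbs ^ p) := Nat.mul_le_mul_left _ h17
    _ = _ := by ring

end Pool.Agent.Helper73.BL.K

namespace Pool.Agent.Helper73.BL

/-- module K: counting borderings -/
theorem s_k : S_K := by
  intro ρ q p hqp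
  refine ⟨((5 ^ ρ) ^ q * (5 ^ ρ) ^ p) * 2 ^ q, ?_⟩
  intro M hM F hF
  exact K.count q p hqp M hM F hF

end Pool.Agent.Helper73.BL
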