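import Pool.Agent.Helper73.BL.D
import Pool.Agent.Helper73.BL.B34
import Pool.Agent.Helper73.BL.K
import Pool.Agent.Helper73.BL.A2
import Pool.Agent.Helper73.BL.F12
import Pool.Agent.Helper73.BL.F2M
import Pool.Agent.Helper73.BL.F3
import Pool.Agent.Helper73.BL.F5
import Pool.Agent.Helper73.BL.F6
import Pool.Agent.Helper73.BL.G3
import Pool.Agent.Helper73.BL.G4
import Pool.Agent.Helper73.BL.FIN
import Pool.Agent.Helper73.BL.FIN2

set_option autoImplicit false

/-!
# Barnes zeta functions in large dimension: assembly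
-/

namespace Pool.Agent.Helper73.BL

theorem main_point : S_FIN :=
  s_fin (s_f (s_m s_d) (s_cl2 s_b3 (s_b4 s_k) s_a2) s_f2 s_f3) s_g3

theorem main_moment : S_FIN3 :=
  s_fin3 (s_fm (s_m s_d) (s_cl2 s_b3 (s_b4 s_k) s_a2) s_f2m s_f3) s_g4

end Pool.Agent.Helper73.BL
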