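import Mathlib
import Pool.Graph.R_pool_sql_team_seeded_1acbe0a2.Y616.BM.Lin3

set_option autoImplicit false

/-!
# Barnes zeta functions in large dimension: definitions and statements of the modules
-/

namespace Pool.Agent.Helper73.BL

open MeasureTheory Metric

/-- the linear form `a + n · v` -/
noncomputable def lam {d : ℕ} (a : ℝ) (n : Fin d → ℤ) (v : Fin d → ℝ) : ℝ :=
  a + ∑ j, (n j : ℝ) * v j

/-- the signs -/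
noncomputable def sg {k : ℕ} (i : Fin k ⊕ Fin k) : ℝ := Sum.elim (fun _ => (1 : ℝ)) (fun _ => -1) i

/-- the `j`-th component of the gradient of `∑ ± log (a + n i · v)` -/
noncomputable def grad {d k : ℕ} (a : ℝ) (n : Fin k ⊕ Fin k → Fin d → ℤ) (v : Fin d → ℝ)
    (j : Fin d) : ℝ :=
  ∑ i, sg i * (n i j : ℝ) / lam a (n i) v

/-- the set where the gradient is at most `δ` -/
def E {d k : ℕ} (K : Set (Fin d → ℝ)) (a : ℝ) (n : Fin k ⊕ Fin k → Fin d → ℤ) (δ : ℝ) :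
    Set (Fin d → ℝ) :=
  {v | v ∈ K ∧ ∀ j, |grad a n v j| ≤ δ}

/-- `n` is an integral vector of size at most `N` and `a + n · v ≥ c N` on `K` -/
def Adm {d : ℕ} (K : Set (Fin d → ℝ)) (c : ℝ) (N : ℕ) (a : ℝ) (n : Fin d → ℤ) : Prop :=
  (∀ j, |n j| ≤ (N : ℤ)) ∧ ∀ v ∈ K, c * N ≤ lam a n v

/-- `b`, `τ` give a nonsingular minor of the matrix `n` and all bordered minors vanish -/
def Typ {d k ρ : ℕ} (b : Fin ρ → Fin k ⊕ Fin k) (τ : Fin ρ → Fin d)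
    (n : Fin k ⊕ Fin k → Fin d → ℤ) : Prop :=
  (Matrix.of fun x y => n (b x) (τ y)).det ≠ 0 ∧
  ∀ i t, (Matrix.fromBlocks (Matrix.of fun x y => n (b x) (τ y))
    (Matrix.of fun x (_ : Unit) => n (b x) t) (Matrix.of fun (_ : Unit) y => n i (τ y))
    (Matrix.of fun (_ : Unit) (_ : Unit) => n i t)).det = 0

/-- a normalised term of the Dirichlet series -/
noncomputable def term {d : ℕ} (s : ℂ) (a : ℝ) (N : ℕ) (n : Fin d → ℤ) (v : Fin d → ℝ) : ℂ :=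
  ((lam a n v / N : ℝ) : ℂ) ^ (-s)

/-- `s` for the first `k` places and its conjugate for the others -/
noncomputable def sgs {k : ℕ} (s : ℂ) (i : Fin k ⊕ Fin k) : ℂ :=
  Sum.elim (fun _ => s) (fun _ => (starRingEnd ℂ) s) i

/-- the part `m ∈ [0, 2^i)^r` of the Dirichlet series -/
noncomputable def boxSum (r : ℕ) (a : ℝ) (w : Fin r → ℝ) (i : ℕ) (s : ℂ) : ℂ :=
  ∑ m ∈ Fintype.piFinset (fun _ : Fin r => Finset.range (2 ^ i)),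
    ((a + ∑ j, (m j : ℝ) * w j : ℝ) : ℂ) ^ (-s)

/-- module A: the measure of `E` from a nonsingular minor -/
def S_A : Prop :=
  ∀ (d k ρ : ℕ) (v₀ : Fin d → ℝ) (ϱ c A : ℝ), 0 < ϱ → 0 < c → 1 ≤ A → ρ ≤ 2 * k →
    ∃ C : ℝ, 0 < C ∧ ∀ (N : ℕ) (a : ℝ) (n : Fin k ⊕ Fin k → Fin d → ℤ)
      (b : Fin ρ → Fin k ⊕ Fin k) (τ : Fin ρ → Fin d) (δ : ℝ), 1 ≤ N → 1 / A ≤ a → a ≤ A →
      (∀ i, Adm (closedBall v₀ ϱ) c N a (n i)) → Function.Injective b → Function.Injective τ →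
      (Matrix.of fun x y => n (b x) (τ y)).det ≠ 0 → 0 < δ → δ ≤ 1 →
      (volume (E (closedBall v₀ ϱ) a n δ)).toReal * δ ^ (2 * k - ρ) ≤
        C * (N : ℝ) ^ (ρ * (ρ + 2)) * δ ^ ρ

/-- module B: existence of a maximal minor -/
def S_B1 : Prop :=
  ∀ (d k : ℕ) (n : Fin k ⊕ Fin k → Fin d → ℤ), ∃ ρ : ℕ, ρ ≤ 2 * k ∧
    ∃ (b : Fin ρ → Fin k ⊕ Fin k) (τ : Fin ρ → Fin d), Function.Injective b ∧
      Function.Injective τ ∧ Typ b τ n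

/-- module B: the number of the tuples with a given maximal minor -/
def S_B2 : Prop :=
  ∀ (d k ρ N : ℕ) (S : Finset (Fin d → ℤ)) (b : Fin ρ → Fin k ⊕ Fin k) (τ : Fin ρ → Fin d)
    (T : Finset (Fin k ⊕ Fin k → Fin d → ℤ)),
    (∀ n ∈ S, ∀ j, |n j| ≤ (N : ℤ)) → Function.Injective b → Function.Injective τ →
    (∀ n ∈ T, (∀ i, n i ∈ S) ∧ Typ b τ n) → T.card ≤ (2 * N + 1) ^ (d * ρ + 2 * k * ρ)

/-- module C: the measure of `E` for tuples which are not diagonal -/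
def S_C : Prop :=
  ∀ (d k : ℕ) (v₀ : Fin d → ℝ) (ϱ c A : ℝ), 1 ≤ k → 0 < ϱ → 0 < c → 1 ≤ A →
    ∃ C : ℝ, 0 < C ∧ ∀ (N : ℕ) (a : ℝ) (n : Fin k ⊕ Fin k → Fin d → ℤ) (δ η τ : ℝ), 1 ≤ N →
      1 / A ≤ a → a ≤ A → (∀ i, Adm (closedBall v₀ ϱ) c N a (n i)) →
      (¬ ∃ π : Equiv.Perm (Fin k), ∀ i, n (Sum.inr i) = n (Sum.inl (π i))) →
      0 < δ → 0 < η → η ≤ 1 / A → 0 < τ → τ ≤ 1 / 2 →
      C * (N : ℝ) ^ (4 * k) * δ ≤ τ ^ (2 * k) * η ^ (2 * k) →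
      (volume (E (closedBall v₀ ϱ) a n δ)).toReal ≤ C * (η + N * τ)

/-- module D: the local Gaussian average of one product is tiny if the gradient is not small -/
def S_D : Prop :=
  ∀ (d k : ℕ) (v₀ : Fin d → ℝ) (ϱ c A H ε : ℝ), 0 < ϱ → 0 < c → 1 ≤ A → 0 < ε → ε ≤ 1 / 8 →
    ∃ C t₀ : ℝ, 0 < C ∧ 1 ≤ t₀ ∧ ∀ (N : ℕ) (a : ℝ) (n : Fin k ⊕ Fin k → Fin d → ℤ) (s : ℂ)
      (v : Fin d → ℝ), 1 ≤ N → 1 / A ≤ a → a ≤ A →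
      (∀ i, Adm (closedBall v₀ (2 * ϱ)) c N a (n i)) → |s.re| ≤ H → t₀ ≤ s.im →
      v ∈ closedBall v₀ ϱ → (∃ j, s.im ^ (-(1 / 2) + 2 * ε) < |grad a n v j|) →
      ‖∫ ω in closedBall (0 : Fin d → ℝ) (s.im ^ (-(1 / 2) + ε)),
        (∏ i, term (sgs s i) a N (n i) (v + ω)) *
          (Real.exp (-(s.im * ∑ j, ω j ^ 2 / 2)) : ℂ)‖ ≤ C * Real.exp (-s.im ^ ε)

open Pool.Agent.H131R5.BZ Pool.Agent.Y930.Bz in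
/-- module G: from bounds for the box sums and on one line on the left to the bound on the strip -/
def S_G : Prop :=
  ∀ (r : ℕ) (a : ℝ) (w : Fin r → ℝ) (c : ℕ → ℂ), 1 ≤ r → 0 < a → (∀ j, 0 < w j) → Tay a w c →
    (∀ κ : ℝ, 0 < κ → κ ≤ 1 / 4 → ∃ C : ℝ, 0 ≤ C ∧ ∀ y : ℝ, 1 ≤ y →
      ‖FF a w c ((κ : ℂ) + y * Complex.I)‖ ≤ C * y ^ (1 / 2 + κ)) →
    ∀ η θ : ℝ, 0 < η → 0 < θ → θ ≤ 1 → 1 - 2 * η ≤ θ * r →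
      (∃ C : ℝ, 0 ≤ C ∧ ∀ (i : ℕ) (σ t : ℝ), (2 : ℝ) ^ i ≤ t ^ θ → 0 ≤ σ → σ ≤ r + 1 → 1 ≤ t →
        ‖boxSum r a w i ((σ : ℂ) + t * Complex.I)‖ ≤
          C * t ^ η * ((2 : ℝ) ^ i) ^ (max 0 ((r : ℝ) / 2 - σ))) →
      ∀ σ₁ : ℝ, ∃ C : ℝ, 0 ≤ C ∧ ∀ σ t : ℝ, (r : ℝ) / 2 ≤ σ → σ ≤ σ₁ → 2 ≤ t →
        ‖FF a w c ((σ : ℂ) + t * Complex.I)‖ ≤ C * t ^ (3 * η)

open Pool.Agent.H131R5.BZ Pool.Agent.Y930.Bz in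
/-- module G, sharp form: the exponent `ν` is any number larger than `η` and `(1 - θ r) / 2` -/
def S_G2 : Prop :=
  ∀ (r : ℕ) (a : ℝ) (w : Fin r → ℝ) (c : ℕ → ℂ), 1 ≤ r → 0 < a → (∀ j, 0 < w j) → Tay a w c →
    (∀ κ : ℝ, 0 < κ → κ ≤ 1 / 4 → ∃ C : ℝ, 0 ≤ C ∧ ∀ y : ℝ, 1 ≤ y →
      ‖FF a w c ((κ : ℂ) + y * Complex.I)‖ ≤ C * y ^ (1 / 2 + κ)) →
    ∀ η θ : ℝ, 0 ≤ η → 0 < θ → θ ≤ 1 →
      (∃ C : ℝ, 0 ≤ C ∧ ∀ (i : ℕ) (σ t : ℝ), (2 : ℝ) ^ i ≤ t ^ θ → 0 ≤ σ → σ ≤ r + 1 → 1 ≤ t →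
        ‖boxSum r a w i ((σ : ℂ) + t * Complex.I)‖ ≤
          C * t ^ η * ((2 : ℝ) ^ i) ^ (max 0 ((r : ℝ) / 2 - σ))) →
      ∀ ν : ℝ, η < ν → (1 - θ * r) / 2 < ν →
      ∀ σ₁ : ℝ, ∃ C : ℝ, 0 ≤ C ∧ ∀ σ t : ℝ, (r : ℝ) / 2 ≤ σ → σ ≤ σ₁ → 2 ≤ t →
        ‖FF a w c ((σ : ℂ) + t * Complex.I)‖ ≤ C * t ^ ν

end Pool.Agent.Helper73.BL
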