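import Mathlib
import Pool.Agent.Helper73.BL.Stm

set_option autoImplicit false

/-!
# Module D: the local Gaussian average (one contour shift)
-/

namespace Pool.Agent.Helper73.BL.ModD

open MeasureTheory Metric

/-- the contour shift on a rectangle -/
theorem rect (G : ℂ → ℂ) (R y₁ M₁ M₂ : ℝ) (hR : 0 ≤ R)
    (hG : DifferentiableOn ℂ G {z | |z.re| ≤ R ∧ |z.im| ≤ |y₁|})
    (h1 : ∀ x : ℝ, |x| ≤ R → ‖G (x + y₁ * Complex.I)‖ ≤ M₁)
    (h2 : ∀ x y : ℝ, |x| = R → |y| ≤ |y₁| → 0 ≤ y * y₁ → ‖G (x + y * Complex.I)‖ ≤ M₂) :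
    ‖∫ x in (-R)..R, G (x : ℂ)‖ ≤ 2 * R * M₁ + 2 * |y₁| * M₂ := by
  have hab : ∀ u v x : ℝ, x ∈ Set.uIcc u v → |u| ≤ |v| → (u = 0 ∨ u = -v) → |x| ≤ |v| := by
    intro u v x hx huv h
    rcases h with rfl | rfl
    · rcases le_total 0 v with hv | hv
      · rw [Set.uIcc_of_le hv] at hx
        rw [abs_of_nonneg hx.1, abs_of_nonneg hv]; exact hx.2
      · rw [Set.uIcc_of_ge hv] at hx
        rw [abs_of_nonpos hx.2, abs_of_nonpos hv]; linarith [hx.1]
    · rcases le_total 0 v with hv | hv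
      · rw [Set.uIcc_of_le (by linarith)] at hx
        rw [abs_of_nonneg hv]; exact abs_le.2 hx
      · rw [Set.uIcc_of_ge (by linarith)] at hx
        rw [abs_of_nonpos hv]; exact abs_le.2 ⟨by linarith [hx.1], hx.2⟩
  have key := Complex.integral_boundary_rect_eq_zero_of_differentiableOn G
    ((-R : ℝ) : ℂ) ((R : ℂ) + y₁ * Complex.I) ?_
  · simp only [Complex.ofReal_re, Complex.ofReal_im, Complex.add_re, Complex.mul_re,
      Complex.I_re, mul_zero, Complex.I_im, zero_mul, sub_zero, add_zero,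
      Complex.add_im, Complex.mul_im, mul_one, zero_add, Complex.ofReal_zero] at key
    have e0 : (∫ x in (-R)..R, G (x : ℂ)) = (∫ x in (-R)..R, G ((x : ℂ) + y₁ * Complex.I))
        - Complex.I • (∫ y in (0 : ℝ)..y₁, G ((R : ℂ) + y * Complex.I))
        + Complex.I • (∫ y in (0 : ℝ)..y₁, G (((-R : ℝ) : ℂ) + y * Complex.I)) := by
      linear_combination key
    rw [e0]
    have b1 : ‖∫ x in (-R)..R, G ((x : ℂ) + y₁ * Complex.I)‖ ≤ M₁ * |R - -R| := by
      apply intervalIntegral.norm_integral_le_of_norm_le_const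
      intro x hx
      apply h1
      have := hab (-R) R x (Set.uIoc_subset_uIcc hx) (by rw [abs_neg]) (Or.inr rfl)
      rwa [abs_of_nonneg hR] at this
    have hy : ∀ y ∈ Set.uIoc (0 : ℝ) y₁, |y| ≤ |y₁| ∧ 0 ≤ y * y₁ := by
      intro y hy
      refine ⟨hab 0 y₁ y (Set.uIoc_subset_uIcc hy) (by simp) (Or.inl rfl), ?_⟩
      have hy' := Set.uIoc_subset_uIcc hy
      rcases le_total 0 y₁ with hv | hv
      · rw [Set.uIcc_of_le hv] at hy'
        exact mul_nonneg hy'.1 hv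
      · rw [Set.uIcc_of_ge hv] at hy'
        exact mul_nonneg_of_nonpos_of_nonpos hy'.2 hv
    have b2 : ‖∫ y in (0 : ℝ)..y₁, G ((R : ℂ) + y * Complex.I)‖ ≤ M₂ * |y₁ - 0| := by
      apply intervalIntegral.norm_integral_le_of_norm_le_const
      intro y hy'
      exact h2 R y (abs_of_nonneg hR) (hy y hy').1 (hy y hy').2
    have b3 : ‖∫ y in (0 : ℝ)..y₁, G (((-R : ℝ) : ℂ) + y * Complex.I)‖ ≤ M₂ * |y₁ - 0| := by
      apply intervalIntegral.norm_integral_le_of_norm_le_const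
      intro y hy'
      exact h2 (-R) y (by rw [abs_neg, abs_of_nonneg hR]) (hy y hy').1 (hy y hy').2
    have b1' : |R - -R| = 2 * R := by rw [sub_neg_eq_add, abs_of_nonneg (by linarith)]; ring
    rw [b1'] at b1
    rw [sub_zero] at b2 b3
    calc ‖(∫ x in (-R)..R, G ((x : ℂ) + y₁ * Complex.I))
        - Complex.I • (∫ y in (0 : ℝ)..y₁, G ((R : ℂ) + y * Complex.I))
        + Complex.I • (∫ y in (0 : ℝ)..y₁, G (((-R : ℝ) : ℂ) + y * Complex.I))‖ 
        ≤ ‖∫ x in (-R)..R, G ((x : ℂ) + y₁ * Complex.I)‖ 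
          + ‖Complex.I • (∫ y in (0 : ℝ)..y₁, G ((R : ℂ) + y * Complex.I))‖
          + ‖Complex.I • (∫ y in (0 : ℝ)..y₁, G (((-R : ℝ) : ℂ) + y * Complex.I))‖ := by
          refine (norm_add_le _ _).trans (add_le_add (norm_sub_le _ _) le_rfl)
      _ ≤ 2 * R * M₁ + 2 * |y₁| * M₂ := by
          rw [norm_smul, norm_smul, Complex.norm_I, one_mul, one_mul]
          linarith
  · refine hG.mono ?_
    rintro z ⟨hz1, hz2⟩
    simp only [Set.mem_preimage, Complex.ofReal_re, Complex.ofReal_im, Complex.add_re,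
      Complex.mul_re, Complex.I_re, mul_zero, Complex.I_im, sub_zero, add_zero,
      Complex.add_im, Complex.mul_im, mul_one, zero_add] at hz1 hz2
    refine ⟨?_, hab 0 y₁ _ hz2 (by simp) (Or.inl rfl)⟩
    have := hab (-R) R _ hz1 (by rw [abs_neg]) (Or.inr rfl)
    rwa [abs_of_nonneg hR] at this

theorem rpow_bd {W B H σ : ℝ} (hB : 1 ≤ B) (h1 : 1 / B ≤ W) (h2 : W ≤ B) (hσ : |σ| ≤ H) :
    W ^ (-σ) ≤ B ^ H := by
  have hB0 : 0 < B := by linarith
  have hW : 0 < W := lt_of_lt_of_le (by positivity) h1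
  rw [Real.rpow_def_of_pos hW, Real.rpow_def_of_pos hB0]
  apply Real.exp_le_exp.2
  have hl : |Real.log W| ≤ Real.log B := by
    rw [abs_le]
    constructor
    · rw [← Real.log_inv, ← one_div]
      exact Real.log_le_log (by positivity) h1
    · exact Real.log_le_log hW h2
  have hlB : 0 ≤ Real.log B := Real.log_nonneg hB
  calc Real.log W * -σ ≤ |Real.log W * -σ| := le_abs_self _
    _ = |Real.log W| * |σ| := by rw [abs_mul, abs_neg]
    _ ≤ Real.log B * H := mul_le_mul hl hσ (abs_nonneg _) hlB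

theorem arg_bd {q : ℝ} (hq : |q| ≤ 1 / 2) : |Complex.arg (1 + q * Complex.I) - q| ≤ q ^ 2 := by
  have hn : ‖(q : ℂ) * Complex.I‖ = |q| := by
    rw [norm_mul, Complex.norm_I, mul_one, Complex.norm_real, Real.norm_eq_abs]
  have h := Complex.norm_log_one_add_sub_self_le (z := (q : ℂ) * Complex.I) (by rw [hn]; linarith)
  have h2 : |(Complex.log (1 + q * Complex.I) - q * Complex.I).im| ≤
      ‖Complex.log (1 + q * Complex.I) - q * Complex.I‖ := Complex.abs_im_le_norm _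
  rw [Complex.sub_im, Complex.log_im] at h2
  simp only [Complex.mul_im, Complex.ofReal_re, Complex.I_im, mul_one, Complex.ofReal_im,
    Complex.I_re, mul_zero, add_zero] at h2
  rw [hn, sq_abs] at h
  refine h2.trans (h.trans ?_)
  have h3 : (1 - |q|)⁻¹ ≤ 2 := by
    rw [inv_le_comm₀ (by linarith [abs_nonneg q]) (by norm_num)]
    linarith
  nlinarith [sq_nonneg q]

theorem T1 {l m N y c B H : ℝ} {s : ℂ} (hN : 1 ≤ N) (hc : 0 < c) (hl : c * N ≤ l)
    (hlB : l ≤ (B - 1) * N) (hm : |m| ≤ N) (hy : |y| ≤ c / 2) (hy1 : |y| ≤ 1) (hB : 1 ≤ B)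
    (hcB : 1 / B ≤ c) (hσ : |s.re| ≤ H) :
    ‖(((l : ℂ) + m * (y * Complex.I)) / N) ^ (-s)‖ ≤
      B ^ H * Real.exp (s.im * (m * y / l)) * Real.exp (|s.im| * (y ^ 2 / c ^ 2)) := by
  have hN0 : 0 < N := by linarith
  have hl0 : 0 < l := lt_of_lt_of_le (by positivity) hl
  set q : ℝ := m * y / l with hq
  have hqy : |q| ≤ |y| / c := by
    rw [hq, abs_div, abs_mul, abs_of_pos hl0, div_le_div_iff₀ hl0 hc]
    calc |m| * |y| * c ≤ N * |y| * c := by
          apply mul_le_mul_of_nonneg_right _ hc.le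
          exact mul_le_mul_of_nonneg_right hm (abs_nonneg _)
      _ = |y| * (c * N) := by ring
      _ ≤ |y| * l := mul_le_mul_of_nonneg_left hl (abs_nonneg _)
  have hq2 : |q| ≤ 1 / 2 := by
    refine hqy.trans ?_
    rw [div_le_iff₀ hc]; linarith
  have hW : ((l : ℂ) + m * (y * Complex.I)) / N = ((l / N : ℝ) : ℂ) * (1 + q * Complex.I) := by
    have h1 : (l : ℂ) ≠ 0 := by exact_mod_cast hl0.ne'
    have h2 : (N : ℂ) ≠ 0 := by exact_mod_cast hN0.ne'
    rw [hq]; push_cast; field_simp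
  have hne : ((l / N : ℝ) : ℂ) * (1 + q * Complex.I) ≠ 0 := by
    intro h
    have := congrArg Complex.re h
    simp at this
    rcases this with h | h <;> linarith
  have hlN : c ≤ l / N := by rw [le_div_iff₀ hN0]; exact hl
  have hlN2 : l / N ≤ B - 1 := by rw [div_le_iff₀ hN0]; exact hlB
  have hn1 : l / N ≤ ‖((l / N : ℝ) : ℂ) * (1 + q * Complex.I)‖ := by
    refine le_trans ?_ (Complex.re_le_norm _)
    simp
  have hn2 : ‖((l / N : ℝ) : ℂ) * (1 + q * Complex.I)‖ ≤ B := by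
    have e : ((l / N : ℝ) : ℂ) * (1 + q * Complex.I) =
        ((l / N : ℝ) : ℂ) + ((m * y / N : ℝ) : ℂ) * Complex.I := by
      have h1 : (l : ℂ) ≠ 0 := by exact_mod_cast hl0.ne'
      have h2 : (N : ℂ) ≠ 0 := by exact_mod_cast hN0.ne'
      rw [hq]; push_cast; field_simp
    rw [e]
    refine (norm_add_le _ _).trans ?_
    rw [norm_mul, Complex.norm_I, mul_one, Complex.norm_real, Complex.norm_real,
      Real.norm_eq_abs, Real.norm_eq_abs, abs_of_pos (by positivity)]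
    have : |m * y / N| ≤ 1 := by
      rw [abs_div, abs_mul, abs_of_pos hN0, div_le_one hN0]
      calc |m| * |y| ≤ N * 1 := mul_le_mul hm hy1 (abs_nonneg _) hN0.le
        _ = N := mul_one _
    linarith
  rw [hW, Complex.norm_cpow_of_ne_zero hne, Complex.arg_real_mul _ (by positivity)]
  rw [div_eq_mul_inv, ← Real.exp_neg, Complex.neg_re, Complex.neg_im, mul_assoc (B ^ H),
    ← Real.exp_add]
  refine mul_le_mul ?_ ?_ (Real.exp_pos _).le (Real.rpow_nonneg (by linarith) _)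
  · exact rpow_bd hB ((hcB.trans hlN).trans hn1) hn2 hσ
  · apply Real.exp_le_exp.2
    have ha := arg_bd hq2
    have hqq : q ^ 2 ≤ y ^ 2 / c ^ 2 := by
      have e1 : |y / c| = |y| / c := by rw [abs_div, abs_of_pos hc]
      rw [← div_pow, ← sq_abs q, ← sq_abs (y / c), e1]
      exact pow_le_pow_left₀ (abs_nonneg _) hqy 2
    have h3 : s.im * (Complex.arg (1 + q * Complex.I) - q) ≤ |s.im| * (y ^ 2 / c ^ 2) := by
      calc s.im * (Complex.arg (1 + q * Complex.I) - q)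
          ≤ |s.im * (Complex.arg (1 + q * Complex.I) - q)| := le_abs_self _
        _ = |s.im| * |Complex.arg (1 + q * Complex.I) - q| := abs_mul _ _
        _ ≤ |s.im| * (y ^ 2 / c ^ 2) :=
          mul_le_mul_of_nonneg_left (ha.trans hqq) (abs_nonneg _)
    linarith


theorem sgs_re {k : ℕ} (s : ℂ) (i : Fin k ⊕ Fin k) : (sgs s i).re = s.re := by
  rcases i with i | i <;> simp [sgs]

theorem sgs_im {k : ℕ} (s : ℂ) (i : Fin k ⊕ Fin k) : (sgs s i).im = sg i * s.im := by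
  rcases i with i | i <;> simp [sgs, sg]

theorem sg_abs {k : ℕ} (i : Fin k ⊕ Fin k) : |(sg i : ℝ)| = 1 := by
  rcases i with i | i <;> simp [sg]

/-- the bound for the product of the powers -/
theorem T2 {d k : ℕ} {N : ℕ} {a c B H y : ℝ} {s : ℂ} (j : Fin d)
    (n : Fin k ⊕ Fin k → Fin d → ℤ) (V : Fin d → ℝ) (hN : 1 ≤ N) (hc : 0 < c)
    (hn : ∀ i j, |n i j| ≤ (N : ℤ)) (hl : ∀ i, c * N ≤ lam a (n i) V)
    (hlB : ∀ i, lam a (n i) V ≤ (B - 1) * N) (hy : |y| ≤ c / 2) (hy1 : |y| ≤ 1) (hB : 1 ≤ B)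
    (hcB : 1 / B ≤ c) (hσ : |s.re| ≤ H) (ht : 0 ≤ s.im) :
    ‖∏ i, (((lam a (n i) V : ℂ) + (n i j : ℝ) * (y * Complex.I)) / N) ^ (-(sgs s i))‖ ≤
      (B ^ H) ^ (2 * k) * Real.exp (s.im * (y * grad a n V j)) *
        Real.exp (2 * k * (s.im * (y ^ 2 / c ^ 2))) := by
  rw [norm_prod]
  have hN' : (1 : ℝ) ≤ N := by exact_mod_cast hN
  have h1 : ∀ i ∈ (Finset.univ : Finset (Fin k ⊕ Fin k)),
      ‖(((lam a (n i) V : ℂ) + (n i j : ℝ) * (y * Complex.I)) / N) ^ (-(sgs s i))‖ ≤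
      B ^ H * Real.exp (s.im * (y * (sg i * (n i j : ℝ) / lam a (n i) V))) *
        Real.exp (s.im * (y ^ 2 / c ^ 2)) := by
    intro i _
    have h := T1 (l := lam a (n i) V) (m := (n i j : ℝ)) (N := N) (y := y) (s := sgs s i)
      (H := H) (B := B) hN' hc
      (hl i) (hlB i) (by exact_mod_cast hn i j) hy hy1 hB hcB (by rw [sgs_re]; exact hσ)
    rw [sgs_im, abs_mul, sg_abs, one_mul, abs_of_nonneg ht] at h
    have e : sg i * s.im * ((n i j : ℝ) * y / lam a (n i) V) =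
        s.im * (y * (sg i * (n i j : ℝ) / lam a (n i) V)) := by ring
    rw [e] at h
    exact_mod_cast h
  refine (Finset.prod_le_prod (fun i _ => norm_nonneg _) h1).trans (le_of_eq ?_)
  rw [Finset.prod_mul_distrib, Finset.prod_mul_distrib, Finset.prod_const, ← Real.exp_sum,
    Finset.prod_const]
  have hcard : (Finset.univ : Finset (Fin k ⊕ Fin k)).card = 2 * k := by
    simp [two_mul]
  rw [hcard, ← Real.exp_nat_mul, grad, Finset.mul_sum, Finset.mul_sum]
  push_cast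
  ring_nf

/-- the gradient is Lipschitz -/
theorem gradLip {d k : ℕ} {N : ℕ} {a c R : ℝ} (j : Fin d)
    (n : Fin k ⊕ Fin k → Fin d → ℤ) (v V : Fin d → ℝ) (hN : 1 ≤ N) (hc : 0 < c)
    (hn : ∀ i j, |n i j| ≤ (N : ℤ)) (hl : ∀ i, c * N ≤ lam a (n i) V)
    (hl' : ∀ i, c * N ≤ lam a (n i) v) (hV : ∀ i, |V i - v i| ≤ R) :
    |grad a n V j - grad a n v j| ≤ 2 * k * (d * R / c ^ 2) := by
  have hN' : (1 : ℝ) ≤ N := by exact_mod_cast hN
  have hN0 : (0 : ℝ) < N := by linarith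
  rw [grad, grad, ← Finset.sum_sub_distrib]
  refine (Finset.abs_sum_le_sum_abs _ _).trans ?_
  have h1 : ∀ i ∈ (Finset.univ : Finset (Fin k ⊕ Fin k)),
      |sg i * (n i j : ℝ) / lam a (n i) V - sg i * (n i j : ℝ) / lam a (n i) v| ≤
        d * R / c ^ 2 := by
    intro i _
    have p1 : 0 < lam a (n i) V := lt_of_lt_of_le (by positivity) (hl i)
    have p2 : 0 < lam a (n i) v := lt_of_lt_of_le (by positivity) (hl' i)
    have hnij : |(n i j : ℝ)| ≤ N := by exact_mod_cast hn i j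
    have hd : |lam a (n i) v - lam a (n i) V| ≤ d * (N * R) := by
      have e : lam a (n i) v - lam a (n i) V = ∑ j, (n i j : ℝ) * (v j - V j) := by
        simp only [lam, mul_sub, Finset.sum_sub_distrib]; ring
      rw [e]
      refine (Finset.abs_sum_le_sum_abs _ _).trans ?_
      have : ∀ j ∈ (Finset.univ : Finset (Fin d)), |(n i j : ℝ) * (v j - V j)| ≤ N * R := by
        intro j _
        rw [abs_mul, abs_sub_comm]
        exact mul_le_mul (by exact_mod_cast hn i j) (hV j) (abs_nonneg _) hN0.le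
      refine (Finset.sum_le_sum this).trans (le_of_eq ?_)
      simp
    have e : sg i * (n i j : ℝ) / lam a (n i) V - sg i * (n i j : ℝ) / lam a (n i) v =
        sg i * ((n i j : ℝ) * ((lam a (n i) v - lam a (n i) V) /
          (lam a (n i) V * lam a (n i) v))) := by
      field_simp
    rw [e, abs_mul, sg_abs, one_mul, abs_mul, abs_div, abs_mul, abs_of_pos p1, abs_of_pos p2]
    have h2 : |lam a (n i) v - lam a (n i) V| / (lam a (n i) V * lam a (n i) v) ≤
        d * (N * R) / ((c * N) * (c * N)) := by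
      apply div_le_div₀ ((abs_nonneg _).trans hd) hd (by positivity)
      exact mul_le_mul (hl i) (hl' i) (by positivity) p1.le
    calc |(n i j : ℝ)| * (|lam a (n i) v - lam a (n i) V| / (lam a (n i) V * lam a (n i) v))
        ≤ N * (d * (N * R) / ((c * N) * (c * N))) :=
          mul_le_mul hnij h2 (by positivity) hN0.le
      _ = d * R / c ^ 2 := by field_simp
  refine (Finset.sum_le_sum h1).trans (le_of_eq ?_)
  simp [two_mul]


/-- the integrand -/
noncomputable def FF {d k : ℕ} (s : ℂ) (a : ℝ) (N : ℕ) (n : Fin k ⊕ Fin k → Fin d → ℤ)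
    (v ω : Fin d → ℝ) : ℂ :=
  (∏ i, term (sgs s i) a N (n i) (v + ω)) *
    (Real.exp (-(s.im * ∑ j, ω j ^ 2 / 2)) : ℂ)

theorem lam_ins {m : ℕ} (a : ℝ) (n : Fin (m + 1) → ℤ) (v : Fin (m + 1) → ℝ) (j : Fin (m + 1))
    (x : ℝ) (x' : Fin m → ℝ) :
    lam a n (v + j.insertNth (α := fun _ => ℝ) x x') =
      lam a n (v + j.insertNth (α := fun _ => ℝ) 0 x') + (n j : ℝ) * x := by
  simp only [lam, Pi.add_apply, mul_add, Finset.sum_add_distrib]
  rw [Fin.sum_univ_succAbove (fun i => (n i : ℝ) * j.insertNth (α := fun _ => ℝ) x x' i) j,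
    Fin.sum_univ_succAbove (fun i => (n i : ℝ) * j.insertNth (α := fun _ => ℝ) 0 x' i) j]
  simp only [Fin.insertNth_apply_same, Fin.insertNth_apply_succAbove]
  ring

theorem ins_mem {m : ℕ} (j : Fin (m + 1)) (v v₀ : Fin (m + 1) → ℝ) (x R ϱ : ℝ) (x' : Fin m → ℝ)
    (hv : v ∈ closedBall v₀ ϱ) (hx : |x| ≤ R) (hx' : x' ∈ closedBall (0 : Fin m → ℝ) R)
    (hR : R ≤ ϱ) : v + j.insertNth (α := fun _ => ℝ) x x' ∈ closedBall v₀ (2 * ϱ) := by
  have hR0 : 0 ≤ R := (abs_nonneg x).trans hx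
  have h1 : ‖j.insertNth (α := fun _ => ℝ) x x'‖ ≤ R := by
    rw [pi_norm_le_iff_of_nonneg hR0]
    intro i
    refine Fin.succAboveCases j ?_ ?_ i
    · rw [Fin.insertNth_apply_same]; exact hx
    · intro i
      rw [Fin.insertNth_apply_succAbove]
      rw [mem_closedBall_zero_iff] at hx'
      exact (norm_le_pi_norm x' i).trans hx'
  rw [mem_closedBall, dist_eq_norm] at hv ⊢
  calc ‖v + j.insertNth (α := fun _ => ℝ) x x' - v₀‖
      = ‖(v - v₀) + j.insertNth (α := fun _ => ℝ) x x'‖ := by congr 1; abel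
    _ ≤ ‖v - v₀‖ + ‖j.insertNth (α := fun _ => ℝ) x x'‖ := norm_add_le _ _
    _ ≤ 2 * ϱ := by linarith

theorem inner {m k : ℕ} {N : ℕ} {a c B H ε ϱ t R : ℝ} {s : ℂ} (j : Fin (m + 1))
    (n : Fin k ⊕ Fin k → Fin (m + 1) → ℤ) (v v₀ : Fin (m + 1) → ℝ) (x' : Fin m → ℝ)
    (hN : 1 ≤ N) (hc : 0 < c) (hA : ∀ i, Adm (closedBall v₀ (2 * ϱ)) c N a (n i))
    (hlB : ∀ i, ∀ V ∈ closedBall v₀ (2 * ϱ), lam a (n i) V ≤ (B - 1) * N)
    (hB : 1 ≤ B) (hcB : 1 / B ≤ c) (hσ : |s.re| ≤ H) (ht : s.im = t) (ht1 : 1 ≤ t)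
    (hε : 0 < ε) (hε8 : ε ≤ 1 / 8)
    (hR : R = t ^ (-(1 / 2) + ε)) (hRϱ : R ≤ ϱ) (hρ : t ^ (-(1 / 2) : ℝ) ≤ c / 2)
    (hv : v ∈ closedBall v₀ ϱ) (hx' : x' ∈ closedBall (0 : Fin m → ℝ) R)
    (hg : t ^ (-(1 / 2) + 2 * ε) < |grad a n v j|) :
    ‖∫ x in (-R)..R, FF s a N n v (j.insertNth (α := fun _ => ℝ) x x')‖ ≤
      4 * ((B ^ H) ^ (2 * k) * Real.exp (2 * k / c ^ 2 + 1 / 2 +
        (2 * k * (m + 1) / c ^ 2 + 1) ^ 2 / 2)) * Real.exp (-t ^ ε) := by
  have ht0 : 0 < t := by linarith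
  set g : ℝ := grad a n v j with hgdef
  set ρ : ℝ := t ^ (-(1 / 2) : ℝ) with hρdef
  have hρ0 : 0 < ρ := Real.rpow_pos_of_pos ht0 _
  have hR0 : 0 < R := by rw [hR]; exact Real.rpow_pos_of_pos ht0 _
  have hρ1 : ρ ≤ 1 := Real.rpow_le_one_of_one_le_of_nonpos ht1 (by norm_num)
  have hR1 : R ≤ 1 := by
    rw [hR]; exact Real.rpow_le_one_of_one_le_of_nonpos ht1 (by linarith)
  have hϱ0 : 0 < ϱ := lt_of_lt_of_le hR0 hRϱ
  have hv2 : v ∈ closedBall v₀ (2 * ϱ) := closedBall_subset_closedBall (by linarith) hv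
  set S : ℝ := ∑ i, x' i ^ 2 with hS
  have hS0 : 0 ≤ S := Finset.sum_nonneg fun i _ => sq_nonneg _
  set y₁ : ℝ := if 0 ≤ g then -ρ else ρ with hy₁
  have hy₁a : |y₁| = ρ := by
    rw [hy₁]; split_ifs
    · rw [abs_neg, abs_of_pos hρ0]
    · rw [abs_of_pos hρ0]
  have hy₁g : y₁ * g = -(ρ * |g|) := by
    rw [hy₁]; split_ifs with h
    · rw [abs_of_nonneg h]; ring
    · rw [abs_of_neg (not_le.1 h)]; ring
  have hyg : ∀ y : ℝ, 0 ≤ y * y₁ → y * g ≤ 0 := by
    intro y hy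
    rw [hy₁] at hy
    split_ifs at hy with h
    · have : y ≤ 0 := by
        by_contra h'; push Not at h'
        nlinarith
      exact mul_nonpos_of_nonpos_of_nonneg this h
    · have : 0 ≤ y := by
        by_contra h'; push Not at h'
        nlinarith
      exact mul_nonpos_of_nonneg_of_nonpos this (not_le.1 h).le
  let G : ℂ → ℂ := fun z =>
    (∏ i, (((lam a (n i) (v + j.insertNth (α := fun _ => ℝ) 0 x') : ℂ) + (n i j : ℝ) * z) / N) ^
      (-(sgs s i))) * Complex.exp (-(t * ((z ^ 2 + S) / 2)))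
  have hGx : ∀ x y : ℝ, G (x + y * Complex.I) =
      (∏ i, (((lam a (n i) (v + j.insertNth (α := fun _ => ℝ) x x') : ℂ) +
        (n i j : ℝ) * (y * Complex.I)) / N) ^ (-(sgs s i))) *
        Complex.exp (-(t * (((x + y * Complex.I) ^ 2 + S) / 2))) := by
    intro x y
    simp only [G]
    congr 1
    apply Finset.prod_congr rfl
    intro i _
    congr 2
    rw [lam_ins a (n i) v j x x']
    push_cast; ring
  have hGF : ∀ x : ℝ, FF s a N n v (j.insertNth (α := fun _ => ℝ) x x') = G x := by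
    intro x
    have h := hGx x 0
    simp only [Complex.ofReal_zero, zero_mul, add_zero, mul_zero] at h
    rw [h, FF]
    congr 1
    · apply Finset.prod_congr rfl
      intro i _
      rw [term]; push_cast; rfl
    · rw [Fin.sum_univ_succAbove _ j, Fin.insertNth_apply_same]
      simp only [Fin.insertNth_apply_succAbove]
      rw [← Finset.sum_div, ht, ← hS]
      push_cast
      congr 1; ring
  have hnorm : ∀ x y : ℝ, |x| ≤ R → |y| ≤ ρ → ‖G (x + y * Complex.I)‖ ≤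
      (B ^ H) ^ (2 * k) * Real.exp (2 * k / c ^ 2 + 1 / 2) * 
        Real.exp (t * (y * g) + 2 * k * (m + 1) / c ^ 2 * t ^ ε - t * x ^ 2 / 2) := by
    intro x y hx hy
    have hV := ins_mem j v v₀ x R ϱ x' hv hx hx' hRϱ
    have hT2 := T2 (N := N) (a := a) (c := c) (B := B) (H := H) (y := y) (s := s) j n
      (v + j.insertNth (α := fun _ => ℝ) x x') hN hc (fun i => (hA i).1)
      (fun i => (hA i).2 _ hV) (fun i => hlB i _ hV) (hy.trans hρ) (hy.trans hρ1) hB hcB hσ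
      (by rw [ht]; exact ht0.le)
    rw [ht] at hT2
    have hL := gradLip (N := N) (a := a) (c := c) (R := R) j n v
      (v + j.insertNth (α := fun _ => ℝ) x x') hN hc (fun i => (hA i).1)
      (fun i => (hA i).2 _ hV) (fun i => (hA i).2 _ hv2) ?_
    swap
    · intro i
      have : (v + j.insertNth (α := fun _ => ℝ) x x') i - v i =
        j.insertNth (α := fun _ => ℝ) x x' i := by simp
      rw [this]
      refine Fin.succAboveCases j ?_ ?_ i
      · rw [Fin.insertNth_apply_same]; exact hx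
      · intro i
        rw [Fin.insertNth_apply_succAbove]
        rw [mem_closedBall_zero_iff] at hx'
        exact (norm_le_pi_norm x' i).trans hx'
    rw [hGx, norm_mul, Complex.norm_exp]
    have hre : (-((t : ℂ) * (((x + y * Complex.I) ^ 2 + S) / 2))).re =
        -(t * (x ^ 2 - y ^ 2 + S) / 2) := by
      have e : (-((t : ℂ) * (((x + y * Complex.I) ^ 2 + S) / 2))) =
          ((-(t * (x ^ 2 - y ^ 2 + S) / 2) : ℝ) : ℂ) + ((-(t * x * y) : ℝ) : ℂ) * Complex.I := by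
        push_cast
        have := Complex.I_sq
        linear_combination (-(t : ℂ) * y ^ 2 / 2) * this
      rw [e, Complex.add_re, Complex.ofReal_re, Complex.re_ofReal_mul, Complex.I_re, mul_zero,
        add_zero]
    rw [hre]
    have htρ : t * ρ ^ 2 = 1 := by
      rw [hρdef, ← Real.rpow_natCast, ← Real.rpow_mul ht0.le]
      have : (-(1 / 2) * ((2 : ℕ) : ℝ)) = -1 := by norm_num
      rw [this, Real.rpow_neg_one, mul_inv_cancel₀ ht0.ne']
    have hty : t * y ^ 2 ≤ 1 := by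
      have : y ^ 2 ≤ ρ ^ 2 := by
        rw [← sq_abs y]; exact pow_le_pow_left₀ (abs_nonneg _) hy 2
      nlinarith
    have htρR : t * ρ * R = t ^ ε := by
      rw [hρdef, hR, ← Real.rpow_one_add' ht0.le (by norm_num), ← Real.rpow_add ht0]
      congr 1; ring
    have h1 : t * (y * grad a n (v + j.insertNth (α := fun _ => ℝ) x x') j) ≤
        t * (y * g) + 2 * k * (m + 1) / c ^ 2 * t ^ ε := by
      have h2 : t * (y * (grad a n (v + j.insertNth (α := fun _ => ℝ) x x') j - g)) ≤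
          t * (ρ * (2 * k * ((m + 1 : ℕ) * R / c ^ 2))) := by
        apply mul_le_mul_of_nonneg_left _ ht0.le
        refine (le_abs_self _).trans ?_
        rw [abs_mul]
        exact mul_le_mul hy hL (abs_nonneg _) hρ0.le
      have h3 : t * (ρ * (2 * k * ((m + 1 : ℕ) * R / c ^ 2))) =
          2 * k * (m + 1) / c ^ 2 * t ^ ε := by
        rw [← htρR]; push_cast; ring
      rw [h3] at h2
      linarith
    calc _ ≤ ((B ^ H) ^ (2 * k) *
            Real.exp (t * (y * grad a n (v + j.insertNth (α := fun _ => ℝ) x x') j)) *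
            Real.exp (2 * k * (t * (y ^ 2 / c ^ 2)))) * Real.exp (-(t * (x ^ 2 - y ^ 2 + S) / 2)) :=
          mul_le_mul_of_nonneg_right hT2 (Real.exp_pos _).le
      _ = (B ^ H) ^ (2 * k) * Real.exp (t * (y * grad a n (v + j.insertNth (α := fun _ => ℝ) x x') j)
            + 2 * k * (t * (y ^ 2 / c ^ 2)) + -(t * (x ^ 2 - y ^ 2 + S) / 2)) := by
          rw [Real.exp_add, Real.exp_add]; ring
      _ ≤ (B ^ H) ^ (2 * k) * Real.exp ((2 * k / c ^ 2 + 1 / 2) +
            (t * (y * g) + 2 * k * (m + 1) / c ^ 2 * t ^ ε - t * x ^ 2 / 2)) := by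
          apply mul_le_mul_of_nonneg_left _ (by positivity)
          apply Real.exp_le_exp.2
          have h4 : 2 * k * (t * (y ^ 2 / c ^ 2)) ≤ 2 * k / c ^ 2 := by
            have : 2 * (k : ℝ) * (t * (y ^ 2 / c ^ 2)) = 2 * k / c ^ 2 * (t * y ^ 2) := by ring
            rw [this]
            calc 2 * (k : ℝ) / c ^ 2 * (t * y ^ 2) ≤ 2 * k / c ^ 2 * 1 :=
                  mul_le_mul_of_nonneg_left hty (by positivity)
              _ = 2 * k / c ^ 2 := mul_one _
          have h5 : 0 ≤ t * S := mul_nonneg ht0.le hS0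
          nlinarith
      _ = _ := by rw [Real.exp_add]; ring
  have htε0 : 0 < t ^ ε := Real.rpow_pos_of_pos ht0 _
  have ht2ε : t ^ (2 * ε) = (t ^ ε) ^ 2 := by
    rw [← Real.rpow_natCast, ← Real.rpow_mul ht0.le]; congr 1; push_cast; ring
  set D₁ : ℝ := 2 * k * (m + 1) / c ^ 2 with hD₁
  have hD₁0 : 0 ≤ D₁ := by positivity
  have hfin : ∀ E : ℝ, E ≤ D₁ * t ^ ε - (t ^ ε) ^ 2 / 2 →
      (B ^ H) ^ (2 * k) * Real.exp (2 * k / c ^ 2 + 1 / 2) * Real.exp E ≤
      (B ^ H) ^ (2 * k) * Real.exp (2 * k / c ^ 2 + 1 / 2 + (D₁ + 1) ^ 2 / 2) *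
        Real.exp (-t ^ ε) := by
    intro E hE
    rw [mul_assoc, mul_assoc, ← Real.exp_add, ← Real.exp_add]
    apply mul_le_mul_of_nonneg_left _ (by positivity)
    apply Real.exp_le_exp.2
    nlinarith [sq_nonneg (D₁ + 1 - t ^ ε)]
  set M : ℝ := (B ^ H) ^ (2 * k) * Real.exp (2 * k / c ^ 2 + 1 / 2 + (D₁ + 1) ^ 2 / 2) *
        Real.exp (-t ^ ε) with hM
  have hM0 : 0 ≤ M := by positivity
  have hrect := rect G R y₁ M M hR0.le ?_ ?_ ?_
  · have e : (∫ x in (-R)..R, FF s a N n v (j.insertNth (α := fun _ => ℝ) x x')) =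
        ∫ x in (-R)..R, G (x : ℂ) := by simp only [hGF]
    rw [e]
    refine hrect.trans ?_
    rw [hy₁a]
    have : 4 * ((B ^ H) ^ (2 * k) * Real.exp (2 * k / c ^ 2 + 1 / 2 + (D₁ + 1) ^ 2 / 2)) *
        Real.exp (-t ^ ε) = 4 * M := by rw [hM]; ring
    rw [this]
    have i1 := mul_le_mul_of_nonneg_right hR1 hM0
    have i2 := mul_le_mul_of_nonneg_right hρ1 hM0
    linarith
  · intro z hz
    apply DifferentiableAt.differentiableWithinAt
    obtain ⟨hz1, hz2⟩ := hz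
    have hV := ins_mem j v v₀ z.re R ϱ x' hv hz1 hx' hRϱ
    apply DifferentiableAt.mul
    · apply DifferentiableAt.fun_finsetProd
      intro i _
      apply DifferentiableAt.cpow (by fun_prop) (by fun_prop)
      apply Or.inl
      have hN' : (0 : ℝ) < N := by exact_mod_cast hN
      have h1 := (hA i).2 _ hV
      rw [lam_ins] at h1
      have h2 : (((lam a (n i) (v + j.insertNth (α := fun _ => ℝ) 0 x') : ℂ) +
          (n i j : ℝ) * z) / N).re =
          (lam a (n i) (v + j.insertNth (α := fun _ => ℝ) 0 x') + (n i j : ℝ) * z.re) / N := by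
        rw [show ((N : ℕ) : ℂ) = ((N : ℝ) : ℂ) by push_cast; rfl, Complex.div_ofReal_re]
        rw [Complex.add_re, Complex.ofReal_re, Complex.re_ofReal_mul]
      rw [h2]
      apply div_pos _ hN'
      exact lt_of_lt_of_le (by positivity) h1
    · fun_prop
  · intro x hx
    refine (hnorm x y₁ hx hy₁a.le).trans (hfin _ ?_)
    have h1 : t ^ (2 * ε) ≤ t * (ρ * |g|) := by
      have h2 : t ^ (2 * ε) = t * (ρ * t ^ (-(1 / 2) + 2 * ε)) := by
        rw [hρdef, ← Real.rpow_add ht0]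
        rw [← Real.rpow_one_add' ht0.le]
        · congr 1; ring
        · intro h; linarith
      rw [h2]
      apply mul_le_mul_of_nonneg_left _ ht0.le
      exact mul_le_mul_of_nonneg_left hg.le hρ0.le
    rw [hy₁g]
    have h3 : 0 ≤ t * x ^ 2 / 2 := by positivity
    have h4 : 0 < (t ^ ε) ^ 2 := by positivity
    rw [ht2ε] at h1
    linarith
  · intro x y hx hy hyy
    rw [hy₁a] at hy
    refine (hnorm x y hx.le hy).trans (hfin _ ?_)
    have h1 := hyg y hyy
    have h2 : t * x ^ 2 = (t ^ ε) ^ 2 := by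
      rw [← sq_abs x, hx, ← ht2ε, hR, ← Real.rpow_natCast, ← Real.rpow_mul ht0.le,
        ← Real.rpow_one_add' ht0.le]
      · congr 1; push_cast; ring
      · push_cast; intro h; linarith
    rw [h2]
    have h3 : t * (y * g) ≤ 0 := mul_nonpos_of_nonneg_of_nonpos ht0.le h1
    linarith


theorem lam_cont {d : ℕ} (a : ℝ) (n : Fin d → ℤ) : Continuous (lam a n) := by
  unfold lam; fun_prop

theorem FF_cont {d k : ℕ} {N : ℕ} {a c ϱ R : ℝ} {s : ℂ} (n : Fin k ⊕ Fin k → Fin d → ℤ)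
    (v v₀ : Fin d → ℝ) (hN : 1 ≤ N) (hc : 0 < c)
    (hA : ∀ i, Adm (closedBall v₀ (2 * ϱ)) c N a (n i)) (hRϱ : R ≤ ϱ)
    (hv : v ∈ closedBall v₀ ϱ) :
    ContinuousOn (FF s a N n v) (closedBall 0 R) := by
  unfold FF
  apply ContinuousOn.mul
  · apply continuousOn_finsetProd
    intro i _
    unfold term
    intro ω hω
    apply ContinuousWithinAt.cpow
    · apply Continuous.continuousWithinAt
      have := lam_cont a (n i)
      fun_prop
    · exact continuousWithinAt_const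
    · apply Or.inl
      rw [Complex.ofReal_re]
      have hN' : (0 : ℝ) < N := by exact_mod_cast hN
      apply div_pos _ hN'
      refine lt_of_lt_of_le (b := c * N) (by positivity) ((hA i).2 _ ?_)
      rw [mem_closedBall, dist_eq_norm] at hv ⊢
      rw [mem_closedBall_zero_iff] at hω
      calc ‖v + ω - v₀‖ = ‖(v - v₀) + ω‖ := by congr 1; abel
        _ ≤ ‖v - v₀‖ + ‖ω‖ := norm_add_le _ _
        _ ≤ 2 * ϱ := by linarith
  · apply Continuous.continuousOn
    fun_prop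

theorem fubini {m : ℕ} (f : (Fin (m + 1) → ℝ) → ℂ) (R : ℝ) (hR : 0 ≤ R) (j : Fin (m + 1))
    (hf : ContinuousOn f (closedBall 0 R)) :
    ∫ ω in closedBall (0 : Fin (m + 1) → ℝ) R, f ω =
      ∫ x' in closedBall (0 : Fin m → ℝ) R, ∫ x in (-R)..R,
        f (j.insertNth (α := fun _ => ℝ) x x') := by
  set e : ℝ × (Fin m → ℝ) ≃ᵐ (Fin (m + 1) → ℝ) :=
    (MeasurableEquiv.piFinSuccAbove (fun _ => ℝ) j).symm with he
  have hem : MeasurePreserving e :=
    (volume_preserving_piFinSuccAbove (fun _ : Fin (m + 1) => ℝ) j).symm _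
  have hap : ∀ p : ℝ × (Fin m → ℝ), e p = j.insertNth (α := fun _ => ℝ) p.1 p.2 := fun p => rfl
  have hpre : e ⁻¹' closedBall 0 R = closedBall (0 : ℝ) R ×ˢ closedBall (0 : Fin m → ℝ) R := by
    ext p
    rw [Set.mem_preimage, hap, Set.mem_prod, mem_closedBall_zero_iff, mem_closedBall_zero_iff,
      mem_closedBall_zero_iff, pi_norm_le_iff_of_nonneg hR, pi_norm_le_iff_of_nonneg hR,
      Fin.forall_iff_succAbove j]
    simp only [Fin.insertNth_apply_same, Fin.insertNth_apply_succAbove]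
  have hint : IntegrableOn f (closedBall 0 R) :=
    hf.integrableOn_compact (isCompact_closedBall _ _)
  have hint2 : IntegrableOn (fun p : ℝ × (Fin m → ℝ) => f (j.insertNth (α := fun _ => ℝ) p.1 p.2))
      (closedBall (0 : ℝ) R ×ˢ closedBall (0 : Fin m → ℝ) R) (volume.prod volume) := by
    have h := (hem.integrableOn_comp_preimage e.measurableEmbedding (f := f)
      (s := closedBall 0 R)).2 hint
    rw [hpre] at h
    exact h
  rw [← hem.map_eq, setIntegral_map_equiv, hpre, Measure.volume_eq_prod]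
  simp only [hap]
  rw [← Measure.prod_restrict]
  unfold IntegrableOn at hint2
  rw [← Measure.prod_restrict] at hint2
  rw [integral_prod_symm _ hint2]
  congr 1
  funext x'
  rw [Real.closedBall_eq_Icc, integral_Icc_eq_integral_Ioc,
    intervalIntegral.integral_of_le (by linarith)]
  simp

theorem s_d' : S_D := by
  intro d k v₀ ϱ c A H ε hϱ hc hA hε hε8
  rcases d with _ | m
  · exact ⟨1, 1, one_pos, le_rfl, by rintro N a n s v _ _ _ _ _ _ _ ⟨j, _⟩; exact j.elim0⟩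
  set B : ℝ := max (A + (m + 1) * (‖v₀‖ + 2 * ϱ) + 1) (1 / c) with hBdef
  have hBA : A + (m + 1) * (‖v₀‖ + 2 * ϱ) + 1 ≤ B := le_max_left _ _
  have hX : 0 ≤ (m + 1) * (‖v₀‖ + 2 * ϱ) := by positivity
  have hB : 1 ≤ B := by linarith
  have hcB : 1 / B ≤ c := by
    rw [div_le_comm₀ (by linarith) hc]
    exact le_max_right _ _
  set M : ℝ := (B ^ H) ^ (2 * k) * Real.exp (2 * k / c ^ 2 + 1 / 2 +
        (2 * k * (m + 1) / c ^ 2 + 1) ^ 2 / 2) with hM
  have hM0 : 0 < M := by positivity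
  set δ : ℝ := min (min ϱ (c / 2)) 1 with hδ
  have hδ0 : 0 < δ := lt_min (lt_min hϱ (by linarith)) one_pos
  have hδ1 : δ ≤ 1 := min_le_right _ _
  have hδϱ : δ ≤ ϱ := (min_le_left _ _).trans (min_le_left _ _)
  have hδc : δ ≤ c / 2 := (min_le_left _ _).trans (min_le_right _ _)
  refine ⟨2 ^ m * (4 * M), δ⁻¹ ^ 4, by positivity, ?_, ?_⟩
  · exact one_le_pow₀ ((one_le_inv₀ hδ0).2 hδ1)
  intro N a n s v hN ha haA hAdm hσ ht hv ⟨j, hj⟩
  set t : ℝ := s.im with htdef
  have ht1 : 1 ≤ t := le_trans (one_le_pow₀ ((one_le_inv₀ hδ0).2 hδ1)) ht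
  have ht0 : 0 < t := by linarith
  have hq : t ^ (-(1 / 4) : ℝ) ≤ δ := by
    rw [Real.rpow_neg ht0.le]
    apply inv_le_of_inv_le₀ hδ0
    have h1 := Real.rpow_le_rpow (by positivity) ht (show (0 : ℝ) ≤ 1 / 4 by norm_num)
    rw [← Real.rpow_natCast, ← Real.rpow_mul (by positivity)] at h1
    norm_num at h1
    norm_num
    exact h1
  have hRδ : t ^ (-(1 / 2) + ε) ≤ δ :=
    (Real.rpow_le_rpow_of_exponent_le ht1 (by linarith)).trans hq
  have hρδ : t ^ (-(1 / 2) : ℝ) ≤ δ :=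
    (Real.rpow_le_rpow_of_exponent_le ht1 (by norm_num)).trans hq
  set R : ℝ := t ^ (-(1 / 2) + ε) with hR
  have hR0 : 0 < R := Real.rpow_pos_of_pos ht0 _
  have hlB : ∀ i, ∀ V ∈ closedBall v₀ (2 * ϱ), lam a (n i) V ≤ (B - 1) * N := by
    intro i V hV
    have hN' : (1 : ℝ) ≤ N := by exact_mod_cast hN
    have hVn : ‖V‖ ≤ ‖v₀‖ + 2 * ϱ := by
      rw [mem_closedBall, dist_eq_norm] at hV
      calc ‖V‖ = ‖v₀ + (V - v₀)‖ := by congr 1; abel
        _ ≤ ‖v₀‖ + ‖V - v₀‖ := norm_add_le _ _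
        _ ≤ _ := by linarith
    have h1 : ∑ j, (n i j : ℝ) * V j ≤ ∑ _j : Fin (m + 1), (N : ℝ) * (‖v₀‖ + 2 * ϱ) := by
      apply Finset.sum_le_sum
      intro l _
      refine (le_abs_self _).trans ?_
      rw [abs_mul]
      apply mul_le_mul _ ((norm_le_pi_norm V l).trans hVn) (abs_nonneg _) (by positivity)
      exact_mod_cast (hAdm i).1 l
    rw [Finset.sum_const, Finset.card_univ, Fintype.card_fin, nsmul_eq_mul] at h1
    push_cast at h1
    have h2 : (A + (m + 1) * (‖v₀‖ + 2 * ϱ)) * N ≤ (B - 1) * N :=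
      mul_le_mul_of_nonneg_right (by linarith) (by linarith)
    unfold lam
    nlinarith
  have hFub := fubini (FF s a N n v) R hR0.le j
    (FF_cont n v v₀ hN hc hAdm (hRδ.trans hδϱ) hv)
  change ‖∫ ω in closedBall (0 : Fin (m + 1) → ℝ) R, FF s a N n v ω‖ ≤ _
  rw [hFub]
  have hvol : (volume (closedBall (0 : Fin m → ℝ) R)) = ENNReal.ofReal ((2 * R) ^ m) := by
    rw [Real.volume_pi_closedBall _ hR0.le, Fintype.card_fin]
  have hout := norm_setIntegral_le_of_norm_le_const (μ := volume)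
    (s := closedBall (0 : Fin m → ℝ) R) (C := 4 * M * Real.exp (-t ^ ε))
    (f := fun x' => ∫ x in (-R)..R, FF s a N n v (j.insertNth (α := fun _ => ℝ) x x'))
    (by rw [hvol]; exact ENNReal.ofReal_lt_top) ?_
  · refine hout.trans ?_
    rw [Measure.real, hvol, ENNReal.toReal_ofReal (by positivity)]
    have h1 : (2 * R) ^ m ≤ 2 ^ m := by
      apply pow_le_pow_left₀ (by positivity)
      linarith
    calc 4 * M * Real.exp (-t ^ ε) * (2 * R) ^ m ≤ 4 * M * Real.exp (-t ^ ε) * 2 ^ m :=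
          mul_le_mul_of_nonneg_left h1 (by positivity)
      _ = 2 ^ m * (4 * M) * Real.exp (-t ^ ε) := by ring
  · intro x' hx'
    exact inner j n v v₀ x' hN hc hAdm hlB hB hcB hσ rfl ht1 hε hε8 hR (hRδ.trans hδϱ)
      (hρδ.trans hδc) hv hx' hj

end Pool.Agent.Helper73.BL.ModD

namespace Pool.Agent.Helper73.BL

/-- module D -/
theorem s_d : S_D := ModD.s_d'

end Pool.Agent.Helper73.BL
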