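import Pool.Agent.Helper73.BL.Stm

set_option autoImplicit false

/-!
# Barnes zeta functions in large dimension: statements of the modules of the sharp count
-/

namespace Pool.Agent.Helper73.BL

open MeasureTheory Metric Matrix

/-- `b`, `τ` give a minor of largest absolute value, not zero, and all bordered minors vanish -/
def Typ2 {d k ρ : ℕ} (b : Fin ρ → Fin k ⊕ Fin k) (τ : Fin ρ → Fin d)
    (n : Fin k ⊕ Fin k → Fin d → ℤ) : Prop :=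
  Typ b τ n ∧ ∀ (b' : Fin ρ → Fin k ⊕ Fin k) (τ' : Fin ρ → Fin d),
    |(Matrix.of fun x y => n (b' x) (τ' y)).det| ≤ |(Matrix.of fun x y => n (b x) (τ y)).det|

/-- the number of the ways to border a nonsingular integral matrix `M` by `q` rows and `p` columns
which are combinations of the rows (columns) of `M` with coefficients at most `1`, so that the
resulting matrix of the same rank is integral -/
def S_K : Prop :=
  ∀ ρ q p : ℕ, (q = 0 ∨ ρ + q < p) → ∃ C : ℕ, ∀ M : Matrix (Fin ρ) (Fin ρ) ℤ, M.det ≠ 0 →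
    ∀ F : Finset ((Fin q → Fin ρ → ℤ) × (Fin p → Fin ρ → ℤ)),
      (∀ z ∈ F, (∀ j x, |((fun y => (z.1 j y : ℚ)) ᵥ* (M.map (Int.cast : ℤ → ℚ))⁻¹) x| ≤ 1) ∧
        (∀ t y, |((M.map (Int.cast : ℤ → ℚ))⁻¹ *ᵥ (fun x => (z.2 t x : ℚ))) y| ≤ 1) ∧
        ∀ j t, ∃ m : ℤ, ((fun y => (z.1 j y : ℚ)) ᵥ* (M.map (Int.cast : ℤ → ℚ))⁻¹) ⬝ᵥ
          (fun x => (z.2 t x : ℚ)) = m) →
      F.card ≤ C * M.det.natAbs ^ p

/-- module B: existence of a type -/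
def S_B3 : Prop :=
  ∀ (d k : ℕ) (n : Fin k ⊕ Fin k → Fin d → ℤ), ∃ ρ : ℕ, ρ ≤ 2 * k ∧
    ∃ (b : Fin ρ → Fin k ⊕ Fin k) (τ : Fin ρ → Fin d), Function.Injective b ∧
      Function.Injective τ ∧ Typ2 b τ n

/-- module B: the number of the tuples of a given type with a given minor -/
def S_B4 : Prop :=
  ∀ (d k ρ : ℕ) (b : Fin ρ → Fin k ⊕ Fin k) (τ : Fin ρ → Fin d), Function.Injective b →
    Function.Injective τ → (ρ = 2 * k ∨ 2 * k + ρ < d) → ∃ C : ℕ,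
    ∀ (M : Matrix (Fin ρ) (Fin ρ) ℤ) (T : Finset (Fin k ⊕ Fin k → Fin d → ℤ)),
      (∀ n ∈ T, Typ2 b τ n ∧ (Matrix.of fun x y => n (b x) (τ y)) = M) →
      T.card ≤ C * M.det.natAbs ^ (d - ρ)

/-- module A: the measure of `E` from a maximal minor -/
def S_A2 : Prop :=
  ∀ (d k ρ : ℕ) (v₀ : Fin d → ℝ) (ϱ c A : ℝ), 0 < ϱ → 0 < c → 1 ≤ A → k ≤ ρ → ρ ≤ 2 * k →
    ∃ C : ℝ, 0 < C ∧ ∀ (N : ℕ) (a : ℝ) (n : Fin k ⊕ Fin k → Fin d → ℤ)
      (b : Fin ρ → Fin k ⊕ Fin k) (τ : Fin ρ → Fin d) (δ : ℝ), 1 ≤ N → 1 / A ≤ a → a ≤ A →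
      (∀ i, Adm (closedBall v₀ ϱ) c N a (n i)) → Function.Injective b → Function.Injective τ →
      Typ2 b τ n → 0 < δ →
      ∀ Z : ℝ, Z = (N : ℝ) ^ ρ / |((Matrix.of fun x y => n (b x) (τ y)).det : ℝ)| →
      (volume (E (closedBall v₀ ϱ) a n δ)).toReal ≤ C * (δ * Z) ^ (2 * (ρ - k)) * Z

end Pool.Agent.Helper73.BL
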