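import Pool.Agent.Helper73.BL.V
import Pool.Agent.Helper73.BL.St2

set_option autoImplicit false

/-!
# Barnes zeta functions in large dimension: the sharp count of the tuples with small gradient
-/

namespace Pool.Agent.Helper73.BL

open MeasureTheory Metric Finset

/-- the sum of the volumes has the size of the diagonal if `δ ≤ N^(-d/2)` -/
def S_CL2 : Prop :=
  ∀ (k d : ℕ) (v₀ : Fin d → ℝ) (ϱ c A : ℝ), 1 ≤ k → 4 * k + 1 ≤ d → 0 < ϱ → 0 < c → 1 ≤ A →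
    ∃ C : ℝ, 0 < C ∧ ∀ (N : ℕ) (a : ℝ) (S : Finset (Fin d → ℤ)) (δ : ℝ), 1 ≤ N → 1 / A ≤ a →
      a ≤ A → (∀ n ∈ S, Adm (closedBall v₀ ϱ) c N a n) → 0 < δ →
      δ ≤ (N : ℝ) ^ (-((d : ℝ) / 2)) →
      VS k (closedBall v₀ ϱ) a S δ ≤ C * (N : ℝ) ^ (k * d)

/-- the size of a minor -/
lemma det_le_fact {ρ N : ℕ} (M : Matrix (Fin ρ) (Fin ρ) ℤ) (hM : ∀ i j, |M i j| ≤ (N : ℤ)) :
    (M.det.natAbs : ℝ) ≤ ρ.factorial * (N : ℝ) ^ ρ := by
  have h := Matrix.det_le (abv := AbsoluteValue.abs) (A := M) (x := (N : ℤ)) (by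
    intro i j
    simpa using hM i j)
  rw [Fintype.card_fin, nsmul_eq_mul] at h
  have h2 : |M.det| ≤ (ρ.factorial : ℤ) * (N : ℤ) ^ ρ := by simpa using h
  have h3 : ((|M.det| : ℤ) : ℝ) ≤ (((ρ.factorial : ℤ) * (N : ℤ) ^ ρ : ℤ) : ℝ) := by exact_mod_cast h2
  rw [Nat.cast_natAbs]
  push_cast at h3 ⊢
  exact h3

/-- the sum over the values of the minor -/
lemma sum_minors {d k ρ N : ℕ} (b : Fin ρ → Fin k ⊕ Fin k) (τ : Fin ρ → Fin d)
    (T : Finset (Fin k ⊕ Fin k → Fin d → ℤ)) (f : (Fin k ⊕ Fin k → Fin d → ℤ) → ℝ) (B : ℝ)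
    (hN : 1 ≤ N) (hB : 0 ≤ B)
    (hT : ∀ n ∈ T, ∀ i j, |n i j| ≤ (N : ℤ))
    (h : ∀ M : Matrix (Fin ρ) (Fin ρ) ℤ, (∀ i j, |M i j| ≤ (N : ℤ)) →
      ∑ x ∈ T with (Matrix.of fun y z => x (b y) (τ z)) = M, f x ≤ B) :
    ∑ x ∈ T, f x ≤ (3 * (N : ℝ)) ^ (ρ * ρ) * B := by
  classical
  let g : (Fin k ⊕ Fin k → Fin d → ℤ) → (Fin ρ → Fin ρ → ℤ) := fun x y z => x (b y) (τ z)
  set U := Fintype.piFinset (fun _ : Fin ρ => Fintype.piFinset (fun _ : Fin ρ =>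
    Finset.Icc (-(N : ℤ)) N)) with hU
  have hmem : ∀ x ∈ T, g x ∈ U := by
    intro x hx
    rw [hU, Fintype.mem_piFinset]
    intro y
    rw [Fintype.mem_piFinset]
    intro z
    rw [Finset.mem_Icc]
    exact abs_le.1 (hT x hx _ _)
  have hcard : (U.card : ℝ) ≤ (3 * (N : ℝ)) ^ (ρ * ρ) := by
    rw [hU, Fintype.card_piFinset]
    simp only [Fintype.card_piFinset, Int.card_Icc, Finset.prod_const, Finset.card_univ,
      Fintype.card_fin]
    have e1 : ((N : ℤ) + 1 - -(N : ℤ)).toNat = 2 * N + 1 := by omega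
    rw [e1]
    push_cast
    rw [← pow_mul]
    apply pow_le_pow_left₀ (by positivity)
    have : (1 : ℝ) ≤ N := by exact_mod_cast hN
    linarith
  rw [← Finset.sum_fiberwise_of_maps_to hmem]
  calc ∑ M ∈ U, ∑ x ∈ T with g x = M, f x ≤ ∑ M ∈ U, B := by
        refine Finset.sum_le_sum fun M hM => ?_
        refine h M ?_
        intro i j
        rw [hU, Fintype.mem_piFinset] at hM
        have h1 := hM i
        rw [Fintype.mem_piFinset] at h1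
        have h2 := h1 j
        rw [Finset.mem_Icc] at h2
        exact abs_le.2 h2
    _ = U.card * B := by rw [Finset.sum_const, nsmul_eq_mul]
    _ ≤ _ := by gcongr

/-- the tuples of a given type -/
lemma sum_type (hB4 : S_B4) (hA2 : S_A2) {d k ρ : ℕ} (v₀ : Fin d → ℝ) {ϱ c A : ℝ}
    (hd : 4 * k + 1 ≤ d) (hϱ : 0 < ϱ) (hc : 0 < c) (hA1 : 1 ≤ A) (hρ : ρ ≤ 2 * k)
    (b : Fin ρ → Fin k ⊕ Fin k) (τ : Fin ρ → Fin d) (hb : Function.Injective b)
    (hτ : Function.Injective τ) :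
    ∃ C : ℝ, 0 < C ∧ ∀ (N : ℕ) (a : ℝ) (S : Finset (Fin d → ℤ)) (δ : ℝ)
      (T : Finset (Fin k ⊕ Fin k → Fin d → ℤ)),
      1 ≤ N → 1 / A ≤ a → a ≤ A → (∀ n ∈ S, Adm (closedBall v₀ ϱ) c N a n) → 0 < δ →
      δ ≤ (N : ℝ) ^ (-((d : ℝ) / 2)) →
      (∀ n ∈ T, (∀ i, n i ∈ S) ∧ Typ2 b τ n) →
      ∑ x ∈ T, (volume (E (closedBall v₀ ϱ) a x δ)).toReal ≤ C * (N : ℝ) ^ (k * d) := by
  classical
  obtain ⟨C₁, h1⟩ := hB4 d k ρ b τ hb hτ (by omega)
  set W := (volume (closedBall v₀ ϱ)).toReal with hW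
  have hW0 : 0 ≤ W := ENNReal.toReal_nonneg
  set Q : ℝ := (ρ.factorial : ℝ) ^ d with hQ
  have hf1 : (1 : ℝ) ≤ ρ.factorial := by exact_mod_cast Nat.factorial_pos ρ
  have hQ1 : 1 ≤ Q := one_le_pow₀ hf1
  by_cases hkρ : k ≤ ρ
  · obtain ⟨C₂, hC₂, h2⟩ := hA2 d k ρ v₀ ϱ c A hϱ hc hA1 hkρ hρ
    refine ⟨3 ^ (ρ * ρ) * (C₁ * C₂ * Q) + 1, by positivity, ?_⟩
    intro N a S δ T hN ha1 ha2 hS hδ hδN hT
    have hN1 : (1 : ℝ) ≤ N := by exact_mod_cast hN
    have hN0 : (0 : ℝ) < N := by linarith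
    have hδ2 : δ ^ 2 * (N : ℝ) ^ d ≤ 1 := by
      have e1 : δ ^ 2 ≤ ((N : ℝ) ^ (-((d : ℝ) / 2))) ^ 2 := pow_le_pow_left₀ hδ.le hδN 2
      have e2 : ((N : ℝ) ^ (-((d : ℝ) / 2))) ^ 2 = ((N : ℝ) ^ d)⁻¹ := by
        rw [← Real.rpow_natCast, ← Real.rpow_mul hN0.le, ← Real.rpow_natCast, ← Real.rpow_neg hN0.le]
        congr 1
        push_cast
        ring
      rw [e2] at e1
      have e3 : 0 < (N : ℝ) ^ d := by positivity
      calc δ ^ 2 * (N : ℝ) ^ d ≤ ((N : ℝ) ^ d)⁻¹ * (N : ℝ) ^ d := by gcongr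
        _ = 1 := inv_mul_cancel₀ e3.ne'
    set m := ρ - k with hm
    have hρk : ρ = k + m := by omega
    obtain ⟨e, he⟩ : ∃ e, d - ρ = e + (2 * m + 1) := ⟨d - ρ - (2 * m + 1), by omega⟩
    set B : ℝ := C₁ * C₂ * Q * (δ ^ (2 * m) * (N : ℝ) ^ (ρ * (d - ρ))) with hB
    have hB0 : 0 ≤ B := by positivity
    have hmain := sum_minors b τ T (fun x => (volume (E (closedBall v₀ ϱ) a x δ)).toReal) B hN hB0
      (fun n hn i j => (hS _ ((hT n hn).1 i)).1 j) (by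
      intro M hM
      by_cases hMd : M.det = 0
      · have : T.filter (fun x => (Matrix.of fun y z => x (b y) (τ z)) = M) = ∅ := by
          rw [Finset.filter_eq_empty_iff]
          intro x hx h3
          exact (hT x hx).2.1.1 (by rw [h3]; exact hMd)
        rw [this, Finset.sum_empty]
        exact hB0
      have hV1 : (1 : ℝ) ≤ M.det.natAbs := by
        exact_mod_cast Int.natAbs_pos.2 hMd
      set V : ℝ := (M.det.natAbs : ℝ) with hV
      have hV0 : 0 < V := by linarith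
      have hVle : V ≤ ρ.factorial * (N : ℝ) ^ ρ := det_le_fact M hM
      have hVabs : |((M.det : ℤ) : ℝ)| = V := by
        rw [hV, Nat.cast_natAbs]
        push_cast
        rfl
      have hcard := h1 M (T.filter (fun x => (Matrix.of fun y z => x (b y) (τ z)) = M)) (by
        intro n hn
        rw [Finset.mem_filter] at hn
        exact ⟨(hT n hn.1).2, hn.2⟩)
      have hcard' : ((T.filter (fun x => (Matrix.of fun y z => x (b y) (τ z)) = M)).card : ℝ) ≤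
          C₁ * V ^ (d - ρ) := by
        rw [hV]
        exact_mod_cast hcard
      have hvol : ∀ x ∈ T.filter (fun x => (Matrix.of fun y z => x (b y) (τ z)) = M),
          (volume (E (closedBall v₀ ϱ) a x δ)).toReal ≤
            C₂ * (δ * ((N : ℝ) ^ ρ / V)) ^ (2 * m) * ((N : ℝ) ^ ρ / V) := by
        intro x hx
        rw [Finset.mem_filter] at hx
        refine h2 N a x b τ δ hN ha1 ha2 (fun i => hS _ ((hT x hx.1).1 i)) hb hτ (hT x hx.1).2 hδ _ ?_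
        rw [hx.2, hVabs]
      calc _ ≤ ∑ x ∈ T.filter (fun x => (Matrix.of fun y z => x (b y) (τ z)) = M),
            C₂ * (δ * ((N : ℝ) ^ ρ / V)) ^ (2 * m) * ((N : ℝ) ^ ρ / V) := Finset.sum_le_sum hvol
        _ = (T.filter (fun x => (Matrix.of fun y z => x (b y) (τ z)) = M)).card *
            (C₂ * (δ * ((N : ℝ) ^ ρ / V)) ^ (2 * m) * ((N : ℝ) ^ ρ / V)) := by
            rw [Finset.sum_const, nsmul_eq_mul]
        _ ≤ C₁ * V ^ (d - ρ) * (C₂ * (δ * ((N : ℝ) ^ ρ / V)) ^ (2 * m) * ((N : ℝ) ^ ρ / V)) := by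
            gcongr
        _ = C₁ * C₂ * (δ ^ (2 * m) * ((N : ℝ) ^ ρ) ^ (2 * m + 1)) * V ^ e := by
            rw [he, mul_pow, div_pow, pow_add V e, pow_succ V, pow_succ ((N : ℝ) ^ ρ)]
            field_simp
        _ ≤ C₁ * C₂ * (δ ^ (2 * m) * ((N : ℝ) ^ ρ) ^ (2 * m + 1)) *
            (ρ.factorial * (N : ℝ) ^ ρ) ^ e := by gcongr
        _ = C₁ * C₂ * (ρ.factorial : ℝ) ^ e * (δ ^ (2 * m) * (N : ℝ) ^ (ρ * (d - ρ))) := by
            rw [he, mul_pow, pow_mul (N : ℝ) ρ, pow_add ((N : ℝ) ^ ρ) e]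
            ring
        _ ≤ B := by
            rw [hB, hQ]
            have : (ρ.factorial : ℝ) ^ e ≤ (ρ.factorial : ℝ) ^ d :=
              pow_le_pow_right₀ hf1 (by omega)
            gcongr)
    refine hmain.trans ?_
    have e1 : (3 * (N : ℝ)) ^ (ρ * ρ) * B = 3 ^ (ρ * ρ) * (C₁ * C₂ * Q) *
        (δ ^ (2 * m) * (N : ℝ) ^ (ρ * d)) := by
      have : (N : ℝ) ^ (ρ * d) = (N : ℝ) ^ (ρ * ρ) * (N : ℝ) ^ (ρ * (d - ρ)) := by
        rw [← pow_add, ← mul_add]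
        congr 2
        omega
      rw [hB, mul_pow, this]
      ring
    have e2 : δ ^ (2 * m) * (N : ℝ) ^ (ρ * d) ≤ (N : ℝ) ^ (k * d) := by
      have : δ ^ (2 * m) * (N : ℝ) ^ (ρ * d) = (δ ^ 2 * (N : ℝ) ^ d) ^ m * (N : ℝ) ^ (k * d) := by
        rw [mul_pow, ← pow_mul, ← pow_mul, hρk, add_mul, pow_add, mul_comm d m]
        ring
      rw [this]
      exact mul_le_of_le_one_left (by positivity) (pow_le_one₀ (by positivity) hδ2)
    rw [e1]
    calc _ ≤ 3 ^ (ρ * ρ) * (C₁ * C₂ * Q) * (N : ℝ) ^ (k * d) := by gcongr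
      _ ≤ _ := by
        have : 0 ≤ (N : ℝ) ^ (k * d) := by positivity
        nlinarith
  · have hkρ' : ρ < k := lt_of_not_ge hkρ
    refine ⟨3 ^ (ρ * ρ) * (C₁ * W * Q) + 1, by positivity, ?_⟩
    intro N a S δ T hN ha1 ha2 hS hδ hδN hT
    have hN1 : (1 : ℝ) ≤ N := by exact_mod_cast hN
    have hN0 : (0 : ℝ) < N := by linarith
    set B : ℝ := C₁ * W * Q * (N : ℝ) ^ (ρ * (d - ρ)) with hB
    have hB0 : 0 ≤ B := by positivity
    have hmain := sum_minors b τ T (fun x => (volume (E (closedBall v₀ ϱ) a x δ)).toReal) B hN hB0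
      (fun n hn i j => (hS _ ((hT n hn).1 i)).1 j) (by
      intro M hM
      have hVle : (M.det.natAbs : ℝ) ≤ ρ.factorial * (N : ℝ) ^ ρ := det_le_fact M hM
      have hcard := h1 M (T.filter (fun x => (Matrix.of fun y z => x (b y) (τ z)) = M)) (by
        intro n hn
        rw [Finset.mem_filter] at hn
        exact ⟨(hT n hn.1).2, hn.2⟩)
      have hcard' : ((T.filter (fun x => (Matrix.of fun y z => x (b y) (τ z)) = M)).card : ℝ) ≤
          C₁ * (M.det.natAbs : ℝ) ^ (d - ρ) := by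
        exact_mod_cast hcard
      calc _ ≤ ∑ x ∈ T.filter (fun x => (Matrix.of fun y z => x (b y) (τ z)) = M), W :=
            Finset.sum_le_sum fun x _ => vol_le _ _ _ _ _
        _ = (T.filter (fun x => (Matrix.of fun y z => x (b y) (τ z)) = M)).card * W := by
            rw [Finset.sum_const, nsmul_eq_mul]
        _ ≤ C₁ * (M.det.natAbs : ℝ) ^ (d - ρ) * W := by gcongr
        _ ≤ C₁ * (ρ.factorial * (N : ℝ) ^ ρ) ^ (d - ρ) * W := by gcongr
        _ = C₁ * W * (ρ.factorial : ℝ) ^ (d - ρ) * (N : ℝ) ^ (ρ * (d - ρ)) := by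
            rw [mul_pow, pow_mul (N : ℝ) ρ]
            ring
        _ ≤ B := by
            rw [hB, hQ]
            have : (ρ.factorial : ℝ) ^ (d - ρ) ≤ (ρ.factorial : ℝ) ^ d :=
              pow_le_pow_right₀ hf1 (by omega)
            gcongr)
    refine hmain.trans ?_
    have e1 : (3 * (N : ℝ)) ^ (ρ * ρ) * B = 3 ^ (ρ * ρ) * (C₁ * W * Q) * (N : ℝ) ^ (ρ * d) := by
      have : (N : ℝ) ^ (ρ * d) = (N : ℝ) ^ (ρ * ρ) * (N : ℝ) ^ (ρ * (d - ρ)) := by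
        rw [← pow_add, ← mul_add]
        congr 2
        omega
      rw [hB, mul_pow, this]
      ring
    have e2 : (N : ℝ) ^ (ρ * d) ≤ (N : ℝ) ^ (k * d) :=
      pow_le_pow_right₀ hN1 (Nat.mul_le_mul_right d hkρ'.le)
    rw [e1]
    calc _ ≤ 3 ^ (ρ * ρ) * (C₁ * W * Q) * (N : ℝ) ^ (k * d) := by gcongr
      _ ≤ _ := by
        have : 0 ≤ (N : ℝ) ^ (k * d) := by positivity
        nlinarith

theorem s_cl2 (hB3 : S_B3) (hB4 : S_B4) (hA2 : S_A2) : S_CL2 := by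
  classical
  intro k d v₀ ϱ c A hk hd hϱ hc hA1
  let I := Σ ρ : Fin (2 * k + 1), (Fin ρ → Fin k ⊕ Fin k) × (Fin ρ → Fin d)
  have hI : ∀ i : I, ∃ C : ℝ, 0 < C ∧ ∀ (N : ℕ) (a : ℝ) (S : Finset (Fin d → ℤ)) (δ : ℝ)
      (T : Finset (Fin k ⊕ Fin k → Fin d → ℤ)),
      1 ≤ N → 1 / A ≤ a → a ≤ A → (∀ n ∈ S, Adm (closedBall v₀ ϱ) c N a n) → 0 < δ →
      δ ≤ (N : ℝ) ^ (-((d : ℝ) / 2)) →
      (∀ n ∈ T, (∀ j, n j ∈ S) ∧ Function.Injective i.2.1 ∧ Function.Injective i.2.2 ∧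
        Typ2 i.2.1 i.2.2 n) →
      ∑ x ∈ T, (volume (E (closedBall v₀ ϱ) a x δ)).toReal ≤ C * (N : ℝ) ^ (k * d) := by
    rintro ⟨⟨ρ, hρ⟩, b, τ⟩
    by_cases hinj : Function.Injective b ∧ Function.Injective τ
    · obtain ⟨C, hC, h⟩ := sum_type hB4 hA2 v₀ hd hϱ hc hA1 (show ρ ≤ 2 * k by omega) b τ
        hinj.1 hinj.2
      exact ⟨C, hC, fun N a S δ T hN ha1 ha2 hS hδ hδN hT =>
        h N a S δ T hN ha1 ha2 hS hδ hδN fun n hn => ⟨(hT n hn).1, (hT n hn).2.2.2⟩⟩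
    · refine ⟨1, one_pos, fun N a S δ T hN ha1 ha2 hS hδ hδN hT => ?_⟩
      have : T = ∅ := by
        rw [Finset.eq_empty_iff_forall_notMem]
        intro n hn
        exact hinj ⟨(hT n hn).2.1, (hT n hn).2.2.1⟩
      rw [this, Finset.sum_empty]
      positivity
  choose C hC0 h using hI
  refine ⟨∑ i : I, C i + 1, by
    have : 0 ≤ ∑ i : I, C i := Finset.sum_nonneg fun i _ => (hC0 _).le
    linarith, ?_⟩
  intro N a S δ hN ha1 ha2 hS hδ hδN
  have hN1 : (1 : ℝ) ≤ N := by exact_mod_cast hN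
  let P : I → (Fin k ⊕ Fin k → Fin d → ℤ) → Prop := fun i x =>
    Function.Injective i.2.1 ∧ Function.Injective i.2.2 ∧ Typ2 i.2.1 i.2.2 x
  set X := Fintype.piFinset (fun _ : Fin k ⊕ Fin k => S) with hX
  set f : (Fin k ⊕ Fin k → Fin d → ℤ) → ℝ := fun x =>
    (volume (E (closedBall v₀ ϱ) a x δ)).toReal with hf
  have hf0 : ∀ x, 0 ≤ f x := fun x => ENNReal.toReal_nonneg
  have h1 : ∀ x ∈ X, f x ≤ ∑ i : I, if P i x then f x else 0 := by
    intro x hx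
    obtain ⟨ρ, hρ, b, τ, hb, hτ, hT⟩ := hB3 d k x
    let i : I := ⟨⟨ρ, by omega⟩, (b, τ)⟩
    have h2 : P i x := ⟨hb, hτ, hT⟩
    calc f x = if P i x then f x else 0 := by rw [if_pos h2]
      _ ≤ _ := Finset.single_le_sum (f := fun i : I => if P i x then f x else 0)
        (fun j _ => by
          show 0 ≤ if P j x then f x else 0
          split_ifs
          · exact hf0 x
          · exact le_rfl) (Finset.mem_univ i)
  have h2 : ∀ i : I, ∑ x ∈ X, (if P i x then f x else 0) ≤ C i * (N : ℝ) ^ (k * d) := by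
    intro i
    rw [← Finset.sum_filter]
    refine h i N a S δ _ hN ha1 ha2 hS hδ hδN ?_
    intro x hx
    rw [Finset.mem_filter, hX, Fintype.mem_piFinset] at hx
    exact ⟨hx.1, hx.2⟩
  calc VS k (closedBall v₀ ϱ) a S δ = ∑ x ∈ X, f x := rfl
    _ ≤ ∑ x ∈ X, ∑ i : I, (if P i x then f x else 0) := Finset.sum_le_sum h1
    _ = ∑ i : I, ∑ x ∈ X, (if P i x then f x else 0) := Finset.sum_comm
    _ ≤ ∑ i : I, C i * (N : ℝ) ^ (k * d) := Finset.sum_le_sum fun i _ => h2 i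
    _ = (∑ i : I, C i) * (N : ℝ) ^ (k * d) := by rw [Finset.sum_mul]
    _ ≤ _ := by
      have : 0 ≤ (N : ℝ) ^ (k * d) := by positivity
      nlinarith

end Pool.Agent.Helper73.BL
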