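import Pool.Agent.Helper73.BL.Stm

set_option autoImplicit false

/-!
# Barnes zeta functions in large dimension: statements of the last modules
-/

namespace Pool.Agent.Helper73.BL

open MeasureTheory Metric Matrix

/-- the real matrix with the entries of `B` applied to `v` -/
noncomputable def mv {r d : ℕ} (B : Matrix (Fin r) (Fin d) ℤ) (v : Fin d → ℝ) : Fin r → ℝ :=
  fun i => ∑ j, (B i j : ℝ) * v j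

/-- `B` has rank `d` -/
def Inj {r d : ℕ} (B : Matrix (Fin r) (Fin d) ℤ) : Prop :=
  Function.Injective (B.map (Int.cast : ℤ → ℚ)).mulVec

/-- module F1: a mean value inequality -/
def S_F1 : Prop :=
  ∀ (f : ℂ → ℂ) (s₀ : ℂ), Differentiable ℂ f →
    ENNReal.ofReal ‖f s₀‖ ≤ ∫⁻ z in closedBall s₀ 2, ENNReal.ofReal ‖f z‖

/-- module F2: Borel-Cantelli -/
def S_F2 : Prop :=
  ∀ (d k : ℕ) (K : Set (Fin d → ℝ)) (g : ℕ → ℂ → (Fin d → ℝ) → ℂ) (X : ℕ → ℝ)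
    (L : ℕ → Finset ℕ) (H C₁ C₂ ε : ℝ) (j₁ : ℕ), 1 ≤ k → MeasurableSet K → (∀ l, 0 < X l) →
    0 < H → 0 < C₁ → 0 < C₂ → 0 < ε → (∀ j, ((L j).card : ℝ) ≤ C₂ * (j + 1)) →
    (∀ l, ∀ v ∈ K, Differentiable ℂ fun z => g l z v) →
    (∀ l, Measurable fun p : ℂ × (Fin d → ℝ) => g l p.1 p.2) →
    (∀ j, j₁ ≤ j → ∀ l ∈ L j, ∀ z : ℂ, -2 ≤ z.re → z.re ≤ H + 2 → (2 : ℝ) ^ j - 2 ≤ z.im →
      z.im ≤ (2 : ℝ) ^ (j + 1) + 2 →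
      ∫⁻ v in K, ENNReal.ofReal (‖g l z v‖ ^ (2 * k)) ≤ ENNReal.ofReal (C₁ * X l)) →
    ∀ᵐ v : Fin d → ℝ, v ∈ K → ∃ j₀ : ℕ, ∀ j, j₀ ≤ j → ∀ l ∈ L j, ∀ z : ℂ, 0 ≤ z.re → z.re ≤ H →
      (2 : ℝ) ^ j ≤ z.im → z.im ≤ (2 : ℝ) ^ (j + 1) →
      ‖g l z v‖ ^ (2 * k) ≤ ((2 : ℝ) ^ j) ^ (1 + ε) * X l

/-- module F3: the shells as sums over integral vectors with small coefficients -/
def S_F3 : Prop :=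
  ∀ (r d : ℕ) (B : Matrix (Fin r) (Fin d) ℤ), 1 ≤ d → Inj B → d ≤ r ∧ ∃ CB : ℕ, 1 ≤ CB ∧
    ∀ (l N : ℕ), N = CB * 2 ^ (l + 1) → ∃ (S : Finset (Fin d → ℤ)) (co : (Fin d → ℤ) → ℝ),
      (∀ n, |co n| ≤ 1) ∧ (∀ n ∈ S, ∀ j, |n j| ≤ (N : ℤ)) ∧
      (∀ n ∈ S, ∀ (a c₀ : ℝ) (v : Fin d → ℝ), 0 < a → 0 < c₀ → (∀ i, c₀ ≤ mv B v i) →
        c₀ / (2 * CB) * N ≤ lam a n v) ∧
      ∀ (a : ℝ) (v : Fin d → ℝ) (s : ℂ), 0 < a → (∀ i, 0 < mv B v i) →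
        boxSum r a (mv B v) (l + 1) s - boxSum r a (mv B v) l s =
          (N : ℂ) ^ (-s) * (N : ℂ) ^ (r - d) * ∑ n ∈ S, (co n : ℂ) * term s a N n v

/-- module F: the box sums for almost every `v` -/
def S_F : Prop :=
  ∀ (k d r : ℕ) (a : ℝ) (B : Matrix (Fin r) (Fin d) ℤ) (θ η : ℝ), 1 ≤ k → 4 * k + 1 ≤ d → 0 < a →
    Inj B → 0 < θ → θ * d < 1 → 1 / (2 * (k : ℝ)) < η →
    ∀ᵐ v : Fin d → ℝ, (∀ j, 0 < mv B v j) →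
      ∃ C : ℝ, 0 ≤ C ∧ ∀ (i : ℕ) (σ t : ℝ), (2 : ℝ) ^ i ≤ t ^ θ → 0 ≤ σ → σ ≤ r + 1 → 1 ≤ t →
        ‖boxSum r a (mv B v) i ((σ : ℂ) + t * Complex.I)‖ ≤
          C * t ^ η * ((2 : ℝ) ^ i) ^ (max 0 ((r : ℝ) - d / 2 - σ))

open Pool.Agent.H131R5.BZ Pool.Agent.Y930.Bz in
/-- module G, general form: `S_G2` with the line `r - d + κ` and the point `r - d / 2` -/
def S_G3 : Prop :=
  ∀ (r d : ℕ) (a : ℝ) (w : Fin r → ℝ) (c : ℕ → ℂ), 1 ≤ d → d ≤ r → 0 < a → (∀ j, 0 < w j) →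
    Tay a w c →
    (∀ κ : ℝ, 0 < κ → κ ≤ 1 / 4 → ∃ C : ℝ, 0 ≤ C ∧ ∀ y : ℝ, 1 ≤ y →
      ‖FF a w c (((r - d + κ : ℝ) : ℂ) + y * Complex.I)‖ ≤ C * y ^ (1 / 2 + κ)) →
    ∀ η θ : ℝ, 0 ≤ η → 0 < θ → θ ≤ 1 →
      (∃ C : ℝ, 0 ≤ C ∧ ∀ (i : ℕ) (σ t : ℝ), (2 : ℝ) ^ i ≤ t ^ θ → 0 ≤ σ → σ ≤ r + 1 → 1 ≤ t →
        ‖boxSum r a w i ((σ : ℂ) + t * Complex.I)‖ ≤
          C * t ^ η * ((2 : ℝ) ^ i) ^ (max 0 ((r : ℝ) - d / 2 - σ))) →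
      ∀ ν : ℝ, η < ν → (1 - θ * d) / 2 < ν →
      ∀ σ₁ : ℝ, ∃ C : ℝ, 0 ≤ C ∧ ∀ σ t : ℝ, (r : ℝ) - d / 2 ≤ σ → σ ≤ σ₁ → 2 ≤ t →
        ‖FF a w c ((σ : ℂ) + t * Complex.I)‖ ≤ C * t ^ ν

end Pool.Agent.Helper73.BL
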