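import Pool.Agent.Helper73.BL.M2
import Pool.Agent.Helper73.BL.H2
import Pool.Agent.Helper73.BL.St3

set_option autoImplicit false

/-!
# Barnes zeta functions in large dimension: box sums for almost every vector
-/

namespace Pool.Agent.Helper73.BL

open MeasureTheory Metric Finset

lemma pow_exp_bdd (m : ℕ) {ε : ℝ} (hε : 0 < ε) :
    ∃ C : ℝ, 0 < C ∧ ∀ t : ℝ, 1 ≤ t → t ^ m * Real.exp (-t ^ ε) ≤ C := by
  obtain ⟨M, hM⟩ := exists_nat_ge (m / ε)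
  refine ⟨M.factorial, by positivity, fun t ht => ?_⟩
  have ht0 : 0 < t := by linarith
  have h1 : t ^ m ≤ (t ^ ε) ^ M := by
    rw [← Real.rpow_natCast (t ^ ε) M, ← Real.rpow_mul ht0.le, ← Real.rpow_natCast t m]
    apply Real.rpow_le_rpow_of_exponent_le ht
    rw [div_le_iff₀ hε] at hM
    linarith
  have h2 := Real.pow_div_factorial_le_exp (t ^ ε) (by positivity) M
  rw [div_le_iff₀ (by positivity)] at h2
  have h3 : Real.exp (t ^ ε) * Real.exp (-t ^ ε) = 1 := by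
    rw [← Real.exp_add]
    simp
  calc t ^ m * Real.exp (-t ^ ε) ≤ (Real.exp (t ^ ε) * M.factorial) * Real.exp (-t ^ ε) := by
        gcongr
        exact h1.trans h2
    _ = M.factorial * (Real.exp (t ^ ε) * Real.exp (-t ^ ε)) := by ring
    _ = _ := by rw [h3, mul_one]

lemma Adm.mono {d N : ℕ} {K K' : Set (Fin d → ℝ)} {c a : ℝ} {n : Fin d → ℤ} (h : Adm K c N a n)
    (hK : K' ⊆ K) : Adm K' c N a n := ⟨h.1, fun v hv => h.2 v (hK hv)⟩

/-- the moments have square root cancellation -/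
lemma moment (hM : S_M) (hCL : S_CL2) {k d : ℕ} (v₀ : Fin d → ℝ) {ϱ c A H ε : ℝ} (hk : 1 ≤ k)
    (hd : 4 * k + 1 ≤ d) (hϱ : 0 < ϱ) (hc : 0 < c) (hA : 1 ≤ A) (hH : 0 ≤ H) (hε : 0 < ε)
    (hε8 : ε ≤ 1 / 8) :
    ∃ C t₀ : ℝ, 0 < C ∧ 1 ≤ t₀ ∧ ∀ (N : ℕ) (a : ℝ) (S : Finset (Fin d → ℤ))
      (co : (Fin d → ℤ) → ℝ) (s : ℂ), (∀ n, |co n| ≤ 1) →
      1 ≤ N → 1 / A ≤ a → a ≤ A → (∀ n ∈ S, Adm (closedBall v₀ (2 * ϱ)) c N a n) →
      |s.re| ≤ H → t₀ ≤ s.im → (N : ℝ) ^ d ≤ s.im ^ (1 - 4 * ε) →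
      ∫⁻ w in closedBall v₀ (ϱ / 2),
        ENNReal.ofReal (‖∑ n ∈ S, (co n : ℂ) * term s a N n w‖ ^ (2 * k)) ≤
        ENNReal.ofReal (C * (N : ℝ) ^ (k * d)) := by
  obtain ⟨CM, t₀, hCM, ht₀, hM'⟩ := hM d k v₀ ϱ c A H ε hϱ hc hA hH hε hε8
  obtain ⟨CL, hCL0, hCL'⟩ := hCL k d v₀ ϱ c A hk hd hϱ hc hA
  obtain ⟨CE, hCE, hE⟩ := pow_exp_bdd (k * d + d) hε
  refine ⟨CM * (CL + CE), t₀, by positivity, ht₀, ?_⟩
  intro N a S co s hco hN ha1 ha2 hS hs ht hNt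
  refine (hM' N a S co s hco hN ha1 ha2 hS hs ht).trans (ENNReal.ofReal_le_ofReal ?_)
  have hN1 : (1 : ℝ) ≤ N := by exact_mod_cast hN
  have hN0 : (0 : ℝ) < N := by linarith
  have ht1 : 1 ≤ s.im := ht₀.trans ht
  have ht0 : 0 < s.im := by linarith
  have hδ : s.im ^ (-(1 / 2) + 2 * ε) ≤ (N : ℝ) ^ (-((d : ℝ) / 2)) := by
    have h1 : s.im ^ (-(1 / 2) + 2 * ε) = (s.im ^ (1 - 4 * ε)) ^ (-(1 / 2) : ℝ) := by
      rw [← Real.rpow_mul ht0.le]
      congr 1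
      ring
    have h2 : (N : ℝ) ^ (-((d : ℝ) / 2)) = ((N : ℝ) ^ d) ^ (-(1 / 2) : ℝ) := by
      rw [← Real.rpow_natCast, ← Real.rpow_mul hN0.le]
      congr 1
      ring
    rw [h1, h2]
    exact Real.rpow_le_rpow_of_nonpos (by positivity) hNt (by norm_num)
  have hVS := hCL' N a S (s.im ^ (-(1 / 2) + 2 * ε)) hN ha1 ha2
    (fun n hn => (hS n hn).mono (closedBall_subset_closedBall (by linarith)))
    (Real.rpow_pos_of_pos ht0 _) hδ
  have hNle : (N : ℝ) ≤ s.im := by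
    calc (N : ℝ) = (N : ℝ) ^ 1 := (pow_one _).symm
      _ ≤ (N : ℝ) ^ d := pow_le_pow_right₀ hN1 (by omega)
      _ ≤ s.im ^ (1 - 4 * ε) := hNt
      _ ≤ s.im ^ (1 : ℝ) := Real.rpow_le_rpow_of_exponent_le ht1 (by linarith)
      _ = s.im := Real.rpow_one _
  have hsec : (N : ℝ) ^ (2 * k * d) * s.im ^ d * Real.exp (-s.im ^ ε) ≤
      CE * (N : ℝ) ^ (k * d) := by
    have h1 : (N : ℝ) ^ (k * d) ≤ s.im ^ (k * d) := pow_le_pow_left₀ hN0.le hNle _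
    calc (N : ℝ) ^ (2 * k * d) * s.im ^ d * Real.exp (-s.im ^ ε) =
        (N : ℝ) ^ (k * d) * (N : ℝ) ^ (k * d) * s.im ^ d * Real.exp (-s.im ^ ε) := by
          rw [← pow_add]
          congr 3
          ring
      _ ≤ (N : ℝ) ^ (k * d) * s.im ^ (k * d) * s.im ^ d * Real.exp (-s.im ^ ε) := by gcongr
      _ = (N : ℝ) ^ (k * d) * (s.im ^ (k * d + d) * Real.exp (-s.im ^ ε)) := by
          rw [pow_add]
          ring
      _ ≤ (N : ℝ) ^ (k * d) * CE := by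
          gcongr
          exact hE _ ht1
      _ = _ := by ring
  calc CM * (VS k (closedBall v₀ ϱ) a S (s.im ^ (-(1 / 2) + 2 * ε)) +
        (N : ℝ) ^ (2 * k * d) * s.im ^ d * Real.exp (-s.im ^ ε))
      ≤ CM * (CL * (N : ℝ) ^ (k * d) + CE * (N : ℝ) ^ (k * d)) := by gcongr
    _ = _ := by ring

lemma mv_cont {r d : ℕ} (B : Matrix (Fin r) (Fin d) ℤ) (i : Fin r) :
    Continuous fun v => mv B v i := by
  unfold mv
  fun_prop

lemma term_diff {d : ℕ} {a : ℝ} {N : ℕ} {n : Fin d → ℤ} {v : Fin d → ℝ} (h : 0 < lam a n v / N) :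
    Differentiable ℂ fun z => term z a N n v := by
  unfold term
  intro z
  apply DifferentiableAt.const_cpow
  · exact differentiableAt_id.neg
  · left
    exact_mod_cast h.ne'

lemma term_meas2 {d : ℕ} (a : ℝ) (N : ℕ) (n : Fin d → ℤ) :
    Measurable fun p : ℂ × (Fin d → ℝ) => term p.1 a N n p.2 := by
  unfold term
  apply Measurable.pow
  · exact Complex.measurable_ofReal.comp (((lam_cont a n).measurable.comp measurable_snd).div_const _)
  · exact measurable_fst.neg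

/-- bound for one term of the box sum -/
lemma cpow_le {a x σ H : ℝ} {s : ℂ} (ha : 0 < a) (hx : a ≤ x) (hs : s.re = σ) (h0 : 0 ≤ σ)
    (hH : σ ≤ H) : ‖((x : ℝ) : ℂ) ^ (-s)‖ ≤ max 1 (a ^ (-H)) := by
  have hx0 : 0 < x := by linarith
  rw [Complex.norm_cpow_eq_rpow_re_of_pos hx0, Complex.neg_re, hs]
  by_cases h1 : 1 ≤ x
  · exact (Real.rpow_le_one_of_one_le_of_nonpos h1 (by linarith)).trans (le_max_left _ _)
  · have h2 : x ≤ 1 := le_of_not_ge h1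
    calc x ^ (-σ) ≤ x ^ (-H) := Real.rpow_le_rpow_of_exponent_ge hx0 h2 (by linarith)
      _ ≤ a ^ (-H) := Real.rpow_le_rpow_of_nonpos ha hx (by linarith)
      _ ≤ _ := le_max_right _ _

lemma boxSum_triv {r : ℕ} {a H : ℝ} {w : Fin r → ℝ} (ha : 0 < a) (hw : ∀ j, 0 < w j) (i : ℕ)
    {s : ℂ} (h0 : 0 ≤ s.re) (hH : s.re ≤ H) :
    ‖boxSum r a w i s‖ ≤ ((2 : ℝ) ^ i) ^ r * max 1 (a ^ (-H)) := by
  unfold boxSum
  calc _ ≤ ∑ m ∈ Fintype.piFinset (fun _ : Fin r => Finset.range (2 ^ i)),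
        ‖((a + ∑ j, (m j : ℝ) * w j : ℝ) : ℂ) ^ (-s)‖ := norm_sum_le _ _
    _ ≤ ∑ m ∈ Fintype.piFinset (fun _ : Fin r => Finset.range (2 ^ i)), max 1 (a ^ (-H)) := by
        refine Finset.sum_le_sum fun m _ => cpow_le ha ?_ rfl h0 hH
        have : 0 ≤ ∑ j, (m j : ℝ) * w j :=
          Finset.sum_nonneg fun j _ => mul_nonneg (Nat.cast_nonneg _) (hw j).le
        linarith
    _ = _ := by
        rw [Finset.sum_const, Fintype.card_piFinset, nsmul_eq_mul]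
        simp

lemma boxSum_zero {r : ℕ} {a : ℝ} {w : Fin r → ℝ} (ha : 0 < a) (hw : ∀ j, 0 < w j) {H : ℝ}
    {s : ℂ} (h0 : 0 ≤ s.re) (hH : s.re ≤ H) :
    ‖boxSum r a w 0 s‖ ≤ max 1 (a ^ (-H)) := by
  have h := boxSum_triv ha hw 0 h0 hH
  simpa using h

/-- telescoping -/
lemma boxSum_tel {r : ℕ} {a : ℝ} {w : Fin r → ℝ} {s : ℂ} {D : ℝ} (i : ℕ)
    (h : ∀ l < i, ‖boxSum r a w (l + 1) s - boxSum r a w l s‖ ≤ D) :
    ‖boxSum r a w i s‖ ≤ ‖boxSum r a w 0 s‖ + i * D := by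
  induction i with
  | zero => simp
  | succ i ih =>
      have h1 := ih fun l hl => h l (by omega)
      have h2 := h i (by omega)
      calc ‖boxSum r a w (i + 1) s‖ =
          ‖boxSum r a w i s + (boxSum r a w (i + 1) s - boxSum r a w i s)‖ := by
            congr 1
            ring
        _ ≤ ‖boxSum r a w i s‖ + ‖boxSum r a w (i + 1) s - boxSum r a w i s‖ := norm_add_le _ _
        _ ≤ _ := by
            push_cast
            linarith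

end Pool.Agent.Helper73.BL
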