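import Pool.Agent.Helper73.BL.V

set_option autoImplicit false

/-!
# Barnes zeta functions in large dimension: the even moments over the weights
-/

namespace Pool.Agent.Helper73.BL

open MeasureTheory Metric Finset

/-- the `2k`-th moment over the weights of a sum with coefficients at most `1` -/
def S_M : Prop :=
  ∀ (d k : ℕ) (v₀ : Fin d → ℝ) (ϱ c A H ε : ℝ), 0 < ϱ → 0 < c → 1 ≤ A → 0 ≤ H → 0 < ε →
    ε ≤ 1 / 8 → ∃ C t₀ : ℝ, 0 < C ∧ 1 ≤ t₀ ∧ ∀ (N : ℕ) (a : ℝ) (S : Finset (Fin d → ℤ))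
      (co : (Fin d → ℤ) → ℝ) (s : ℂ), (∀ n, |co n| ≤ 1) →
      1 ≤ N → 1 / A ≤ a → a ≤ A → (∀ n ∈ S, Adm (closedBall v₀ (2 * ϱ)) c N a n) →
      |s.re| ≤ H → t₀ ≤ s.im →
      ∫⁻ w in closedBall v₀ (ϱ / 2),
        ENNReal.ofReal (‖∑ n ∈ S, (co n : ℂ) * term s a N n w‖ ^ (2 * k)) ≤
        ENNReal.ofReal (C * (VS k (closedBall v₀ ϱ) a S (s.im ^ (-(1 / 2) + 2 * ε)) +
          (N : ℝ) ^ (2 * k * d) * s.im ^ d * Real.exp (-s.im ^ ε)))

lemma lam_cont {d : ℕ} (a : ℝ) (n : Fin d → ℤ) : Continuous (lam a n) := by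
  unfold lam
  fun_prop

lemma term_meas {d : ℕ} (s : ℂ) (a : ℝ) (N : ℕ) (n : Fin d → ℤ) : Measurable (term s a N n) := by
  unfold term
  exact (Complex.measurable_ofReal.comp ((lam_cont a n).measurable.div_const _)).pow_const _

lemma abs_lam_le {d N : ℕ} {a A ϱ : ℝ} {v₀ : Fin d → ℝ} {n : Fin d → ℤ} (hN : 1 ≤ N)
    (ha0 : 0 ≤ a) (ha : a ≤ A)
    (hn : ∀ j, |n j| ≤ (N : ℤ)) {v : Fin d → ℝ} (hv : v ∈ closedBall v₀ ϱ) :
    lam a n v ≤ (A + d * (‖v₀‖ + ϱ)) * N := by
  have hN1 : (1 : ℝ) ≤ N := by exact_mod_cast hN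
  have h1 : ‖v‖ ≤ ‖v₀‖ + ϱ := by
    have h2 : ‖v - v₀‖ ≤ ϱ := by rwa [mem_closedBall, dist_eq_norm] at hv
    calc ‖v‖ = ‖v₀ + (v - v₀)‖ := by rw [add_sub_cancel]
      _ ≤ ‖v₀‖ + ‖v - v₀‖ := norm_add_le _ _
      _ ≤ _ := by linarith
  have h3 : ∀ j, (n j : ℝ) * v j ≤ N * (‖v₀‖ + ϱ) := by
    intro j
    have h4 : |(n j : ℝ)| ≤ N := by
      have := hn j
      have h5 : ((|n j| : ℤ) : ℝ) ≤ ((N : ℤ) : ℝ) := by exact_mod_cast this
      simpa using h5
    have h6 : |v j| ≤ ‖v₀‖ + ϱ := (norm_le_pi_norm v j).trans h1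
    calc (n j : ℝ) * v j ≤ |(n j : ℝ) * v j| := le_abs_self _
      _ = |(n j : ℝ)| * |v j| := abs_mul _ _
      _ ≤ _ := mul_le_mul h4 h6 (abs_nonneg _) (by positivity)
  unfold lam
  calc a + ∑ j, (n j : ℝ) * v j ≤ A + ∑ j : Fin d, N * (‖v₀‖ + ϱ) :=
        add_le_add ha (Finset.sum_le_sum fun j _ => h3 j)
    _ = A + d * (‖v₀‖ + ϱ) * N := by
        rw [Finset.sum_const, Finset.card_univ, Fintype.card_fin, nsmul_eq_mul]
        ring
    _ ≤ A * N + d * (‖v₀‖ + ϱ) * N := by nlinarith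
    _ = _ := by ring

/-- powers of numbers between two bounds -/
lemma rpow_le_of_mem {c C₀ H x σ : ℝ} (hc : 0 < c) (h1 : c ≤ x) (h2 : x ≤ C₀) (hσ : |σ| ≤ H) :
    x ^ (-σ) ≤ (max 1 C₀) ^ H * (max 1 c⁻¹) ^ H := by
  have hx : 0 < x := by linarith
  have hσ' := abs_le.1 hσ
  have hH : 0 ≤ H := (abs_nonneg _).trans hσ
  have m1 : (1 : ℝ) ≤ max 1 C₀ := le_max_left _ _
  have m2 : (1 : ℝ) ≤ max 1 c⁻¹ := le_max_left _ _
  have p1 : (1 : ℝ) ≤ (max 1 C₀) ^ H := Real.one_le_rpow m1 hH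
  have p2 : (1 : ℝ) ≤ (max 1 c⁻¹) ^ H := Real.one_le_rpow m2 hH
  by_cases hx1 : 1 ≤ x
  · calc x ^ (-σ) ≤ x ^ H := Real.rpow_le_rpow_of_exponent_le hx1 (by linarith)
      _ ≤ (max 1 C₀) ^ H := Real.rpow_le_rpow hx.le (h2.trans (le_max_right _ _)) hH
      _ ≤ _ := le_mul_of_one_le_right (by positivity) p2
  · have hx1' : x ≤ 1 := le_of_not_ge hx1
    calc x ^ (-σ) ≤ x ^ (-H) := Real.rpow_le_rpow_of_exponent_ge hx hx1' (by linarith)
      _ = (x⁻¹) ^ H := by rw [Real.rpow_neg hx.le, Real.inv_rpow hx.le]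
      _ ≤ (max 1 c⁻¹) ^ H := by
          apply Real.rpow_le_rpow (by positivity) _ hH
          exact (inv_anti₀ hc h1).trans (le_max_right _ _)
      _ ≤ _ := le_mul_of_one_le_left (by positivity) p1

lemma norm_term {d N : ℕ} {s : ℂ} {a : ℝ} {n : Fin d → ℤ} {v : Fin d → ℝ}
    (h : 0 < lam a n v / N) : ‖term s a N n v‖ = (lam a n v / N) ^ (-s.re) := by
  unfold term
  rw [Complex.norm_cpow_eq_rpow_re_of_pos h]
  simp

lemma conj_term {d N : ℕ} {s : ℂ} {a : ℝ} {n : Fin d → ℤ} {v : Fin d → ℝ}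
    (h : 0 < lam a n v / N) :
    (starRingEnd ℂ) (term s a N n v) = term ((starRingEnd ℂ) s) a N n v := by
  unfold term
  have h1 : ((lam a n v / N : ℝ) : ℂ).arg ≠ Real.pi := by
    rw [Complex.arg_ofReal_of_nonneg h.le]
    exact Real.pi_ne_zero.symm
  have h2 := Complex.cpow_conj ((lam a n v / N : ℝ) : ℂ) (-s) h1
  rw [Complex.conj_ofReal] at h2
  rw [← map_neg, h2]

/-- the expansion of the even power -/
lemma pow_expand {d N k : ℕ} {s : ℂ} {a : ℝ} {S : Finset (Fin d → ℤ)} {co : (Fin d → ℤ) → ℝ}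
    {v : Fin d → ℝ} (h : ∀ n ∈ S, 0 < lam a n v / N) :
    ((‖∑ n ∈ S, (co n : ℂ) * term s a N n v‖ ^ (2 * k) : ℝ) : ℂ) =
      ∑ x ∈ Fintype.piFinset (fun _ : Fin k ⊕ Fin k => S),
        ∏ i, ((co (x i) : ℂ) * term (sgs s i) a N (x i) v) := by
  have h1 : ((‖∑ n ∈ S, (co n : ℂ) * term s a N n v‖ ^ (2 * k) : ℝ) : ℂ) =
      (∑ n ∈ S, (co n : ℂ) * term s a N n v) ^ k *
        (∑ n ∈ S, (co n : ℂ) * term ((starRingEnd ℂ) s) a N n v) ^ k := by
    have h2 : ∑ n ∈ S, (co n : ℂ) * term ((starRingEnd ℂ) s) a N n v =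
        (starRingEnd ℂ) (∑ n ∈ S, (co n : ℂ) * term s a N n v) := by
      rw [map_sum]
      refine Finset.sum_congr rfl fun n hn => ?_
      rw [map_mul, Complex.conj_ofReal, conj_term (h n hn)]
    rw [h2, ← mul_pow, Complex.mul_conj, Complex.normSq_eq_norm_sq]
    push_cast
    rw [pow_mul]
  rw [h1]
  have h3 := Finset.prod_univ_sum (fun _ : Fin k ⊕ Fin k => S)
    (fun i n => (co n : ℂ) * term (sgs s i) a N n v)
  rw [← h3, Fintype.prod_sum_type]
  simp [sgs]

/-- the Gaussian weight -/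
noncomputable def gw {d : ℕ} (t : ℝ) (ω : Fin d → ℝ) : ℝ := Real.exp (-(t * ∑ j, ω j ^ 2 / 2))

lemma gw_cont {d : ℕ} (t : ℝ) : Continuous (gw (d := d) t) := by
  unfold gw
  fun_prop

lemma gw_pos {d : ℕ} (t : ℝ) (ω : Fin d → ℝ) : 0 < gw t ω := Real.exp_pos _

/-- lower bound for the total mass of the weight -/
lemma gw_mass {d : ℕ} {t R : ℝ} (ht : 1 ≤ t) (hR : t ^ (-(1 / 2) : ℝ) ≤ R) :
    Real.exp (-(d : ℝ)) * (t ^ d)⁻¹ ≤ ∫ ω in closedBall (0 : Fin d → ℝ) R, gw t ω := by
  have ht0 : 0 < t := by linarith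
  set q : ℝ := t ^ (-(1 / 2) : ℝ) with hq
  have hq0 : 0 < q := Real.rpow_pos_of_pos ht0 _
  have hq2 : t * q ^ 2 = 1 := by
    rw [hq, ← Real.rpow_natCast, ← Real.rpow_mul ht0.le]
    norm_num
    rw [Real.rpow_neg_one]
    exact mul_inv_cancel₀ ht0.ne'
  have hqt : t⁻¹ ≤ q := by
    rw [hq, ← Real.rpow_neg_one]
    exact Real.rpow_le_rpow_of_exponent_le ht (by norm_num)
  have hint : IntegrableOn (gw (d := d) t) (closedBall 0 R) :=
    (gw_cont t).continuousOn.integrableOn_compact (isCompact_closedBall _ _)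
  have h1 : ∫ ω in closedBall (0 : Fin d → ℝ) q, gw t ω ≤
      ∫ ω in closedBall (0 : Fin d → ℝ) R, gw t ω := by
    apply setIntegral_mono_set hint
    · exact Filter.Eventually.of_forall fun ω => (gw_pos t ω).le
    · exact (closedBall_subset_closedBall hR).eventuallyLE
  have h2 : ∫ ω in closedBall (0 : Fin d → ℝ) q, Real.exp (-(d : ℝ)) ≤
      ∫ ω in closedBall (0 : Fin d → ℝ) q, gw t ω := by
    apply setIntegral_mono_on
    · exact (continuous_const).continuousOn.integrableOn_compact (isCompact_closedBall _ _)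
    · exact (gw_cont t).continuousOn.integrableOn_compact (isCompact_closedBall _ _)
    · exact measurableSet_closedBall
    · intro ω hω
      unfold gw
      apply Real.exp_le_exp.2
      have h3 : ∀ j, ω j ^ 2 / 2 ≤ q ^ 2 := by
        intro j
        have h4 : |ω j| ≤ q := (norm_le_pi_norm ω j).trans (by simpa using hω)
        have h5 : ω j ^ 2 ≤ q ^ 2 := by
          rw [← sq_abs]
          exact pow_le_pow_left₀ (abs_nonneg _) h4 2
        have := sq_nonneg q
        linarith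
      have h6 : ∑ j, ω j ^ 2 / 2 ≤ d * q ^ 2 := by
        calc _ ≤ ∑ _j : Fin d, q ^ 2 := Finset.sum_le_sum fun j _ => h3 j
          _ = _ := by simp
      have h7 : t * ∑ j, ω j ^ 2 / 2 ≤ d := by
        calc _ ≤ t * (d * q ^ 2) := by gcongr
          _ = d * (t * q ^ 2) := by ring
          _ = d := by rw [hq2, mul_one]
      linarith
  have h3 : ∫ ω in closedBall (0 : Fin d → ℝ) q, Real.exp (-(d : ℝ)) =
      (2 * q) ^ d * Real.exp (-(d : ℝ)) := by
    rw [setIntegral_const, smul_eq_mul]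
    congr 1
    rw [Measure.real, Real.volume_pi_closedBall _ hq0.le, ENNReal.toReal_ofReal (by positivity)]
    simp
  have h4 : (t ^ d)⁻¹ ≤ (2 * q) ^ d := by
    rw [← inv_pow]
    apply pow_le_pow_left₀ (by positivity)
    linarith
  calc Real.exp (-(d : ℝ)) * (t ^ d)⁻¹ ≤ Real.exp (-(d : ℝ)) * (2 * q) ^ d := by gcongr
    _ = ∫ ω in closedBall (0 : Fin d → ℝ) q, Real.exp (-(d : ℝ)) := by rw [h3, mul_comm]
    _ ≤ _ := h2.trans h1

/-- translation -/
lemma trans_le {d : ℕ} {v₀ ω : Fin d → ℝ} {ϱ : ℝ} (hω : ‖ω‖ ≤ ϱ / 2) (F : (Fin d → ℝ) → ENNReal) :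
    ∫⁻ w in closedBall v₀ (ϱ / 2), F w ≤ ∫⁻ v in closedBall v₀ ϱ, F (v + ω) := by
  rw [← lintegral_indicator measurableSet_closedBall, ← lintegral_indicator measurableSet_closedBall]
  have h1 := lintegral_add_right_eq_self (μ := (volume : Measure (Fin d → ℝ)))
    (fun w => (closedBall v₀ ϱ).indicator (fun v => F (v + ω)) (w - ω)) ω
  simp only [add_sub_cancel_right] at h1
  rw [h1]
  apply lintegral_mono
  intro w
  by_cases hw : w ∈ closedBall v₀ (ϱ / 2)
  · have h2 : w - ω ∈ closedBall v₀ ϱ := by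
      rw [mem_closedBall, dist_eq_norm] at hw ⊢
      calc ‖w - ω - v₀‖ = ‖(w - v₀) - ω‖ := by congr 1; abel
        _ ≤ ‖w - v₀‖ + ‖ω‖ := norm_sub_le _ _
        _ ≤ _ := by linarith
    simp only [Set.indicator_of_mem hw, Set.indicator_of_mem h2, sub_add_cancel]
    exact le_rfl
  · simp only [Set.indicator_of_notMem hw]
    exact zero_le

lemma grad_meas {d k : ℕ} (a : ℝ) (n : Fin k ⊕ Fin k → Fin d → ℤ) (j : Fin d) :
    Measurable fun v => grad a n v j := by
  unfold grad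
  refine Finset.measurable_sum _ fun i _ => ?_
  exact measurable_const.div (lam_cont a (n i)).measurable

lemma E_meas {d k : ℕ} (v₀ : Fin d → ℝ) (ϱ a : ℝ) (n : Fin k ⊕ Fin k → Fin d → ℤ) (δ : ℝ) :
    MeasurableSet (E (closedBall v₀ ϱ) a n δ) := by
  have h1 : E (closedBall v₀ ϱ) a n δ = closedBall v₀ ϱ ∩ ⋂ j, {v | |grad a n v j| ≤ δ} := by
    ext v
    simp [E]
  rw [h1]
  refine measurableSet_closedBall.inter (MeasurableSet.iInter fun j => ?_)
  exact measurableSet_le (grad_meas a n j).abs measurable_const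

lemma lam_pos' {d N : ℕ} {a c : ℝ} {K : Set (Fin d → ℝ)} {n : Fin d → ℤ} (hN : 1 ≤ N) (hc : 0 < c)
    (hn : Adm K c N a n) {v : Fin d → ℝ} (hv : v ∈ K) : c ≤ lam a n v / N ∧ 0 < lam a n v / N := by
  have hN1 : (0 : ℝ) < N := by exact_mod_cast hN
  have h1 : c ≤ lam a n v / N := by
    rw [le_div_iff₀ hN1]
    exact hn.2 v hv
  exact ⟨h1, by linarith⟩

lemma term_contOn {d N : ℕ} {a c : ℝ} {K : Set (Fin d → ℝ)} {n : Fin d → ℤ} (s : ℂ) (hN : 1 ≤ N)
    (hc : 0 < c) (hn : Adm K c N a n) : ContinuousOn (term s a N n) K := by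
  unfold term
  apply ContinuousOn.cpow
  · exact (Complex.continuous_ofReal.comp ((lam_cont a n).div_const _)).continuousOn
  · exact continuousOn_const
  · intro v hv
    left
    rw [Complex.ofReal_re]
    exact (lam_pos' hN hc hn hv).2

lemma sgs_re {k : ℕ} (s : ℂ) (i : Fin k ⊕ Fin k) : (sgs s i).re = s.re := by
  rcases i with i | i <;> simp [sgs]

theorem s_m (hD : S_D) : S_M := by
  classical
  intro d k v₀ ϱ c A H ε hϱ hc hA1 hH hε hε8
  obtain ⟨CD, tD, hCD, htD, hD'⟩ := hD d k v₀ ϱ c A H ε hϱ hc hA1 hε hε8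
  set V := (volume (closedBall v₀ ϱ)).toReal with hV
  have hVfin : volume (closedBall v₀ ϱ) ≠ ⊤ := (isCompact_closedBall v₀ ϱ).measure_lt_top.ne
  have hV0 : 0 ≤ V := ENNReal.toReal_nonneg
  set C0 := A + d * (‖v₀‖ + 2 * ϱ) with hC0
  set B := (max 1 C0) ^ H * (max 1 c⁻¹) ^ H with hB
  have hB0 : 0 < B := by positivity
  obtain ⟨t1, ht1⟩ : ∃ t1 : ℝ, ∀ t : ℝ, t1 ≤ t → t ^ (-(1 / 2) + ε) ≤ ϱ / 2 := by
    have h1 : Filter.Tendsto (fun t : ℝ => t ^ (-(1 / 2 - ε))) Filter.atTop (nhds 0) :=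
      tendsto_rpow_neg_atTop (by linarith)
    have h2 := h1.eventually (ge_mem_nhds (show (0 : ℝ) < ϱ / 2 by linarith))
    obtain ⟨t1, h3⟩ := Filter.eventually_atTop.1 h2
    refine ⟨t1, fun t ht => ?_⟩
    rw [show -(1 / 2 : ℝ) + ε = -(1 / 2 - ε) by ring]
    exact h3 t ht
  refine ⟨B ^ (2 * k) + V * 3 ^ (2 * k * d) * CD * Real.exp d + 1, max tD t1, by positivity,
    htD.trans (le_max_left _ _), ?_⟩
  intro N a S co s hco hN ha1 ha2 hS hs ht
  have hN1 : (1 : ℝ) ≤ N := by exact_mod_cast hN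
  have hN0 : (0 : ℝ) < N := by linarith
  have ha0 : 0 ≤ a := le_trans (by positivity) ha1
  have htD' : tD ≤ s.im := (le_max_left _ _).trans ht
  have ht1' : t1 ≤ s.im := (le_max_right _ _).trans ht
  set t := s.im with htdef
  have ht1le : 1 ≤ t := htD.trans htD'
  have ht0 : 0 < t := by linarith
  set R := t ^ (-(1 / 2) + ε) with hR
  have hR0 : 0 < R := Real.rpow_pos_of_pos ht0 _
  have hRϱ : R ≤ ϱ / 2 := ht1 t ht1'
  have hRq : t ^ (-(1 / 2) : ℝ) ≤ R := Real.rpow_le_rpow_of_exponent_le ht1le (by linarith)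
  set δ := t ^ (-(1 / 2) + 2 * ε) with hδ
  set P : (Fin d → ℝ) → ℂ := fun w => ∑ n ∈ S, (co n : ℂ) * term s a N n w with hP
  set F : (Fin d → ℝ) → ENNReal := fun w => ENNReal.ofReal (‖P w‖ ^ (2 * k)) with hF
  set G0 := ∫ ω in closedBall (0 : Fin d → ℝ) R, gw t ω with hG0
  have hG0le : Real.exp (-(d : ℝ)) * (t ^ d)⁻¹ ≤ G0 := gw_mass ht1le hRq
  have hG0pos : 0 < G0 := lt_of_lt_of_le (by positivity) hG0le
  set X := Fintype.piFinset (fun _ : Fin k ⊕ Fin k => S) with hX
  have hK2 : ∀ v ∈ closedBall v₀ ϱ, ∀ ω ∈ closedBall (0 : Fin d → ℝ) R,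
      v + ω ∈ closedBall v₀ (2 * ϱ) := by
    intro v hv ω hω
    rw [mem_closedBall, dist_eq_norm] at hv ⊢
    have : ‖ω‖ ≤ R := by simpa using hω
    calc ‖v + ω - v₀‖ = ‖(v - v₀) + ω‖ := by congr 1; abel
      _ ≤ ‖v - v₀‖ + ‖ω‖ := norm_add_le _ _
      _ ≤ _ := by linarith
  have hgint : IntegrableOn (gw (d := d) t) (closedBall 0 R) :=
    (gw_cont t).continuousOn.integrableOn_compact (isCompact_closedBall _ _)
  -- local bound
  have hloc : ∀ v ∈ closedBall v₀ ϱ,
      ∫⁻ ω in closedBall (0 : Fin d → ℝ) R, ENNReal.ofReal (gw t ω) * F (v + ω) ≤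
      ENNReal.ofReal (∑ x ∈ X, ((E (closedBall v₀ ϱ) a x δ).indicator
        (fun _ => B ^ (2 * k) * G0) v + CD * Real.exp (-t ^ ε))) := by
    intro v hv
    have hcont : ∀ n ∈ S, ∀ z : ℂ, ContinuousOn (fun ω => term z a N n (v + ω)) (closedBall 0 R) := by
      intro n hn z
      exact (term_contOn z hN hc (hS n hn)).comp (by fun_prop) (fun ω hω => hK2 v hv ω hω)
    have hPc : ContinuousOn (fun ω => P (v + ω)) (closedBall 0 R) :=
      continuousOn_finsetSum _ fun n hn => continuousOn_const.mul (hcont n hn s)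
    have hfc : ContinuousOn (fun ω => gw t ω * ‖P (v + ω)‖ ^ (2 * k)) (closedBall 0 R) :=
      (gw_cont t).continuousOn.mul (hPc.norm.pow _)
    have hfi : IntegrableOn (fun ω => gw t ω * ‖P (v + ω)‖ ^ (2 * k))
        (closedBall (0 : Fin d → ℝ) R) volume :=
      hfc.integrableOn_compact (isCompact_closedBall (0 : Fin d → ℝ) R)
    have h1 : ∫⁻ ω in closedBall (0 : Fin d → ℝ) R, ENNReal.ofReal (gw t ω) * F (v + ω) =
        ENNReal.ofReal (∫ ω in closedBall (0 : Fin d → ℝ) R, gw t ω * ‖P (v + ω)‖ ^ (2 * k)) := by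
      rw [ofReal_integral_eq_lintegral_ofReal hfi]
      · apply lintegral_congr
        intro ω
        rw [ENNReal.ofReal_mul (gw_pos t ω).le]
      · exact Filter.Eventually.of_forall fun ω => mul_nonneg (gw_pos t ω).le (by positivity)
    rw [h1]
    apply ENNReal.ofReal_le_ofReal
    have hterm : ∀ x ∈ X, ContinuousOn (fun ω => (∏ i, term (sgs s i) a N (x i) (v + ω)) *
        (gw t ω : ℂ)) (closedBall 0 R) := by
      intro x hx
      rw [hX, Fintype.mem_piFinset] at hx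
      refine ContinuousOn.mul (continuousOn_finsetProd _ fun i _ => hcont _ (hx i) _) ?_
      exact (Complex.continuous_ofReal.comp (gw_cont t)).continuousOn
    have h2 : ((∫ ω in closedBall (0 : Fin d → ℝ) R, gw t ω * ‖P (v + ω)‖ ^ (2 * k) : ℝ) : ℂ) =
        ∑ x ∈ X, (∏ i, (co (x i) : ℂ)) * ∫ ω in closedBall (0 : Fin d → ℝ) R,
          (∏ i, term (sgs s i) a N (x i) (v + ω)) * (gw t ω : ℂ) := by
      simp only [← integral_const_mul]
      rw [← integral_complex_ofReal, ← integral_finsetSum]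
      · apply setIntegral_congr_fun measurableSet_closedBall
        intro ω hω
        have h3 := pow_expand (k := k) (s := s) (a := a) (S := S) (co := co) (v := v + ω) (N := N)
          (fun n hn => (lam_pos' hN hc (hS n hn) (hK2 v hv ω hω)).2)
        simp only
        have h3' : ∑ x ∈ X, (∏ i, (co (x i) : ℂ)) *
            ((∏ i, term (sgs s i) a N (x i) (v + ω)) * (gw t ω : ℂ)) =
            ((‖P (v + ω)‖ ^ (2 * k) : ℝ) : ℂ) * (gw t ω : ℂ) := by
          rw [hP]
          simp only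
          rw [h3, Finset.sum_mul]
          refine Finset.sum_congr rfl fun x _ => ?_
          rw [Finset.prod_mul_distrib, mul_assoc]
        rw [h3']
        push_cast
        ring
      · intro x hx
        exact ((hterm x hx).integrableOn_compact (isCompact_closedBall _ _)).const_mul _
    have h3 : ∫ ω in closedBall (0 : Fin d → ℝ) R, gw t ω * ‖P (v + ω)‖ ^ (2 * k) ≤
        ∑ x ∈ X, ‖∫ ω in closedBall (0 : Fin d → ℝ) R,
          (∏ i, term (sgs s i) a N (x i) (v + ω)) * (gw t ω : ℂ)‖ := by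
      calc _ ≤ |∫ ω in closedBall (0 : Fin d → ℝ) R, gw t ω * ‖P (v + ω)‖ ^ (2 * k)| :=
            le_abs_self _
        _ = ‖((∫ ω in closedBall (0 : Fin d → ℝ) R, gw t ω * ‖P (v + ω)‖ ^ (2 * k) : ℝ) : ℂ)‖ := by
            rw [Complex.norm_real, Real.norm_eq_abs]
        _ ≤ _ := by
            rw [h2]
            refine (norm_sum_le _ _).trans (Finset.sum_le_sum fun x _ => ?_)
            rw [norm_mul]
            refine mul_le_of_le_one_left (norm_nonneg _) ?_
            rw [norm_prod]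
            refine Finset.prod_le_one (fun i _ => norm_nonneg _) fun i _ => ?_
            rw [Complex.norm_real, Real.norm_eq_abs]
            exact hco _
    refine h3.trans (Finset.sum_le_sum fun x hx => ?_)
    have hx' := hx
    rw [hX, Fintype.mem_piFinset] at hx'
    by_cases hE : v ∈ E (closedBall v₀ ϱ) a x δ
    · rw [Set.indicator_of_mem hE]
      have h4 : ‖∫ ω in closedBall (0 : Fin d → ℝ) R,
          (∏ i, term (sgs s i) a N (x i) (v + ω)) * (gw t ω : ℂ)‖ ≤ B ^ (2 * k) * G0 := by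
        rw [hG0, ← integral_const_mul]
        apply norm_integral_le_of_norm_le
        · exact hgint.const_mul _
        · rw [ae_restrict_iff' measurableSet_closedBall]
          refine Filter.Eventually.of_forall fun ω hω => ?_
          rw [norm_mul, Complex.norm_real, Real.norm_eq_abs, abs_of_pos (gw_pos t ω)]
          refine mul_le_mul_of_nonneg_right ?_ (gw_pos t ω).le
          rw [norm_prod]
          calc ∏ i, ‖term (sgs s i) a N (x i) (v + ω)‖ ≤ ∏ _i : Fin k ⊕ Fin k, B := by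
                apply Finset.prod_le_prod
                · intro i _
                  exact norm_nonneg _
                · intro i _
                  have h5 := lam_pos' hN hc (hS _ (hx' i)) (hK2 v hv ω hω)
                  rw [norm_term h5.2]
                  apply rpow_le_of_mem hc h5.1
                  · rw [div_le_iff₀ hN0]
                    exact abs_lam_le hN ha0 ha2 (hS _ (hx' i)).1 (hK2 v hv ω hω)
                  · rw [sgs_re]
                    exact hs
            _ = B ^ (2 * k) := by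
                rw [Finset.prod_const, Finset.card_univ, Fintype.card_sum, Fintype.card_fin]
                congr 1
                ring
      have : 0 ≤ CD * Real.exp (-t ^ ε) := by positivity
      linarith
    · rw [Set.indicator_of_notMem hE, zero_add]
      refine hD' N a x s v hN ha1 ha2 (fun i => hS _ (hx' i)) hs htD' hv ?_
      simp only [E, Set.mem_ofPred_eq, not_and, not_forall, not_le] at hE
      exact hE hv
  -- measurability
  have hPm : Measurable P :=
    Finset.measurable_sum _ fun n _ => (term_meas s a N n).const_mul _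
  have hFm : Measurable F := ((hPm.norm.pow_const _)).ennreal_ofReal
  have hgm : Measurable (gw (d := d) t) := (gw_cont t).measurable
  -- the average
  have hG0l : ENNReal.ofReal G0 = ∫⁻ ω in closedBall (0 : Fin d → ℝ) R, ENNReal.ofReal (gw t ω) :=
    ofReal_integral_eq_lintegral_ofReal hgint
      (Filter.Eventually.of_forall fun ω => (gw_pos t ω).le)
  have hmain : (∫⁻ w in closedBall v₀ (ϱ / 2), F w) * ENNReal.ofReal G0 ≤
      ∫⁻ v in closedBall v₀ ϱ, ENNReal.ofReal (∑ x ∈ X, ((E (closedBall v₀ ϱ) a x δ).indicator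
        (fun _ => B ^ (2 * k) * G0) v + CD * Real.exp (-t ^ ε))) := by
    calc (∫⁻ w in closedBall v₀ (ϱ / 2), F w) * ENNReal.ofReal G0
        = ∫⁻ ω in closedBall (0 : Fin d → ℝ) R, ENNReal.ofReal (gw t ω) *
          ∫⁻ w in closedBall v₀ (ϱ / 2), F w := by
          rw [hG0l, lintegral_mul_const _ hgm.ennreal_ofReal, mul_comm]
      _ ≤ ∫⁻ ω in closedBall (0 : Fin d → ℝ) R, ENNReal.ofReal (gw t ω) *
          ∫⁻ v in closedBall v₀ ϱ, F (v + ω) := by
          apply setLIntegral_mono' measurableSet_closedBall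
          intro ω hω
          have : ‖ω‖ ≤ R := by simpa using hω
          exact mul_le_mul_right (trans_le (this.trans hRϱ) F) _
      _ = ∫⁻ ω in closedBall (0 : Fin d → ℝ) R, ∫⁻ v in closedBall v₀ ϱ,
          ENNReal.ofReal (gw t ω) * F (v + ω) := by
          apply lintegral_congr
          intro ω
          rw [lintegral_const_mul]
          exact hFm.comp (measurable_id.add_const ω)
      _ = ∫⁻ v in closedBall v₀ ϱ, ∫⁻ ω in closedBall (0 : Fin d → ℝ) R,
          ENNReal.ofReal (gw t ω) * F (v + ω) := by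
          apply lintegral_lintegral_swap
          apply Measurable.aemeasurable
          have h5 : Measurable fun p : (Fin d → ℝ) × (Fin d → ℝ) => F (p.2 + p.1) :=
            hFm.comp (measurable_snd.add measurable_fst)
          exact (hgm.ennreal_ofReal.comp measurable_fst).mul h5
      _ ≤ _ := by
          apply setLIntegral_mono' measurableSet_closedBall
          exact hloc
  -- evaluation of the right side
  have hXc : (X.card : ℝ) ≤ 3 ^ (2 * k * d) * (N : ℝ) ^ (2 * k * d) := by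
    have h1 : X.card = S.card ^ (2 * k) := by
      rw [hX, Fintype.card_piFinset]
      simp only [Finset.prod_const, Finset.card_univ, Fintype.card_sum, Fintype.card_fin]
      congr 1
      ring
    have h2 := card_S_le S (N := N) (fun n hn => (hS n hn).1)
    calc (X.card : ℝ) = ((S.card : ℕ) : ℝ) ^ (2 * k) := by rw [h1]; push_cast; rfl
      _ ≤ (((2 * N + 1) ^ d : ℕ) : ℝ) ^ (2 * k) := by
          apply pow_le_pow_left₀ (by positivity)
          exact_mod_cast h2
      _ = (2 * (N : ℝ) + 1) ^ (2 * k * d) := by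
          push_cast
          rw [← pow_mul]
          congr 1
          ring
      _ ≤ (3 * (N : ℝ)) ^ (2 * k * d) := by
          apply pow_le_pow_left₀ (by positivity)
          linarith
      _ = _ := by rw [mul_pow]
  have hright : ∫⁻ v in closedBall v₀ ϱ, ENNReal.ofReal (∑ x ∈ X,
      ((E (closedBall v₀ ϱ) a x δ).indicator (fun _ => B ^ (2 * k) * G0) v +
        CD * Real.exp (-t ^ ε))) ≤
      ENNReal.ofReal (B ^ (2 * k) * G0 * VS k (closedBall v₀ ϱ) a S δ +
        V * (3 ^ (2 * k * d) * (N : ℝ) ^ (2 * k * d)) * (CD * Real.exp (-t ^ ε))) := by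
    have hc1 : 0 ≤ B ^ (2 * k) * G0 := by positivity
    have hc2 : 0 ≤ CD * Real.exp (-t ^ ε) := by positivity
    have h1 : ∀ v, ENNReal.ofReal (∑ x ∈ X,
        ((E (closedBall v₀ ϱ) a x δ).indicator (fun _ => B ^ (2 * k) * G0) v +
        CD * Real.exp (-t ^ ε))) = ∑ x ∈ X, ((E (closedBall v₀ ϱ) a x δ).indicator
          (fun _ => ENNReal.ofReal (B ^ (2 * k) * G0)) v + ENNReal.ofReal (CD * Real.exp (-t ^ ε))) := by
      intro v
      rw [ENNReal.ofReal_sum_of_nonneg]
      · refine Finset.sum_congr rfl fun x _ => ?_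
        rw [ENNReal.ofReal_add (Set.indicator_nonneg (fun _ _ => hc1) _) hc2]
        congr 1
        by_cases hE : v ∈ E (closedBall v₀ ϱ) a x δ
        · simp [Set.indicator_of_mem hE]
        · simp [Set.indicator_of_notMem hE]
      · intro x _
        exact add_nonneg (Set.indicator_nonneg (fun _ _ => hc1) _) hc2
    simp only [h1]
    rw [lintegral_finsetSum]
    swap
    · intro x _
      exact (measurable_const.indicator (E_meas _ _ _ _ _)).add measurable_const
    have h2 : ∀ x ∈ X, ∫⁻ v in closedBall v₀ ϱ, ((E (closedBall v₀ ϱ) a x δ).indicator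
          (fun _ => ENNReal.ofReal (B ^ (2 * k) * G0)) v + ENNReal.ofReal (CD * Real.exp (-t ^ ε))) ≤
        ENNReal.ofReal (B ^ (2 * k) * G0 * (volume (E (closedBall v₀ ϱ) a x δ)).toReal +
          V * (CD * Real.exp (-t ^ ε))) := by
      intro x _
      rw [lintegral_add_right _ measurable_const, setLIntegral_const,
        lintegral_indicator (E_meas _ _ _ _ _), lintegral_const, Measure.restrict_restrict
          (E_meas _ _ _ _ _), Measure.restrict_apply_univ]
      have h3 : volume (E (closedBall v₀ ϱ) a x δ ∩ closedBall v₀ ϱ) ≤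
          volume (E (closedBall v₀ ϱ) a x δ) := measure_mono Set.inter_subset_left
      have h4 : volume (E (closedBall v₀ ϱ) a x δ) ≠ ⊤ :=
        ne_top_of_le_ne_top hVfin (measure_mono fun v hv => hv.1)
      rw [ENNReal.ofReal_add (by positivity) (by positivity), ENNReal.ofReal_mul hc1,
        ENNReal.ofReal_toReal h4, mul_comm V, ENNReal.ofReal_mul hc2, hV,
        ENNReal.ofReal_toReal hVfin]
      gcongr
    refine (Finset.sum_le_sum h2).trans ?_
    rw [← ENNReal.ofReal_sum_of_nonneg (fun x _ => by positivity)]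
    apply ENNReal.ofReal_le_ofReal
    rw [Finset.sum_add_distrib, ← Finset.mul_sum, Finset.sum_const, nsmul_eq_mul]
    have h5 : (X.card : ℝ) * (V * (CD * Real.exp (-t ^ ε))) ≤
        (3 ^ (2 * k * d) * (N : ℝ) ^ (2 * k * d)) * (V * (CD * Real.exp (-t ^ ε))) := by gcongr
    calc _ ≤ B ^ (2 * k) * G0 * VS k (closedBall v₀ ϱ) a S δ +
        (3 ^ (2 * k * d) * (N : ℝ) ^ (2 * k * d)) * (V * (CD * Real.exp (-t ^ ε))) :=
          add_le_add le_rfl h5
      _ = _ := by ring
  -- division by G0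
  have hVS : 0 ≤ VS k (closedBall v₀ ϱ) a S δ := Finset.sum_nonneg fun x _ => ENNReal.toReal_nonneg
  have hfin := hmain.trans hright
  have hG0ne : ENNReal.ofReal G0 ≠ 0 := by simpa using hG0pos
  rw [← ENNReal.le_div_iff_mul_le (Or.inl hG0ne) (Or.inl ENNReal.ofReal_ne_top),
    ← ENNReal.ofReal_div_of_pos hG0pos] at hfin
  refine hfin.trans (ENNReal.ofReal_le_ofReal ?_)
  rw [add_div]
  have e1 : B ^ (2 * k) * G0 * VS k (closedBall v₀ ϱ) a S δ / G0 =
      B ^ (2 * k) * VS k (closedBall v₀ ϱ) a S δ := by field_simp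
  have e2 : V * (3 ^ (2 * k * d) * (N : ℝ) ^ (2 * k * d)) * (CD * Real.exp (-t ^ ε)) / G0 ≤
      V * 3 ^ (2 * k * d) * CD * Real.exp d * ((N : ℝ) ^ (2 * k * d) * t ^ d * Real.exp (-t ^ ε)) := by
    rw [div_le_iff₀ hG0pos]
    have e3 : V * 3 ^ (2 * k * d) * CD * Real.exp d *
        ((N : ℝ) ^ (2 * k * d) * t ^ d * Real.exp (-t ^ ε)) * (Real.exp (-(d : ℝ)) * (t ^ d)⁻¹) ≤
        V * 3 ^ (2 * k * d) * CD * Real.exp d *
        ((N : ℝ) ^ (2 * k * d) * t ^ d * Real.exp (-t ^ ε)) * G0 := by gcongr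
    refine le_trans (le_of_eq ?_) e3
    have e4 : Real.exp (d : ℝ) * Real.exp (-(d : ℝ)) = 1 := by rw [← Real.exp_add]; simp
    have e5 : t ^ d * (t ^ d)⁻¹ = 1 := mul_inv_cancel₀ (by positivity)
    calc _ = V * (3 ^ (2 * k * d) * (N : ℝ) ^ (2 * k * d)) * (CD * Real.exp (-t ^ ε)) *
        (Real.exp (d : ℝ) * Real.exp (-(d : ℝ))) * (t ^ d * (t ^ d)⁻¹) := by rw [e4, e5]; ring
      _ = _ := by ring
  rw [e1]
  have e6 : 0 ≤ (N : ℝ) ^ (2 * k * d) * t ^ d * Real.exp (-t ^ ε) := by positivity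
  have e7 : 0 ≤ V * 3 ^ (2 * k * d) * CD * Real.exp d := by positivity
  have e8 : 0 ≤ B ^ (2 * k) := by positivity
  nlinarith [mul_nonneg e7 hVS, mul_nonneg e8 e6]

end Pool.Agent.Helper73.BL
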