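import Pool.Agent.Helper73.BL.St3

set_option autoImplicit false

/-!
# Barnes zeta functions in large dimension: statement of the final module
-/

namespace Pool.Agent.Helper73.BL

open MeasureTheory Metric Matrix

open Pool.Agent.H131R5.BZ Pool.Agent.Y930.Bz in
/-- final module: the bound for all weights spanning the same space as `v`, for almost every `v` -/
def S_FIN : Prop :=
  ∀ (k d : ℕ) (a : ℝ), 1 ≤ k → 4 * k + 1 ≤ d → 0 < a →
    ∀ᵐ v : Fin d → ℝ, LinearIndependent ℚ v ∧ ∀ (r : ℕ) (w : Fin r → ℝ), (∀ j, 0 < w j) →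
      Submodule.span ℚ (Set.range w) = Submodule.span ℚ (Set.range v) →
      ∀ c : ℕ → ℂ, Tay a w c → ∀ ε : ℝ, 0 < ε → ∀ σ₁ : ℝ, ∃ C : ℝ, 0 ≤ C ∧ ∀ σ t : ℝ,
        (r : ℝ) - d / 2 ≤ σ → σ ≤ σ₁ → 2 ≤ t →
        ‖FF a w c ((σ : ℂ) + t * Complex.I)‖ ≤ C * t ^ (1 / (2 * (k : ℝ)) + ε)

end Pool.Agent.Helper73.BL
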