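import Pool.Agent.Helper73.BL.Stm

set_option autoImplicit false

/-!
# Barnes zeta functions in large dimension: the sum of the volumes
-/

namespace Pool.Agent.Helper73.BL

open MeasureTheory Metric Finset

/-- the sum of the volumes of the sets `E` over all tuples -/
noncomputable def VS {d : ℕ} (k : ℕ) (K : Set (Fin d → ℝ)) (a : ℝ) (S : Finset (Fin d → ℤ))
    (δ : ℝ) : ℝ :=
  ∑ x ∈ Fintype.piFinset (fun _ : Fin k ⊕ Fin k => S), (volume (E K a x δ)).toReal

lemma vol_le {d k : ℕ} (v₀ : Fin d → ℝ) (ϱ a : ℝ) (x : Fin k ⊕ Fin k → Fin d → ℤ) (δ : ℝ) :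
    (volume (E (closedBall v₀ ϱ) a x δ)).toReal ≤ (volume (closedBall v₀ ϱ)).toReal := by
  apply ENNReal.toReal_mono
  · exact (isCompact_closedBall v₀ ϱ).measure_lt_top.ne
  · exact measure_mono fun v hv => hv.1

lemma card_S_le {d N : ℕ} (S : Finset (Fin d → ℤ)) (hS : ∀ n ∈ S, ∀ j, |n j| ≤ (N : ℤ)) :
    S.card ≤ (2 * N + 1) ^ d := by
  have h1 : S ⊆ Fintype.piFinset (fun _ : Fin d => Finset.Icc (-(N : ℤ)) N) := by
    intro n hn
    rw [Fintype.mem_piFinset]
    intro j
    rw [Finset.mem_Icc]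
    exact abs_le.1 (hS n hn j)
  refine (Finset.card_le_card h1).trans ?_
  rw [Fintype.card_piFinset]
  simp only [Int.card_Icc, Finset.prod_const, Finset.card_univ, Fintype.card_fin]
  apply le_of_eq
  congr 1
  omega

end Pool.Agent.Helper73.BL
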